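import Pool.Agent.Work.MP_9d1ffa_al.Ar.Top
import Pool.Agent.Work.MP_9d1ffa_al.Gd.Top
import Pool.Agent.Work.MP_9d1ffa_al.Cu.FinK

/-! The Whitehead group of `G × ℤ ^ j` vanishes for every torsion free group `G` with a subgroup
of finite index that embeds in a two-dimensional Artin group. -/

namespace Pool.Agent.Work.MP_9d1ffa_al.Ar

open CoxeterSystem

theorem wh_artin (S : Type) [Finite S] (M : CoxeterMatrix S)
    (dim : ∀ s t u, s ≠ t → t ≠ u → u ≠ s → M s t ≠ 0 → M t u ≠ 0 → M u s ≠ 0 →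
      (1 / M s t + 1 / M t u + 1 / M u s : ℚ) ≤ 1)
    (G : Type) [Group G] (H : Subgroup G) (hH : H.FiniteIndex)
    (tf : ∀ g : G, IsOfFinOrder g → g ∈ H)
    (φ : H →* PresentedGroup {r : FreeGroup S | ∃ s t,
      r = ((braidWord M s t).map FreeGroup.of).prod * ((braidWord M t s).map FreeGroup.of).prod⁻¹})
    (hφ : Function.Injective φ) (j k : ℕ)
    (A : GL (Fin k) (MonoidAlgebra ℤ (G × Multiplicative (Fin j → ℤ)))) :
    ∃ m : ℕ, Matrix.fromBlocks A.1 0 0 1 ∈ Submonoid.closure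
      {B : Matrix (Fin k ⊕ Fin m) (Fin k ⊕ Fin m)
          (MonoidAlgebra ℤ (G × Multiplicative (Fin j → ℤ))) |
        (∃ a b r, a ≠ b ∧ B = 1 + Matrix.single a b r) ∨
        ∃ (g : Fin k ⊕ Fin m → G × Multiplicative (Fin j → ℤ)) (ε : Fin k ⊕ Fin m → ℤˣ),
          B = Matrix.diagonal fun a => MonoidAlgebra.single (g a) (ε a : ℤ)} := by
  obtain ⟨hc, ta⟩ := art_main (M := M) dim
  have t : ∀ g : G, IsOfFinOrder g → g = 1 := fun g hg => congrArg Subtype.val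
    (hφ ((ta _ (φ.isOfFinOrder (x := ⟨g, tf g hg⟩)
      ((H.subtype_injective.isOfFinOrder_iff (f := H.subtype)).1 hg))).trans (map_one φ).symm))
  obtain ⟨m, h⟩ := WL.whGen_of (Gd.pv_hc Cu.wg_whK hc G t H hH φ hφ) j k A.1 A.isUnit
  refine ⟨m, Submonoid.closure_mono ?_ h⟩
  rintro B (h | h | ⟨H, h, -⟩)
  exacts [Or.inl h, Or.inr h, h.elim]

end Pool.Agent.Work.MP_9d1ffa_al.Ar
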