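import Pool.Agent.Work.MP_9d1ffa_al.Ar.Lc6
import Pool.Agent.Work.MP_9d1ffa_al.Ar.Lk
import Pool.Agent.Work.MP_9d1ffa_al.Ar.Mt
import Pool.Agent.Work.MP_9d1ffa_al.Ar.ChD

/-! The coset complex as a complete, locally CAT(0) length space with an isometric action. -/

namespace Pool.Agent.Work.MP_9d1ffa_al.Ar

open Px

theorem Cx0.len' {V X : Type} [MetricSpace X] {F : Set (Finset V)} {q : V → V → ℝ} {n : ℕ}
    {co : X → V → ℝ} (h : Cx0 F q n co) : Len X := fun x y _ _ hη hε => by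
  obtain ⟨N, p, h1, h2, h3, h4⟩ := h.path x y hη hε
  exact ⟨N, p, ⟨h1, h2, h3⟩, h4⟩

theorem Cx0.loc {V X : Type} [MetricSpace X] {F : Set (Finset V)} {q : V → V → ℝ}
    {co : X → V → ℝ} (h : Cx0 F q 2 co) (qs : ∀ u v, q u v = q v u) (qd : ∀ u, q u u = 0)
    (hl : LinkOK F q) : ∃ r > 0, Loc X r := by
  obtain ⟨r, hr, H⟩ := Lc_loc h qs qd hl
  exact ⟨r, hr, fun x y e => H x x y (by simpa using hr.le) (by rwa [dist_comm])⟩

variable {S : Type} {M : CoxeterMatrix S}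

theorem fc_link (hD : Dim2 M) : LinkOK (Fc M) (qq M) :=
  LinkOK.of_seq fun v k u hk per adj nb => link_seq hD v k u hk per adj nb

/-- the coset complex -/
theorem deligne [Finite S] (hD : Dim2 M) :
    ∃ (_ : MetricSpace (Pt (Fc M))) (_ : MulAction (Art M) (Pt (Fc M))),
      Cx0 (Fc M) (qq M) 2 (fun x : Pt (Fc M) => x.1) ∧
      (∀ (g : Art M) (x : Pt (Fc M)) v, (g • x).1 (g • v) = x.1 v) ∧
      (∀ (g : Art M) (x y : Pt (Fc M)), dist (g • x) (g • y) = dist x y) ∧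
      CompleteSpace (Pt (Fc M)) ∧ Len (Pt (Fc M)) ∧ ∃ r > 0, Loc (Pt (Fc M)) r := by
  obtain ⟨i, j, h1, h2, h3⟩ := exists_cx0_act (G := Art M) (fc_dim (M := M)) fc_shp fc_pos
    (fun u v _ _ => fc_conn u v) (fun g _ h => fc_smul g h) qq_smul
  exact ⟨i, j, h1, h2, h3, h1.complete, h1.len', h1.loc qq_symm qq_self (fc_link hD)⟩

end Pool.Agent.Work.MP_9d1ffa_al.Ar
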