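import Pool.Agent.Work.MP_9d1ffa_al.Ar.Gl
import Pool.Agent.Work.MP_9d1ffa_al.Ar.HtB

/-! Two-dimensional Artin groups are torsion-free and lie in the hierarchy. -/

namespace Pool.Agent.Work.MP_9d1ffa_al.Ar

variable {S : Type} {M : CoxeterMatrix S}

theorem art_hc [Finite S] (hD : Dim2 M) : Hc (Art M) := by
  obtain ⟨X, _, _, co, _, _, cx, iso, eqv⟩ := deligne_cx hD
  exact hc_art (alg M) cx iso eqv

theorem art_tf [Finite S] (hD : Dim2 M) (g : Art M) (o : IsOfFinOrder g) : g = 1 := by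
  obtain ⟨X, _, _, co, _, _, cx, iso, eqv⟩ := deligne_cx hD
  exact tf_art (alg M) cx iso eqv g o

end Pool.Agent.Work.MP_9d1ffa_al.Ar
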