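import Pool.Agent.Work.MP_9d1ffa_al.Px.Df
import Mathlib

-- merged part: Pool.Agent.Work.MP_9d1ffa_al.Px.Cn
section
/-! The constants of a complex with finitely many shapes. -/

namespace Pool.Agent.Work.MP_9d1ffa_al.Px

open Set

variable {V X : Type} [MetricSpace X] {F : Set (Finset V)} {q : V → V → ℝ} {n : ℕ}
  {co : X → V → ℝ}

/-- coordinates that control the metric -/
structure Nice (co : X → V → ℝ) (n L B : ℕ) : Prop where
  pt : ∀ x, ∃ s : Finset V, s.card ≤ n + 1 ∧ In s (co x)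
  Lpos : 0 < L
  Bge : n + 2 ≤ B
  lip : ∀ x y v, |co x v - co y v| ≤ L * dist x y
  near : ∀ x y (a : ℝ), (∀ v, |co x v - co y v| ≤ a) → a * B ≤ 1 → dist x y ≤ B * a

theorem Cx.exF (h : Cx F q n co) (x : X) : ∃ s ∈ F, In s (co x) := by
  have : co x ∈ range co := mem_range_self x
  rwa [h.pts] at this

theorem Cx.exX (h : Cx F q n co) {s : Finset V} (hs : s ∈ F) {z : V → ℝ} (hz : In s z) :
    ∃ x, co x = z := by
  have : z ∈ range co := by
    rw [h.pts]
    exact ⟨s, hs, hz⟩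
  exact this

theorem Cx.le_ed (h : Cx F q n co) {s : Finset V} (hs : s ∈ F) {x y : X} (hx : In s (co x))
    (hy : In s (co y)) : dist x y ≤ ed q s (co x) (co y) := by
  refine (h.len x y).1 ⟨1, fun i => if i = 0 then co x else co y, fun _ => s, rfl, rfl, ?_, ?_⟩
  · intro i hi
    obtain rfl : i = 0 := by omega
    exact ⟨hs, hx, hy⟩
  · simp

theorem Cx.hi (h : Cx F q n co) : ∃ C : ℝ, 1 ≤ C ∧ ∀ s ∈ F, ∀ (w : V → ℝ) (a : ℝ),
    (∀ v, |w v| ≤ a) → Qf q s w ≤ C ^ 2 * a ^ 2 := by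
  obtain ⟨M, hM⟩ := (h.shp.image fun r => |r|).bddAbove
  have n0 : (0 : ℝ) ≤ n := Nat.cast_nonneg n
  refine ⟨(n + 1) * (|M| + 1), by nlinarith [abs_nonneg M], fun s hs w a ha => ?_⟩
  have b : ∀ u ∈ s, ∀ v ∈ s, -(q u v * w u * w v) ≤ |M| * a ^ 2 := fun u hu v hv => by
    have h1 : |q u v| ≤ |M| := (hM ⟨_, ⟨s, hs, u, hu, v, hv, rfl⟩, rfl⟩).trans (le_abs_self M)
    have h2 : |w u| * |w v| ≤ a * a :=
      mul_le_mul (ha u) (ha v) (abs_nonneg _) ((abs_nonneg _).trans (ha u))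
    have h3 : |q u v| * (|w u| * |w v|) ≤ |M| * (a * a) :=
      mul_le_mul h1 h2 (by positivity) (abs_nonneg _)
    have h4 := neg_le_abs (q u v * w u * w v)
    rw [abs_mul, abs_mul] at h4
    nlinarith
  have c0 : (s.card : ℝ) ≤ n + 1 := by exact_mod_cast h.dim s hs
  have c1 : (0 : ℝ) ≤ s.card := Nat.cast_nonneg _
  have e : ∑ u ∈ s, ∑ v ∈ s, -(q u v * w u * w v) ≤ s.card • (s.card • (|M| * a ^ 2)) :=
    Finset.sum_le_card_nsmul _ _ _ fun u hu => Finset.sum_le_card_nsmul _ _ _ (b u hu)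
  simp only [Finset.sum_neg_distrib, nsmul_eq_mul] at e
  have p : 0 ≤ |M| * a ^ 2 := by positivity
  have c2 : (s.card : ℝ) * s.card ≤ (n + 1) ^ 2 := by nlinarith
  have c3 := mul_le_mul_of_nonneg_right c2 p
  have c4 : |M| * a ^ 2 ≤ (|M| + 1) ^ 2 * a ^ 2 :=
    mul_le_mul_of_nonneg_right (by nlinarith [abs_nonneg M]) (sq_nonneg a)
  have c5 := mul_le_mul_of_nonneg_left c4 (sq_nonneg ((n : ℝ) + 1))
  have c6 : 0 ≤ ((n : ℝ) + 1) ^ 2 * (|M| * a ^ 2) := by positivity
  unfold Qf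
  rw [mul_pow]
  nlinarith

theorem Cn_smul (q : V → V → ℝ) (s : Finset V) (a : ℝ) (w : V → ℝ) :
    Qf q s (a • w) = a ^ 2 * Qf q s w := by
  unfold Qf
  simp only [Pi.smul_apply, smul_eq_mul, Finset.mul_sum]
  refine Finset.sum_congr rfl fun u _ => Finset.sum_congr rfl fun v _ => ?_
  ring

theorem Cx.pos (h : Cx F q n co) {s : Finset V} (hs : s ∈ F) {w : V → ℝ}
    (h0 : ∀ v ∉ s, w v = 0) (h1 : ∑ v ∈ s, w v = 0) (hw : w ≠ 0) : 0 < Qf q s w := by
  classical
  obtain ⟨v0, hv0⟩ := Function.ne_iff.1 hw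
  have hv : v0 ∈ s := by
    by_contra e
    exact hv0 (h0 v0 e)
  have c0 : (0 : ℝ) < s.card := by exact_mod_cast Finset.card_pos.2 ⟨v0, hv⟩
  set A := ∑ v ∈ s, |w v| with hA
  have A0 : 0 ≤ A := Finset.sum_nonneg fun v _ => abs_nonneg _
  set ε := 1 / (s.card * (A + 1)) with hε
  have ε0 : 0 < ε := by positivity
  set b : V → ℝ := fun v => if v ∈ s then 1 / s.card else 0 with hb
  have sb : ∑ v ∈ s, b v = 1 := by
    rw [Finset.sum_congr rfl (g := fun _ => 1 / (s.card : ℝ)) fun v hv => if_pos hv,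
      Finset.sum_const, nsmul_eq_mul]
    field_simp
  have i1 : In s b := ⟨fun v => by rw [hb]; dsimp only; split_ifs <;> positivity,
    fun v hv => if_neg hv, sb⟩
  have i2 : In s (b + ε • w) := by
    refine ⟨fun v => ?_, fun v hv => ?_, ?_⟩
    · by_cases e : v ∈ s
      · have q1 : |w v| ≤ A := Finset.single_le_sum (f := fun v => |w v|)
          (fun v _ => abs_nonneg _) e
        have q2 : ε * (A + 1) = 1 / s.card := by rw [hε]; field_simp
        have q3 := neg_le_abs (w v)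
        simp only [Pi.add_apply, Pi.smul_apply, smul_eq_mul, hb, if_pos e]
        nlinarith
      · simp [hb, e, h0 v e]
    · simp [hb, hv, h0 v hv]
    · simp only [Pi.add_apply, Pi.smul_apply, smul_eq_mul, Finset.sum_add_distrib,
        ← Finset.mul_sum, sb, h1]
      simp
  obtain ⟨x, hx⟩ := h.exX hs i2
  obtain ⟨y, hy⟩ := h.exX hs i1
  have ne : x ≠ y := fun e => by
    have := congrFun (hx.symm.trans (e ▸ hy)) v0
    simp only [Pi.add_apply, Pi.smul_apply, smul_eq_mul, add_eq_left, mul_eq_zero] at this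
    rcases this with t | t
    · exact ε0.ne' t
    · exact hv0 t
  have d := lt_of_lt_of_le (dist_pos.2 ne) (h.le_ed hs (hx ▸ i2) (hy ▸ i1))
  rw [hx, hy, ed, add_sub_cancel_left, Real.sqrt_pos, Cn_smul] at d
  exact pos_of_mul_pos_left (mul_comm (ε ^ 2) _ ▸ d) (sq_nonneg ε)

theorem Cn_fin {k : ℕ} (M : Fin k → Fin k → ℝ) : ∃ c : ℝ, 0 < c ∧
    ((∀ w : Fin k → ℝ, ∑ a, w a = 0 → w ≠ 0 → 0 < Qf M Finset.univ w) →
      ∀ w : Fin k → ℝ, ∑ a, w a = 0 → ∀ a, c ^ 2 * w a ^ 2 ≤ Qf M Finset.univ w) := by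
  by_cases hp : ∀ w : Fin k → ℝ, ∑ a, w a = 0 → w ≠ 0 → 0 < Qf M Finset.univ w
  swap
  · exact ⟨1, one_pos, fun h => absurd h hp⟩
  have hK : IsCompact (Metric.sphere (0 : Fin k → ℝ) 1 ∩ {w | ∑ a, w a = 0}) :=
    (isCompact_sphere _ _).inter_right (isClosed_eq (by fun_prop) continuous_const)
  have hc : Continuous (Qf M Finset.univ) := by
    unfold Qf
    fun_prop
  obtain ⟨m, hm, hm'⟩ := hK.exists_forall_le' hc.continuousOn (a := 0) fun w hw =>
    hp w hw.2 fun e => by simpa [e] using hw.1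
  refine ⟨√m, Real.sqrt_pos.2 hm, fun _ w hw a => ?_⟩
  rw [Real.sq_sqrt hm.le]
  by_cases e : w = 0
  · simp [e, Qf]
  have r0 : 0 < ‖w‖ := norm_pos_iff.2 e
  have h1 := hm' (‖w‖⁻¹ • w) ⟨by simp [norm_smul, r0.ne'], by
    simp only [mem_ofPred_eq, Pi.smul_apply, smul_eq_mul, ← Finset.mul_sum, hw, mul_zero]⟩
  rw [Cn_smul, inv_pow, ← div_eq_inv_mul, le_div_iff₀ (by positivity)] at h1
  refine le_trans (mul_le_mul_of_nonneg_left ?_ hm.le) h1
  rw [← sq_abs]
  exact pow_le_pow_left₀ (abs_nonneg _) (norm_le_pi_norm w a) 2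

theorem Cx.lo (h : Cx F q n co) : ∃ c : ℝ, 0 < c ∧ c ≤ 1 ∧ ∀ s ∈ F, ∀ w : V → ℝ,
    (∀ v ∉ s, w v = 0) → ∑ v ∈ s, w v = 0 → ∀ v, c ^ 2 * w v ^ 2 ≤ Qf q s w := by
  classical
  choose c hc hc' using fun i : (Σ k : Fin (n + 2), Fin k → Fin k → h.shp.toFinset) =>
    Cn_fin fun a b => (i.2 a b : ℝ)
  have : Nonempty (Σ k : Fin (n + 2), Fin k → Fin k → h.shp.toFinset) :=
    ⟨⟨0, fun a => a.elim0⟩⟩
  obtain ⟨i0, hi0⟩ := Finite.exists_min c
  refine ⟨min (c i0) 1, lt_min (hc i0) one_pos, min_le_right _ _, fun s hs w h0 h1 v => ?_⟩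
  have sm : ∀ f : V → ℝ, ∑ v ∈ s, f v = ∑ a, f (s.equivFin.symm a) := fun f => by
    rw [← Finset.sum_coe_sort, ← Equiv.sum_comp s.equivFin.symm]
  have qe : ∀ w : V → ℝ, Qf q s w = Qf (fun a b => q (s.equivFin.symm a) (s.equivFin.symm b))
      Finset.univ fun a => w (s.equivFin.symm a) := fun w => by
    unfold Qf
    rw [sm]
    simp only [sm]
  have key := hc' ⟨⟨s.card, Nat.lt_succ_of_le (h.dim s hs)⟩, fun a b =>
    ⟨q (s.equivFin.symm a) (s.equivFin.symm b), h.shp.mem_toFinset.2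
      ⟨s, hs, _, (s.equivFin.symm a).2, _, (s.equivFin.symm b).2, rfl⟩⟩⟩ (fun w' e1 e2 => by
    have e3 : (fun a => (fun v => if hv : v ∈ s then w' (s.equivFin ⟨v, hv⟩) else 0)
        (s.equivFin.symm a : V)) = w' := by
      funext a
      simp
    have := h.pos hs (w := fun v => if hv : v ∈ s then w' (s.equivFin ⟨v, hv⟩) else 0)
      (fun v hv => dif_neg hv) (by rw [sm]; exact (congrArg _ e3).trans e1) fun e => by
        apply e2
        rw [← e3, e]
        rfl
    rw [qe, e3] at this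
    exact this) (fun a => w (s.equivFin.symm a)) (by rw [← h1, sm])
  have m0 : 0 ≤ min (c i0) 1 := (lt_min (hc i0) one_pos).le
  by_cases hv : v ∈ s
  · have k1 := key (s.equivFin ⟨v, hv⟩)
    simp only [Equiv.symm_apply_apply] at k1
    rw [qe]
    refine le_trans (mul_le_mul_of_nonneg_right (pow_le_pow_left₀ m0 ?_ 2) (sq_nonneg _)) k1
    exact (min_le_left _ _).trans (hi0 _)
  · rw [h0 v hv]
    by_cases e : w = 0
    · simp [e, Qf]
    · simpa using (h.pos hs h0 h1 e).le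

theorem Cx.lip (h : Cx F q n co) :
    ∃ L : ℕ, 0 < L ∧ ∀ x y v, |co x v - co y v| ≤ L * dist x y := by
  obtain ⟨c, hc, _, hl⟩ := h.lo
  refine ⟨⌈1 / c⌉₊, Nat.ceil_pos.2 (by positivity), fun x y v => ?_⟩
  have key : c * |co x v - co y v| ≤ dist x y := by
    refine (h.len x y).2 ?_
    rintro l ⟨m, z, s, rfl0, rflm, hz, rfl⟩
    rw [← rfl0, ← rflm]
    clear rfl0 rflm
    induction m with
    | zero => simp
    | succ m ih =>
      obtain ⟨h1, h2, h3⟩ := hz m (Nat.lt_succ_self m)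
      have q1 := ih fun i hi => hz i (Nat.lt_succ_of_lt hi)
      have q2 : c * |z m v - z (m + 1) v| ≤ ed q (s m) (z m) (z (m + 1)) := by
        apply Real.le_sqrt_of_sq_le
        rw [mul_pow, sq_abs]
        refine hl _ h1 (z m - z (m + 1)) (fun u hu => ?_) ?_ v
        · rw [Pi.sub_apply, h2.2.1 u hu, h3.2.1 u hu, sub_zero]
        · simp only [Pi.sub_apply, Finset.sum_sub_distrib, h2.2.2, h3.2.2, sub_self]
      have q3 := mul_le_mul_of_nonneg_left (abs_sub_le (z 0 v) (z m v) (z (m + 1) v)) hc.le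
      rw [Finset.sum_range_succ]
      linarith
  refine le_trans ?_ (mul_le_mul_of_nonneg_right (Nat.le_ceil _) dist_nonneg)
  rw [one_div, ← div_eq_inv_mul, le_div_iff₀ hc]
  linarith

theorem Cx.near (h : Cx F q n co) : ∃ B : ℕ, n + 2 ≤ B ∧ ∀ x y (a : ℝ),
    (∀ v, |co x v - co y v| ≤ a) → a * B ≤ 1 → dist x y ≤ B * a := by
  classical
  obtain ⟨C, hC, hh⟩ := h.hi
  have n0 : (0 : ℝ) ≤ n := Nat.cast_nonneg n
  have hB : ((n : ℝ) + 2) ≤ 2 * C * (n + 2) := by nlinarith
  have hB2 := Nat.le_ceil (2 * C * (n + 2))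
  refine ⟨⌈2 * C * (n + 2)⌉₊, by exact_mod_cast hB.trans hB2, fun x y a ha hb => ?_⟩
  obtain ⟨s, hs, hx⟩ := h.exF x
  obtain ⟨t, ht, hy⟩ := h.exF y
  obtain ⟨v1, _⟩ : s.Nonempty := Finset.nonempty_of_sum_ne_zero (by rw [hx.2.2]; exact one_ne_zero)
  have a0 : 0 ≤ a := (abs_nonneg _).trans (ha v1)
  have a1 : a * (n + 2) ≤ 1 := (mul_le_mul_of_nonneg_left (hB.trans hB2) a0).trans hb
  set μ : V → ℝ := fun v => min (co x v) (co y v) with hμ
  have m0 : ∀ v, 0 ≤ μ v := fun v => le_min (hx.1 v) (hy.1 v)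
  have ms : ∀ v ∉ s, μ v = 0 := fun v hv =>
    le_antisymm ((min_le_left _ _).trans (hx.2.1 v hv).le) (m0 v)
  have mt : ∀ v ∉ t, μ v = 0 := fun v hv =>
    le_antisymm ((min_le_right _ _).trans (hy.2.1 v hv).le) (m0 v)
  have mx : ∀ v, co x v - a ≤ μ v := fun v =>
    le_min (by linarith) (by linarith [(abs_le.1 (ha v)).2])
  have my : ∀ v, co y v - a ≤ μ v := fun v =>
    le_min (by linarith [(abs_le.1 (ha v)).1]) (by linarith)
  have est : ∑ v ∈ s, μ v = ∑ v ∈ t, μ v := by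
    exact (Finset.sum_subset (Finset.inter_subset_left (s₂ := t))
        fun v h1 h2 => mt v fun e => h2 (Finset.mem_inter.2 ⟨h1, e⟩)).symm.trans
      (Finset.sum_subset (Finset.inter_subset_right (s₁ := s))
        fun v h1 h2 => ms v fun e => h2 (Finset.mem_inter.2 ⟨e, h1⟩))
  have c0 : (s.card : ℝ) ≤ n + 1 := by exact_mod_cast h.dim s hs
  have e1 : 1 - (n + 1) * a ≤ ∑ v ∈ s, μ v := by
    have := Finset.sum_le_sum fun v (_ : v ∈ s) => mx v
    rw [Finset.sum_sub_distrib, hx.2.2, Finset.sum_const, nsmul_eq_mul] at this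
    nlinarith
  have e2 : ∑ v ∈ s, μ v ≤ 1 :=
    hx.2.2 ▸ Finset.sum_le_sum fun v (_ : v ∈ s) => min_le_left (co x v) (co y v)
  obtain ⟨v0, _, hv0⟩ : ∃ v ∈ s, μ v ≠ 0 := by
    apply Finset.exists_ne_zero_of_sum_ne_zero
    intro e
    rw [e] at e1
    have : a ≤ 0 := by nlinarith
    nlinarith
  have vs : v0 ∈ s := by
    by_contra e
    exact hv0 (ms v0 e)
  have vt : v0 ∈ t := by
    by_contra e
    exact hv0 (mt v0 e)
  set δ := 1 - ∑ v ∈ s, μ v with hδ
  set z : V → ℝ := fun v => μ v + if v = v0 then δ else 0 with hz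
  have z1 : ∀ v, μ v ≤ z v ∧ z v ≤ μ v + (n + 1) * a := fun v => by
    rw [hz]
    dsimp only
    split_ifs
    · constructor <;> linarith
    · constructor
      · linarith
      · nlinarith
  have iz : ∀ r : Finset V, v0 ∈ r → (∀ v ∉ r, μ v = 0) → ∑ v ∈ r, μ v = ∑ v ∈ s, μ v →
      In r z := fun r h1 h2 h3 => by
    refine ⟨fun v => (m0 v).trans (z1 v).1, fun v hv => ?_, ?_⟩
    · have : v ≠ v0 := fun e => hv (e ▸ h1)
      simp [hz, h2 v hv, this]
    · simp only [hz, Finset.sum_add_distrib, Finset.sum_ite_eq', if_pos h1, h3, hδ]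
      ring
  have is := iz s vs ms rfl
  have it := iz t vt mt est.symm
  obtain ⟨w, hw⟩ := h.exX hs is
  have b0 : 0 ≤ C * ((n + 2) * a) := by positivity
  have d1 : dist x w ≤ C * ((n + 2) * a) := by
    refine (h.le_ed hs hx (hw ▸ is)).trans ?_
    rw [ed, Real.sqrt_le_left b0, mul_pow, hw]
    refine hh s hs _ _ fun v => abs_le.2 ⟨?_, ?_⟩
    · have := min_le_left (co x v) (co y v)
      have := (z1 v).2
      rw [Pi.sub_apply]
      nlinarith
    · have := mx v
      have := (z1 v).1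
      rw [Pi.sub_apply]
      nlinarith
  have d2 : dist y w ≤ C * ((n + 2) * a) := by
    refine (h.le_ed ht hy (hw ▸ it)).trans ?_
    rw [ed, Real.sqrt_le_left b0, mul_pow, hw]
    refine hh t ht _ _ fun v => abs_le.2 ⟨?_, ?_⟩
    · have := min_le_right (co x v) (co y v)
      have := (z1 v).2
      rw [Pi.sub_apply]
      nlinarith
    · have := my v
      have := (z1 v).1
      rw [Pi.sub_apply]
      nlinarith
  have d3 := dist_triangle_right x y w
  have d4 := mul_le_mul_of_nonneg_right hB2 a0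
  nlinarith

theorem Cx.nice (h : Cx F q n co) : ∃ L B, Nice co n L B := by
  obtain ⟨L, l0, l1⟩ := h.lip
  obtain ⟨B, b0, b1⟩ := h.near
  refine ⟨L, B, fun x => ?_, l0, b0, l1, b1⟩
  obtain ⟨s, hs, hx⟩ := h.exF x
  exact ⟨s, h.dim s hs, hx⟩

end Pool.Agent.Work.MP_9d1ffa_al.Px
end

-- merged part: Pool.Agent.Work.MP_9d1ffa_al.Px.SmD
section
/-! Samples and margins: definitions. -/

namespace Pool.Agent.Work.MP_9d1ffa_al.Px

open Set

/-- samples: a family of cuts and a cell for every vertex -/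
def Sm (V : Type) (n : ℕ) : Type := Fin (n + 2) × (V → ℤ)

variable {V X : Type} {n : ℕ}

instance {G : Type} [Group G] [MulAction G V] : MulAction G (Sm V n) where
  smul g c := (c.1, fun v => c.2 (g⁻¹ • v))
  one_smul c := Prod.ext rfl (funext fun v => by
    show c.2 ((1 : G)⁻¹ • v) = c.2 v
    simp)
  mul_smul g h c := Prod.ext rfl (funext fun v => by
    show c.2 ((g * h)⁻¹ • v) = c.2 (h⁻¹ • g⁻¹ • v)
    rw [mul_inv_rev, mul_smul])

theorem Sm.smul_fst {G : Type} [Group G] [MulAction G V] (g : G) (c : Sm V n) :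
    (g • c).1 = c.1 := rfl

theorem Sm.smul_snd {G : Type} [Group G] [MulAction G V] (g : G) (c : Sm V n) (v : V) :
    (g • c).2 v = c.2 (g⁻¹ • v) := rfl

/-- the offset of a family of cuts -/
noncomputable def off (γ : Fin (n + 2)) : ℝ := ((γ : ℕ) + 1 / 2) / (n + 2)

/-- the admissible margins of a vector of coordinates at scale `P` -/
def Mu (P : ℕ) (c : Sm V n) (x : V → ℝ) : Set ℝ :=
  {μ | 0 ≤ μ ∧ μ ≤ 1 / (2 * (n + 2)) ∧
    ∀ v, c.2 v + off c.1 + μ ≤ P * x v ∧ P * x v + μ ≤ c.2 v + 1 + off c.1}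

/-- the margin of a vector of coordinates at scale `P` -/
noncomputable def mv (P : ℕ) (c : Sm V n) (x : V → ℝ) : ℝ := sSup (Mu P c x)

/-- the margin of a point -/
noncomputable def mg (co : X → V → ℝ) (L B Q : ℕ) (c : Sm V n) (x : X) : ℝ :=
  mv (B * Q) c (co x) / ((B * Q : ℕ) * L)

/-- the vertices that a sample sees -/
def sp (c : Sm V n) : Set V := {v | c.2 v ≠ -1}

theorem off_ge (γ : Fin (n + 2)) : 1 / (2 * ((n : ℝ) + 2)) ≤ off γ := by
  have d : (0 : ℝ) < n + 2 := by positivity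
  have g : (0 : ℝ) ≤ (γ : ℕ) := Nat.cast_nonneg _
  unfold off
  rw [div_le_div_iff₀ (by positivity) d]
  nlinarith

theorem off_le (γ : Fin (n + 2)) : off γ ≤ 1 - 1 / (2 * ((n : ℝ) + 2)) := by
  have d : (0 : ℝ) < n + 2 := by positivity
  have g : ((γ : ℕ) : ℝ) ≤ n + 1 := by exact_mod_cast Nat.lt_succ_iff.1 γ.2
  unfold off
  rw [div_le_iff₀ d]
  have : (1 - 1 / (2 * ((n : ℝ) + 2))) * (n + 2) = n + 1 + 1 / 2 := by field_simp; ring
  linarith

theorem off_pos (γ : Fin (n + 2)) : 0 < off γ :=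
  lt_of_lt_of_le (by positivity) (off_ge γ)

theorem off_lt (γ : Fin (n + 2)) : off γ < 1 := by
  have : (0 : ℝ) < 1 / (2 * ((n : ℝ) + 2)) := by positivity
  linarith [off_le γ]

theorem mv_nonneg (P : ℕ) (c : Sm V n) (x : V → ℝ) : 0 ≤ mv P c x :=
  Real.sSup_nonneg fun _ h => h.1

theorem le_mv {P : ℕ} {c : Sm V n} {x : V → ℝ} {μ : ℝ} (h : μ ∈ Mu P c x) : μ ≤ mv P c x :=
  le_csSup ⟨_, fun _ a => a.2.1⟩ h

theorem mv_pos {P : ℕ} {c : Sm V n} {x : V → ℝ} (h : 0 < mv P c x) :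
    ∃ μ : ℝ, 0 < μ ∧ μ ∈ Mu P c x := by
  by_contra k
  refine absurd (Real.sSup_le (fun μ a => ?_) le_rfl) (not_le.2 h)
  by_contra e
  exact k ⟨μ, not_le.1 e, a⟩

end Pool.Agent.Work.MP_9d1ffa_al.Px
end

-- merged part: Pool.Agent.Work.MP_9d1ffa_al.Px.Sm
section
/-! Samples and margins: properties. -/

namespace Pool.Agent.Work.MP_9d1ffa_al.Px

open Set

variable {V X : Type} [MetricSpace X] {n L B Q : ℕ} {co : X → V → ℝ} {c : Sm V n} {x y : X}

omit [MetricSpace X] in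
theorem mg_nonneg (co : X → V → ℝ) (L B Q : ℕ) (c : Sm V n) (x : X) : 0 ≤ mg co L B Q c x := by
  unfold mg
  exact div_nonneg (mv_nonneg _ _ _) (by positivity)

omit [MetricSpace X] in
theorem Sm_pos (hx : 0 < mg co L B Q c x) : ∃ μ : ℝ, 0 < μ ∧ μ ∈ Mu (B * Q) c (co x) := by
  refine mv_pos ((mv_nonneg _ _ _).lt_of_ne fun e => hx.ne ?_)
  rw [mg, ← e, zero_div]

theorem Sm_lip (h : Nice co n L B) (P : ℕ) (c : Sm V n) (x y : X) :
    mv P c (co x) ≤ mv P c (co y) + P * L * dist x y := by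
  have n0 := mv_nonneg P c (co y)
  have d0 : 0 ≤ (P : ℝ) * L * dist x y := by positivity
  refine Real.sSup_le (fun μ a => ?_) (by linarith)
  rcases le_total μ (P * L * dist x y) with e | e
  · linarith
  · have : μ - P * L * dist x y ≤ mv P c (co y) :=
      le_mv ⟨by linarith, by linarith [a.2.1], fun v => by
        have b := a.2.2 v
        have b' := abs_le.1 (h.lip x y v)
        have p0 : (0 : ℝ) ≤ P := Nat.cast_nonneg P
        have b1 := mul_le_mul_of_nonneg_left b'.1 p0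
        have b2 := mul_le_mul_of_nonneg_left b'.2 p0
        exact ⟨by linarith [b.1], by linarith [b.2]⟩⟩
    linarith

theorem mg_lip (h : Nice co n L B) (Q : ℕ) (c : Sm V n) (x y : X) :
    |mg co L B Q c x - mg co L B Q c y| ≤ dist x y := by
  have a := Sm_lip h (B * Q) c x y
  have b := Sm_lip h (B * Q) c y x
  rw [dist_comm] at b
  unfold mg
  rcases (by positivity : (0 : ℝ) ≤ (B * Q : ℕ) * L).eq_or_lt with e | e
  · rw [← e, div_zero, div_zero, sub_zero, abs_zero]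
    exact dist_nonneg
  · rw [← sub_div, abs_div, abs_of_pos e, div_le_iff₀ e]
    exact abs_sub_le_iff.2 ⟨by linarith, by linarith⟩

omit [MetricSpace X] in
theorem mg_smul {G : Type} [Group G] [MulAction G V] [MulAction G X]
    (eqv : ∀ (g : G) x v, co (g • x) (g • v) = co x v) (g : G) (L B Q : ℕ) (c : Sm V n) (x : X) :
    mg co L B Q (g • c) (g • x) = mg co L B Q c x := by
  have e : ∀ v, co (g • x) v = co x (g⁻¹ • v) := fun v => by rw [← eqv g x, smul_inv_smul]
  have : Mu (B * Q) (g • c) (co (g • x)) = Mu (B * Q) c (co x) := by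
    ext μ
    simp only [Mu, mem_ofPred_eq, Sm.smul_fst, Sm.smul_snd, e]
    exact and_congr_right' (and_congr_right' ⟨fun k v => by simpa using k (g • v), fun k v => k _⟩)
  rw [mg, mg, mv, mv, this]

theorem mg_dist (h : Nice co n L B) (hQ : 0 < Q) (hx : 0 < mg co L B Q c x)
    (hy : 0 < mg co L B Q c y) : dist x y ≤ 1 / Q := by
  obtain ⟨μ, m, e⟩ := Sm_pos hx
  obtain ⟨μ', m', e'⟩ := Sm_pos hy
  have q : (1 : ℝ) ≤ Q := by exact_mod_cast hQ
  have b : (0 : ℝ) < B := by exact_mod_cast lt_of_lt_of_le (by omega) h.Bge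
  have p : (0 : ℝ) < (B * Q : ℕ) := by
    push_cast
    positivity
  have k : 1 / ((B * Q : ℕ) : ℝ) * B = 1 / Q := by
    push_cast
    field_simp
  refine (h.near x y (1 / (B * Q : ℕ)) (fun v => ?_) ?_).trans_eq (by rw [mul_comm, k])
  · have a := e.2.2 v
    have a' := e'.2.2 v
    rw [le_div_iff₀ p, ← abs_of_pos p, ← abs_mul]
    exact abs_le.2 ⟨by linarith [a.1, a'.2], by linarith [a.2, a'.1]⟩
  · rw [k, div_le_one (by linarith)]
    exact q

omit [MetricSpace X] in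
theorem Sm_cell (hx : 0 < mg co L B Q c x) (v : V) :
    c.2 v = ⌊(B * Q : ℕ) * co x v - off c.1⌋ := by
  obtain ⟨μ, m, e⟩ := Sm_pos hx
  have a := e.2.2 v
  rw [eq_comm, Int.floor_eq_iff]
  exact ⟨by linarith [a.1], by linarith [a.2]⟩

omit [MetricSpace X] in
theorem mg_uniq {c' : Sm V n} (e : c.1 = c'.1) (hx : 0 < mg co L B Q c x)
    (hx' : 0 < mg co L B Q c' x) : c = c' := by
  refine Prod.ext e (funext fun v => ?_)
  rw [Sm_cell hx, Sm_cell hx', e]

omit [MetricSpace X] in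
theorem mg_card (co : X → V → ℝ) (L B Q : ℕ) (x : X) :
    {c : Sm V n | 0 < mg co L B Q c x}.encard ≤ (n + 2 : ℕ) := by
  have a : {c : Sm V n | 0 < mg co L B Q c x} ⊆ (fun γ : Fin (n + 2) =>
      ((γ, fun v => ⌊(B * Q : ℕ) * co x v - off γ⌋) : Sm V n)) '' univ :=
    fun c e => ⟨c.1, mem_univ _, Prod.ext rfl (funext fun v => (Sm_cell e v).symm)⟩
  refine (encard_le_encard a).trans ((encard_image_le _ _).trans (le_of_eq ?_))
  rw [encard_univ, ENat.card_eq_coe_fintype_card, Fintype.card_fin]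

theorem Sm_bad {γ γ' : Fin (n + 2)} {a : ℝ} {k k' : ℤ}
    (h : |a - off γ - k| < 1 / (2 * ((n : ℝ) + 2))) (h' : |a - off γ' - k'| < 1 / (2 * (n + 2))) :
    γ = γ' := by
  have d : (0 : ℝ) < n + 2 := by positivity
  rw [lt_div_iff₀ (by positivity), ← abs_of_pos (by positivity : (0 : ℝ) < 2 * (n + 2)),
    ← abs_mul, abs_lt] at h h'
  have e : ∀ δ : Fin (n + 2), off δ * (n + 2) = (δ : ℕ) + 1 / 2 := fun δ => by
    rw [off, div_mul_cancel₀ _ d.ne']
  have e1 := e γ
  have e2 := e γ'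
  have k1 : (((γ : ℕ) - (γ' : ℕ) + (k - k') * (n + 2) : ℤ) : ℝ) < (1 : ℤ) := by
    push_cast
    linarith [h.1, h'.2]
  have k2 : ((-1 : ℤ) : ℝ) < (((γ : ℕ) - (γ' : ℕ) + (k - k') * (n + 2) : ℤ) : ℝ) := by
    push_cast
    linarith [h.2, h'.1]
  rw [Int.cast_lt] at k1 k2
  have g1 := γ.2
  have g2 := γ'.2
  refine Fin.ext ?_
  rcases lt_trichotomy (k - k') 0 with t | t | t
  · nlinarith
  · rw [t] at k1 k2
    omega
  · nlinarith

theorem mg_big (h : Nice co n L B) (hQ : 0 < Q) (x : X) :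
    ∃ c : Sm V n, 1 / (2 * ((n + 2) * B * L : ℕ) * Q : ℝ) ≤ mg co L B Q c x := by
  obtain ⟨s, hs, -, h0, -⟩ := h.pt x
  obtain ⟨γ, hγ⟩ : ∃ γ : Fin (n + 2), ∀ v ∈ s, ∀ k : ℤ,
      1 / (2 * ((n : ℝ) + 2)) ≤ |(B * Q : ℕ) * co x v - off γ - k| := by
    by_contra e
    simp only [not_exists, not_forall, not_le] at e
    choose f f1 k f2 using e
    obtain ⟨a, -, b, -, ne, r⟩ := Finset.exists_ne_map_eq_of_card_lt_of_maps_to
      (s := Finset.univ) (t := s) (f := f)
      (by rw [Finset.card_univ, Fintype.card_fin]; omega) fun a _ => f1 a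
    exact ne (Sm_bad (f2 a) (r ▸ f2 b))
  have g : ∀ v, ∀ k : ℤ, 1 / (2 * ((n : ℝ) + 2)) ≤ |(B * Q : ℕ) * co x v - off γ - k| := by
    intro v k
    by_cases e : v ∈ s
    · exact hγ v e k
    rw [h0 v e, mul_zero, le_abs]
    rcases le_or_gt 0 k with t | t
    · have : (0 : ℝ) ≤ k := by exact_mod_cast t
      exact Or.inr (by linarith [off_ge γ])
    · have : (k : ℝ) ≤ (-1 : ℤ) := by exact_mod_cast (by omega : k ≤ -1)
      push_cast at this
      exact Or.inl (by linarith [off_le γ])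
  refine ⟨(γ, fun v => ⌊(B * Q : ℕ) * co x v - off γ⌋), ?_⟩
  have m := le_mv (P := B * Q) (c := (γ, fun v => ⌊(B * Q : ℕ) * co x v - off γ⌋)) (x := co x)
    ⟨by positivity, le_rfl, fun v => by
      have a := Int.floor_le ((B * Q : ℕ) * co x v - off γ)
      have b := Int.lt_floor_add_one ((B * Q : ℕ) * co x v - off γ)
      have a' := g v ⌊(B * Q : ℕ) * co x v - off γ⌋
      have b' := g v (⌊(B * Q : ℕ) * co x v - off γ⌋ + 1)
      rw [abs_of_nonneg (by linarith)] at a'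
      rw [Int.cast_add, Int.cast_one, abs_of_nonpos (by linarith)] at b'
      exact ⟨by dsimp only; linarith, by dsimp only; linarith⟩⟩
  have q : (0 : ℝ) < Q := by exact_mod_cast hQ
  have b : (0 : ℝ) < B := by exact_mod_cast lt_of_lt_of_le (by omega) h.Bge
  have l : (0 : ℝ) < L := by exact_mod_cast h.Lpos
  refine le_trans (le_of_eq ?_) (div_le_div_of_nonneg_right m (by positivity))
  push_cast
  field_simp

theorem Sm_rng (h : Nice co n L B) (hx : 0 < mg co L B Q c x) (v : V) :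
    -1 ≤ c.2 v ∧ c.2 v < (B * Q : ℕ) ∧ (c.2 v ≠ -1 → off c.1 < (B * Q : ℕ) * co x v) := by
  obtain ⟨μ, m, e⟩ := Sm_pos hx
  obtain ⟨s, -, h1, h0, h2⟩ := h.pt x
  have a := e.2.2 v
  have p0 : (0 : ℝ) ≤ (B * Q : ℕ) := Nat.cast_nonneg _
  have x1 : co x v ≤ 1 := by
    by_cases r : v ∈ s
    · exact (Finset.single_le_sum (fun w _ => h1 w) r).trans_eq h2
    · rw [h0 v r]
      exact zero_le_one
  have k1 : ((-2 : ℤ) : ℝ) < c.2 v := by
    push_cast
    linarith [a.2, off_lt c.1, mul_nonneg p0 (h1 v)]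
  have k2 : (c.2 v : ℝ) < ((B * Q : ℕ) : ℤ) := by
    rw [Int.cast_natCast]
    linarith [a.1, off_pos c.1, mul_le_of_le_one_right p0 x1]
  rw [Int.cast_lt] at k1 k2
  refine ⟨by omega, k2, fun r => ?_⟩
  have : (0 : ℝ) ≤ c.2 v := by exact_mod_cast (by omega : 0 ≤ c.2 v)
  linarith [a.1]

theorem sp_pos (h : Nice co n L B) (hx : 0 < mg co L B Q c x) {v : V} (hv : v ∈ sp c) :
    0 < co x v := by
  exact pos_of_mul_pos_left (mul_comm _ (co x v) ▸ (off_pos c.1).trans ((Sm_rng h hx v).2.2 hv))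
    (Nat.cast_nonneg _)

theorem sp_ne (h : Nice co n L B) (hQ : 0 < Q) (hx : 0 < mg co L B Q c x) :
    (sp c).Nonempty := by
  by_contra e
  obtain ⟨μ, m, k⟩ := Sm_pos hx
  obtain ⟨s, hs, -, -, h2⟩ := h.pt x
  have a : ∑ v ∈ s, ((B * Q : ℕ) : ℝ) * co x v ≤ s.card • (1 : ℝ) :=
    Finset.sum_le_card_nsmul _ _ _ fun v _ => by
      have b := (k.2.2 v).2
      rw [(by_contra fun r => e ⟨v, r⟩ : c.2 v = -1)] at b
      push_cast at b ⊢
      linarith [off_lt c.1]
  rw [← Finset.mul_sum, h2, mul_one, nsmul_eq_mul, mul_one, Nat.cast_le] at a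
  have := h.Bge.trans (Nat.le_mul_of_pos_right B hQ)
  omega

theorem sp_smul {G : Type} [Group G] [MulAction G V] {g : G} (hg : g • c = c) {v : V}
    (hv : v ∈ sp c) : g • v ∈ sp c := by
  intro e
  rw [← hg, Sm.smul_snd, inv_smul_smul] at e
  exact hv e

theorem sp_fix {G : Type} [Group G] [MulAction G V] {g : G} (hg : ∀ v ∈ sp c, g • v = v) :
    g • c = c := by
  refine Prod.ext rfl (funext fun v => ?_)
  rw [Sm.smul_snd]
  by_cases a : v ∈ sp c
  · rw [inv_smul_eq_iff.2 (hg v a).symm]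
  by_cases b : g⁻¹ • v ∈ sp c
  · rw [← hg _ b, smul_inv_smul]
  · exact (not_not.1 b).trans (not_not.1 a).symm

/-- the samples that are positive near a point -/
theorem ball_cnt (h : Nice co n L B) (hQ : 0 < Q) (z : X) :
    {c : Sm V n | ∃ x, dist x z ≤ 1 / (2 * ((n + 2) * B * L : ℕ) * Q : ℝ) ∧
      0 < mg co L B Q c x}.encard ≤ ((n + 2) * (B * Q + 1) ^ (n + 1) : ℕ) := by
  classical
  obtain ⟨s, hs, -, h0, -⟩ := h.pt z
  have q : (0 : ℝ) < Q := by exact_mod_cast hQ
  have b : (0 : ℝ) < B := by exact_mod_cast lt_of_lt_of_le (by omega) h.Bge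
  have l : (0 : ℝ) < L := by exact_mod_cast h.Lpos
  refine (encard_le_encard (t := (fun a : Fin (n + 2) × (s → Fin (B * Q + 1)) =>
    ((a.1, fun v => if r : v ∈ s then (a.2 ⟨v, r⟩ : ℕ) - 1 else -1) : Sm V n)) '' univ) ?_).trans
    ((encard_image_le _ _).trans ?_)
  · rintro c ⟨x, d, hx⟩
    refine ⟨(c.1, fun v => ⟨(c.2 v + 1).toNat, by have := Sm_rng h hx v; omega⟩), mem_univ _,
      Prod.ext rfl (funext fun v => ?_)⟩
    have k := Sm_rng h hx v
    dsimp only
    split_ifs with r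
    · omega
    · by_contra e
      have a := (abs_le.1 (h.lip x z v)).2
      rw [h0 v r, sub_zero] at a
      have a1 := mul_le_mul_of_nonneg_left
        (a.trans (mul_le_mul_of_nonneg_left d l.le)) (Nat.cast_nonneg (B * Q) : (0 : ℝ) ≤ _)
      have a2 : ((B * Q : ℕ) : ℝ) * (L * (1 / (2 * ((n + 2) * B * L : ℕ) * Q))) =
          1 / (2 * (n + 2)) := by
        push_cast
        field_simp
      linarith [k.2.2 fun t => e t.symm, off_ge c.1]
  · rw [encard_univ, ENat.card_eq_coe_fintype_card, Fintype.card_prod, Fintype.card_fin,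
      Fintype.card_fun, Fintype.card_fin, Fintype.card_coe, Nat.cast_le]
    exact Nat.mul_le_mul_left _ (Nat.pow_le_pow_right (Nat.succ_pos _) hs)

theorem Sm_cover {α : Type} {U : ℕ → Set α} {a b : ℕ} (hU : ∀ i, (U i).encard ≤ b) {S : Set α}
    (h : ∀ x ∈ S, ∃ i < a, x ∈ U i) : S.encard ≤ (a * b : ℕ) := by
  induction a generalizing S with
  | zero =>
    refine (encard_le_encard (t := ∅) fun x r => ?_).trans (by simp)
    obtain ⟨i, e, -⟩ := h x r
    omega
  | succ a ih =>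
    have e : S ⊆ {x | ∃ i < a, x ∈ U i} ∪ U a := fun x r => by
      obtain ⟨i, e, k⟩ := h x r
      rcases (Nat.le_of_lt_succ e).eq_or_lt with rfl | t
      · exact Or.inr k
      · exact Or.inl ⟨i, t, k⟩
    refine (encard_le_encard e).trans ((encard_union_le _ _).trans
      ((add_le_add (ih fun _ r => r) (hU a)).trans_eq ?_))
    rw [← Nat.cast_add, add_mul, one_mul]

/-- the samples that are positive on a path -/
theorem path_cnt (h : Nice co n L B) (hQ : 0 < Q) {W ρ : ℕ} {η : ℝ} {p : ℕ → X} (h0 : 0 ≤ η)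
    (hp : ∀ i ≤ W, ∀ j ≤ W, dist (p i) (p j) ≤ |(i : ℝ) - j| * η) (hρ : W * η ≤ ρ) :
    {c : Sm V n | ∃ j ≤ W, 0 < mg co L B Q c (p j)}.encard ≤
      ((2 * ((n + 2) * B * L) * Q * ρ + 1) * ((n + 2) * (B * Q + 1) ^ (n + 1)) : ℕ) := by
  have q : (0 : ℝ) < Q := by exact_mod_cast hQ
  have b : (0 : ℝ) < B := by exact_mod_cast lt_of_lt_of_le (by omega) h.Bge
  have l : (0 : ℝ) < L := by exact_mod_cast h.Lpos
  have r0 : (0 : ℝ) < 2 * ((n + 2) * B * L : ℕ) * Q := by
    push_cast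
    positivity
  refine Sm_cover (U := fun m => {c : Sm V n | ∃ j, (j ≤ W ∧
    ⌊j * η * (2 * ((n + 2) * B * L : ℕ) * Q)⌋₊ = m) ∧ 0 < mg co L B Q c (p j)}) (fun m => ?_) ?_
  · by_cases ex : ∃ i : ℕ, i ≤ W ∧ ⌊i * η * (2 * ((n + 2) * B * L : ℕ) * Q)⌋₊ = m
    swap
    · refine (encard_le_encard (t := ∅) ?_).trans (by simp)
      rintro _ ⟨j, r, -⟩
      exact ex ⟨j, r⟩
    obtain ⟨i, iW, im⟩ := ex
    refine (encard_le_encard ?_).trans (ball_cnt h hQ (p i))
    rintro c ⟨j, ⟨jW, jm⟩, hc⟩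
    refine ⟨p j, (hp j jW i iW).trans ?_, hc⟩
    generalize (2 * ((n + 2) * B * L : ℕ) * Q : ℝ) = R at r0 im jm
    have f1 := Nat.floor_le (a := i * η * R) (by positivity)
    have f2 := Nat.floor_le (a := j * η * R) (by positivity)
    have f3 := Nat.lt_floor_add_one (i * η * R)
    have f4 := Nat.lt_floor_add_one (j * η * R)
    rw [im] at f1 f3
    rw [jm] at f2 f4
    rw [le_div_iff₀ r0, mul_assoc, ← abs_of_nonneg (mul_nonneg h0 r0.le), ← abs_mul]
    exact abs_le.2 ⟨by linarith, by linarith⟩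
  · rintro c ⟨j, r, e⟩
    refine ⟨_, Nat.lt_succ_of_le (Nat.floor_le_of_le ?_), j, ⟨r, rfl⟩, e⟩
    have : (j : ℝ) * η ≤ ρ := (mul_le_mul_of_nonneg_right (by exact_mod_cast r) h0).trans hρ
    refine (mul_le_mul_of_nonneg_right this r0.le).trans_eq ?_
    push_cast
    ring

end Pool.Agent.Work.MP_9d1ffa_al.Px
end

-- merged part: Pool.Agent.Work.MP_9d1ffa_al.Ar.Lc0
section
/-! Piecewise Euclidean complexes with finitely many shapes, no curvature hypothesis. -/

namespace Pool.Agent.Work.MP_9d1ffa_al.Ar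

open Set Px

variable {V X : Type} [MetricSpace X] {F : Set (Finset V)} {q : V → V → ℝ} {n : ℕ}
  {co : X → V → ℝ}

/-- `Px.Cx` without the curvature hypothesis -/
structure Cx0 {X : Type} [MetricSpace X] (F : Set (Finset V)) (q : V → V → ℝ) (n : ℕ)
    (co : X → V → ℝ) : Prop where
  inj : Function.Injective co
  pts : range co = {x | ∃ s ∈ F, In s x}
  dim : ∀ s ∈ F, s.card ≤ n + 1
  shp : {r | ∃ s ∈ F, ∃ u ∈ s, ∃ v ∈ s, q u v = r}.Finite
  len : ∀ x y, IsGLB {l | ∃ m, Chn F q m (co x) (co y) l} (dist x y)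

theorem Cx0.cx (h : Cx0 F q n co) (hc : Cat0 X) : Cx F q n co :=
  ⟨h.inj, h.pts, h.dim, h.shp, h.len, hc⟩

theorem Cx0.exF (h : Cx0 F q n co) (x : X) : ∃ s ∈ F, In s (co x) := by
  have : co x ∈ range co := mem_range_self x
  rwa [h.pts] at this

theorem Cx0.exX (h : Cx0 F q n co) {s : Finset V} (hs : s ∈ F) {z : V → ℝ} (hz : In s z) :
    ∃ x, co x = z := by
  have : z ∈ range co := by
    rw [h.pts]
    exact ⟨s, hs, hz⟩
  exact this

theorem Cx0.le_ed (h : Cx0 F q n co) {s : Finset V} (hs : s ∈ F) {x y : X} (hx : In s (co x))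
    (hy : In s (co y)) : dist x y ≤ ed q s (co x) (co y) := by
  refine (h.len x y).1 ⟨1, fun i => if i = 0 then co x else co y, fun _ => s, rfl, rfl, ?_, ?_⟩
  · intro i hi
    obtain rfl : i = 0 := by omega
    exact ⟨hs, hx, hy⟩
  · simp

theorem Cx0.hi (h : Cx0 F q n co) : ∃ C : ℝ, 1 ≤ C ∧ ∀ s ∈ F, ∀ (w : V → ℝ) (a : ℝ),
    (∀ v, |w v| ≤ a) → Qf q s w ≤ C ^ 2 * a ^ 2 := by
  obtain ⟨M, hM⟩ := (h.shp.image fun r => |r|).bddAbove
  have n0 : (0 : ℝ) ≤ n := Nat.cast_nonneg n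
  refine ⟨(n + 1) * (|M| + 1), by nlinarith [abs_nonneg M], fun s hs w a ha => ?_⟩
  have b : ∀ u ∈ s, ∀ v ∈ s, -(q u v * w u * w v) ≤ |M| * a ^ 2 := fun u hu v hv => by
    have h1 : |q u v| ≤ |M| := (hM ⟨_, ⟨s, hs, u, hu, v, hv, rfl⟩, rfl⟩).trans (le_abs_self M)
    have h2 : |w u| * |w v| ≤ a * a :=
      mul_le_mul (ha u) (ha v) (abs_nonneg _) ((abs_nonneg _).trans (ha u))
    have h3 : |q u v| * (|w u| * |w v|) ≤ |M| * (a * a) :=
      mul_le_mul h1 h2 (by positivity) (abs_nonneg _)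
    have h4 := neg_le_abs (q u v * w u * w v)
    rw [abs_mul, abs_mul] at h4
    nlinarith
  have c0 : (s.card : ℝ) ≤ n + 1 := by exact_mod_cast h.dim s hs
  have c1 : (0 : ℝ) ≤ s.card := Nat.cast_nonneg _
  have e : ∑ u ∈ s, ∑ v ∈ s, -(q u v * w u * w v) ≤ s.card • (s.card • (|M| * a ^ 2)) :=
    Finset.sum_le_card_nsmul _ _ _ fun u hu => Finset.sum_le_card_nsmul _ _ _ (b u hu)
  simp only [Finset.sum_neg_distrib, nsmul_eq_mul] at e
  have p : 0 ≤ |M| * a ^ 2 := by positivity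
  have c2 : (s.card : ℝ) * s.card ≤ (n + 1) ^ 2 := by nlinarith
  have c3 := mul_le_mul_of_nonneg_right c2 p
  have c4 : |M| * a ^ 2 ≤ (|M| + 1) ^ 2 * a ^ 2 :=
    mul_le_mul_of_nonneg_right (by nlinarith [abs_nonneg M]) (sq_nonneg a)
  have c5 := mul_le_mul_of_nonneg_left c4 (sq_nonneg ((n : ℝ) + 1))
  have c6 : 0 ≤ ((n : ℝ) + 1) ^ 2 * (|M| * a ^ 2) := by positivity
  unfold Qf
  rw [mul_pow]
  nlinarith

theorem Cx0.pos (h : Cx0 F q n co) {s : Finset V} (hs : s ∈ F) {w : V → ℝ}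
    (h0 : ∀ v ∉ s, w v = 0) (h1 : ∑ v ∈ s, w v = 0) (hw : w ≠ 0) : 0 < Qf q s w := by
  classical
  obtain ⟨v0, hv0⟩ := Function.ne_iff.1 hw
  have hv : v0 ∈ s := by
    by_contra e
    exact hv0 (h0 v0 e)
  have c0 : (0 : ℝ) < s.card := by exact_mod_cast Finset.card_pos.2 ⟨v0, hv⟩
  set A := ∑ v ∈ s, |w v| with hA
  have A0 : 0 ≤ A := Finset.sum_nonneg fun v _ => abs_nonneg _
  set ε := 1 / (s.card * (A + 1)) with hε
  have ε0 : 0 < ε := by positivity
  set b : V → ℝ := fun v => if v ∈ s then 1 / s.card else 0 with hb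
  have sb : ∑ v ∈ s, b v = 1 := by
    rw [Finset.sum_congr rfl (g := fun _ => 1 / (s.card : ℝ)) fun v hv => if_pos hv,
      Finset.sum_const, nsmul_eq_mul]
    field_simp
  have i1 : In s b := ⟨fun v => by rw [hb]; dsimp only; split_ifs <;> positivity,
    fun v hv => if_neg hv, sb⟩
  have i2 : In s (b + ε • w) := by
    refine ⟨fun v => ?_, fun v hv => ?_, ?_⟩
    · by_cases e : v ∈ s
      · have q1 : |w v| ≤ A := Finset.single_le_sum (f := fun v => |w v|)
          (fun v _ => abs_nonneg _) e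
        have q2 : ε * (A + 1) = 1 / s.card := by rw [hε]; field_simp
        have q3 := neg_le_abs (w v)
        simp only [Pi.add_apply, Pi.smul_apply, smul_eq_mul, hb, if_pos e]
        nlinarith
      · simp [hb, e, h0 v e]
    · simp [hb, hv, h0 v hv]
    · simp only [Pi.add_apply, Pi.smul_apply, smul_eq_mul, Finset.sum_add_distrib,
        ← Finset.mul_sum, sb, h1]
      simp
  obtain ⟨x, hx⟩ := h.exX hs i2
  obtain ⟨y, hy⟩ := h.exX hs i1
  have ne : x ≠ y := fun e => by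
    have := congrFun (hx.symm.trans (e ▸ hy)) v0
    simp only [Pi.add_apply, Pi.smul_apply, smul_eq_mul, add_eq_left, mul_eq_zero] at this
    rcases this with t | t
    · exact ε0.ne' t
    · exact hv0 t
  have d := lt_of_lt_of_le (dist_pos.2 ne) (h.le_ed hs (hx ▸ i2) (hy ▸ i1))
  rw [hx, hy, ed, add_sub_cancel_left, Real.sqrt_pos, Cn_smul] at d
  exact pos_of_mul_pos_left (mul_comm (ε ^ 2) _ ▸ d) (sq_nonneg ε)

theorem Cx0.lo (h : Cx0 F q n co) : ∃ c : ℝ, 0 < c ∧ c ≤ 1 ∧ ∀ s ∈ F, ∀ w : V → ℝ,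
    (∀ v ∉ s, w v = 0) → ∑ v ∈ s, w v = 0 → ∀ v, c ^ 2 * w v ^ 2 ≤ Qf q s w := by
  classical
  choose c hc hc' using fun i : (Σ k : Fin (n + 2), Fin k → Fin k → h.shp.toFinset) =>
    Cn_fin fun a b => (i.2 a b : ℝ)
  have : Nonempty (Σ k : Fin (n + 2), Fin k → Fin k → h.shp.toFinset) :=
    ⟨⟨0, fun a => a.elim0⟩⟩
  obtain ⟨i0, hi0⟩ := Finite.exists_min c
  refine ⟨min (c i0) 1, lt_min (hc i0) one_pos, min_le_right _ _, fun s hs w h0 h1 v => ?_⟩
  have sm : ∀ f : V → ℝ, ∑ v ∈ s, f v = ∑ a, f (s.equivFin.symm a) := fun f => by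
    rw [← Finset.sum_coe_sort, ← Equiv.sum_comp s.equivFin.symm]
  have qe : ∀ w : V → ℝ, Qf q s w = Qf (fun a b => q (s.equivFin.symm a) (s.equivFin.symm b))
      Finset.univ fun a => w (s.equivFin.symm a) := fun w => by
    unfold Qf
    rw [sm]
    simp only [sm]
  have key := hc' ⟨⟨s.card, Nat.lt_succ_of_le (h.dim s hs)⟩, fun a b =>
    ⟨q (s.equivFin.symm a) (s.equivFin.symm b), h.shp.mem_toFinset.2
      ⟨s, hs, _, (s.equivFin.symm a).2, _, (s.equivFin.symm b).2, rfl⟩⟩⟩ (fun w' e1 e2 => by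
    have e3 : (fun a => (fun v => if hv : v ∈ s then w' (s.equivFin ⟨v, hv⟩) else 0)
        (s.equivFin.symm a : V)) = w' := by
      funext a
      simp
    have := h.pos hs (w := fun v => if hv : v ∈ s then w' (s.equivFin ⟨v, hv⟩) else 0)
      (fun v hv => dif_neg hv) (by rw [sm]; exact (congrArg _ e3).trans e1) fun e => by
        apply e2
        rw [← e3, e]
        rfl
    rw [qe, e3] at this
    exact this) (fun a => w (s.equivFin.symm a)) (by rw [← h1, sm])
  have m0 : 0 ≤ min (c i0) 1 := (lt_min (hc i0) one_pos).le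
  by_cases hv : v ∈ s
  · have k1 := key (s.equivFin ⟨v, hv⟩)
    simp only [Equiv.symm_apply_apply] at k1
    rw [qe]
    refine le_trans (mul_le_mul_of_nonneg_right (pow_le_pow_left₀ m0 ?_ 2) (sq_nonneg _)) k1
    exact (min_le_left _ _).trans (hi0 _)
  · rw [h0 v hv]
    by_cases e : w = 0
    · simp [e, Qf]
    · simpa using (h.pos hs h0 h1 e).le

theorem Cx0.lip (h : Cx0 F q n co) :
    ∃ L : ℕ, 0 < L ∧ ∀ x y v, |co x v - co y v| ≤ L * dist x y := by
  obtain ⟨c, hc, _, hl⟩ := h.lo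
  refine ⟨⌈1 / c⌉₊, Nat.ceil_pos.2 (by positivity), fun x y v => ?_⟩
  have key : c * |co x v - co y v| ≤ dist x y := by
    refine (h.len x y).2 ?_
    rintro l ⟨m, z, s, rfl0, rflm, hz, rfl⟩
    rw [← rfl0, ← rflm]
    clear rfl0 rflm
    induction m with
    | zero => simp
    | succ m ih =>
      obtain ⟨h1, h2, h3⟩ := hz m (Nat.lt_succ_self m)
      have q1 := ih fun i hi => hz i (Nat.lt_succ_of_lt hi)
      have q2 : c * |z m v - z (m + 1) v| ≤ ed q (s m) (z m) (z (m + 1)) := by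
        apply Real.le_sqrt_of_sq_le
        rw [mul_pow, sq_abs]
        refine hl _ h1 (z m - z (m + 1)) (fun u hu => ?_) ?_ v
        · rw [Pi.sub_apply, h2.2.1 u hu, h3.2.1 u hu, sub_zero]
        · simp only [Pi.sub_apply, Finset.sum_sub_distrib, h2.2.2, h3.2.2, sub_self]
      have q3 := mul_le_mul_of_nonneg_left (abs_sub_le (z 0 v) (z m v) (z (m + 1) v)) hc.le
      rw [Finset.sum_range_succ]
      linarith
  refine le_trans ?_ (mul_le_mul_of_nonneg_right (Nat.le_ceil _) dist_nonneg)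
  rw [one_div, ← div_eq_inv_mul, le_div_iff₀ hc]
  linarith

theorem Cx0.near (h : Cx0 F q n co) : ∃ B : ℕ, n + 2 ≤ B ∧ ∀ x y (a : ℝ),
    (∀ v, |co x v - co y v| ≤ a) → a * B ≤ 1 → dist x y ≤ B * a := by
  classical
  obtain ⟨C, hC, hh⟩ := h.hi
  have n0 : (0 : ℝ) ≤ n := Nat.cast_nonneg n
  have hB : ((n : ℝ) + 2) ≤ 2 * C * (n + 2) := by nlinarith
  have hB2 := Nat.le_ceil (2 * C * (n + 2))
  refine ⟨⌈2 * C * (n + 2)⌉₊, by exact_mod_cast hB.trans hB2, fun x y a ha hb => ?_⟩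
  obtain ⟨s, hs, hx⟩ := h.exF x
  obtain ⟨t, ht, hy⟩ := h.exF y
  obtain ⟨v1, _⟩ : s.Nonempty := Finset.nonempty_of_sum_ne_zero (by rw [hx.2.2]; exact one_ne_zero)
  have a0 : 0 ≤ a := (abs_nonneg _).trans (ha v1)
  have a1 : a * (n + 2) ≤ 1 := (mul_le_mul_of_nonneg_left (hB.trans hB2) a0).trans hb
  set μ : V → ℝ := fun v => min (co x v) (co y v) with hμ
  have m0 : ∀ v, 0 ≤ μ v := fun v => le_min (hx.1 v) (hy.1 v)
  have ms : ∀ v ∉ s, μ v = 0 := fun v hv =>
    le_antisymm ((min_le_left _ _).trans (hx.2.1 v hv).le) (m0 v)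
  have mt : ∀ v ∉ t, μ v = 0 := fun v hv =>
    le_antisymm ((min_le_right _ _).trans (hy.2.1 v hv).le) (m0 v)
  have mx : ∀ v, co x v - a ≤ μ v := fun v =>
    le_min (by linarith) (by linarith [(abs_le.1 (ha v)).2])
  have my : ∀ v, co y v - a ≤ μ v := fun v =>
    le_min (by linarith [(abs_le.1 (ha v)).1]) (by linarith)
  have est : ∑ v ∈ s, μ v = ∑ v ∈ t, μ v := by
    exact (Finset.sum_subset (Finset.inter_subset_left (s₂ := t))
        fun v h1 h2 => mt v fun e => h2 (Finset.mem_inter.2 ⟨h1, e⟩)).symm.trans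
      (Finset.sum_subset (Finset.inter_subset_right (s₁ := s))
        fun v h1 h2 => ms v fun e => h2 (Finset.mem_inter.2 ⟨e, h1⟩))
  have c0 : (s.card : ℝ) ≤ n + 1 := by exact_mod_cast h.dim s hs
  have e1 : 1 - (n + 1) * a ≤ ∑ v ∈ s, μ v := by
    have := Finset.sum_le_sum fun v (_ : v ∈ s) => mx v
    rw [Finset.sum_sub_distrib, hx.2.2, Finset.sum_const, nsmul_eq_mul] at this
    nlinarith
  have e2 : ∑ v ∈ s, μ v ≤ 1 :=
    hx.2.2 ▸ Finset.sum_le_sum fun v (_ : v ∈ s) => min_le_left (co x v) (co y v)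
  obtain ⟨v0, _, hv0⟩ : ∃ v ∈ s, μ v ≠ 0 := by
    apply Finset.exists_ne_zero_of_sum_ne_zero
    intro e
    rw [e] at e1
    have : a ≤ 0 := by nlinarith
    nlinarith
  have vs : v0 ∈ s := by
    by_contra e
    exact hv0 (ms v0 e)
  have vt : v0 ∈ t := by
    by_contra e
    exact hv0 (mt v0 e)
  set δ := 1 - ∑ v ∈ s, μ v with hδ
  set z : V → ℝ := fun v => μ v + if v = v0 then δ else 0 with hz
  have z1 : ∀ v, μ v ≤ z v ∧ z v ≤ μ v + (n + 1) * a := fun v => by
    rw [hz]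
    dsimp only
    split_ifs
    · constructor <;> linarith
    · constructor
      · linarith
      · nlinarith
  have iz : ∀ r : Finset V, v0 ∈ r → (∀ v ∉ r, μ v = 0) → ∑ v ∈ r, μ v = ∑ v ∈ s, μ v →
      In r z := fun r h1 h2 h3 => by
    refine ⟨fun v => (m0 v).trans (z1 v).1, fun v hv => ?_, ?_⟩
    · have : v ≠ v0 := fun e => hv (e ▸ h1)
      simp [hz, h2 v hv, this]
    · simp only [hz, Finset.sum_add_distrib, Finset.sum_ite_eq', if_pos h1, h3, hδ]
      ring
  have is := iz s vs ms rfl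
  have it := iz t vt mt est.symm
  obtain ⟨w, hw⟩ := h.exX hs is
  have b0 : 0 ≤ C * ((n + 2) * a) := by positivity
  have d1 : dist x w ≤ C * ((n + 2) * a) := by
    refine (h.le_ed hs hx (hw ▸ is)).trans ?_
    rw [ed, Real.sqrt_le_left b0, mul_pow, hw]
    refine hh s hs _ _ fun v => abs_le.2 ⟨?_, ?_⟩
    · have := min_le_left (co x v) (co y v)
      have := (z1 v).2
      rw [Pi.sub_apply]
      nlinarith
    · have := mx v
      have := (z1 v).1
      rw [Pi.sub_apply]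
      nlinarith
  have d2 : dist y w ≤ C * ((n + 2) * a) := by
    refine (h.le_ed ht hy (hw ▸ it)).trans ?_
    rw [ed, Real.sqrt_le_left b0, mul_pow, hw]
    refine hh t ht _ _ fun v => abs_le.2 ⟨?_, ?_⟩
    · have := min_le_right (co x v) (co y v)
      have := (z1 v).2
      rw [Pi.sub_apply]
      nlinarith
    · have := my v
      have := (z1 v).1
      rw [Pi.sub_apply]
      nlinarith
  have d3 := dist_triangle_right x y w
  have d4 := mul_le_mul_of_nonneg_right hB2 a0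
  nlinarith

theorem Cx0.nice (h : Cx0 F q n co) : ∃ L B, Nice co n L B := by
  obtain ⟨L, l0, l1⟩ := h.lip
  obtain ⟨B, b0, b1⟩ := h.near
  refine ⟨L, B, fun x => ?_, l0, b0, l1, b1⟩
  obtain ⟨s, hs, hx⟩ := h.exF x
  exact ⟨s, h.dim s hs, hx⟩

end Pool.Agent.Work.MP_9d1ffa_al.Ar
end

-- merged part: Pool.Agent.Work.MP_9d1ffa_al.Ar.Dh
section
/-! Short alternating products are non-trivial in the dihedral Artin groups: the regular module of
the dihedral Hecke algebra at the parameter `-1`, on periodic functions on the integers. -/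

namespace Pool.Agent.Work.MP_9d1ffa_al.Ar

/-- the alternating product of the syllables `T b ^ a₁ * T (!b) ^ a₂ * ⋯` -/
def syl {K : Type*} [Group K] (T : Bool → K) : Bool → List ℤ → K
  | _, [] => 1
  | b, a :: l => T b ^ a * syl T (!b) l

theorem map_syl {K K' : Type*} [Group K] [Group K'] (φ : K →* K') (T : Bool → K) (b : Bool)
    (l : List ℤ) : φ (syl T b l) = syl (fun i => φ (T i)) b l := by
  induction l generalizing b with
  | nil => exact map_one φ
  | cons a l ih => rw [syl, syl, map_mul, map_zpow, ih]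

theorem Dh_split {K : Type*} [Group K] (T : Bool → K) (b : Bool) (l l' : List ℤ) :
    ∃ b', syl T b (l ++ l') = syl T b l * syl T b' l' := by
  induction l generalizing b with
  | nil => exact ⟨b, (one_mul _).symm⟩
  | cons a l ih =>
    obtain ⟨b', h⟩ := ih (!b)
    exact ⟨b', by rw [List.cons_append, syl, syl, h, mul_assoc]⟩

variable {m : ℕ}

/-- the sign of a step -/
def Dh_u (m : ℕ) (p : ℤ) : ℤ := if p % (2 * m) < m then 1 else -1

/-- the sign of a generator -/
def Dh_e (b : Bool) : ℤ := if b then 1 else -1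

theorem Dh_e_not (b : Bool) : Dh_e (!b) = -Dh_e b := by cases b <;> rfl

theorem Dh_e_or (b : Bool) : Dh_e b = 1 ∨ Dh_e b = -1 := by cases b <;> simp [Dh_e]

theorem Dh_u_per (p k : ℤ) : Dh_u m (p + 2 * m * k) = Dh_u m p := by
  rw [Dh_u, Dh_u, Int.add_mul_emod_self_left]

theorem Dh_u_val {p : ℤ} (h0 : 0 ≤ p) (h1 : p < 2 * m) : Dh_u m p = if p < m then 1 else -1 := by
  rw [Dh_u, Int.emod_eq_of_lt h0 h1]

theorem Dh_red (hm : 0 < m) (p : ℤ) : ∃ r k : ℤ, p = r + 2 * m * k ∧ 0 ≤ r ∧ r < 2 * m :=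
  ⟨p % (2 * m), p / (2 * m), (Int.emod_add_mul_ediv _ _).symm, Int.emod_nonneg _ (by omega),
    Int.emod_lt_of_pos _ (by omega)⟩

theorem Dh_u_neg (hm : 0 < m) (p : ℤ) : Dh_u m (-1 - p) = -Dh_u m p := by
  obtain ⟨r, k, rfl, h0, h1⟩ := Dh_red hm p
  rw [Dh_u_per, show -1 - (r + 2 * m * k) = 2 * m - 1 - r + 2 * m * (-k - 1) by ring, Dh_u_per,
    Dh_u_val h0 h1, Dh_u_val (by omega) (by omega)]
  split_ifs <;> omega

theorem Dh_u_sq (p : ℤ) : Dh_u m p = 1 ∨ Dh_u m p = -1 := by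
  unfold Dh_u
  split_ifs <;> simp

theorem Dh_u_succ (hm : 0 < m) (p : ℤ) : Dh_u m (p + 1) = Dh_u m p ∨ ∃ k : ℤ, p + 1 = m * k := by
  obtain ⟨r, k, rfl, h0, h1⟩ := Dh_red hm p
  rcases eq_or_ne (r + 1) (2 * m) with e | e
  · exact Or.inr ⟨2 + 2 * k, by linarith⟩
  rcases eq_or_ne (r + 1) m with e' | e'
  · exact Or.inr ⟨1 + 2 * k, by linarith⟩
  rw [add_right_comm, Dh_u_per, Dh_u_per, Dh_u_val h0 h1, Dh_u_val (by omega) (by omega)]
  left
  split_ifs <;> omega

/-- periodic functions -/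
abbrev Dh_P (m : ℕ) : Type := {f : ℤ → ℤ // ∀ p k : ℤ, f (p + 2 * m * k) = f p}

/-- the powers of the left operators -/
def Dh_op (e a : ℤ) (f : Dh_P m) : Dh_P m :=
  ⟨fun p => f.1 p + a * Dh_u m (e * p) * (f.1 (-e - p) - f.1 p), fun p k => by
    dsimp only
    rw [f.2, show e * (p + 2 * m * k) = e * p + 2 * m * (e * k) by ring, Dh_u_per,
      show -e - (p + 2 * m * k) = -e - p + 2 * m * (-k) by ring, f.2]⟩

/-- the direction of a right move -/
def Dh_d (j p : ℤ) : ℤ := if (p + j) % 2 = 0 then 1 else -1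

/-- the right operators -/
def Dh_rt (j : ℤ) (f : Dh_P m) : Dh_P m :=
  ⟨fun p => f.1 p + Dh_u m (Dh_d j p * p) * (f.1 (p + Dh_d j p) - f.1 p), fun p k => by
    have e : Dh_d j (p + 2 * m * k) = Dh_d j p := by
      rw [Dh_d, Dh_d, add_right_comm, mul_assoc, Int.add_mul_emod_self_left]
    dsimp only
    rw [e, f.2, mul_add, mul_left_comm, Dh_u_per, add_right_comm, f.2]⟩

theorem Dh_op_op (hm : 0 < m) (b : Bool) (a a' : ℤ) (f : Dh_P m) :
    Dh_op (Dh_e b) a (Dh_op (Dh_e b) a' f) = Dh_op (Dh_e b) (a + a') f := by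
  refine Subtype.ext (funext fun p => ?_)
  have e : Dh_e b * (-Dh_e b - p) = -1 - Dh_e b * p := by
    rcases Dh_e_or b with h | h <;> rw [h] <;> ring
  simp only [Dh_op]
  rw [e, Dh_u_neg hm, sub_sub_cancel]
  ring

theorem Dh_op_zero (e : ℤ) (f : Dh_P m) : Dh_op e 0 f = f :=
  Subtype.ext (funext fun p => by simp [Dh_op])

theorem Dh_comm (hm : 0 < m) (b : Bool) (a j : ℤ) (f : Dh_P m) :
    Dh_op (Dh_e b) a (Dh_rt j f) = Dh_rt j (Dh_op (Dh_e b) a f) := by
  refine Subtype.ext (funext fun p => ?_)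
  have e1 : Dh_d j (-Dh_e b - p) = -Dh_d j p := by
    rcases Dh_e_or b with h | h <;> rw [h] <;> unfold Dh_d <;> split_ifs <;> omega
  have e2 : Dh_d j p = Dh_e b ∨ Dh_d j p = -Dh_e b := by
    rcases Dh_e_or b with h | h <;> rw [h] <;> unfold Dh_d <;> split_ifs <;> simp
  have e3 : Dh_e b * Dh_e b = 1 := by rcases Dh_e_or b with h | h <;> rw [h] <;> rfl
  simp only [Dh_op, Dh_rt]
  rw [e1, show -Dh_e b - (p + Dh_d j p) = -Dh_e b - p + -Dh_d j p by ring]
  generalize Dh_e b = e at *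
  rcases e2 with h | h <;> rw [h]
  · rw [show -e * (-e - p) = e * p + 1 by linear_combination e3,
      show e * (p + e) = e * p + 1 by linear_combination e3]
    rcases Dh_u_succ hm (e * p) with r | ⟨k, r⟩
    · rw [r]
      ring
    · rw [show p + e = -e - p + 2 * m * (e * k) by
        linear_combination 2 * e * r - 2 * p * e3, f.2]
      ring
  · rw [show - -e * (-e - p) = -1 - e * p by linear_combination -e3, Dh_u_neg hm,
      show e * (p + -e) = -1 - -e * p by linear_combination -e3, Dh_u_neg hm]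
    rcases Dh_u_succ hm (-1 - e * p) with r | ⟨k, r⟩
    · rw [show -1 - e * p + 1 = -e * p by ring, Dh_u_neg hm] at r
      rw [r]
      rcases Dh_u_sq (m := m) (e * p) with h | h <;> rw [h] <;> ring
    · rw [show p + -e = -e - p + 2 * m * (-e * k) by
        linear_combination -2 * e * r - 2 * p * e3, f.2]
      rcases Dh_u_sq (m := m) (e * p) with h | h <;>
        rcases Dh_u_sq (m := m) (-e * p) with h' | h' <;> rw [h, h'] <;> ring

/-- the generators -/
def Dh_T (hm : 0 < m) (b : Bool) : Equiv.Perm (Dh_P m) :=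
  ⟨Dh_op (Dh_e b) 1, Dh_op (Dh_e b) (-1),
    fun f => by rw [Dh_op_op hm, neg_add_cancel, Dh_op_zero],
    fun f => by rw [Dh_op_op hm, add_neg_cancel, Dh_op_zero]⟩

theorem Dh_zpow (hm : 0 < m) (b : Bool) (a : ℤ) (f : Dh_P m) :
    (Dh_T hm b ^ a) f = Dh_op (Dh_e b) a f := by
  induction a using Int.induction_on generalizing f with
  | zero => exact (Dh_op_zero _ f).symm
  | succ k ih => rw [zpow_add_one, Equiv.Perm.mul_apply, ih]; exact Dh_op_op hm b _ 1 f
  | pred k ih => rw [zpow_sub_one, Equiv.Perm.mul_apply, ih]; exact Dh_op_op hm b _ (-1) f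

theorem Dh_syl_rt (hm : 0 < m) (b : Bool) (l : List ℤ) (j : ℤ) (f : Dh_P m) :
    syl (Dh_T hm) b l (Dh_rt j f) = Dh_rt j (syl (Dh_T hm) b l f) := by
  induction l generalizing b with
  | nil => rfl
  | cons a l ih => simp only [syl, Equiv.Perm.mul_apply, Dh_zpow, ih, Dh_comm hm]

theorem Dh_alt (hm : 0 < m) (r : ℕ) (b : Bool) (k : ℕ) (h : k + r ≤ m) (f : Dh_P m) :
    (syl (Dh_T hm) b (List.replicate r 1) f).1 (Dh_e b * k) =
      f.1 (Dh_e b * (-1) ^ r * (k + r)) := by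
  induction r generalizing b k with
  | zero => simp [syl]
  | succ r ih =>
    have e : Dh_e b * (Dh_e b * k) = k := by rcases Dh_e_or b with h | h <;> rw [h] <;> ring
    have := ih (!b) (k + 1) (by omega)
    simp only [List.replicate_succ, syl, Equiv.Perm.mul_apply, Dh_zpow, Dh_op]
    rw [e, Dh_u_val (by omega) (by omega), if_pos (by omega),
      show -Dh_e b - Dh_e b * k = Dh_e (!b) * (k + 1 : ℕ) by rw [Dh_e_not]; push_cast; ring, this,
      Dh_e_not]
    push_cast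
    ring_nf

theorem Dh_braid (hm : 0 < m) :
    syl (Dh_T hm) true (List.replicate m 1) = syl (Dh_T hm) false (List.replicate m 1) := by
  have key : ∀ (b : Bool) (k : ℕ), k ≤ m → ∀ f,
      (syl (Dh_T hm) true (List.replicate m 1) f).1 (Dh_e b * k) =
        (syl (Dh_T hm) false (List.replicate m 1) f).1 (Dh_e b * k) := fun b k => by
    induction k with
    | zero =>
      intro _ f
      have a := Dh_alt hm m true 0 (by omega) f
      have c := Dh_alt hm m false 0 (by omega) f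
      simp only [Nat.cast_zero, mul_zero] at a c ⊢
      rw [a, c, ← f.2 _ (-(-1) ^ m)]
      simp only [Dh_e]
      push_cast
      ring_nf
    | succ k ih =>
      intro h f
      have e : Dh_e b * (Dh_e b * k) = k := by rcases Dh_e_or b with h | h <;> rw [h] <;> ring
      obtain ⟨j, hj⟩ : ∃ j, Dh_d j (Dh_e b * k) = Dh_e b := by
        refine ⟨if b then k else k + 1, ?_⟩
        cases b <;> simp only [Dh_d, Dh_e] <;> split_ifs <;> omega
      have s : ∀ g : Dh_P m, (Dh_rt j g).1 (Dh_e b * k) = g.1 (Dh_e b * (k + 1 : ℕ)) := fun g => by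
        simp only [Dh_rt]
        rw [hj, e, Dh_u_val (by omega) (by omega), if_pos (by omega)]
        push_cast
        ring_nf
      rw [← s, ← s, ← Dh_syl_rt, ← Dh_syl_rt, ih (by omega)]
  refine Equiv.ext fun f => Subtype.ext (funext fun p => ?_)
  obtain ⟨r, k, e, h0, h1⟩ := Dh_red hm (p + m)
  obtain rfl : p = r - m + 2 * m * k := by omega
  rw [Subtype.property (p := fun f : ℤ → ℤ => ∀ p k : ℤ, f (p + 2 * m * k) = f p),
    Subtype.property (p := fun f : ℤ → ℤ => ∀ p k : ℤ, f (p + 2 * m * k) = f p)]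
  rcases le_total r m with c | c
  · have := key false (m - r).toNat (by omega) f
    rwa [show Dh_e false * ((m - r).toNat : ℤ) = r - m by simp [Dh_e]; omega] at this
  · have := key true (r - m).toNat (by omega) f
    rwa [show Dh_e true * ((r - m).toNat : ℤ) = r - m by simp [Dh_e]; omega] at this

/-- the values near `0` depend on the values at bounded distance -/
def Dh_R (k : ℕ) (g : Equiv.Perm (Dh_P m)) : Prop :=
  ∀ (f : Dh_P m) (n : ℤ), (∀ p, |p| < n + k → f.1 p = 0) → ∀ p, |p| < n → (g f).1 p = 0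

theorem Dh_R_mul {k k' : ℕ} {g g' : Equiv.Perm (Dh_P m)} (h : Dh_R k g) (h' : Dh_R k' g') :
    Dh_R (k + k') (g * g') := fun f n a =>
  h _ n (h' f _ fun p hp => a p (by push_cast; linarith))

theorem Dh_R_pow (hm : 0 < m) (b : Bool) (a : ℤ) : Dh_R 1 (Dh_T hm b ^ a) := fun f n h p hp => by
  have := abs_lt.1 hp
  rw [Dh_zpow]
  simp only [Dh_op]
  rw [h p (by push_cast; linarith), h (-Dh_e b - p) (by
    rcases Dh_e_or b with h | h <;> rw [h, abs_lt] <;> omega)]
  simp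

theorem Dh_R_syl (hm : 0 < m) (b : Bool) (l : List ℤ) :
    Dh_R l.length (syl (Dh_T hm) b l) ∧ Dh_R l.length (syl (Dh_T hm) b l)⁻¹ := by
  induction l generalizing b with
  | nil => exact ⟨fun f n h p hp => h p (by simpa using hp), fun f n h p hp => h p (by simpa using hp)⟩
  | cons a l ih =>
    rw [syl, mul_inv_rev, ← zpow_neg, List.length_cons]
    exact ⟨add_comm 1 l.length ▸ Dh_R_mul (Dh_R_pow hm b a) (ih _).1,
      Dh_R_mul (ih _).2 (Dh_R_pow hm b _)⟩

theorem Dh_lead (hm : 0 < m) (l : List ℤ) (b : Bool) (k : ℕ) (h : k + l.length ≤ m) (f : Dh_P m)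
    (hf : ∀ p : ℤ, |p| < k + l.length → f.1 p = 0) :
    (syl (Dh_T hm) b l f).1 (Dh_e b * k) =
      l.prod * f.1 (Dh_e b * (-1) ^ l.length * (k + l.length)) := by
  induction l generalizing b k with
  | nil => simp [syl]
  | cons a l ih =>
    rw [List.length_cons] at h hf
    have e : Dh_e b * (Dh_e b * k) = k := by rcases Dh_e_or b with h | h <;> rw [h] <;> ring
    have a1 := ih (!b) (k + 1) (by omega) fun p hp => hf p (by push_cast at hp ⊢; linarith)
    have a2 := (Dh_R_syl hm (!b) l).1 f (k + 1) (fun p hp => hf p (by push_cast; linarith))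
      (Dh_e b * k) (by rcases Dh_e_or b with h | h <;> rw [h, abs_lt] <;> omega)
    simp only [syl, Equiv.Perm.mul_apply, Dh_zpow, Dh_op]
    rw [e, Dh_u_val (by omega) (by omega), if_pos (by omega), a2,
      show -Dh_e b - Dh_e b * k = Dh_e (!b) * (k + 1 : ℕ) by rw [Dh_e_not]; push_cast; ring, a1,
      Dh_e_not, List.length_cons, List.prod_cons]
    push_cast
    ring_nf

theorem Dh_girth (hm : 0 < m) (b : Bool) (l : List ℤ) (h0 : l ≠ []) (h1 : l.length < 2 * m)
    (h2 : ∀ a ∈ l, a ≠ 0) : syl (Dh_T hm) b l ≠ 1 := fun e => by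
  have l0 := List.length_pos_iff.2 h0
  obtain ⟨b', s⟩ := Dh_split (Dh_T hm) b (l.take m) (l.drop m)
  rw [List.take_append_drop, e, eq_comm, mul_eq_one_iff_eq_inv] at s
  have r1 : (l.take m).length ≤ m := by simp
  have r2 : (l.drop m).length < (l.take m).length := by
    simp only [List.length_take, List.length_drop]
    omega
  obtain ⟨z, hz⟩ : ∃ z, z = Dh_e b * (-1) ^ (l.take m).length * (l.take m).length := ⟨_, rfl⟩
  have z1 : |z| = (l.take m).length := by
    rw [hz, abs_mul, abs_mul, abs_pow, abs_neg, abs_one, one_pow, Nat.abs_cast]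
    rcases Dh_e_or b with h | h <;> simp [h]
  let f : Dh_P m := ⟨fun p => if (2 * m : ℤ) ∣ p - z then 1 else 0, fun p k => by
    simp only [add_sub_right_comm, dvd_add_left (Dvd.intro k rfl)]⟩
  have hf : ∀ p : ℤ, |p| < (l.take m).length → f.1 p = 0 := fun p hp => if_neg fun d => by
    have := Int.eq_zero_of_abs_lt_dvd d ((abs_sub p z).trans_lt (by omega))
    rw [sub_eq_zero.1 this] at hp
    exact hp.ne z1
  have a1 := Dh_lead hm (l.take m) b 0 (by omega) f (by simpa only [Nat.cast_zero, zero_add])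
  have a2 := (Dh_R_syl hm b' (l.drop m)).2 f 1 (fun p hp => hf p (by omega)) 0 (by simp)
  rw [Nat.cast_zero, mul_zero, zero_add, ← hz, s, a2] at a1
  simp only [f, sub_self, dvd_zero, if_true, mul_one] at a1
  exact h2 0 (List.mem_of_mem_take (List.prod_eq_zero_iff.1 a1.symm)) rfl

/-- a group with the braid relation of length `m` and no alternating relation with fewer than
`2 * m` syllables -/
theorem exists_girth (hm : 0 < m) : ∃ (K : Type) (_ : Group K) (T : Bool → K),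
    syl T true (List.replicate m 1) = syl T false (List.replicate m 1) ∧
      ∀ (b : Bool) (l : List ℤ), l ≠ [] → l.length < 2 * m → (∀ a ∈ l, a ≠ 0) → syl T b l ≠ 1 :=
  ⟨_, inferInstance, Dh_T hm, Dh_braid hm, Dh_girth hm⟩

end Pool.Agent.Work.MP_9d1ffa_al.Ar
end

-- merged part: Pool.Agent.Work.MP_9d1ffa_al.Ar.Df
section
/-! Artin groups and the complex of cosets of the standard subgroups of rank at most two. -/

namespace Pool.Agent.Work.MP_9d1ffa_al.Ar

open Set Pointwise CoxeterSystem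

variable {S : Type} (M : CoxeterMatrix S)

/-- the braid relators -/
def rels : Set (FreeGroup S) :=
  {r | ∃ s t, r = ((braidWord M s t).map FreeGroup.of).prod *
    ((braidWord M t s).map FreeGroup.of).prod⁻¹}

/-- the Artin group -/
abbrev Art : Type := PresentedGroup (rels M)

/-- the standard generators -/
def gn (s : S) : Art M := PresentedGroup.of s

/-- the standard subgroups -/
def Pb (T : Finset S) : Subgroup (Art M) := Subgroup.closure (gn M '' T)

/-- two members of a family -/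
def two {K : Type*} (T : S → K) (s t : S) : Bool → K := fun b => if b then T s else T t

/-- the braid relations for a family -/
def Brd {K : Type*} [Group K] (T : S → K) : Prop :=
  ∀ s t, syl (two T s t) true (List.replicate (M s t) 1) =
    syl (two T s t) false (List.replicate (M s t) 1)

theorem alt_syl {K : Type*} [Group K] (T : S → K) (s t : S) (m : ℕ) :
    ((alternatingWord s t m).map T).prod =
      syl (two T s t) (decide (Even m)) (List.replicate m 1) := by
  induction m with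
  | zero => rfl
  | succ m ih =>
    rw [alternatingWord_succ', List.map_cons, List.prod_cons, ih, List.replicate_succ, syl]
    by_cases h : Even m <;> simp [h, two, Nat.even_add_one]

theorem syl_swap {K : Type*} [Group K] (T : S → K) (s t : S) (b : Bool) (l : List ℤ) :
    syl (two T t s) b l = syl (two T s t) (!b) l := by
  induction l generalizing b with
  | nil => rfl
  | cons a l ih => rw [syl, syl, ih]; cases b <;> simp [two]

theorem brd_iff {K : Type*} [Group K] (T : S → K) : Brd M T ↔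
    ∀ s t, ((braidWord M s t).map T).prod = ((braidWord M t s).map T).prod := by
  refine forall₂_congr fun s t => ?_
  rw [braidWord, braidWord, alt_syl, alt_syl, syl_swap T s t, M.symmetric t s]
  by_cases h : Even (M s t) <;> simp [h, eq_comm]

theorem gn_brd : Brd M (gn M) := by
  refine (brd_iff M _).2 fun s t => ?_
  have h : PresentedGroup.mk (rels M) (((braidWord M s t).map FreeGroup.of).prod *
      ((braidWord M t s).map FreeGroup.of).prod⁻¹) = 1 :=
    PresentedGroup.one_of_mem ⟨s, t, rfl⟩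
  rw [map_mul, map_inv, mul_inv_eq_one, map_list_prod, map_list_prod, List.map_map,
    List.map_map] at h
  exact h

/-- the homomorphism defined by a family with the braid relations -/
def lift {K : Type*} [Group K] {T : S → K} (h : Brd M T) : Art M →* K :=
  PresentedGroup.toGroup (f := T) (by
    rintro _ ⟨s, t, rfl⟩
    rw [map_mul, map_inv, mul_inv_eq_one, map_list_prod, map_list_prod, List.map_map,
      List.map_map]
    have e : FreeGroup.lift T ∘ FreeGroup.of = T := funext fun _ => FreeGroup.lift_apply_of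
    rw [e]
    exact (brd_iff M T).1 h s t)

theorem lift_gn {K : Type*} [Group K] {T : S → K} (h : Brd M T) (s : S) :
    lift M h (gn M s) = T s := PresentedGroup.toGroup.of _

theorem closure_gn : Subgroup.closure (range (gn M)) = ⊤ := PresentedGroup.closure_range_of _

/-- the total exponent -/
def len : Art M →* Multiplicative ℤ :=
  lift M (T := fun _ => Multiplicative.ofAdd 1) ((brd_iff M _).2 fun s t => by
    simp [braidWord, M.symmetric t s])

theorem len_gn (s : S) : len M (gn M s) = Multiplicative.ofAdd 1 := lift_gn _ _ _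

theorem Pb_mono {T T' : Finset S} (h : T ⊆ T') : Pb M T ≤ Pb M T' :=
  Subgroup.closure_mono (image_mono h)

theorem Pb_empty : Pb M ∅ = ⊥ := by simp [Pb]

theorem Pb_one (s : S) : Pb M {s} = Subgroup.zpowers (gn M s) := by
  simp [Pb, Subgroup.zpowers_eq_closure]

theorem gn_mem {T : Finset S} {s : S} (h : s ∈ T) : gn M s ∈ Pb M T :=
  Subgroup.subset_closure ⟨s, h, rfl⟩

/-- the sets of at most two generators with finite label -/
def Sph (T : Finset S) : Prop := T.card ≤ 2 ∧ ∀ s ∈ T, ∀ t ∈ T, M s t ≠ 0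

theorem sph_empty : Sph M ∅ := by simp [Sph]

theorem sph_one (s : S) : Sph M {s} := by simp [Sph]

theorem Sph.mono {M : CoxeterMatrix S} {T T' : Finset S} (h : Sph M T') (e : T ⊆ T') : Sph M T :=
  ⟨(Finset.card_le_card e).trans h.1, fun s a t b => h.2 s (e a) t (e b)⟩

/-- the vertices: cosets with their type, ordered by inclusion -/
abbrev Vx : Type :=
  {p : Finset S × Set (Art M) // Sph M p.1 ∧ ∃ g : Art M, p.2 = g • (Pb M p.1 : Set (Art M))}

instance : MulAction (Art M) (Vx M) where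
  smul g v := ⟨(v.1.1, g • v.1.2), v.2.1, by
    obtain ⟨h, e⟩ := v.2.2
    exact ⟨g * h, by simp only [e, mul_smul]⟩⟩
  one_smul v := Subtype.ext (Prod.ext rfl (one_smul _ v.1.2))
  mul_smul g h v := Subtype.ext (Prod.ext rfl (mul_smul g h v.1.2))

variable {M}

/-- the vertex of type `T` that contains `g` -/
def vt {T : Finset S} (hT : Sph M T) (g : Art M) : Vx M :=
  ⟨(T, g • (Pb M T : Set (Art M))), hT, g, rfl⟩

theorem smul_ty (g : Art M) (v : Vx M) : (g • v).1.1 = v.1.1 := rfl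

theorem vt_ty {T : Finset S} (hT : Sph M T) (g : Art M) : (vt hT g).1.1 = T := rfl

theorem smul_vt {T : Finset S} (hT : Sph M T) (a g : Art M) : a • vt hT g = vt hT (a * g) :=
  Subtype.ext (Prod.ext rfl (mul_smul a g (Pb M T : Set (Art M))).symm)

theorem exists_vt (v : Vx M) : ∃ g, v = vt v.2.1 g := by
  obtain ⟨g, e⟩ := v.2.2
  exact ⟨g, Subtype.ext (Prod.ext rfl e)⟩

theorem vt_le {T T' : Finset S} (hT : Sph M T) (hT' : Sph M T') (g g' : Art M) :
    vt hT g ≤ vt hT' g' ↔ T ⊆ T' ∧ g'⁻¹ * g ∈ Pb M T' := by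
  have e : vt hT g ≤ vt hT' g' ↔
      T ⊆ T' ∧ g • (Pb M T : Set (Art M)) ⊆ g' • (Pb M T' : Set (Art M)) := Iff.rfl
  rw [e]
  refine and_congr_right fun h => ⟨fun k => ?_, fun k => ?_⟩
  · have := k (a := g) ⟨1, (Pb M T).one_mem, mul_one g⟩
    rwa [mem_smul_set_iff_inv_smul_mem] at this
  · rintro _ ⟨p, hp, rfl⟩
    rw [mem_smul_set_iff_inv_smul_mem]
    simp only [smul_eq_mul, ← mul_assoc]
    exact (Pb M T').mul_mem k (Pb_mono M h hp)

theorem vt_eq {T : Finset S} (hT : Sph M T) (g g' : Art M) :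
    vt hT g = vt hT g' ↔ g'⁻¹ * g ∈ Pb M T := by
  refine ⟨fun e => ((vt_le hT hT g g').1 e.le).2, fun k => le_antisymm ?_ ?_⟩
  · exact (vt_le hT hT g g').2 ⟨subset_rfl, k⟩
  · exact (vt_le hT hT g' g).2 ⟨subset_rfl, by simpa using (Pb M T).inv_mem k⟩

theorem ty_mono {u v : Vx M} (h : u ≤ v) : u.1.1 ⊆ v.1.1 := h.1

theorem eq_of_ty {u v : Vx M} (h : u ≤ v) (e : v.1.1.card ≤ u.1.1.card) : u = v := by
  obtain ⟨g, hg⟩ := exists_vt u
  obtain ⟨g', hg'⟩ := exists_vt v
  have e' : u.1.1 = v.1.1 := Finset.eq_of_subset_of_card_le h.1 e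
  refine le_antisymm h ?_
  rw [hg, hg', vt_le] at h ⊢
  refine ⟨e'.ge, ?_⟩
  rw [e']
  simpa using (Pb M _).inv_mem h.2

theorem smul_le (g : Art M) {u v : Vx M} : g • u ≤ g • v ↔ u ≤ v :=
  and_congr Iff.rfl smul_set_subset_smul_set_iff

/-- if `u ≤ v` then a representative of `u` represents `v` -/
theorem vt_of_le {T : Finset S} {hT : Sph M T} {g : Art M} {v : Vx M} (h : vt hT g ≤ v) :
    v = vt v.2.1 g := by
  obtain ⟨g', hg'⟩ := exists_vt v
  rw [hg', vt_le] at h
  exact hg'.trans ((vt_eq _ _ _).2 h.2).symm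

theorem fix_vt {T : Finset S} (hT : Sph M T) (a g : Art M) :
    a • vt hT g = vt hT g ↔ g⁻¹ * a * g ∈ Pb M T := by
  rw [smul_vt, vt_eq, mul_assoc]

variable (M)

/-- the simplices -/
def Fc : Set (Finset (Vx M)) := {s | IsChain (· ≤ ·) (s : Set (Vx M))}

open Classical in
/-- twice the label of a pair -/
noncomputable def mT (T : Finset S) : ℕ := ∑ s ∈ T, ∑ t ∈ T, if s = t then 0 else M s t

/-- the squared distance from the centre of the chamber -/
noncomputable def kp (T : Finset S) : ℝ :=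
  if T.card ≤ 1 then T.card else 1 / Real.sin (Real.pi / mT M T) ^ 2

/-- the squared edge lengths -/
noncomputable def qq (u v : Vx M) : ℝ := |kp M u.1.1 - kp M v.1.1|

/-- the condition of dimension at most two -/
def Dim2 : Prop := ∀ s t u, s ≠ t → t ≠ u → u ≠ s → M s t ≠ 0 → M t u ≠ 0 → M u s ≠ 0 →
  (1 / M s t + 1 / M t u + 1 / M u s : ℚ) ≤ 1

end Pool.Agent.Work.MP_9d1ffa_al.Ar
end

-- merged part: Pool.Agent.Work.MP_9d1ffa_al.Ar.AlD
section
/-! The algebraic facts about the standard subgroups of rank at most two. -/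

namespace Pool.Agent.Work.MP_9d1ffa_al.Ar

variable {S : Type}

/-- girth, linearity modulo the centre, no torsion, uniqueness of roots -/
structure Alg (M : CoxeterMatrix S) : Prop where
  girth : ∀ s t, s ≠ t → ∀ (b : Bool) (l : List ℤ), l ≠ [] → l.length < 2 * M s t →
    (∀ a ∈ l, a ≠ 0) → syl (two (gn M) s t) b l ≠ 1
  lin : ∀ T, Sph M T → ∃ (n : ℕ) (ρ : Pb M T →* GL (Fin n) ℝ), ρ.ker ≤ Subgroup.center _
  tf : ∀ T, Sph M T → ∀ g ∈ Pb M T, IsOfFinOrder g → g = 1
  root : ∀ T, Sph M T → ∀ s ∈ T, ∀ g ∈ Pb M T, ∀ u, IsConj (gn M u) g → ∀ k : ℤ, k ≠ 0 →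
    g ^ k ∈ Subgroup.zpowers (gn M s) → g = gn M s

end Pool.Agent.Work.MP_9d1ffa_al.Ar
end

-- merged part: Pool.Agent.Work.MP_9d1ffa_al.Ar.Gi
section
/-! Short alternating products of two generators are non-trivial in every Artin group. -/

namespace Pool.Agent.Work.MP_9d1ffa_al.Ar

open Real

variable {S : Type} (M : S → S → ℕ)

/-- the reflections -/
noncomputable def Gi_r (s : S) (p : S → ℝ) : S → ℝ := fun u => p u + 2 * cos (π / M s u) * p s

/-- the powers of the generators -/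
noncomputable def Gi_op (s : S) (a : ℤ) (f : (S → ℝ) → ℤ) : (S → ℝ) → ℤ :=
  fun p => f p + a * (if 0 < p s then 1 else -1) * (f (Gi_r M s p) - f p)

variable {M}

theorem Gi_r_zero {s : S} {p : S → ℝ} (h : p s = 0) : Gi_r M s p = p :=
  funext fun u => by rw [Gi_r, h, mul_zero, add_zero]

theorem Gi_op_op {s : S} (h : M s s = 1) (a a' : ℤ) (f : (S → ℝ) → ℤ) :
    Gi_op M s a (Gi_op M s a' f) = Gi_op M s (a + a') f := by
  funext p
  have e : Gi_r M s p s = -p s := by rw [Gi_r, h, Nat.cast_one, div_one, cos_pi]; ring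
  have e' : Gi_r M s (Gi_r M s p) = p := funext fun u => by rw [Gi_r, e, Gi_r]; ring
  simp only [Gi_op]
  rw [e, e']
  rcases lt_trichotomy (p s) 0 with c | c | c
  · rw [if_neg c.not_gt, if_pos (neg_pos.2 c)]
    ring
  · rw [Gi_r_zero c]
    ring
  · rw [if_pos c, if_neg (neg_neg_of_pos c).not_gt]
    ring

theorem Gi_op_zero (s : S) (f : (S → ℝ) → ℤ) : Gi_op M s 0 f = f :=
  funext fun p => by simp [Gi_op]

/-- the generators -/
noncomputable def Gi_T (h : ∀ s, M s s = 1) (s : S) : Equiv.Perm ((S → ℝ) → ℤ) :=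
  ⟨Gi_op M s 1, Gi_op M s (-1),
    fun f => by rw [Gi_op_op (h s), neg_add_cancel, Gi_op_zero],
    fun f => by rw [Gi_op_op (h s), add_neg_cancel, Gi_op_zero]⟩

theorem Gi_zpow (h : ∀ s, M s s = 1) (s : S) (a : ℤ) (f : (S → ℝ) → ℤ) :
    (Gi_T h s ^ a) f = Gi_op M s a f := by
  induction a using Int.induction_on generalizing f with
  | zero => exact (Gi_op_zero _ f).symm
  | succ k ih => rw [zpow_add_one, Equiv.Perm.mul_apply, ih]; exact Gi_op_op (h s) _ 1 f
  | pred k ih => rw [zpow_sub_one, Equiv.Perm.mul_apply, ih]; exact Gi_op_op (h s) _ (-1) f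

/-- the angle in the chamber `k` -/
noncomputable def Gi_th (α η : ℝ) (k : ℤ) : ℝ := if k % 2 = 0 then k * α + η else (k + 1) * α - η

theorem Gi_th_s (α η : ℝ) (k : ℤ) : Gi_th α η (-1 - k) = -Gi_th α η k := by
  unfold Gi_th
  split_ifs <;> first | omega | (push_cast; ring)

theorem Gi_th_t (α η : ℝ) (k : ℤ) : Gi_th α η (1 - k) = 2 * α - Gi_th α η k := by
  unfold Gi_th
  split_ifs <;> first | omega | (push_cast; ring)

theorem Gi_th_n (α η : ℝ) (k : ℤ) : Gi_th α (α - η) (-k) = α - Gi_th α η k := by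
  unfold Gi_th
  split_ifs <;> first | omega | (push_cast; ring)

theorem Gi_th_per {m : ℕ} (hm : 0 < m) (η : ℝ) (k j : ℤ) :
    Gi_th (π / m) η (k + 2 * m * j) = Gi_th (π / m) η k + j * (2 * π) := by
  have m0 : (m : ℝ) ≠ 0 := Nat.cast_ne_zero.2 hm.ne'
  rw [Gi_th, Gi_th, mul_assoc, Int.add_mul_emod_self_left]
  split_ifs <;> push_cast <;> field_simp <;> ring

theorem Gi_sign {m : ℕ} (hm : 0 < m) {η : ℝ} (h0 : 0 ≤ η) (h1 : η ≤ π / m) (k : ℤ) :
    0 ≤ Dh_u m k * sin (Gi_th (π / m) η k) := by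
  have pos : ∀ r : ℤ, 0 ≤ r → r < m → 0 ≤ sin (Gi_th (π / m) η r) := fun r a b => by
    have m0 : (0 : ℝ) < m := Nat.cast_pos.2 hm
    have a0 : 0 ≤ π / m := by positivity
    have a1 : (0 : ℝ) ≤ r * (π / m) := by positivity
    have b1 : (r : ℝ) + 1 ≤ m := by exact_mod_cast b
    have b2 := (mul_le_mul_of_nonneg_right b1 a0).trans_eq (mul_div_cancel₀ _ m0.ne')
    refine sin_nonneg_of_nonneg_of_le_pi ?_ ?_ <;> unfold Gi_th <;> split_ifs <;> linarith
  obtain ⟨r, j, rfl, a, b⟩ := Dh_red hm k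
  rw [Dh_u_per, Gi_th_per hm, sin_add_int_mul_two_pi, Dh_u_val a b]
  split_ifs with c
  · simpa using pos r a c
  · have := pos (-1 - r + 2 * m * 1) (by omega) (by omega)
    rw [Gi_th_per hm, sin_add_int_mul_two_pi, Gi_th_s, sin_neg] at this
    simpa using this

variable (M) in
/-- the circles -/
noncomputable def Gi_P (s t : S) (q : S → ℝ) (r θ : ℝ) : S → ℝ := fun u =>
  q u - r * (cos (π / M s t - θ) * cos (π / M s u) + cos θ * cos (π / M t u)) / sin (π / M s t)

section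

variable (hs : ∀ s t, M s t = M t s) (hd : ∀ s, M s s = 1) {s t : S} (hm : 2 ≤ M s t)
include hm

theorem Gi_sin : 0 < sin (π / M s t) :=
  sin_pos_of_pos_of_lt_pi (div_pos pi_pos (Nat.cast_pos.2 (by omega)))
    (div_lt_self pi_pos (by exact_mod_cast hm))

/-- the pull-back of a function to a circle -/
noncomputable def Gi_pull (q : S → ℝ) (r η : ℝ) (f : (S → ℝ) → ℤ) : Dh_P (M s t) :=
  ⟨fun k => f (Gi_P M s t q r (Gi_th (π / M s t) η k)), fun k j => by
    refine congrArg f (funext fun u => ?_)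
    rw [Gi_th_per (by omega), Gi_P, Gi_P, ← sub_sub, cos_sub_int_mul_two_pi,
      cos_add_int_mul_two_pi]⟩

include hs hd

theorem Gi_P_s (q : S → ℝ) (r θ : ℝ) : Gi_P M s t q r θ s = q s + r * sin θ := by
  have := (Gi_sin hm).ne'
  rw [Gi_P, hd, hs t s, Nat.cast_one, div_one, cos_pi, cos_sub]
  field_simp
  ring

theorem Gi_P_t (q : S → ℝ) (r θ : ℝ) : Gi_P M s t q r θ t = q t + r * sin (π / M s t - θ) := by
  have := (Gi_sin hm).ne'
  rw [Gi_P, hd, Nat.cast_one, div_one, cos_pi]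
  nth_rw 2 [← sub_sub_cancel (π / M s t) θ]
  rw [cos_sub (π / M s t) (π / M s t - θ)]
  field_simp
  ring

variable {q : S → ℝ} {r η : ℝ} (q1 : q s = 0) (q2 : q t = 0) (r0 : 0 ≤ r) (h0 : 0 ≤ η)
  (h1 : η ≤ π / M s t)
include q1 q2 r0 h0 h1

theorem Gi_pull_op (b : Bool) (a : ℤ) (f : (S → ℝ) → ℤ) :
    Gi_pull hm q r η (Gi_op M (if b then s else t) a f) = Dh_op (Dh_e b) a (Gi_pull hm q r η f) := by
  refine Subtype.ext (funext fun k => ?_)
  have s0 := (Gi_sin hm).ne'
  have e1 : Gi_r M (if b then s else t) (Gi_P M s t q r (Gi_th (π / M s t) η k)) =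
      Gi_P M s t q r (Gi_th (π / M s t) η (-Dh_e b - k)) := by
    funext u
    cases b
    · simp only [Dh_e, Bool.false_eq_true, if_false, neg_neg]
      rw [Gi_r, Gi_P_t hs hd hm, q2, Gi_th_t, Gi_P, Gi_P]
      generalize Gi_th (π / M s t) η k = θ
      obtain ⟨φ, rfl⟩ : ∃ φ, θ = π / M s t - φ := ⟨π / M s t - θ, by ring⟩
      rw [sub_sub_cancel, show 2 * (π / M s t) - (π / M s t - φ) = π / M s t + φ by ring,
        sub_add_cancel_left, cos_neg, cos_sub, cos_add]
      field_simp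
      ring
    · simp only [Dh_e, if_true]
      rw [Gi_r, Gi_P_s hs hd hm, q1, Gi_th_s, Gi_P, Gi_P, sub_neg_eq_add, cos_neg, cos_sub, cos_add]
      field_simp
      ring
  have e2 : 0 ≤ Dh_u (M s t) (Dh_e b * k) *
      Gi_P M s t q r (Gi_th (π / M s t) η k) (if b then s else t) := by
    cases b
    · simp only [Dh_e, Bool.false_eq_true, if_false, neg_one_mul]
      rw [Gi_P_t hs hd hm, q2, zero_add, mul_left_comm, ← Gi_th_n]
      exact mul_nonneg r0 (Gi_sign (by omega) (by linarith) (by linarith) _)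
    · simp only [Dh_e, if_true, one_mul]
      rw [Gi_P_s hs hd hm, q1, zero_add, mul_left_comm]
      exact mul_nonneg r0 (Gi_sign (by omega) h0 h1 _)
  simp only [Gi_pull, Gi_op, Dh_op]
  rw [← e1]
  rcases lt_trichotomy (Gi_P M s t q r (Gi_th (π / M s t) η k) (if b then s else t)) 0 with c | c | c
  · rcases Dh_u_sq (m := M s t) (Dh_e b * k) with h | h <;> rw [h] at e2 ⊢
    · exact absurd (by simpa using e2) c.not_ge
    · rw [if_neg c.not_gt]
  · rw [Gi_r_zero c, sub_self, mul_zero, mul_zero]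
  · rcases Dh_u_sq (m := M s t) (Dh_e b * k) with h | h <;> rw [h] at e2 ⊢
    · rw [if_pos c]
    · exact absurd (by simpa using e2) c.not_ge

theorem Gi_pull_syl (b : Bool) (l : List ℤ) (f : (S → ℝ) → ℤ) :
    Gi_pull hm q r η (syl (fun b => Gi_T hd (if b then s else t)) b l f) =
      syl (Dh_T (by omega)) b l (Gi_pull hm q r η f) := by
  induction l generalizing b with
  | nil => rfl
  | cons a l ih =>
    simp only [syl, Equiv.Perm.mul_apply, Dh_zpow, Gi_zpow, Gi_pull_op hs hd hm q1 q2 r0 h0 h1, ih]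

omit q1 q2 r0 h0 h1

theorem Gi_braid : syl (fun b => Gi_T hd (if b then s else t)) true (List.replicate (M s t) 1) =
    syl (fun b => Gi_T hd (if b then s else t)) false (List.replicate (M s t) 1) := by
  refine Equiv.ext fun f => funext fun p => ?_
  have s0 := (Gi_sin hm).ne'
  have a0 : 0 < π / M s t := div_pos pi_pos (Nat.cast_pos.2 (by omega))
  obtain ⟨z, hz⟩ : ∃ z : ℂ, z = ⟨(p t + cos (π / M s t) * p s) / sin (π / M s t), p s⟩ := ⟨_, rfl⟩
  have z1 := Complex.norm_mul_cos_arg z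
  have z2 := Complex.norm_mul_sin_arg z
  obtain ⟨k, η, h0, h1, e⟩ : ∃ k η, 0 ≤ η ∧ η ≤ π / M s t ∧ Gi_th (π / M s t) η k = z.arg := by
    have b1 := (le_div_iff₀ a0).1 (Int.floor_le (z.arg / (π / M s t)))
    have b2 := (div_lt_iff₀ a0).1 (Int.lt_floor_add_one (z.arg / (π / M s t)))
    generalize ⌊z.arg / (π / M s t)⌋ = k at b1 b2
    by_cases c : k % 2 = 0
    · exact ⟨k, z.arg - k * (π / M s t), by linarith, by linarith, by rw [Gi_th, if_pos c]; ring⟩
    · exact ⟨k, (k + 1) * (π / M s t) - z.arg, by linarith, by linarith,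
        by rw [Gi_th, if_neg c]; ring⟩
  have e1 : z.re = (p t + cos (π / M s t) * p s) / sin (π / M s t) := by rw [hz]
  have e2 : z.im = p s := by rw [hz]
  have key := fun b => congrArg (fun g : Dh_P (M s t) => g.1 k)
    (Gi_pull_syl hs hd hm (q := p - Gi_P M s t 0 ‖z‖ z.arg) (r := ‖z‖) (η := η)
      (by rw [Pi.sub_apply, Gi_P_s hs hd hm, z2, e2]; simp)
      (by
        rw [Pi.sub_apply, Gi_P_t hs hd hm, sin_sub, mul_sub, mul_left_comm, z1, mul_left_comm, z2,
          e1, e2, mul_div_cancel₀ _ s0]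
        simp)
      (norm_nonneg z) h0 h1 b (List.replicate (M s t) 1) f)
  have e3 : Gi_P M s t (p - Gi_P M s t 0 ‖z‖ z.arg) ‖z‖ z.arg = p :=
    funext fun u => by simp [Gi_P]
  have k1 := key true
  have k2 := key false
  rw [Dh_braid, ← k2] at k1
  simpa only [Gi_pull, e, e3] using k1

theorem Gi_girth (b : Bool) (l : List ℤ) (h0 : l ≠ []) (h1 : l.length < 2 * M s t)
    (h2 : ∀ a ∈ l, a ≠ 0) : syl (fun b => Gi_T hd (if b then s else t)) b l ≠ 1 := fun e => by
  classical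
  refine Dh_girth (by omega) b l h0 h1 h2 (Equiv.ext fun g => ?_)
  have s0 := (Gi_sin hm).ne'
  have m0 : (0 : ℝ) < M s t := Nat.cast_pos.2 (by omega)
  have a0 : 0 < π / M s t := div_pos pi_pos m0
  have th : ∀ k : ℤ, Gi_th (π / M s t) (π / M s t / 2) k = (k + 1 / 2) * (π / M s t) := fun k => by
    unfold Gi_th
    split_ifs <;> ring
  let f : (S → ℝ) → ℤ := fun p =>
    if h : ∃ k, Gi_P M s t 0 1 (Gi_th (π / M s t) (π / M s t / 2) k) = p then g.1 h.choose else 0
  have hf : Gi_pull hm 0 1 (π / M s t / 2) f = g := Subtype.ext (funext fun k => by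
    have h : ∃ k', Gi_P M s t 0 1 (Gi_th (π / M s t) (π / M s t / 2) k') =
        Gi_P M s t 0 1 (Gi_th (π / M s t) (π / M s t / 2) k) := ⟨k, rfl⟩
    simp only [Gi_pull, f, dif_pos h]
    have a := h.choose_spec
    generalize h.choose = k' at a
    have a1 := congrFun a s
    have a2 := congrFun a t
    rw [Gi_P_s hs hd hm, Gi_P_s hs hd hm, add_right_inj, one_mul, one_mul] at a1
    rw [Gi_P_t hs hd hm, Gi_P_t hs hd hm, add_right_inj, one_mul, one_mul, sin_sub, sin_sub, a1,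
      sub_left_inj] at a2
    obtain ⟨j, hj⟩ := Angle.angle_eq_iff_two_pi_dvd_sub.1
      (Angle.cos_sin_inj (mul_left_cancel₀ s0 a2) a1)
    rw [th, th] at hj
    have : (k' : ℝ) = k + 2 * M s t * j := by
      field_simp at hj
      linarith
    rw [show k' = k + 2 * M s t * j by exact_mod_cast this, g.2])
  rw [← hf, ← Gi_pull_syl hs hd hm rfl rfl zero_le_one (by linarith) (by linarith), e]
  rfl

end

/-- a group with the braid relations and no short alternating relations -/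
theorem exists_girth_all (hs : ∀ s t, M s t = M t s) (hd : ∀ s, M s s = 1)
    (h1 : ∀ s t, s ≠ t → M s t ≠ 1) : ∃ (K : Type) (_ : Group K) (T : S → K),
    (∀ s t, syl (fun b => T (if b then s else t)) true (List.replicate (M s t) 1) =
      syl (fun b => T (if b then s else t)) false (List.replicate (M s t) 1)) ∧
    ∀ s t, s ≠ t → ∀ (b : Bool) (l : List ℤ), l ≠ [] → l.length < 2 * M s t → (∀ a ∈ l, a ≠ 0) →
      syl (fun b => T (if b then s else t)) b l ≠ 1 := by
  refine ⟨_, inferInstance, Gi_T hd, fun s t => ?_, fun s t e b l a c =>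
    Gi_girth hs hd (by have := h1 s t e; omega) b l a c⟩
  rcases eq_or_ne s t with rfl | e
  · simp [hd, syl]
  rcases Nat.eq_zero_or_pos (M s t) with c | c
  · rw [c]
    rfl
  exact Gi_braid hs hd (by have := h1 s t e; omega)

end Pool.Agent.Work.MP_9d1ffa_al.Ar
end

-- merged part: Pool.Agent.Work.MP_9d1ffa_al.Ar.Nf
section
/-! Dual generators and normal forms for two elements with a braid relation. -/

namespace Pool.Agent.Work.MP_9d1ffa_al.Ar

variable {K : Type*} [Group K]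

/-- the dual generators -/
def Nf_a (s t : K) (i : ℤ) : K :=
  (s * t) ^ (-(i / 2)) * (if i % 2 = 0 then s else t) * (s * t) ^ (i / 2)

theorem Nf_zero (s t : K) : Nf_a s t 0 = s := by simp [Nf_a]

theorem Nf_one (s t : K) : Nf_a s t 1 = t := by simp [Nf_a]

theorem Nf_mul (s t : K) (i : ℤ) : Nf_a s t i * Nf_a s t (i + 1) = s * t := by
  unfold Nf_a
  by_cases h : i % 2 = 0
  · rw [if_pos h, if_neg (by omega), show (i + 1) / 2 = i / 2 by omega]
    generalize i / 2 = k
    calc _ = (s * t) ^ (-k) * (s * t * (s * t) ^ k) := by simp [mul_assoc]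
      _ = _ := by group
  · rw [if_neg h, if_pos (by omega), show (i + 1) / 2 = i / 2 + 1 by omega, neg_add_rev, zpow_add,
      zpow_add_one, (Commute.zpow_zpow_self _ (-1) _).eq, ← (Commute.self_zpow _ (i / 2)).eq]
    generalize i / 2 = k
    calc _ = (s * t) ^ (-k) * t * ((s * t) ^ (-1 : ℤ) * s) * (s * t * (s * t) ^ k) := by group
      _ = (s * t) ^ (-k) * (s * t * (s * t) ^ k) := by simp [mul_assoc]
      _ = _ := by group

section

variable {a b : ℤ → K} {d : K} (ha : ∀ i, a i * a (i + 1) = d)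
include ha

theorem Nf_ext (hb : ∀ i, b i * b (i + 1) = d) (h : a 0 = b 0) (i : ℤ) : a i = b i := by
  induction i using Int.induction_on with
  | zero => exact h
  | succ k ih => exact mul_left_cancel ((ha k).trans (ih ▸ hb k).symm)
  | pred k ih =>
    have h1 := ha (-k - 1)
    have h2 := hb (-k - 1)
    rw [sub_add_cancel] at h1 h2
    exact mul_right_cancel (h1.trans (ih ▸ h2).symm)

theorem Nf_shift (k i : ℤ) : d ^ k * a i = a (i - 2 * k) * d ^ k := by
  have one : ∀ i, d * a i = a (i - 2) * d := fun i => by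
    have h1 := ha (i - 2)
    have h2 := ha (i - 2 + 1)
    rw [show i - 2 + 1 + 1 = i by ring] at h2
    conv_lhs => rw [← h1]
    rw [mul_assoc, h2]
  induction k using Int.induction_on generalizing i with
  | zero => simp
  | succ k ih =>
    rw [zpow_add_one, mul_assoc, one, ← mul_assoc, ih, mul_assoc]
    congr 2
    ring
  | pred k ih =>
    have := one (i + 2)
    rw [add_sub_cancel_right, ← eq_inv_mul_iff_mul_eq, ← mul_assoc, ← mul_inv_eq_iff_eq_mul] at this
    rw [zpow_sub_one, mul_assoc, ← this, ← mul_assoc, ih, mul_assoc]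
    congr 2
    ring

theorem Nf_list (k : ℤ) (l : List ℤ) :
    d ^ k * (l.map a).prod = ((l.map (· - 2 * k)).map a).prod * d ^ k := by
  induction l with
  | nil => simp
  | cons i l ih =>
    simp only [List.map_cons, List.prod_cons]
    rw [← mul_assoc, Nf_shift ha, mul_assoc, ih, mul_assoc]

theorem Nf_braid {T : Bool → K} (h0 : T true = a 0) (h1 : T false = a 1) (n : ℕ) :
    syl T true (List.replicate (n + 1) 1) = syl T false (List.replicate (n + 1) 1) ↔
      a (-n) = a 1 := by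
  have two : ∀ n, syl T true (List.replicate (n + 2) 1) = d * syl T true (List.replicate n 1) :=
    fun n => by simp [List.replicate_succ, syl, h0, h1, ← ha 0, mul_assoc]
  have key : ∀ n : ℕ, syl T true (List.replicate (n + 1) 1) =
      a (-n) * syl T true (List.replicate n 1) := fun n => by
    induction n using Nat.twoStepInduction with
    | zero => simp [syl, h0]
    | one => simpa [syl, h0, h1] using (ha 0).trans (ha (-1)).symm
    | more n ih _ =>
      have := Nf_shift ha 1 (-n)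
      rw [zpow_one] at this
      rw [add_right_comm, two, ih, two, ← mul_assoc, this, mul_assoc]
      congr 2
      push_cast
      ring
  rw [key, List.replicate_succ, syl, zpow_one, h1, Bool.not_false, mul_left_inj]

theorem Nf_per {m : ℤ} (h : a (1 - m) = a 1) {i j : ℤ} (e : m ∣ j - i) : a j = a i := by
  have one : ∀ i, a (i - m) = a i := fun i => by
    have := Nf_ext (a := fun i => a (i + 1 - m)) (b := fun i => a (i + 1))
      (fun i => by simpa only [add_sub_right_comm] using ha (i + 1 - m)) (fun i => ha _)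
      (by simpa using h) (i - 1)
    simpa using this
  obtain ⟨k, e⟩ := e
  obtain rfl : j = i + m * k := by linarith
  clear e
  induction k using Int.induction_on with
  | zero => simp
  | succ k ih => rw [← one, ← ih]; congr 1; ring
  | pred k ih => rw [← ih, ← one (i + m * -k)]; congr 1; ring

/-- normal forms -/
theorem Nf_exists {m : ℤ} (h : a (1 - m) = a 1) {x : K} (hx : x ∈ Subgroup.closure {a 0, a 1}) :
    ∃ (l : List ℤ) (k : ℤ), l.IsChain (fun i j => ¬ m ∣ j - i - 1) ∧ x = (l.map a).prod * d ^ k := by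
  have sh : ∀ (n : ℤ) (x : K), (∃ (l : List ℤ) (k : ℤ), l.IsChain (fun i j => ¬ m ∣ j - i - 1) ∧
      x = (l.map a).prod * d ^ k) → ∃ (l : List ℤ) (k : ℤ),
      l.IsChain (fun i j => ¬ m ∣ j - i - 1) ∧ d ^ n * x = (l.map a).prod * d ^ k := by
    rintro n _ ⟨l, k, c, rfl⟩
    refine ⟨l.map (· - 2 * n), n + k, ?_, by rw [← mul_assoc, Nf_list ha, mul_assoc, zpow_add]⟩
    simpa only [List.isChain_map, sub_sub_sub_cancel_right] using c
  have lf : ∀ (i : ℤ) (x : K), (∃ (l : List ℤ) (k : ℤ), l.IsChain (fun i j => ¬ m ∣ j - i - 1) ∧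
      x = (l.map a).prod * d ^ k) → ∃ (l : List ℤ) (k : ℤ),
      l.IsChain (fun i j => ¬ m ∣ j - i - 1) ∧ a i * x = (l.map a).prod * d ^ k := by
    rintro i _ ⟨l, k, c, rfl⟩
    cases l with
    | nil => exact ⟨[i], k, List.isChain_singleton _, by simp⟩
    | cons j l =>
      by_cases e : m ∣ j - i - 1
      · obtain ⟨l', k', c', e'⟩ := sh 1 _ ⟨l, k, c.tail, rfl⟩
        refine ⟨l', k', c', ?_⟩
        rw [← e', List.map_cons, List.prod_cons, Nf_per ha h (i := i + 1) (j := j) (by rwa [← sub_sub]),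
          zpow_one, ← ha i]
        simp only [mul_assoc]
      · exact ⟨i :: j :: l, k, c.cons_cons e, by simp [mul_assoc]⟩
  induction hx using Subgroup.closure_induction_left with
  | one => exact ⟨[], 0, List.isChain_nil, by simp⟩
  | mul_left x hx y _ ih => rcases hx with rfl | rfl <;> exact lf _ _ ih
  | inv_mul_cancel x hx y _ ih =>
    have : ∀ i, (a i)⁻¹ * y = a (i + 1) * (d ^ (-1 : ℤ) * y) := fun i => by
      rw [← ha i]
      group
    rcases hx with rfl | rfl <;> rw [this] <;> exact lf _ _ (sh _ _ ih)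

end

end Pool.Agent.Work.MP_9d1ffa_al.Ar
end

-- merged part: Pool.Agent.Work.MP_9d1ffa_al.Ar.Pp
section
/-! Ping-pong for the dual generators. -/

namespace Pool.Agent.Work.MP_9d1ffa_al.Ar

/-- a ping-pong table with `m` cyclically arranged pieces -/
structure Pp {G P : Type*} [Group G] [MulAction G P] (m : ℤ) (a : ℤ → G) (d : G)
    (In : ℤ → P → Prop) : Prop where
  hm : 3 ≤ m
  mul : ∀ i, a i * a (i + 1) = d
  per : a (1 - m) = a 1
  pp : ∀ i j p, In j p → ¬ m ∣ j - i → In (i - 1) (a i • p)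
  rot : ∀ j p, In j (d • p) ↔ In (j + 2) p
  uniq : ∀ j j' p, In j p → In j' p → m ∣ j - j'
  ex : ∀ j, ∃ p, In j p

namespace Pp

variable {G P : Type*} [Group G] [MulAction G P] {m : ℤ} {a : ℤ → G} {d : G}
  {In : ℤ → P → Prop} (h : Pp m a d In)
include h

theorem rot_zpow (k j : ℤ) (p : P) : In j (d ^ k • p) ↔ In (j + 2 * k) p := by
  induction k using Int.induction_on generalizing j p with
  | zero => simp
  | succ k ih => rw [zpow_add_one, mul_smul, ih, h.rot, mul_add, mul_one, add_assoc]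
  | pred k ih =>
    rw [zpow_sub_one, mul_smul, ih, show j + 2 * -(k : ℤ) = j + 2 * (-k - 1) + 2 by ring, ← h.rot,
      smul_inv_smul]

theorem list {l l' : List ℤ} {i i' j k : ℤ} {p : P} (e : i :: l = l' ++ [i'])
    (c : (i :: l).IsChain fun i j => ¬ m ∣ j - i - 1) (hp : In j p) (n : ¬ m ∣ j - 2 * k - i') :
    In (i - 1) ((((i :: l).map a).prod * d ^ k) • p) := by
  rw [mul_smul]
  have q : In (j - 2 * k) (d ^ k • p) := (h.rot_zpow ..).2 (by rwa [sub_add_cancel])
  induction l generalizing i l' with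
  | nil =>
    obtain rfl : i = i' := by cases l' <;> simp_all
    simpa using h.pp i _ _ q n
  | cons i2 l ih =>
    cases l' with
    | nil => simp at e
    | cons i3 l' =>
      rw [List.map_cons, List.prod_cons, mul_smul]
      refine h.pp i _ _ (ih (List.cons.inj e).2 c.tail) ?_
      rw [sub_right_comm]
      exact (List.isChain_cons_cons.1 c).1

theorem third (u v : ℤ) : ∃ j, ¬ m ∣ j - u ∧ ¬ m ∣ j - v := by
  have m3 := h.hm
  have k : ∀ x : ℤ, 0 < x → x < 3 → ¬ m ∣ x := fun x a b c => by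
    have := Int.le_of_dvd a c
    omega
  by_cases c : m ∣ u + 1 - v
  · refine ⟨u + 2, by simpa using k 2 (by omega) (by omega), fun e => k 1 (by omega) (by omega) ?_⟩
    simpa using dvd_sub e c
  · exact ⟨u + 1, by simpa using k 1 (by omega) (by omega), c⟩

/-- the elements that fix a point of each piece -/
theorem ker {x : G} (hx : x ∈ Subgroup.closure {a 0, a 1}) (e : ∀ j, ∃ p, In j p ∧ x • p = p) :
    ∃ k, m ∣ 2 * k ∧ x = d ^ k := by
  obtain ⟨l, k, c, rfl⟩ := Nf_exists h.mul h.per hx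
  cases l with
  | nil =>
    obtain ⟨p, hp, e⟩ := e 0
    rw [List.map_nil, List.prod_nil, one_mul] at e ⊢
    exact ⟨k, by simpa using h.uniq _ _ p ((h.rot_zpow k 0 p).1 (by rwa [e])) hp, rfl⟩
  | cons i l =>
    obtain ⟨l', i', e'⟩ := (List.eq_nil_or_concat' (i :: l)).resolve_left (List.cons_ne_nil _ _)
    obtain ⟨j, j1, j2⟩ := h.third (2 * k + i') (i - 1)
    obtain ⟨p, hp, e⟩ := e j
    have := h.list e' c hp (k := k) (by rwa [sub_sub])
    rw [e] at this
    exact absurd (h.uniq _ _ p hp this) j2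

theorem central {k : ℤ} (e : m ∣ 2 * k) {x : G} (hx : x ∈ Subgroup.closure {a 0, a 1}) :
    x * d ^ k = d ^ k * x := by
  have : ∀ i, a i ∈ Subgroup.centralizer {d ^ k} := fun i =>
    Subgroup.mem_centralizer_singleton_iff.2 (by
      rw [Nf_shift h.mul, Nf_per h.mul h.per (i := i - 2 * k) (j := i) (by simpa using e)])
  exact Subgroup.mem_centralizer_singleton_iff.1 ((Subgroup.closure_le _).2
    (by rintro _ (rfl | rfl) <;> exact this _) hx)

variable (len : G →* Multiplicative ℤ) (hl : ∀ i, len (a i) = Multiplicative.ofAdd 1)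
include hl

theorem len_d (k : ℤ) : (len (d ^ k)).toAdd = 2 * k := by
  rw [← h.mul 0, map_zpow, map_mul, hl, hl]
  simp [mul_comm k]

theorem tf {x : G} (hx : x ∈ Subgroup.closure {a 0, a 1}) (e : IsOfFinOrder x) : x = 1 := by
  obtain ⟨l, k, c, rfl⟩ := Nf_exists h.mul h.per hx
  clear hx
  have z : ∀ x : G, IsOfFinOrder x → (len x).toAdd = 0 := fun x e =>
    toAdd_eq_zero.2 ((isOfFinOrder_iff_eq_one _).1 (len.isOfFinOrder e))
  induction hn : l.length using Nat.strong_induction_on generalizing l k with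
  | _ n ih =>
  cases l with
  | nil =>
    rw [List.map_nil, List.prod_nil, one_mul] at e ⊢
    have := z _ e
    rw [h.len_d len hl] at this
    rw [show k = 0 by omega, zpow_zero]
  | cons i l =>
    obtain ⟨l', i', e'⟩ := (List.eq_nil_or_concat' (i :: l)).resolve_left (List.cons_ne_nil _ _)
    by_cases r : m ∣ i - 1 - 2 * k - i'
    · cases l' with
      | nil =>
        have := z _ e
        rw [e', List.nil_append, List.map_singleton, List.prod_singleton, map_mul, toAdd_mul,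
          h.len_d len hl, hl, toAdd_ofAdd] at this
        omega
      | cons i2 l' =>
        obtain rfl : l = l' ++ [i'] := (List.cons.inj e').2
        have k1 : a i' * d ^ k * a i = d ^ (k + 1) := by
          rw [mul_assoc, Nf_shift h.mul, Nf_per h.mul h.per (i := i' + 1) (j := i - 2 * k)
            (by convert r using 1; ring), ← mul_assoc, h.mul, add_comm, zpow_one_add]
        have k2 : ((i :: (l' ++ [i'])).map a).prod * d ^ k =
            a i * ((l'.map a).prod * d ^ (k + 1)) * (a i)⁻¹ := by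
          simp [← k1, mul_assoc]
        rw [k2] at e ⊢
        rw [ih _ (by rw [← hn]; simp) l' (k + 1) c.tail.left_of_append
          (by simpa [mul_assoc] using (MulAut.conj (a i)⁻¹).toMonoidHom.isOfFinOrder e) rfl]
        simp
    · obtain ⟨j, j1, j2⟩ := h.third (2 * k + i') (i - 1)
      obtain ⟨p, hp⟩ := h.ex j
      have key : ∀ n : ℕ, In (i - 1) ((((i :: l).map a).prod * d ^ k) ^ (n + 1) • p) := fun n => by
        induction n with
        | zero => simpa only [zero_add, pow_one] using h.list e' c hp (k := k) (by rwa [sub_sub])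
        | succ n ih => rw [pow_succ', mul_smul]; exact h.list e' c ih r
      obtain ⟨n, n0, n1⟩ := isOfFinOrder_iff_pow_eq_one.1 e
      have := key (n - 1)
      rw [Nat.sub_add_cancel n0, n1, one_smul] at this
      exact absurd (h.uniq _ _ p hp this) j2

end Pp

end Pool.Agent.Work.MP_9d1ffa_al.Ar
end

-- merged part: Pool.Agent.Work.MP_9d1ffa_al.Ar.Tv
section
/-! The representation of an Artin group by transvections. -/

namespace Pool.Agent.Work.MP_9d1ffa_al.Ar

open Real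

/-- transvections -/
def Tv_u {V : Type*} [AddCommGroup V] [Module ℝ V] (f : V →ₗ[ℝ] ℝ) (v : V) (h : f v = 0) :
    (Module.End ℝ V)ˣ :=
  ⟨1 + f.smulRight v, 1 - f.smulRight v, by ext p; simp [h], by ext p; simp [h]⟩

theorem Tv_u_apply {V : Type*} [AddCommGroup V] [Module ℝ V] (f : V →ₗ[ℝ] ℝ) (v : V) (h : f v = 0)
    (p : V) : Tv_u f v h • p = p + f p • v := rfl

theorem Tv_u_sq {V : Type*} [AddCommGroup V] [Module ℝ V] (f : V →ₗ[ℝ] ℝ) (v : V) (h : f v = 0) :
    ((Tv_u f v h : Module.End ℝ V) - 1) * (Tv_u f v h - 1) = 0 := by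
  ext p
  simp [Tv_u, h]

theorem Tv_zpow {R : Type*} [Ring R] {u : Rˣ} (h : ((u : R) - 1) * (u - 1) = 0) (k : ℤ) :
    ((u ^ k : Rˣ) : R) = 1 + k • ((u : R) - 1) := by
  obtain ⟨n, e⟩ : ∃ n, (u : R) = 1 + n := ⟨u - 1, by simp⟩
  rw [e, add_sub_cancel_left] at h ⊢
  induction k using Int.induction_on with
  | zero => simp
  | succ k ih =>
    rw [zpow_add_one, Units.val_mul, ih, e, add_mul, one_mul, mul_add, mul_one, smul_mul_assoc, h,
      add_smul, one_smul, smul_zero]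
    abel
  | pred k ih =>
    rw [zpow_sub_one, Units.val_mul, ih, Units.mul_inv_eq_iff_eq_mul, e, add_mul, one_mul, mul_add,
      mul_one, smul_mul_assoc, h, sub_smul, one_smul, smul_zero]
    abel

theorem Tv_root {V : Type*} [AddCommGroup V] [Module ℝ V] {u w : (Module.End ℝ V)ˣ}
    (h : ((u : Module.End ℝ V) - 1) * (u - 1) = 0) (h' : ((w : Module.End ℝ V) - 1) * (w - 1) = 0)
    {k : ℤ} (k0 : k ≠ 0) (e : u ^ k = w ^ k) : u = w := by
  have := (Tv_zpow h k).symm.trans (e ▸ Tv_zpow h' k)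
  rw [add_right_inj, ← Int.cast_smul_eq_zsmul ℝ, ← Int.cast_smul_eq_zsmul ℝ] at this
  exact Units.ext (sub_left_inj.1 (smul_right_injective _ (Int.cast_ne_zero.2 k0) this))

/-- the normalised sines -/
noncomputable def Tv_e (m : ℕ) (i : ℤ) : ℝ := sin (i * (π / m)) / sin (π / m)

section

variable {m : ℕ} (hm : 2 ≤ m)

theorem Tv_neg (i : ℤ) : Tv_e m (-i) = -Tv_e m i := by
  rw [Tv_e, Tv_e, Int.cast_neg, neg_mul, sin_neg, neg_div]

theorem Tv_zero : Tv_e m 0 = 0 := by simp [Tv_e]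

include hm

theorem Tv_sin : 0 < sin (π / m) :=
  sin_pos_of_pos_of_lt_pi (div_pos pi_pos (Nat.cast_pos.2 (by omega)))
    (div_lt_self pi_pos (by exact_mod_cast hm))

theorem Tv_one : Tv_e m 1 = 1 := by simp [Tv_e, (Tv_sin hm).ne']

theorem Tv_add (a n : ℤ) :
    Tv_e m a * Tv_e m (1 - n) + Tv_e m (a + 1) * Tv_e m n = Tv_e m (a + n) := by
  have := (Tv_sin hm).ne'
  simp only [Tv_e]
  push_cast
  simp only [add_mul, sub_mul, one_mul, sin_add, sin_sub]
  field_simp
  ring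

theorem Tv_two (a : ℤ) : Tv_e m (a + 2) = 2 * cos (π / m) * Tv_e m (a + 1) - Tv_e m a := by
  have := (Tv_sin hm).ne'
  have e : Tv_e m 2 = 2 * cos (π / m) := by
    rw [Tv_e, Int.cast_ofNat, sin_two_mul]
    field_simp
  rw [← Tv_add hm, e, show (1 - 2 : ℤ) = -1 from rfl, Tv_neg, Tv_one hm]
  ring

theorem Tv_per (i k : ℤ) : Tv_e m (i + m * k) = (-1) ^ k * Tv_e m i := by
  have m0 : (m : ℝ) ≠ 0 := Nat.cast_ne_zero.2 (by omega)
  rw [Tv_e, Tv_e, show ((i + m * k : ℤ) : ℝ) * (π / m) = i * (π / m) + k * π by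
    push_cast; field_simp, sin_add_int_mul_pi, mul_div_assoc]

theorem Tv_nonneg {i : ℤ} (h0 : 0 ≤ i) (h1 : i ≤ m) : 0 ≤ Tv_e m i := by
  have m0 : (0 : ℝ) < m := Nat.cast_pos.2 (by omega)
  refine div_nonneg (sin_nonneg_of_nonneg_of_le_pi (by positivity) ?_) (Tv_sin hm).le
  exact (mul_le_mul_of_nonneg_right (by exact_mod_cast h1) (by positivity)).trans_eq
    (mul_div_cancel₀ _ m0.ne')

theorem Tv_pos {i : ℤ} (h0 : 0 < i) (h1 : i < m) : 0 < Tv_e m i := by
  have m0 : (0 : ℝ) < m := Nat.cast_pos.2 (by omega)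
  refine div_pos (sin_pos_of_pos_of_lt_pi (by positivity) ?_) (Tv_sin hm)
  exact (mul_lt_mul_of_pos_right (by exact_mod_cast h1) (by positivity)).trans_eq
    (mul_div_cancel₀ _ m0.ne')

end

variable {S : Type} [LinearOrder S] (M : S → S → ℕ)

/-- the skew form -/
noncomputable def Tv_c (s u : S) : ℝ :=
  if s < u then 2 * cos (π / M s u) else if u < s then -(2 * cos (π / M s u)) else 0

/-- the generators -/
noncomputable def Tv_T (s : S) : (Module.End ℝ (S → ℝ))ˣ :=
  Tv_u (LinearMap.proj s) (Tv_c M s) (by simp [Tv_c])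

/-- the forms of the dual generators -/
noncomputable def Tv_D (s t : S) (i : ℤ) : (S → ℝ) →ₗ[ℝ] ℝ :=
  Tv_e (M s t) (1 - i) • LinearMap.proj s + Tv_e (M s t) i • LinearMap.proj t

/-- the vectors of the dual generators -/
noncomputable def Tv_v (s t : S) (i : ℤ) : S → ℝ :=
  Tv_e (M s t) (1 - i) • Tv_c M s + Tv_e (M s t) i • Tv_c M t

variable {M} {s t : S} (hs : M t s = M s t) (lt : s < t) (hm : 2 ≤ M s t)

theorem Tv_D_apply (i : ℤ) (p : S → ℝ) :
    Tv_D M s t i p = Tv_e (M s t) (1 - i) * p s + Tv_e (M s t) i * p t := rfl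

include hm

theorem Tv_D_two (i : ℤ) (p : S → ℝ) : Tv_D M s t (i + 2) p =
    2 * cos (π / M s t) * Tv_D M s t (i + 1) p - Tv_D M s t i p := by
  have := Tv_two hm (-1 - i)
  rw [Tv_D_apply, Tv_D_apply, Tv_D_apply, Tv_two hm, show 1 - i = -1 - i + 2 by ring, this,
    show 1 - (i + 2) = -1 - i by ring, show 1 - (i + 1) = -1 - i + 1 by ring]
  ring

theorem Tv_D_per (i k : ℤ) : Tv_D M s t (i + M s t * k) = (-1 : ℝ) ^ k • Tv_D M s t i := by
  rw [Tv_D, Tv_D, Tv_per hm, show 1 - (i + M s t * k) = -(i - 1 + M s t * k) by ring, Tv_neg,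
    Tv_per hm, ← neg_sub i, Tv_neg, smul_add, smul_smul, smul_smul, mul_neg]

theorem Tv_v_per (i k : ℤ) : Tv_v M s t (i + M s t * k) = (-1 : ℝ) ^ k • Tv_v M s t i := by
  rw [Tv_v, Tv_v, Tv_per hm, show 1 - (i + M s t * k) = -(i - 1 + M s t * k) by ring, Tv_neg,
    Tv_per hm, ← neg_sub i, Tv_neg, smul_add, smul_smul, smul_smul, mul_neg]

theorem Tv_D_pos {i j : ℤ} {p : S → ℝ} (h : Tv_D M s t j p * Tv_D M s t (j + 1) p < 0)
    (e : ¬ (M s t : ℤ) ∣ j - i) : 0 < Tv_D M s t i p * Tv_D M s t (i + 1) p := by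
  have sh : ∀ n, Tv_D M s t (j + n) p = -Tv_e (M s t) (n - 1) * Tv_D M s t j p +
      Tv_e (M s t) n * Tv_D M s t (j + 1) p := fun n => by
    have a1 := Tv_add hm j n
    have a2 := Tv_add hm (j - 1) n
    rw [sub_add_cancel] at a2
    rw [Tv_D_apply, Tv_D_apply, Tv_D_apply, ← a1, show 1 - (j + n) = -(j - 1 + n) by ring, Tv_neg,
      ← a2, ← neg_sub j 1, ← neg_sub n 1, show 1 - (j + 1) = -j by ring]
    simp only [Tv_neg]
    ring
  have m0 : (0 : ℤ) < M s t := by omega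
  obtain ⟨r, k, e1, r0, r1⟩ : ∃ r k : ℤ, i = j + r + M s t * k ∧ 0 < r ∧ r < M s t := by
    refine ⟨(i - j) % M s t, (i - j) / M s t, by linarith [Int.emod_add_mul_ediv (i - j) (M s t)],
      (Int.emod_nonneg _ m0.ne').lt_of_ne' fun c => e ?_, Int.emod_lt_of_pos _ m0⟩
    exact dvd_sub_comm.1 (Int.dvd_of_emod_eq_zero c)
  have q : ((-1 : ℝ) ^ k) * (-1) ^ k = 1 := by rw [← mul_zpow]; simp
  rw [e1, add_right_comm _ _ 1, Tv_D_per hm, Tv_D_per hm, LinearMap.smul_apply, LinearMap.smul_apply,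
    smul_eq_mul, smul_eq_mul, mul_mul_mul_comm, q, one_mul, add_assoc, sh r, sh (r + 1),
    add_sub_cancel_right]
  have b0 := Tv_pos hm r0 r1
  have b1 := Tv_nonneg hm (i := r - 1) (by omega) (by omega)
  have b2 := Tv_nonneg hm (i := r + 1) (by omega) (by omega)
  generalize Tv_D M s t j p = x at h ⊢
  generalize Tv_D M s t (j + 1) p = y at h ⊢
  nlinarith [mul_nonneg (mul_nonneg b1 b0.le) (sq_nonneg x), mul_pos (mul_pos b0 b0) (neg_pos.2 h),
    mul_nonneg (mul_nonneg b2 b0.le) (sq_nonneg y), mul_nonneg (mul_nonneg b1 b2) (neg_pos.2 h).le]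

include hs lt

theorem Tv_D_v (i j : ℤ) :
    Tv_D M s t j (Tv_v M s t i) = 2 * cos (π / M s t) * Tv_e (M s t) (j - i) := by
  have := Tv_add hm (-i) j
  rw [Tv_neg, neg_add_eq_sub, neg_add_eq_sub] at this
  rw [← this]
  simp only [Tv_D_apply, Tv_v, Pi.add_apply, Pi.smul_apply, smul_eq_mul, Tv_c, lt, lt.not_gt,
    lt_irrefl, if_true, if_false, hs]
  ring

/-- the dual generators -/
noncomputable def Tv_a (i : ℤ) : (Module.End ℝ (S → ℝ))ˣ :=
  Tv_u (Tv_D M s t i) (Tv_v M s t i) (by rw [Tv_D_v hs lt hm, sub_self, Tv_zero, mul_zero])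

theorem Tv_a_zero : Tv_a hs lt hm 0 = Tv_T M s := by
  simp only [Tv_a, Tv_T, Tv_D, Tv_v, sub_zero, Tv_one hm, Tv_zero, one_smul, zero_smul, add_zero]

theorem Tv_a_one : Tv_a hs lt hm 1 = Tv_T M t := by
  simp only [Tv_a, Tv_T, Tv_D, Tv_v, sub_self, Tv_one hm, Tv_zero, one_smul, zero_smul, zero_add]

theorem Tv_D_a (i j : ℤ) (p : S → ℝ) : Tv_D M s t j (Tv_a hs lt hm i • p) =
    Tv_D M s t j p + Tv_D M s t i p * (2 * cos (π / M s t) * Tv_e (M s t) (j - i)) := by
  rw [Tv_a, Tv_u_apply, map_add, map_smul, Tv_D_v hs lt hm, smul_eq_mul]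

theorem Tv_D_a' (i : ℤ) (p : S → ℝ) :
    Tv_D M s t i (Tv_a hs lt hm (i + 1) • p) = -Tv_D M s t (i + 2) p := by
  rw [Tv_D_a, sub_add_cancel_left, Tv_neg, Tv_one hm, Tv_D_two hm]
  ring

theorem Tv_a_mul (i : ℤ) : Tv_a hs lt hm i * Tv_a hs lt hm (i + 1) = Tv_T M s * Tv_T M t := by
  have key : ∀ i, Tv_a hs lt hm i * Tv_a hs lt hm (i + 1) =
      Tv_a hs lt hm (i + 1) * Tv_a hs lt hm (i + 1 + 1) := fun i => by
    refine Units.ext (LinearMap.ext fun p => ?_)
    have v2 : Tv_v M s t (i + 1 + 1) =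
        (2 * cos (π / M s t)) • Tv_v M s t (i + 1) - Tv_v M s t i := by
      rw [Tv_v, Tv_v, Tv_v, add_assoc, one_add_one_eq_two, Tv_two hm,
        show 1 - i = -1 - i + 2 by ring, Tv_two hm, show 1 - (i + 2) = -1 - i by ring,
        show 1 - (i + 1) = -1 - i + 1 by ring]
      module
    change Tv_a hs lt hm i • Tv_a hs lt hm (i + 1) • p =
      Tv_a hs lt hm (i + 1) • Tv_a hs lt hm (i + 1 + 1) • p
    rw [Tv_a, Tv_u_apply, Tv_D_a', Tv_a, Tv_u_apply, Tv_u_apply, Tv_D_a', Tv_a, Tv_u_apply, v2,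
      Tv_D_two hm (i + 1), add_assoc i, one_add_one_eq_two]
    module
  induction i using Int.induction_on with
  | zero => rw [Tv_a_zero, zero_add, Tv_a_one]
  | succ k ih => rw [← key, ih]
  | pred k ih => rw [key, sub_add_cancel, ih]

theorem Tv_a_per : Tv_a hs lt hm (1 - M s t) = Tv_a hs lt hm 1 := by
  refine Units.ext (LinearMap.ext fun p => ?_)
  change Tv_a hs lt hm _ • p = Tv_a hs lt hm 1 • p
  rw [Tv_a, Tv_a, Tv_u_apply, Tv_u_apply, show (1 - M s t : ℤ) = 1 + M s t * (-1) by ring,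
    Tv_D_per hm, Tv_v_per hm]
  simp

theorem Tv_ex (h3 : 3 ≤ M s t) (j : ℤ) : Tv_D M s t j (Tv_v M s t j + Tv_v M s t (j + 1)) *
    Tv_D M s t (j + 1) (Tv_v M s t j + Tv_v M s t (j + 1)) < 0 := by
  have : 0 < cos (π / M s t) := cos_pos_of_mem_Ioo
    ⟨by linarith [pi_pos, div_pos pi_pos (Nat.cast_pos.2 (by omega : 0 < M s t))],
      div_lt_div_of_pos_left pi_pos two_pos (by exact_mod_cast h3)⟩
  simp only [map_add, Tv_D_v hs lt hm, sub_self, sub_add_cancel_left, add_sub_cancel_left,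
    Tv_neg, Tv_zero, Tv_one hm]
  nlinarith

theorem Tv_pp (h3 : 3 ≤ M s t) : Pp (M s t) (Tv_a hs lt hm) (Tv_T M s * Tv_T M t)
    fun j (p : S → ℝ) => Tv_D M s t j p * Tv_D M s t (j + 1) p < 0 where
  hm := by omega
  mul := Tv_a_mul hs lt hm
  per := Tv_a_per hs lt hm
  pp i j p h e := by
    have a := Tv_D_a' hs lt hm (i - 1) p
    rw [sub_add_cancel, show i - 1 + 2 = i + 1 by ring] at a
    rw [sub_add_cancel, a, Tv_D_a, sub_self, Tv_zero]
    linarith [Tv_D_pos hm h e]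
  rot j p := by
    have a : ∀ j, Tv_D M s t j ((Tv_T M s * Tv_T M t) • p) = -Tv_D M s t (j + 2) p := fun j => by
      rw [← Tv_a_mul hs lt hm j, mul_smul, Tv_D_a, sub_self, Tv_zero, Tv_D_a']
      ring
    rw [a, a, neg_mul_neg, add_right_comm]
  uniq j j' p h h' := by_contra fun e => (Tv_D_pos hm h e).not_gt h'
  ex j := ⟨_, Tv_ex hs lt hm h3 j⟩

end Pool.Agent.Work.MP_9d1ffa_al.Ar
end

-- merged part: Pool.Agent.Work.MP_9d1ffa_al.Ar.Al
section
/-! The standard subgroups of rank two of an Artin group. -/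

namespace Pool.Agent.Work.MP_9d1ffa_al.Ar

open Subgroup

variable {S : Type} {M : CoxeterMatrix S} {s t : S}

theorem Al_two {K : Type*} (T : S → K) (s t : S) : two T s t = fun b => T (if b then s else t) :=
  funext fun b => by cases b <;> rfl

/-- short alternating products are not trivial -/
theorem girth (e : s ≠ t) (b : Bool) {l : List ℤ} (h0 : l ≠ []) (h1 : l.length < 2 * M s t)
    (h2 : ∀ a ∈ l, a ≠ 0) : syl (two (gn M) s t) b l ≠ 1 := fun h => by
  obtain ⟨K, _, T, hb, hg⟩ := exists_girth_all (M := fun s t => M s t) M.symmetric M.diagonal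
    M.off_diagonal
  have br : Brd M T := fun s t => by rw [Al_two]; exact hb s t
  refine hg s t e b l h0 h1 h2 ?_
  simpa only [map_syl, Al_two, lift_gn, map_one] using congrArg (lift M br) h

theorem Al_main : ∃ (ρ : Art M →* (Module.End ℝ (S → ℝ))ˣ) (c : S → S → ℝ),
    (∀ u, ((ρ (gn M u) : Module.End ℝ (S → ℝ)) - 1) * (ρ (gn M u) - 1) = 0) ∧
    (∀ u p, ρ (gn M u) • p = p + p u • c u ∧ ρ (gn M u)⁻¹ • p = p - p u • c u) ∧
    ∀ s t, s ≠ t → 3 ≤ M s t → ∀ g ∈ closure {gn M s, gn M t}, (IsOfFinOrder g → g = 1) ∧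
      ((∀ p ∈ Submodule.span ℝ {c s, c t}, ρ g • p = p) → (∀ x ∈ closure {gn M s, gn M t}, x * g = g * x) ∧ (len M g = 1 → g = 1)) := by
  obtain ⟨_, -⟩ := exists_wellFoundedLT S
  have br : Brd M (Tv_T fun s t => M s t) := fun s t => by
    have key : ∀ s t, s < t → syl (two (Tv_T fun s t => M s t) s t) true (List.replicate (M s t) 1) =
        syl (two (Tv_T fun s t => M s t) s t) false (List.replicate (M s t) 1) := fun s t lt => by
      rcases Nat.eq_zero_or_pos (M s t) with c | c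
      · rw [c]
        rfl
      have hm : 2 ≤ M s t := by have := M.off_diagonal s t lt.ne; omega
      have := (Nf_braid (Tv_a_mul (M := fun s t => M s t) (M.symmetric t s) lt hm)
        (T := two (Tv_T fun s t => M s t) s t) (Tv_a_zero ..).symm (Tv_a_one ..).symm
        (M s t - 1)).2 (by rw [← Tv_a_per]; congr 1; omega)
      rwa [Nat.sub_add_cancel c] at this
    rcases lt_trichotomy s t with c | rfl | c
    · exact key s t c
    · simp [syl, two]
    · rw [syl_swap _ t s, syl_swap _ t s, M.symmetric]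
      exact (key t s c).symm
  refine ⟨lift M br, Tv_c fun s t => M s t, fun u => by rw [lift_gn]; exact Tv_u_sq ..,
    fun u p => by rw [map_inv, lift_gn]; exact ⟨rfl, rfl⟩, fun s t e h3 => ?_⟩
  wlog lt : s < t generalizing s t
  · rw [Set.pair_comm, Set.pair_comm (Tv_c _ s)]
    exact this t s e.symm (M.symmetric s t ▸ h3) (lt_of_le_of_ne (not_lt.1 lt) e.symm)
  have hm : 2 ≤ M s t := by omega
  have P := Tv_pp (M := fun s t => M s t) (M.symmetric t s) lt hm h3
  have ea : ∀ i, lift M br (Nf_a (gn M s) (gn M t) i) = Tv_a (M.symmetric t s) lt hm i :=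
    Nf_ext (fun i => by rw [← map_mul, Nf_mul, map_mul, lift_gn, lift_gn]) P.mul
      (by rw [Nf_zero, lift_gn, Tv_a_zero])
  have hl : ∀ i, len M (Nf_a (gn M s) (gn M t) i) = Multiplicative.ofAdd 1 :=
    Nf_ext (fun i => by rw [← map_mul, Nf_mul, map_mul, len_gn, len_gn]) (fun _ => rfl)
      (by rw [Nf_zero, len_gn])
  let _ := MulAction.compHom (S → ℝ) (lift M br)
  have Q : Pp (M s t) (Nf_a (gn M s) (gn M t)) (gn M s * gn M t) _ :=
    ⟨P.hm, Nf_mul _ _, by
      have := (Nf_braid (Nf_mul (gn M s) (gn M t)) (T := two (gn M) s t) (Nf_zero ..).symm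
        (Nf_one ..).symm (M s t - 1)).1 (by rw [Nat.sub_add_cancel (by omega)]; exact gn_brd M s t)
      rw [← this]
      congr 1
      omega,
    fun i j p a b => by rw [MulAction.compHom_smul_def, ea]; exact P.pp i j p a b,
    fun j p => by rw [MulAction.compHom_smul_def, map_mul, lift_gn, lift_gn]; exact P.rot j p,
    P.uniq, P.ex⟩
  intro g hg
  have hg' : g ∈ closure {Nf_a (gn M s) (gn M t) 0, Nf_a (gn M s) (gn M t) 1} := by
    rwa [Nf_zero, Nf_one]
  refine ⟨Q.tf (len M) hl hg', fun r => ?_⟩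
  have sp : ∀ i, Tv_v (fun s t => M s t) s t i ∈
      Submodule.span ℝ {Tv_c (fun s t => M s t) s, Tv_c (fun s t => M s t) t} :=
    fun i => Submodule.mem_span_pair.2 ⟨_, _, rfl⟩
  obtain ⟨k, k1, rfl⟩ := Q.ker hg' fun j =>
    ⟨_, Tv_ex (M.symmetric t s) lt hm h3 j, r _ (add_mem (sp _) (sp _))⟩
  refine ⟨fun x hx => Q.central k1 (by rwa [Nf_zero, Nf_one]), fun c => ?_⟩
  have := Q.len_d (len M) hl k
  rw [c, toAdd_one] at this
  rw [show k = 0 by omega, zpow_zero]

theorem Al_comm (h : M s t = 2) : Commute (gn M s) (gn M t) := by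
  have := gn_brd M s t
  rw [h] at this
  simpa [syl, two, List.replicate, commute_iff_eq] using this

theorem Al_mem (h : M s t = 2) {g : Art M} (hg : g ∈ closure {gn M s, gn M t}) :
    ∃ a b : ℤ, g = gn M s ^ a * gn M t ^ b := by
  induction hg using closure_induction with
  | mem x hx =>
    rcases hx with rfl | rfl
    exacts [⟨1, 0, by simp⟩, ⟨0, 1, by simp⟩]
  | one => exact ⟨0, 0, by simp⟩
  | mul x y _ _ hx hy =>
    obtain ⟨a, b, rfl⟩ := hx
    obtain ⟨c, d, rfl⟩ := hy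
    exact ⟨a + c, b + d, by
      rw [((Al_comm h).symm.zpow_zpow b c).mul_mul_mul_comm, zpow_add, zpow_add]⟩
  | inv x _ hx =>
    obtain ⟨a, b, rfl⟩ := hx
    exact ⟨-a, -b, by rw [((Al_comm h).zpow_zpow a b).eq, mul_inv_rev, zpow_neg, zpow_neg]⟩

theorem Al_free (e : s ≠ t) (h : M s t = 2) {a b : ℤ} (k : gn M s ^ a * gn M t ^ b = 1) :
    a = 0 ∧ b = 0 := by
  by_contra c
  rcases eq_or_ne a 0 with rfl | a0
  · exact girth (M := M) e false (l := [b]) (by simp) (by simp [h]) (by simpa using c)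
      (by simpa [syl, two] using k)
  rcases eq_or_ne b 0 with rfl | b0
  · exact girth (M := M) e true (l := [a]) (by simp) (by simp [h]) (by simpa using c)
      (by simpa [syl, two] using k)
  exact girth (M := M) e true (l := [a, b]) (by simp) (by simp [h]) (by simp [a0, b0])
    (by simpa [syl, two] using k)

variable [DecidableEq S]

theorem Pb_two (M : CoxeterMatrix S) (s t : S) : Pb M {s, t} = closure {gn M s, gn M t} := by
  rw [Pb, Finset.coe_pair, Set.image_pair]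

variable (e : s ≠ t) (h0 : M s t ≠ 0)
include e h0

/-- the standard subgroups of rank two are linear modulo a central subgroup -/
theorem lin :
    ∃ (n : ℕ) (ρ : Pb M {s, t} →* GL (Fin n) ℝ), ρ.ker ≤ center (Pb M {s, t}) := by
  rw [Pb_two]
  rcases eq_or_ne (M s t) 2 with h | h
  · refine ⟨0, 1, fun x _ => mem_center_iff.2 fun y => Subtype.ext ?_⟩
    obtain ⟨a, b, hx⟩ := Al_mem h x.2
    obtain ⟨c, d, hy⟩ := Al_mem h y.2
    have := Al_comm h
    rw [coe_mul, coe_mul, hx, hy]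
    exact (((Commute.refl _).zpow_zpow c a).mul_right (this.zpow_zpow c b)).mul_left
      ((this.symm.zpow_zpow d a).mul_right ((Commute.refl _).zpow_zpow d b))
  obtain ⟨ρ, c, -, hc, hρ⟩ := Al_main (M := M)
  have fin := FiniteDimensional.span_of_finite ℝ (Set.toFinite {c s, c t})
  have c1 : ∀ x ∈ ({gn M s, gn M t} : Set (Art M)), ∃ u, x = gn M u ∧
      c u ∈ Submodule.span ℝ {c s, c t} := by
    rintro _ (rfl | rfl) <;> exact ⟨_, rfl, Submodule.subset_span (by simp)⟩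
  have inv : ∀ g ∈ closure {gn M s, gn M t}, ∀ p ∈ Submodule.span ℝ {c s, c t},
      ρ g • p ∈ Submodule.span ℝ {c s, c t} := fun g hg => by
    induction hg using closure_induction'' with
    | mem x hx =>
      obtain ⟨u, rfl, k⟩ := c1 x hx
      exact fun p hp => (hc u p).1 ▸ add_mem hp (Submodule.smul_mem _ _ k)
    | inv_mem x hx =>
      obtain ⟨u, rfl, k⟩ := c1 x hx
      exact fun p hp => (hc u p).2 ▸ sub_mem hp (Submodule.smul_mem _ _ k)
    | one => simp
    | mul x y _ _ hx hy => exact fun p hp => by rw [map_mul, mul_smul]; exact hx _ (hy p hp)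
  let σ := Representation.subrepresentation ((Units.coeHom _).comp (ρ.comp (Subgroup.subtype _)))
    (Submodule.span ℝ {c s, c t}) fun g p hp => inv g g.2 p hp
  let φ := (LinearMap.toMatrixAlgEquiv
    (Module.finBasis ℝ (Submodule.span ℝ {c s, c t}))).toRingEquiv.toMulEquiv
  refine ⟨_, (Units.mapEquiv φ).toMonoidHom.comp σ.toHomUnits, fun x hx =>
    mem_center_iff.2 fun y => Subtype.ext ?_⟩
  have k : σ x = 1 := congrArg Units.val ((Units.mapEquiv φ).map_eq_one_iff.1 hx)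
  exact ((hρ s t e (by have := M.off_diagonal s t e; omega) x x.2).2
    fun p hp => congrArg Subtype.val (LinearMap.congr_fun k ⟨p, hp⟩)).1 y y.2

/-- the standard subgroups of rank two are torsion free -/
theorem tf_two {g : Art M} (hg : g ∈ Pb M {s, t}) (k : IsOfFinOrder g) : g = 1 := by
  rw [Pb_two] at hg
  rcases eq_or_ne (M s t) 2 with h | h
  · obtain ⟨a, b, rfl⟩ := Al_mem h hg
    obtain ⟨n, n0, n1⟩ := isOfFinOrder_iff_pow_eq_one.1 k
    rw [((Al_comm h).zpow_zpow a b).mul_pow, ← zpow_natCast, ← zpow_natCast, ← zpow_mul,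
      ← zpow_mul] at n1
    obtain ⟨a0, b0⟩ := Al_free e h n1
    rw [(mul_eq_zero.1 a0).resolve_right (by omega), (mul_eq_zero.1 b0).resolve_right (by omega)]
    simp
  obtain ⟨ρ, _, -, -, hρ⟩ := Al_main (M := M)
  exact (hρ s t e (by have := M.off_diagonal s t e; omega) g hg).1 k

/-- conjugates of generators with a power in the group of a generator -/
theorem root {g : Art M} (hg : g ∈ Pb M {s, t}) {u : S} (c : IsConj (gn M u) g) {k : ℤ}
    (k0 : k ≠ 0) (hk : g ^ k ∈ zpowers (gn M s)) : g = gn M s := by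
  rw [Pb_two] at hg
  have l1 : len M g = Multiplicative.ofAdd 1 :=
    (isConj_iff_eq.1 ((len M).map_isConj c)).symm.trans (len_gn M u)
  obtain ⟨j, hj⟩ := mem_zpowers_iff.1 hk
  obtain rfl : j = k := by
    simpa [l1, len_gn] using congrArg (fun x => (len M x).toAdd) hj
  rcases eq_or_ne (M s t) 2 with h | h
  · obtain ⟨a, b, rfl⟩ := Al_mem h hg
    rw [((Al_comm h).zpow_zpow a b).mul_zpow, ← zpow_mul, ← zpow_mul,
      ← inv_mul_eq_one, ← mul_assoc, ← zpow_neg, ← zpow_add] at hj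
    obtain ⟨a0, b0⟩ := Al_free e h hj
    rw [(mul_eq_zero.1 b0).resolve_right k0,
      mul_right_cancel₀ k0 (show a * j = 1 * j by linarith)]
    simp
  obtain ⟨ρ, _, sq, -, hρ⟩ := Al_main (M := M)
  have r : ρ g = ρ (gn M s) := by
    refine Tv_root ?_ (sq s) k0 (by rw [← map_zpow, ← hj, map_zpow])
    obtain ⟨x, rfl⟩ := isConj_iff.1 c
    have : ((ρ (x * gn M u * x⁻¹) : Module.End ℝ (S → ℝ)) - 1) =
        ρ x * (ρ (gn M u) - 1) * (ρ x)⁻¹ := by simp [mul_sub, sub_mul]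
    rw [this]
    simp only [mul_assoc, Units.inv_mul_cancel_left]
    rw [← mul_assoc (_ - 1), sq, zero_mul, mul_zero]
  exact mul_inv_eq_one.1 (((hρ s t e (by have := M.off_diagonal s t e; omega) _
    (mul_mem hg (inv_mem (subset_closure (Set.mem_insert _ _))))).2 (by simp [r])).2
    (by simp [l1, len_gn]))

omit [DecidableEq S] e h0

/-- the algebraic facts hold for every Coxeter matrix -/
theorem alg (M : CoxeterMatrix S) : Alg M := by
  classical
  have cs : ∀ T, Sph M T → T = ∅ ∨ (∃ s, T = {s}) ∨ ∃ s t, s ≠ t ∧ M s t ≠ 0 ∧ T = {s, t} :=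
    fun T hT => by
      have := hT.1
      obtain h | h | h : T.card = 0 ∨ T.card = 1 ∨ T.card = 2 := by omega
      · exact Or.inl (Finset.card_eq_zero.1 h)
      · exact Or.inr (Or.inl (Finset.card_eq_one.1 h))
      · obtain ⟨s, t, e, rfl⟩ := Finset.card_eq_two.1 h
        exact Or.inr (Or.inr ⟨s, t, e, hT.2 s (by simp) t (by simp), rfl⟩)
  refine ⟨fun s t e b l => girth e b, fun T hT => ?_, fun T hT g hg o => ?_,
    fun T hT s hs g hg u c k k0 hk => ?_⟩
  · rcases cs T hT with rfl | ⟨s, rfl⟩ | ⟨s, t, e, h, rfl⟩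
    · rw [Pb_empty]
      exact ⟨0, 1, fun x _ => mem_center_iff.2 fun y => Subsingleton.elim _ _⟩
    · rw [Pb_one]
      exact ⟨0, 1, fun x _ => mem_center_iff.2 fun y => mul_comm' _ _⟩
    · exact lin e h
  · rcases cs T hT with rfl | ⟨s, rfl⟩ | ⟨s, t, e, h, rfl⟩
    · rwa [Pb_empty] at hg
    · rw [Pb_one] at hg
      obtain ⟨k, rfl⟩ := mem_zpowers_iff.1 hg
      have := (isOfFinOrder_iff_eq_one _).1 ((len M).isOfFinOrder o)
      rw [show k = 0 by simpa [len_gn] using congrArg Multiplicative.toAdd this, zpow_zero]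
    · exact tf_two e h hg o
  · rcases cs T hT with rfl | ⟨t, rfl⟩ | ⟨a, b, e, h, rfl⟩
    · simp at hs
    · obtain rfl := Finset.mem_singleton.1 hs
      rw [Pb_one] at hg
      obtain ⟨j, rfl⟩ := mem_zpowers_iff.1 hg
      have := isConj_iff_eq.1 ((len M).map_isConj c)
      rw [show j = 1 by simpa [len_gn, eq_comm] using congrArg Multiplicative.toAdd this, zpow_one]
    · rcases Finset.mem_insert.1 hs with rfl | hs
      · exact root e h hg c k0 hk
      · obtain rfl := Finset.mem_singleton.1 hs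
        exact root e.symm (M.symmetric _ _ ▸ h) (Finset.pair_comm a s ▸ hg) c k0 hk

end Pool.Agent.Work.MP_9d1ffa_al.Ar
end

-- merged part: Pool.Agent.Work.MP_9d1ffa_al.Ar.Lk
section
/-! The link condition for the complex of cosets of a two-dimensional Artin group. -/

namespace Pool.Agent.Work.MP_9d1ffa_al.Ar

open Real

theorem Lk_path {K : Type*} [Group K] (T : Bool → K) (n : ℕ) (g : ℕ → K) (β : ℕ → Bool) (a : ℕ → ℤ)
    (h : ∀ j, g (j + 1) = g j * T (β j) ^ a j) (hβ : ∀ j, β (j + 1) = !β j) :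
    g n = g 0 * syl T (β 0) (List.ofFn fun i : Fin n => a i) := by
  induction n generalizing g β a with
  | zero => simp [syl]
  | succ n ih =>
    rw [List.ofFn_succ, syl, ← mul_assoc, ← hβ]
    exact (ih (fun j => g (j + 1)) (fun j => β (j + 1)) (fun j => a (j + 1)) (fun j => h _)
      fun j => hβ _).trans (by rw [h 0]; rfl)

theorem Lk_sum (f : ℕ → ℝ) (r : ℕ) :
    ∑ i ∈ Finset.range (2 * r), f i = ∑ j ∈ Finset.range r, (f (2 * j) + f (2 * j + 1)) := by
  induction r with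
  | zero => rfl
  | succ r ih => rw [mul_add_one, Finset.sum_range_succ, Finset.sum_range_succ, ih,
      Finset.sum_range_succ, add_assoc]

variable {S : Type} {M : CoxeterMatrix S}

/-- the angle at `v` -/
noncomputable def Lk_cor {V : Type} (q : V → V → ℝ) (v a b : V) : ℝ :=
  arccos ((q v a + q v b - q a b) / (2 * √(q v a) * √(q v b)))

theorem Lk_symm (v a b : Vx M) : Lk_cor (qq M) v a b = Lk_cor (qq M) v b a := by
  rw [Lk_cor, Lk_cor, add_comm, mul_right_comm, show qq M a b = qq M b a from abs_sub_comm _ _]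

theorem Lk_cmp {s : Finset (Vx M)} (hs : s ∈ Fc M) {x y : Vx M} (hx : x ∈ s) (hy : y ∈ s)
    (e : x ≠ y) : x.1.1.card ≠ y.1.1.card ∧ (x.1.1.card < y.1.1.card → x ≤ y) := by
  rcases hs hx hy e with h | h
  · exact ⟨fun c => e (eq_of_ty h c.ge), fun _ => h⟩
  · exact ⟨fun c => e (eq_of_ty h c.le).symm, fun c => (eq_of_ty h c.le).ge⟩

theorem Lk_above {z x y : Vx M} (hx : z ≤ x) (hy : z ≤ y) (e : x.1.1 = y.1.1) : x = y := by
  obtain ⟨g, hg⟩ := exists_vt z
  rw [hg] at hx hy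
  rw [vt_of_le hx, vt_of_le hy]
  congr 1

theorem Lk_mT [DecidableEq S] {s t : S} (e : s ≠ t) : mT M {s, t} = 2 * M s t := by
  simp [mT, Finset.sum_pair e, e, e.symm, M.symmetric t s, two_mul]

theorem Lk_val [DecidableEq S] {x y z : Vx M} (hx : x.1.1.card = 0) (hy : y.1.1.card = 1) {s t : S}
    (e : s ≠ t) (hz : z.1.1 = {s, t}) : 2 ≤ M s t ∧ Lk_cor (qq M) z x y = π / (2 * M s t) ∧
      Lk_cor (qq M) y x z = π / 2 ∧ Lk_cor (qq M) x y z = π / 2 - π / (2 * M s t) := by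
  have m2 : 2 ≤ M s t := by
    have := M.off_diagonal s t e
    have := z.2.1.2 s (by simp [hz]) t (by simp [hz])
    omega
  have m3 : (2 : ℝ) ≤ M s t := by exact_mod_cast m2
  have t0 : 0 < π / (2 * M s t) := by positivity
  have t1 : π / (2 * M s t) < π / 2 := div_lt_div_of_pos_left pi_pos two_pos (by linarith)
  have k0 : kp M x.1.1 = 0 := by simp [kp, hx]
  have k1 : kp M y.1.1 = 1 := by simp [kp, hy]
  have k2 : kp M z.1.1 = (1 / sin (π / (2 * M s t))) ^ 2 := by
    simp [kp, hz, Finset.card_pair e, Lk_mT e]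
  generalize π / (2 * M s t) = θ at *
  have s0 : 0 < sin θ := sin_pos_of_pos_of_lt_pi t0 (by linarith)
  have c0 : 0 < cos θ := cos_pos_of_mem_Ioo ⟨by linarith, t1⟩
  have e1 : (1 / sin θ) ^ 2 - 1 = (cos θ / sin θ) ^ 2 := by
    field_simp
    rw [cos_sq']
  have e2 : 1 - (1 / sin θ) ^ 2 = -(cos θ / sin θ) ^ 2 := by rw [← e1, neg_sub]
  have e3 : (cos θ / sin θ) ^ 2 = (1 / sin θ) ^ 2 - 1 := e1.symm
  simp only [Lk_cor, qq, k0, k1, k2, sub_zero, zero_sub, e1, e2, abs_neg, abs_one, abs_sq, sqrt_one,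
    sqrt_sq (div_pos c0 s0).le, sqrt_sq (one_div_pos.2 s0).le]
  refine ⟨m2, ?_, ?_, ?_⟩
  · refine (congrArg arccos ?_).trans (arccos_cos t0.le (by linarith))
    rw [add_sub_right_comm, e1]
    field_simp
    ring
  · rw [e3, add_sub_cancel, sub_self, zero_div, arccos_zero]
  · rw [← arccos_cos (x := π / 2 - θ) (by linarith) (by linarith), cos_pi_div_two_sub, e3]
    congr 1
    field_simp
    ring

theorem Lk_main (hD : Dim2 M) (v : Vx M) (k : ℕ) (u : ℕ → Vx M) (hk : 0 < k)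
    (per : ∀ i, u (i + k) = u i) (adj : ∀ i, u i ≠ u (i + 1) ∧ u i ≠ v ∧ u (i + 1) ≠ v ∧
      ∃ s ∈ Fc M, v ∈ s ∧ u i ∈ s ∧ u (i + 1) ∈ s) (nb : ∀ i, u i ≠ u (i + 2))
    (lt : (u 0).1.1.card < (u 1).1.1.card) :
    2 * π ≤ ∑ i ∈ Finset.range k, Lk_cor (qq M) v (u i) (u (i + 1)) := by
  classical
  have le2 : ∀ x : Vx M, x.1.1.card ≤ 2 := fun x => x.2.1.1
  have c1 : ∀ i, (u i).1.1.card ≠ (u (i + 1)).1.1.card ∧
      ((u i).1.1.card < (u (i + 1)).1.1.card → u i ≤ u (i + 1)) ∧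
      ((u (i + 1)).1.1.card < (u i).1.1.card → u (i + 1) ≤ u i) := fun i => by
    obtain ⟨a, -, -, s, hs, -, b, c⟩ := adj i
    exact ⟨(Lk_cmp hs b c a).1, (Lk_cmp hs b c a).2, (Lk_cmp hs c b a.symm).2⟩
  have c2 : ∀ i, (u i).1.1.card ≠ v.1.1.card ∧ ((u i).1.1.card < v.1.1.card → u i ≤ v) ∧
      (v.1.1.card < (u i).1.1.card → v ≤ u i) := fun i => by
    obtain ⟨-, a, -, s, hs, c, b, -⟩ := adj i
    exact ⟨(Lk_cmp hs b c a).1, (Lk_cmp hs b c a).2, (Lk_cmp hs c b a.symm).2⟩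
  have c3 : ∀ j, (u (2 * j)).1.1.card = (u 0).1.1.card ∧
      (u (2 * j + 1)).1.1.card = (u 1).1.1.card := fun j => by
    induction j with
    | zero => exact ⟨rfl, rfl⟩
    | succ j ih =>
      have a1 := (c1 (2 * j + 1)).1
      have a2 := (c1 (2 * j + 2)).1
      have a3 := (c2 (2 * j + 2)).1
      have a4 := (c2 (2 * j + 2 + 1)).1
      have := (c2 0).1
      have := (c2 1).1
      have := le2 v
      have := le2 (u 1)
      have := le2 (u (2 * j + 2))
      have := le2 (u (2 * j + 2 + 1))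
      rw [show 2 * j + 1 + 1 = 2 * j + 2 from rfl] at a1
      rw [mul_add_one]
      omega
  obtain ⟨r, rfl⟩ : ∃ r, k = 2 * r := by
    obtain ⟨r, e | e⟩ := Nat.even_or_odd' k
    · exact ⟨r, e⟩
    · have := (c3 r).2
      rw [← e, ← zero_add k, per] at this
      omega
  have r1 : 2 ≤ r := by
    by_contra c
    obtain rfl : r = 1 := by omega
    exact nb 0 (per 0).symm
  have up : ∀ j, u (2 * j) ≤ u (2 * j + 1) := fun j =>
    (c1 _).2.1 (by rw [(c3 j).1, (c3 j).2]; exact lt)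
  have dn : ∀ j, u (2 * (j + 1)) ≤ u (2 * j + 1) := fun j =>
    (c1 (2 * j + 1)).2.2 (by rw [(c3 j).2]; exact (c3 (j + 1)).1.trans_lt lt)
  have := (c2 0).1
  have := (c2 1).1
  have := le2 (u 1)
  have p0 := pi_pos
  rw [Lk_sum]
  change _ ≤ ∑ j ∈ Finset.range r, (Lk_cor (qq M) v (u (2 * j)) (u (2 * j + 1)) +
    Lk_cor (qq M) v (u (2 * j + 1)) (u (2 * (j + 1))))
  obtain h | h | h : v.1.1.card = 0 ∨ v.1.1.card = 1 ∨ v.1.1.card = 2 := by have := le2 v; omega
  · have lo : ∀ j, v ≤ u (2 * j) := fun j => (c2 _).2.2 (by rw [(c3 j).1]; omega)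
    choose x hx using fun j => Finset.card_eq_one.1 ((c3 j).1.trans (by omega))
    have ne : ∀ j, x j ≠ x (j + 1) := fun j e =>
      nb (2 * j) (Lk_above (lo j) (lo (j + 1)) ((hx j).trans (e ▸ (hx (j + 1)).symm)))
    have ty : ∀ j, (u (2 * j + 1)).1.1 = {x j, x (j + 1)} := fun j =>
      (Finset.eq_of_subset_of_card_le (Finset.insert_subset_iff.2
        ⟨ty_mono (up j) (by simp [hx]), hx _ ▸ ty_mono (dn j)⟩)
        (by rw [(c3 j).2, Finset.card_pair (ne j)]; omega)).symm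
    have m2 := fun j => (Lk_val h ((c3 j).1.trans (by omega)) (ne j) (ty j)).1
    have val : ∀ j, Lk_cor (qq M) v (u (2 * j)) (u (2 * j + 1)) +
        Lk_cor (qq M) v (u (2 * j + 1)) (u (2 * (j + 1))) = π - π * (1 / M (x j) (x (j + 1))) :=
      fun j => by
        rw [(Lk_val h ((c3 j).1.trans (by omega)) (ne j) (ty j)).2.2.2, Lk_symm,
          (Lk_val h ((c3 (j + 1)).1.trans (by omega)) (ne j) (ty j)).2.2.2]
        ring
    have xr : x r = x 0 := Finset.singleton_injective (by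
      rw [← hx, ← hx, ← zero_add (2 * r), per, mul_zero])
    rw [Finset.sum_congr rfl fun j _ => val j]
    obtain rfl | rfl | r4 : r = 2 ∨ r = 3 ∨ 4 ≤ r := by omega
    · refine absurd (Lk_above ((lo 0).trans (up 0)) ((lo 1).trans (up 1)) ?_) (nb 1)
      rw [ty, ty, xr, Finset.pair_comm]
    · have a := hD (x 0) (x 1) (x 2) (ne 0) (ne 1) (xr ▸ ne 2) (two_pos.trans_le (m2 0)).ne'
        (two_pos.trans_le (m2 1)).ne' (xr ▸ (two_pos.trans_le (m2 2)).ne')
      have b : (1 / M (x 0) (x 1) + 1 / M (x 1) (x 2) + 1 / M (x 2) (x 0) : ℝ) ≤ 1 := by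
        simpa using (Rat.cast_le (K := ℝ)).2 a
      simp only [Finset.sum_range_succ, Finset.sum_range_zero, xr]
      nlinarith
    · refine le_trans ?_ (Finset.card_nsmul_le_sum _ _ (π / 2) fun j _ => ?_)
      · have : (4 : ℝ) ≤ r := by exact_mod_cast r4
        rw [Finset.card_range, nsmul_eq_mul]
        nlinarith
      · have : 1 / (M (x j) (x (j + 1)) : ℝ) ≤ 1 / 2 :=
          one_div_le_one_div_of_le two_pos (by exact_mod_cast m2 j)
        nlinarith
  · have val : ∀ j, Lk_cor (qq M) v (u (2 * j)) (u (2 * j + 1)) +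
        Lk_cor (qq M) v (u (2 * j + 1)) (u (2 * (j + 1))) = π := fun j => by
      obtain ⟨s, t, e, hz⟩ := Finset.card_eq_two.1 ((c3 j).2.trans (by omega))
      rw [(Lk_val ((c3 j).1.trans (by omega)) h e hz).2.2.1, Lk_symm,
        (Lk_val ((c3 (j + 1)).1.trans (by omega)) h e hz).2.2.1]
      ring
    have : (2 : ℝ) ≤ r := by exact_mod_cast r1
    rw [Finset.sum_congr rfl fun j _ => val j, Finset.sum_const, Finset.card_range, nsmul_eq_mul]
    nlinarith
  · obtain ⟨s, t, e, hz⟩ := Finset.card_eq_two.1 h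
    have val : ∀ j, Lk_cor (qq M) v (u (2 * j)) (u (2 * j + 1)) +
        Lk_cor (qq M) v (u (2 * j + 1)) (u (2 * (j + 1))) = π / M s t := fun j => by
      rw [(Lk_val ((c3 j).1.trans (by omega)) ((c3 j).2.trans (by omega)) e hz).2.1, Lk_symm,
        (Lk_val ((c3 (j + 1)).1.trans (by omega)) ((c3 j).2.trans (by omega)) e hz).2.1]
      ring
    have m2 := (Lk_val ((c3 0).1.trans (by omega)) ((c3 0).2.trans (by omega)) e hz).1
    have : ∀ j, ∃ g, u (2 * j) = vt (sph_empty M) g := fun j => by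
      obtain ⟨g, hg⟩ := exists_vt (u (2 * j))
      refine ⟨g, hg.trans ?_⟩
      congr 1
      exact Finset.card_eq_zero.1 ((c3 j).1.trans (by omega))
    choose g hg using this
    have : ∀ j, ∃ b : Bool, (u (2 * j + 1)).1.1 = {if b then s else t} := fun j => by
      obtain ⟨x, hx⟩ := Finset.card_eq_one.1 ((c3 j).2.trans (by omega : _ = 1))
      have := ty_mono ((c2 (2 * j + 1)).2.1 (by rw [(c3 j).2]; omega))
      rw [hx, hz, Finset.singleton_subset_iff, Finset.mem_insert, Finset.mem_singleton] at this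
      rcases this with rfl | rfl
      exacts [⟨true, hx⟩, ⟨false, hx⟩]
    choose β hβ using this
    have : ∀ j, ∃ a : ℤ, g (j + 1) = g j * two (gn M) s t (β j) ^ a := fun j => by
      have a := vt_of_le (hg j ▸ up j)
      have b := vt_of_le (hg (j + 1) ▸ dn j)
      have c := (vt_eq _ _ _).1 (b.symm.trans a)
      rw [hβ, Pb_one, Subgroup.mem_zpowers_iff] at c
      obtain ⟨n, c⟩ := c
      exact ⟨n, by rw [Al_two, c, mul_inv_cancel_left]⟩
    choose a ha using this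
    have al : ∀ j, β (j + 1) = !β j := fun j => Bool.eq_not.2 fun c =>
      nb (2 * j + 1) (Lk_above (dn j) (up (j + 1)) ((hβ j).trans (c ▸ (hβ (j + 1)).symm)))
    have gr : g r = g 0 := by
      have := per 0
      rw [zero_add, hg, show u 0 = u (2 * 0) from rfl, hg, vt_eq, Pb_empty, Subgroup.mem_bot,
        inv_mul_eq_one] at this
      exact this.symm
    have r2 : 2 * M s t ≤ r := not_lt.1 fun c => girth e (β 0) (l := List.ofFn fun i : Fin r => a i)
      (by simp; omega) (by simpa using c) (by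
        simp only [List.mem_ofFn]
        rintro _ ⟨i, rfl⟩ z
        refine nb (2 * i) ?_
        rw [show 2 * (i : ℕ) + 2 = 2 * (i + 1) from rfl, hg, hg, ha, z, zpow_zero, mul_one])
      (by simpa [gr] using Lk_path _ r g β a ha al)
    have r3 : (2 : ℝ) * M s t ≤ r := by exact_mod_cast r2
    have m0 : (0 : ℝ) < M s t := Nat.cast_pos.2 (by omega)
    rw [Finset.sum_congr rfl fun j _ => val j, Finset.sum_const, Finset.card_range, nsmul_eq_mul,
      ← mul_div_assoc, le_div_iff₀ m0]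
    nlinarith

/-- closed paths without backtracking in the link of a vertex have length at least `2 * π` -/
theorem link_seq (hD : Dim2 M) (v : Vx M) (k : ℕ) (u : ℕ → Vx M) (hk : 0 < k)
    (per : ∀ i, u (i + k) = u i) (adj : ∀ i, u i ≠ u (i + 1) ∧ u i ≠ v ∧ u (i + 1) ≠ v ∧
      ∃ s ∈ Fc M, v ∈ s ∧ u i ∈ s ∧ u (i + 1) ∈ s) (nb : ∀ i, u i ≠ u (i + 2)) :
    2 * π ≤ ∑ i ∈ Finset.range k, Lk_cor (qq M) v (u i) (u (i + 1)) := by
  rcases lt_or_ge (u 0).1.1.card (u 1).1.1.card with c | c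
  · exact Lk_main hD v k u hk per adj nb c
  have := Lk_main hD v k (fun i => u (i + 1)) hk (fun i => by rw [add_right_comm, per])
    (fun i => adj _) (fun i => nb _) (by
      obtain ⟨a, a', -, s, hs, b, d, e⟩ := adj 0
      obtain ⟨f, f', f'', s', hs', b', d', e'⟩ := adj 1
      have := (Lk_cmp hs d e a).1
      have := (Lk_cmp hs d b a').1
      have := (Lk_cmp hs' d' e' f).1
      have := (Lk_cmp hs' d' b' f').1
      have := (Lk_cmp hs' e' b' f'').1
      have := v.2.1.1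
      have := (u 0).2.1.1
      have := (u (1 + 1)).2.1.1
      simp only [zero_add] at *
      omega)
  have e := (Finset.sum_range_succ (fun i => Lk_cor (qq M) v (u i) (u (i + 1))) k).symm.trans
    (Finset.sum_range_succ' _ k)
  rw [← zero_add k, per, add_right_comm, per, zero_add k, add_left_inj] at e
  rwa [e]

end Pool.Agent.Work.MP_9d1ffa_al.Ar
end

-- merged part: Pool.Agent.Work.MP_9d1ffa_al.Ar.Mt
section
/-! The metric data of the coset complex. -/

namespace Pool.Agent.Work.MP_9d1ffa_al.Ar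

open Set Px

variable {S : Type} {M : CoxeterMatrix S}

theorem card_lt {u v : Vx M} (h : u < v) : u.1.1.card < v.1.1.card := by
  exact not_le.1 fun e => h.ne (eq_of_ty h.le e)

theorem mT_pair {T : Finset S} {s t : S} (h : T.card ≤ 2) (hs : s ∈ T) (ht : t ∈ T) (e : s ≠ t) :
    mT M T = 2 * M s t := by
  classical
  have : ({s, t} : Finset S) = T := Finset.eq_of_subset_of_card_le
    (Finset.insert_subset hs (Finset.singleton_subset_iff.2 ht)) (by rwa [Finset.card_pair e])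
  rw [← this, mT, Finset.sum_pair e, Finset.sum_pair e, Finset.sum_pair e, if_pos rfl, if_pos rfl,
    if_neg e, if_neg e.symm, M.symmetric t s]
  omega

theorem mT_ge {T : Finset S} (h : Sph M T) (e : T.card = 2) : 4 ≤ mT M T := by
  obtain ⟨s, hs, t, ht, ne⟩ := Finset.one_lt_card.1 (by omega : 1 < T.card)
  have a := h.2 s hs t ht
  have b := M.off_diagonal s t ne
  rw [mT_pair h.1 hs ht ne]
  omega

theorem Mt_ang {T : Finset S} (h : Sph M T) (e : T.card = 2) :
    0 < Real.pi / mT M T ∧ Real.pi / mT M T ≤ Real.pi / 4 := by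
  have a : (4 : ℝ) ≤ mT M T := by exact_mod_cast mT_ge h e
  exact ⟨div_pos Real.pi_pos (by linarith),
    div_le_div_of_nonneg_left Real.pi_pos.le (by norm_num) a⟩

theorem Mt_sin {T : Finset S} (h : Sph M T) (e : T.card = 2) :
    0 < Real.sin (Real.pi / mT M T) ∧ 0 < Real.cos (Real.pi / mT M T) := by
  obtain ⟨a, b⟩ := Mt_ang h e
  have := Real.pi_pos
  exact ⟨Real.sin_pos_of_pos_of_lt_pi a (by linarith),
    Real.cos_pos_of_mem_Ioo ⟨by linarith, by linarith⟩⟩

theorem kp_two {T : Finset S} (h : Sph M T) (e : T.card = 2) : 2 ≤ kp M T := by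
  obtain ⟨a, b⟩ := Mt_ang h e
  have p := Real.pi_pos
  have s0 := (Mt_sin h e).1
  have c := Real.cos_nonneg_of_mem_Icc (x := 2 * (Real.pi / mT M T)) ⟨by linarith, by linarith⟩
  rw [Real.cos_two_mul, Real.cos_sq'] at c
  rw [kp, if_neg (by omega), le_div_iff₀ (by positivity)]
  linarith

theorem kp_lt {u v : Vx M} (h : u < v) : kp M u.1.1 < kp M v.1.1 := by
  have a := card_lt h
  have b := v.2.1.1
  rcases b.eq_or_lt with e | e
  · have c : (u.1.1.card : ℝ) ≤ (1 : ℕ) := by exact_mod_cast (by omega : u.1.1.card ≤ 1)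
    rw [Nat.cast_one] at c
    rw [kp, if_pos (by omega)]
    linarith [kp_two v.2.1 e]
  · rw [kp, kp, if_pos (by omega), if_pos (by omega)]
    exact_mod_cast a

theorem Mt_inj {s : Finset (Vx M)} (h : s ∈ Fc M) {α : Type} [Preorder α] {f : Vx M → α}
    (hf : StrictMono f) : InjOn f s := fun u hu v hv e => by
  by_contra ne
  rcases h hu hv ne with t | t
  · exact (hf (t.lt_of_ne ne)).ne e
  · exact (hf (t.lt_of_ne' ne)).ne' e

theorem fc_dim : ∀ s ∈ Fc M, s.card ≤ 2 + 1 := by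
  intro s h
  refine (Finset.card_le_card_of_injOn (t := Finset.range (2 + 1)) (fun u => u.1.1.card)
    (fun u _ => ?_) (Mt_inj h (f := fun u => u.1.1.card) fun _ _ => card_lt)).trans_eq
    (Finset.card_range _)
  exact Finset.mem_coe.2 (Finset.mem_range.2 (Nat.lt_succ_of_le u.2.1.1))

theorem fc_shp [Finite S] : {r | ∃ s ∈ Fc M, ∃ u ∈ s, ∃ v ∈ s, qq M u v = r}.Finite := by
  refine (finite_range fun p : Finset S × Finset S => |kp M p.1 - kp M p.2|).subset ?_
  rintro _ ⟨s, -, u, -, v, -, rfl⟩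
  exact ⟨(u.1.1, v.1.1), rfl⟩

theorem Mt_max {V : Type} (κ w : V → ℝ) (s : Finset V) : InjOn κ s → ∀ c, (∀ v ∈ s, κ v < c) →
    0 ≤ ∑ u ∈ s, ∑ v ∈ s, (c - max (κ u) (κ v)) * w u * w v ∧
      ((∃ v ∈ s, w v ≠ 0) → 0 < ∑ u ∈ s, ∑ v ∈ s, (c - max (κ u) (κ v)) * w u * w v) := by
  classical
  induction s using Finset.induction_on_max_value κ with
  | empty => simp
  | insert a s ha hm ih =>
    intro hi c hc
    have sub : (s : Set V) ⊆ (insert a s : Finset V) := Finset.coe_subset.2 (s.subset_insert a)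
    obtain ⟨i1, i2⟩ := ih (hi.mono sub) (κ a) fun v hv => (hm v hv).lt_of_ne fun e =>
      ha (hi (sub hv) (Finset.mem_coe.2 (s.mem_insert_self a)) e ▸ hv)
    have ca := sub_pos.2 (hc a (s.mem_insert_self a))
    have e : ∑ u ∈ insert a s, ∑ v ∈ insert a s, (c - max (κ u) (κ v)) * w u * w v =
        (c - κ a) * (w a + ∑ v ∈ s, w v) ^ 2 +
          ∑ u ∈ s, ∑ v ∈ s, (κ a - max (κ u) (κ v)) * w u * w v := by
      have e1 : ∑ v ∈ s, (c - max (κ a) (κ v)) * w a * w v = (c - κ a) * w a * ∑ v ∈ s, w v := by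
        rw [Finset.mul_sum]
        exact Finset.sum_congr rfl fun v hv => by rw [max_eq_left (hm v hv)]
      have e2 : ∀ u ∈ s, ∑ v ∈ insert a s, (c - max (κ u) (κ v)) * w u * w v =
          (c - κ a) * (w a + ∑ v ∈ s, w v) * w u +
            ∑ v ∈ s, (κ a - max (κ u) (κ v)) * w u * w v := fun u hu => by
        rw [Finset.sum_insert ha, max_eq_right (hm u hu), mul_add, add_mul, add_assoc,
          Finset.mul_sum, Finset.sum_mul, ← Finset.sum_add_distrib, mul_right_comm]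
        exact congrArg _ (Finset.sum_congr rfl fun v _ => by ring)
      rw [Finset.sum_insert ha, Finset.sum_insert ha, e1, Finset.sum_congr rfl e2,
        Finset.sum_add_distrib, ← Finset.mul_sum, max_self]
      ring
    rw [e]
    refine ⟨by positivity, fun ⟨v, hv, hw⟩ => ?_⟩
    by_cases r : ∃ v ∈ s, w v ≠ 0
    · exact add_pos_of_nonneg_of_pos (by positivity) (i2 r)
    · have z : ∀ v ∈ s, w v = 0 := fun v hv => by_contra fun t => r ⟨v, hv, t⟩
      have : w a ≠ 0 := by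
        rcases Finset.mem_insert.1 hv with rfl | t
        · exact hw
        · exact absurd (z v t) hw
      rw [Finset.sum_eq_zero z, add_zero]
      exact add_pos_of_pos_of_nonneg (by positivity) i1

/-- the form of `|κ u - κ v|` is definite if `κ` is injective on the simplex -/
theorem qf_abs {V : Type} (κ : V → ℝ) (s : Finset V) (hκ : InjOn κ s) (w : V → ℝ)
    (h0 : ∀ v ∉ s, w v = 0) (h1 : ∑ v ∈ s, w v = 0) (hw : w ≠ 0) :
    0 < Qf (fun u v => |κ u - κ v|) s w := by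
  obtain ⟨c, hc⟩ := (s.finite_toSet.image κ).bddAbove
  obtain ⟨v0, hv⟩ := Function.ne_iff.1 hw
  refine ((Mt_max κ w s hκ (c + 1) fun v r => (hc ⟨v, r, rfl⟩).trans_lt (lt_add_one c)).2
    ⟨v0, by_contra fun r => hv (h0 v0 r), hv⟩).trans_eq ?_
  have e : ∀ u v, (c + 1 - max (κ u) (κ v)) * w u * w v = -(1 / 2) * (|κ u - κ v| * w u * w v) +
      ((c + 1 - κ u) / 2 * w u * w v + w u * ((c + 1 - κ v) / 2 * w v)) := fun u v => by
    rcases le_total (κ u) (κ v) with t | t
    · rw [max_eq_right t, abs_of_nonpos (sub_nonpos.2 t)]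
      ring
    · rw [max_eq_left t, abs_of_nonneg (sub_nonneg.2 t)]
      ring
  simp only [e, Finset.sum_add_distrib, ← Finset.mul_sum, ← Finset.sum_mul, h1, Qf]
  ring

theorem fc_pos : ∀ s ∈ Fc M, ∀ w : Vx M → ℝ, (∀ v ∉ s, w v = 0) → ∑ v ∈ s, w v = 0 → w ≠ 0 →
    0 < Qf (qq M) s w := by
  intro s h w
  exact qf_abs (fun u : Vx M => kp M u.1.1) s
    (Mt_inj h (f := fun u => kp M u.1.1) fun _ _ => kp_lt) w

theorem fc_conn (u v : Vx M) :
    Relation.ReflTransGen (fun a b => ∃ s ∈ Fc M, a ∈ s ∧ b ∈ s) u v := by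
  classical
  have adj : ∀ a b : Vx M, a ≤ b → ∃ s ∈ Fc M, a ∈ s ∧ b ∈ s := fun a b r =>
    ⟨{a, b}, by
      rw [Fc, mem_ofPred_eq, Finset.coe_pair]
      exact IsChain.singleton.insert fun y hy _ => Or.inl (r.trans_eq hy.symm),
      by simp, by simp⟩
  have sy : ∀ {a b : Vx M}, Relation.ReflTransGen (fun a b => ∃ s ∈ Fc M, a ∈ s ∧ b ∈ s) a b →
      Relation.ReflTransGen (fun a b => ∃ s ∈ Fc M, a ∈ s ∧ b ∈ s) b a := fun r => by
    induction r with
    | refl => exact .refl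
    | tail _ k ih =>
      obtain ⟨s, k1, k2, k3⟩ := k
      exact .head ⟨s, k1, k3, k2⟩ ih
  have up : ∀ {T : Finset S} (hT : Sph M T) (g g' : Art M), g'⁻¹ * g ∈ Pb M T →
      Relation.ReflTransGen (fun a b => ∃ s ∈ Fc M, a ∈ s ∧ b ∈ s) (vt (sph_empty M) g)
        (vt hT g') := fun hT g g' r =>
    .single (adj _ _ ((vt_le _ _ _ _).2 ⟨Finset.empty_subset _, r⟩))
  have mv : ∀ a ∈ Subgroup.closure (range (gn M)), ∀ g : Art M,
      Relation.ReflTransGen (fun a b => ∃ s ∈ Fc M, a ∈ s ∧ b ∈ s) (vt (sph_empty M) g)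
        (vt (sph_empty M) (g * a)) := fun a ha => by
    induction ha using Subgroup.closure_induction with
    | mem x hx =>
      obtain ⟨s, rfl⟩ := hx
      exact fun g => (up (sph_one M s) g g (by simp)).trans (sy (up (sph_one M s) _ g
        (by simpa using gn_mem M (Finset.mem_singleton_self s))))
    | one => exact fun g => by rw [mul_one]
    | mul x y _ _ hx hy => exact fun g => mul_assoc g x y ▸ (hx g).trans (hy _)
    | inv x _ hx => exact fun g => sy (by simpa using hx (g * x⁻¹))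
  obtain ⟨g, hg⟩ := exists_vt u
  obtain ⟨g', hg'⟩ := exists_vt v
  have k := mv (g⁻¹ * g') (closure_gn M ▸ Subgroup.mem_top _) g
  rw [mul_inv_cancel_left] at k
  rw [hg, hg']
  exact (sy (up _ g g (by simp))).trans (k.trans (up _ g' g' (by simp)))

theorem fc_smul (g : Art M) {s : Finset (Vx M)} (h : s ∈ Fc M) :
    s.map (MulAction.toPerm g).toEmbedding ∈ Fc M := by
  intro a ha b hb ne
  obtain ⟨u, hu, rfl⟩ := Finset.mem_map.1 ha
  obtain ⟨v, hv, rfl⟩ := Finset.mem_map.1 hb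
  exact (h hu hv fun e => ne (congrArg _ e)).imp (smul_le g).2 (smul_le g).2

theorem qq_smul (g : Art M) (u v : Vx M) : qq M (g • u) (g • v) = qq M u v := rfl

theorem qq_symm (u v : Vx M) : qq M u v = qq M v u := abs_sub_comm _ _

theorem qq_self (u : Vx M) : qq M u u = 0 := by simp [qq]

/-- the angle at `v` between the edges to `a` and `b` -/
noncomputable def crn (M : CoxeterMatrix S) (v a b : Vx M) : ℝ :=
  Real.arccos ((qq M v a + qq M v b - qq M a b) / (2 * √(qq M v a) * √(qq M v b)))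

theorem crn_symm (v a b : Vx M) : crn M v a b = crn M v b a := by
  rw [crn, crn, qq_symm b a, add_comm, mul_right_comm]

theorem Mt_qq {u v w : Vx M} (h1 : u < v) (h2 : v < w) : w.1.1.card = 2 ∧ qq M u v = 1 ∧
    qq M u w = (1 / Real.sin (Real.pi / mT M w.1.1)) ^ 2 ∧
    qq M v w = (Real.cos (Real.pi / mT M w.1.1) / Real.sin (Real.pi / mT M w.1.1)) ^ 2 := by
  have a := card_lt h1
  have b := card_lt h2
  have c := w.2.1.1
  have e : w.1.1.card = 2 := by omega
  have k := kp_two w.2.1 e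
  have s0 := (Mt_sin w.2.1 e).1
  have ku : kp M u.1.1 = 0 := by
    rw [kp, if_pos (by omega), (by omega : u.1.1.card = 0), Nat.cast_zero]
  have kv : kp M v.1.1 = 1 := by
    rw [kp, if_pos (by omega), (by omega : v.1.1.card = 1), Nat.cast_one]
  refine ⟨e, by simp [qq, ku, kv], ?_, ?_⟩
  · rw [qq, ku, abs_of_nonpos (by linarith), kp, if_neg (by omega)]
    ring
  · rw [qq, kv, abs_of_nonpos (by linarith), kp, if_neg (by omega), div_pow, Real.cos_sq']
    field_simp
    ring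

theorem crn_bot {u v w : Vx M} (h1 : u < v) (h2 : v < w) :
    crn M u v w = Real.pi / 2 - Real.pi / mT M w.1.1 := by
  obtain ⟨e, a, b, c⟩ := Mt_qq h1 h2
  obtain ⟨s0, c0⟩ := Mt_sin w.2.1 e
  obtain ⟨t0, t1⟩ := Mt_ang w.2.1 e
  have p := Real.pi_pos
  rw [← Real.arccos_cos (x := Real.pi / 2 - Real.pi / mT M w.1.1) (by linarith) (by linarith),
    Real.cos_pi_div_two_sub, crn, a, b, c, Real.sqrt_one, Real.sqrt_sq (by positivity), div_pow,
    div_pow, Real.cos_sq']
  refine congrArg _ ?_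
  field_simp
  ring

theorem crn_mid {u v w : Vx M} (h1 : u < v) (h2 : v < w) : crn M v u w = Real.pi / 2 := by
  obtain ⟨e, a, b, c⟩ := Mt_qq h1 h2
  obtain ⟨s0, c0⟩ := Mt_sin w.2.1 e
  have : qq M v u + qq M v w - qq M u w = 0 := by
    rw [qq_symm, a, b, c, div_pow, div_pow, Real.cos_sq']
    field_simp
    ring
  rw [crn, this, zero_div, Real.arccos_zero]

theorem crn_top {u v w : Vx M} (h1 : u < v) (h2 : v < w) :
    crn M w u v = Real.pi / mT M w.1.1 := by
  obtain ⟨e, a, b, c⟩ := Mt_qq h1 h2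
  obtain ⟨s0, c0⟩ := Mt_sin w.2.1 e
  obtain ⟨t0, t1⟩ := Mt_ang w.2.1 e
  have p := Real.pi_pos
  have q := Real.sin_sq_add_cos_sq (Real.pi / mT M w.1.1)
  rw [← Real.arccos_cos t0.le (by linarith), crn, qq_symm w u, qq_symm w v, a, b, c,
    Real.sqrt_sq (by positivity), Real.sqrt_sq (by positivity)]
  refine congrArg _ ?_
  field_simp
  linarith

end Pool.Agent.Work.MP_9d1ffa_al.Ar
end

-- merged part: Pool.Agent.Work.MP_9d1ffa_al.Ar.ChD
section
/-! Local comparison, discrete paths, discrete homotopies and discrete coverings. -/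

namespace Pool.Agent.Work.MP_9d1ffa_al.Ar

open Set

variable {X : Type} [MetricSpace X]

/-- the comparison inequality holds at scale `r` -/
def Loc (X : Type) [MetricSpace X] (r : ℝ) : Prop :=
  ∀ x y : X, dist x y ≤ r → ∀ t ∈ Icc (0 : ℝ) 1, ∃ m, ∀ z, dist z x ≤ r →
    dist z m ^ 2 ≤ (1 - t) * dist z x ^ 2 + t * dist z y ^ 2 - t * (1 - t) * dist x y ^ 2

/-- a path with steps at most `ε` from `x` to `y` that is constant from `N` on -/
def Pth (ε : ℝ) (x y : X) (N : ℕ) (p : ℕ → X) : Prop :=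
  p 0 = x ∧ (∀ i, N ≤ i → p i = y) ∧ ∀ i, dist (p i) (p (i + 1)) ≤ ε

/-- two close paths -/
def Cls (ε : ℝ) (x y : X) (N : ℕ) (p p' : ℕ → X) : Prop :=
  Pth ε x y N p ∧ Pth ε x y N p' ∧ ∀ i, dist (p i) (p' i) ≤ ε

/-- paths at scale `δ` with the same ends are homotopic at scale `ε` -/
def Sc (X : Type) [MetricSpace X] (δ ε : ℝ) : Prop :=
  ∀ (x y : X) N N' p p', Pth δ x y N p → Pth δ x y N' p' →
    ∃ K, Relation.ReflTransGen (Cls ε x y K) p p'

/-- distances are approximated by lengths of fine paths -/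
def Len (X : Type) [MetricSpace X] : Prop :=
  ∀ (x y : X) (η ε : ℝ), 0 < η → 0 < ε → ∃ N p, Pth ε x y N p ∧
    ∑ i ∈ Finset.range N, dist (p i) (p (i + 1)) ≤ dist x y + η

/-- a covering of a set `V` with a family `F` of small subsets: transport inside small sets -/
structure Cov {V Ω : Type} (F : Set (Set V)) (π : Ω → V) (E : Ω → V → Ω) : Prop where
  top : ∀ s ∈ F, ∀ ω v, π ω ∈ s → v ∈ s → π (E ω v) = v
  self : ∀ ω, E ω (π ω) = ω
  comp : ∀ s ∈ F, ∀ ω v w, π ω ∈ s → v ∈ s → w ∈ s → E (E ω v) w = E ω w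

/-- every covering for `F` has sections through every point that are parallel for `F'` -/
def Triv {V : Type} (F F' : Set (Set V)) : Prop :=
  ∀ (Ω : Type) (π : Ω → V) (E : Ω → V → Ω), Cov F π E → ∀ ω, ∃ σ : V → Ω, σ (π ω) = ω ∧
    ∀ s ∈ F', ∀ u ∈ s, ∀ v ∈ s, π (σ u) = u ∧ E (σ u) v = σ v

/-- the sets of diameter at most `ε` -/
def Small (X : Type) [MetricSpace X] (ε : ℝ) : Set (Set X) :=
  {s | ∀ x ∈ s, ∀ y ∈ s, dist x y ≤ ε}

theorem Pth.mono {ε ε' : ℝ} {x y : X} {N N' : ℕ} {p : ℕ → X} (h : Pth ε x y N p) (e : ε ≤ ε')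
    (e' : N ≤ N') : Pth ε' x y N' p :=
  ⟨h.1, fun i hi => h.2.1 i (e'.trans hi), fun i => (h.2.2 i).trans e⟩

open Classical in
/-- the local midpoint -/
noncomputable def md {r : ℝ} (h : Loc X r) (x y : X) : X :=
  if e : dist x y ≤ r then (h x y e (1 / 2) ⟨by norm_num, by norm_num⟩).choose else x

theorem md_cn {r : ℝ} (h : Loc X r) {x y z : X} (e : dist x y ≤ r) (e' : dist z x ≤ r) :
    dist z (md h x y) ^ 2 ≤ dist z x ^ 2 / 2 + dist z y ^ 2 / 2 - dist x y ^ 2 / 4 := by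
  unfold md
  rw [dif_pos e]
  linarith [(h x y e (1 / 2) ⟨by norm_num, by norm_num⟩).choose_spec z e']

/-- every inner point is the midpoint of its neighbours -/
def Fx {r : ℝ} (h : Loc X r) (N : ℕ) (p : ℕ → X) : Prop :=
  ∀ i, i + 1 < N → p (i + 1) = md h (p i) (p (i + 2))

end Pool.Agent.Work.MP_9d1ffa_al.Ar
end

-- merged part: Pool.Agent.Work.MP_9d1ffa_al.Ar.ChA
section
/-! Local inequalities for midpoints. -/

namespace Pool.Agent.Work.MP_9d1ffa_al.Ar

open Set

variable {X : Type} [MetricSpace X] {r : ℝ}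

theorem ChA_half {u v : ℝ} (hv : 0 ≤ v) (h : u ^ 2 ≤ v ^ 2 / 4) : u ≤ v / 2 :=
  (abs_le_of_sq_le_sq' (by linarith) (by linarith)).2

theorem ChA_md (h : Loc X r) {x y : X} (e : dist x y ≤ r) :
    dist x (md h x y) ≤ dist x y / 2 ∧ dist (md h x y) y ≤ dist x y / 2 := by
  have a := md_cn h (z := x) e (by rw [dist_self]; exact dist_nonneg.trans e)
  have b := md_cn h (z := y) e (by rwa [dist_comm])
  rw [dist_self] at a b
  rw [dist_comm y x, dist_comm y] at b
  exact ⟨ChA_half dist_nonneg (by linarith), ChA_half dist_nonneg (by linarith)⟩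

theorem md_left (h : Loc X r) {x y : X} (e : dist x y ≤ r) :
    dist x (md h x y) = dist x y / 2 := by
  linarith [(ChA_md h e).1, (ChA_md h e).2, dist_triangle x (md h x y) y]

theorem md_right (h : Loc X r) {x y : X} (e : dist x y ≤ r) :
    dist (md h x y) y = dist x y / 2 := by
  linarith [(ChA_md h e).1, (ChA_md h e).2, dist_triangle x (md h x y) y]

/-- the parallelogram inequality -/
theorem round (h : Loc X r) {a b a' b' : X} (h1 : dist a b ≤ r) (h2 : dist a a' ≤ r)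
    (h3 : dist a b' ≤ r) : dist a b' ^ 2 + dist b a' ^ 2 ≤
      dist a a' ^ 2 + dist b b' ^ 2 + dist a b ^ 2 + dist a' b' ^ 2 := by
  have e1 := md_cn h (z := b) h3 (by rwa [dist_comm])
  have e2 := md_cn h (z := a') h3 (by rwa [dist_comm])
  have e3 := pow_le_pow_left₀ dist_nonneg (dist_triangle_right b a' (md h a b')) 2
  rw [dist_comm b a] at e1
  rw [dist_comm a' a] at e2
  nlinarith [sq_nonneg (dist b (md h a b') - dist a' (md h a b'))]

theorem ChA_mem {p i : ℕ} (hp : 0 < p) (h : i ≤ p) : (i : ℝ) / p ∈ Icc (0 : ℝ) 1 :=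
  ⟨by positivity, (div_le_one (by exact_mod_cast hp)).2 (by exact_mod_cast h)⟩

theorem ChA_tel (F : ℕ → ℕ → ℝ) {p q : ℕ} {c : ℝ} (h : ∀ i < p, ∀ j < q,
    F i (j + 1) + F (i + 1) j - F i j - F (i + 1) (j + 1) ≤ c) :
    F 0 q + F p 0 - F 0 0 - F p q ≤ p * (q * c) := by
  have e1 : ∀ i < p, (F i q - F i 0) - (F (i + 1) q - F (i + 1) 0) ≤ q * c := fun i hi => by
    rw [← Finset.sum_range_sub (F i), ← Finset.sum_range_sub (F (i + 1)),
      ← Finset.sum_sub_distrib]
    refine (Finset.sum_le_card_nsmul _ _ c fun j hj => ?_).trans_eq (by simp)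
    linarith [h i hi j (Finset.mem_range.1 hj)]
  have e2 := Finset.sum_le_card_nsmul _ _ _ fun i hi => e1 i (Finset.mem_range.1 hi)
  rw [Finset.sum_range_sub' fun i => F i q - F i 0, Finset.card_range, nsmul_eq_mul] at e2
  linarith

/-- mixed second differences on a grid -/
theorem cs_grid (Φ : ℝ → ℝ → ℝ) {w w' : ℝ} (hw : 0 ≤ w) (hw' : 0 ≤ w')
    (h : ∀ s ∈ Icc (0 : ℝ) 1, ∀ s' ∈ Icc (0 : ℝ) 1, ∀ t ∈ Icc (0 : ℝ) 1, ∀ t' ∈ Icc (0 : ℝ) 1,
      Φ s t' + Φ s' t - Φ s t - Φ s' t' ≤ ((s' - s) * w) ^ 2 + ((t' - t) * w') ^ 2) :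
    Φ 0 1 + Φ 1 0 - Φ 0 0 - Φ 1 1 ≤ 2 * w * w' := by
  refine le_of_forall_pos_le_add fun η hη => ?_
  obtain ⟨ε, he, hε⟩ : ∃ ε, 0 < ε ∧ ε * (w + w' + 1) = η :=
    ⟨η / (w + w' + 1), by positivity, div_mul_cancel₀ _ (by positivity)⟩
  have v0 : 0 < w' + ε := by positivity
  obtain ⟨q, hq⟩ := exists_nat_gt ((w' + ε) / ε)
  have q0 : (0 : ℝ) < q := lt_trans (by positivity) hq
  rw [div_lt_iff₀ he] at hq
  obtain ⟨p, p1, p2⟩ : ∃ p : ℕ, q * w / (w' + ε) < p ∧ p ≤ q * w / (w' + ε) + 1 :=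
    ⟨⌊q * w / (w' + ε)⌋₊ + 1, by push_cast; exact Nat.lt_floor_add_one _,
      by push_cast; linarith [Nat.floor_le (a := q * w / (w' + ε)) (by positivity)]⟩
  have p0 : (0 : ℝ) < p := lt_of_le_of_lt (by positivity) p1
  rw [div_lt_iff₀ v0] at p1
  rw [← sub_le_iff_le_add, le_div_iff₀ v0] at p2
  have pn : 0 < p := by exact_mod_cast p0
  have qn : 0 < q := by exact_mod_cast q0
  have k := ChA_tel (fun i j => Φ (i / p) (j / q)) (p := p) (q := q)
    (c := (w / p) ^ 2 + (w' / q) ^ 2) fun i hi j hj => by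
      refine (h _ (ChA_mem pn hi.le) _ (ChA_mem pn hi) _ (ChA_mem qn hj.le) _
        (ChA_mem qn hj)).trans_eq ?_
      push_cast
      ring
  simp only [Nat.cast_zero, zero_div, div_self p0.ne', div_self q0.ne'] at k
  have a1 : q * w / p ≤ w' + ε := by rw [div_le_iff₀ p0]; linarith
  have a2 : p * w' / q ≤ w + ε := by rw [div_le_iff₀ q0]; nlinarith
  have a3 : p * (q * ((w / p) ^ 2 + (w' / q) ^ 2)) = q * w / p * w + p * w' / q * w' := by
    field_simp
  nlinarith [mul_le_mul_of_nonneg_right a1 hw, mul_le_mul_of_nonneg_right a2 hw']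

theorem ChA_geo (h : Loc X r) {a b : X} (e : dist a b ≤ r) : ∃ g : ℝ → X, g 0 = a ∧ g 1 = b ∧
    ∀ s ∈ Icc (0 : ℝ) 1, dist a (g s) ≤ dist a b ∧ ∀ s' ∈ Icc (0 : ℝ) 1,
      dist (g s) (g s') ^ 2 ≤ ((s' - s) * dist a b) ^ 2 := by
  have : Nonempty X := ⟨a⟩
  choose! g hg using h a b e
  have e1 : ∀ s ∈ Icc (0 : ℝ) 1, dist a (g s) ^ 2 ≤ (s * dist a b) ^ 2 := fun s hs => by
    have := hg s hs a (by rw [dist_self]; exact dist_nonneg.trans e)
    rw [dist_self] at this
    linarith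
  have e2 : ∀ s ∈ Icc (0 : ℝ) 1, dist b (g s) ^ 2 ≤ ((1 - s) * dist a b) ^ 2 := fun s hs => by
    have := hg s hs b (by rwa [dist_comm])
    rw [dist_self, dist_comm b a] at this
    linarith
  have e3 : ∀ s ∈ Icc (0 : ℝ) 1, dist a (g s) ≤ dist a b := fun s hs =>
    (abs_le_of_sq_le_sq' (e1 s hs) (mul_nonneg hs.1 dist_nonneg)).2.trans
      (mul_le_of_le_one_left dist_nonneg hs.2)
  refine ⟨g, ?_, ?_, fun s hs => ⟨e3 s hs, fun t ht => ?_⟩⟩
  · simpa [eq_comm] using e1 0 ⟨le_rfl, zero_le_one⟩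
  · simpa [eq_comm] using e2 1 ⟨zero_le_one, le_rfl⟩
  · have := hg t ht (g s) (by rw [dist_comm]; exact (e3 s hs).trans e)
    rw [dist_comm (g s) a, dist_comm (g s) b] at this
    nlinarith [mul_le_mul_of_nonneg_left (e1 s hs) (sub_nonneg.2 ht.2),
      mul_le_mul_of_nonneg_left (e2 s hs) ht.1]

/-- the Cauchy-Schwarz inequality -/
theorem cs_loc (h : Loc X r) {a b a' b' : X} (h1 : dist a b ≤ r / 3) (h2 : dist a a' ≤ r / 3)
    (h3 : dist a' b' ≤ r / 3) : dist a b' ^ 2 + dist b a' ^ 2 ≤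
      dist a a' ^ 2 + dist b b' ^ 2 + 2 * dist a b * dist a' b' := by
  have r0 : 0 ≤ r / 3 := dist_nonneg.trans h1
  obtain ⟨g, g0, g1, hg⟩ := ChA_geo h (h1.trans (by linarith))
  obtain ⟨f, f0, f1, hf⟩ := ChA_geo h (h3.trans (by linarith))
  have n : ∀ s ∈ Icc (0 : ℝ) 1, ∀ t ∈ Icc (0 : ℝ) 1, dist (g s) (f t) ≤ r := fun s hs t ht => by
    linarith [dist_triangle_left (g s) (f t) a, dist_triangle a a' (f t), (hg s hs).1, (hf t ht).1]
  have k := cs_grid (fun s t => dist (g s) (f t) ^ 2) (dist_nonneg (x := a) (y := b))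
    (dist_nonneg (x := a') (y := b')) fun s hs s' hs' t ht t' ht' => by
      have n1 : dist (g s) (g s') ≤ r := by
        linarith [dist_triangle_left (g s) (g s') a, (hg s hs).1, (hg s' hs').1]
      linarith [round h n1 (n s hs t ht) (n s hs t' ht'), (hg s hs).2 s' hs', (hf t ht).2 t' ht']
  simp only [g0, g1, f0, f1] at k
  linarith

/-- the quadrilateral inequality for midpoints -/
theorem ks (h : Loc X r) {a b a' b' : X} (h1 : dist a b ≤ r / 3) (h2 : dist a a' ≤ r / 3)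
    (h3 : dist a' b' ≤ r / 3) : dist (md h a b) (md h a' b') ^ 2 ≤
      dist a a' ^ 2 / 2 + dist b b' ^ 2 / 2 - (dist a b - dist a' b') ^ 2 / 4 := by
  have r0 : 0 ≤ r / 3 := dist_nonneg.trans h1
  have k1 : dist a b ≤ r := by linarith
  have e1 := md_cn h (z := md h a b) (h3.trans (by linarith : r / 3 ≤ r))
    (by linarith [dist_triangle_left (md h a b) a' a, md_left h k1])
  have e2 := md_cn h (z := a') k1 (by rw [dist_comm]; linarith)
  have e3 := md_cn h (z := b') k1 (by rw [dist_comm]; linarith [dist_triangle a a' b'])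
  rw [dist_comm a' a, dist_comm a' b, dist_comm a'] at e2
  rw [dist_comm b' a, dist_comm b' b, dist_comm b'] at e3
  linarith [cs_loc h h1 h2 h3]

/-- midpoints are conical -/
theorem md_con (h : Loc X r) {a b a' b' : X} (h1 : dist a b ≤ r / 3) (h2 : dist a a' ≤ r / 3)
    (h3 : dist a' b' ≤ r / 3) :
    dist (md h a b) (md h a' b') ≤ (dist a a' + dist b b') / 2 := by
  have r0 : 0 ≤ r / 3 := dist_nonneg.trans h1
  have k1 : dist a b ≤ r := by linarith
  have k0 := dist_triangle a a' b'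
  have k2 : dist a b' ≤ r := by linarith
  have e1 := md_cn h (z := md h a b) k2 (by rw [dist_comm, md_left h k1]; linarith)
  have e2 := md_cn h (z := b') k1 (by rwa [dist_comm])
  have e3 := md_cn h (z := md h a b') (h3.trans (by linarith : r / 3 ≤ r))
    (by linarith [dist_triangle_left (md h a b') a' a, md_left h k2])
  have e4 := md_cn h (z := a') k2 (by rw [dist_comm]; linarith)
  rw [dist_comm _ a, md_left h k1] at e1
  rw [dist_comm b' a, dist_comm b' b, dist_comm b'] at e2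
  rw [md_right h k2] at e3
  rw [dist_comm a' a, dist_comm a'] at e4
  have f1 : dist (md h a b) (md h a b') ≤ dist b b' / 2 := ChA_half dist_nonneg (by linarith)
  have f2 : dist (md h a b') (md h a' b') ≤ dist a a' / 2 := ChA_half dist_nonneg (by linarith)
  linarith [dist_triangle (md h a b) (md h a b') (md h a' b')]

end Pool.Agent.Work.MP_9d1ffa_al.Ar
end

-- merged part: Pool.Agent.Work.MP_9d1ffa_al.Ar.ChB
section
/-! The midpoint iteration converges to discrete local geodesics. -/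

namespace Pool.Agent.Work.MP_9d1ffa_al.Ar

open Set
open Filter Topology

variable {X : Type} [MetricSpace X] {r ε : ℝ}

/-- one step of the midpoint iteration -/
noncomputable def ChB_J (h : Loc X r) (N : ℕ) (p : ℕ → X) (i : ℕ) : X :=
  if 0 < i ∧ i < N then md h (p (i - 1)) (p (i + 1)) else p i

theorem ChB_J0 (h : Loc X r) (N : ℕ) (p : ℕ → X) : ChB_J h N p 0 = p 0 := by
  unfold ChB_J
  rw [if_neg (by omega)]

theorem ChB_Jge (h : Loc X r) {N i : ℕ} (p : ℕ → X) (hi : N ≤ i) : ChB_J h N p i = p i := by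
  unfold ChB_J
  rw [if_neg (by omega)]

theorem ChB_Jin (h : Loc X r) {N i : ℕ} (p : ℕ → X) (hi : i + 1 < N) :
    ChB_J h N p (i + 1) = md h (p i) (p (i + 2)) := by
  unfold ChB_J
  rw [if_pos (by omega), Nat.add_sub_cancel]

theorem ChB_two (he : 9 * ε ≤ r) {p : ℕ → X} (s : ∀ i, dist (p i) (p (i + 1)) ≤ ε) (i : ℕ) :
    dist (p i) (p (i + 2)) ≤ r / 3 := by
  linarith [dist_triangle (p i) (p (i + 1)) (p (i + 2)), s i, s (i + 1),
    dist_nonneg.trans (s i)]

theorem ChB_step (h : Loc X r) (he : 9 * ε ≤ r) {N : ℕ} {p : ℕ → X}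
    (s : ∀ i, dist (p i) (p (i + 1)) ≤ ε) {i : ℕ} (hi : i < N) :
    dist (ChB_J h N p i) (ChB_J h N p (i + 1)) ≤ (dist (p (i - 1)) (p (i - 1 + 1)) +
      if i + 1 < N then dist (p (i + 1)) (p (i + 1 + 1)) else dist (p i) (p (i + 1))) / 2 := by
  have e0 : 0 ≤ ε := dist_nonneg.trans (s 0)
  have t2 : ∀ j, dist (p j) (p (j + 2)) ≤ r := fun j => by linarith [ChB_two he s j]
  rcases i with _ | j
  · rw [ChB_J0]
    split_ifs with c
    · rw [ChB_Jin h p c, md_left h (t2 0)]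
      linarith [dist_triangle (p 0) (p 1) (p 2)]
    · rw [ChB_Jge h p (by omega)]
      linarith
  · rw [ChB_Jin h p hi, Nat.add_sub_cancel]
    split_ifs with c
    · rw [ChB_Jin h p c]
      exact md_con h (ChB_two he s j) (by linarith [s j]) (ChB_two he s (j + 1))
    · rw [ChB_Jge h p (by omega), md_right h (t2 j)]
      linarith [dist_triangle (p j) (p (j + 1)) (p (j + 2))]

theorem ChB_pth (h : Loc X r) (he : 9 * ε ≤ r) {N : ℕ} {x y : X} {p : ℕ → X}
    (s : Pth ε x y N p) : Pth ε x y N (ChB_J h N p) := by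
  refine ⟨(ChB_J0 h N p).trans s.1, fun i hi => (ChB_Jge h p hi).trans (s.2.1 i hi), fun i => ?_⟩
  rcases lt_or_ge i N with c | c
  · refine (ChB_step h he s.2.2 c).trans ?_
    split_ifs
    · linarith [s.2.2 (i - 1), s.2.2 (i + 1)]
    · linarith [s.2.2 (i - 1), s.2.2 i]
  · rw [ChB_Jge h p c, ChB_Jge h p (by omega)]
    exact s.2.2 i

theorem ChB_len (h : Loc X r) (he : 9 * ε ≤ r) {N : ℕ} {p : ℕ → X}
    (s : ∀ i, dist (p i) (p (i + 1)) ≤ ε) :
    ∑ i ∈ Finset.range N, dist (ChB_J h N p i) (ChB_J h N p (i + 1)) ≤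
      ∑ i ∈ Finset.range N, dist (p i) (p (i + 1)) := by
  refine (Finset.sum_le_sum fun i hi => ChB_step h he s (Finset.mem_range.1 hi)).trans ?_
  rcases N with _ | M
  · simp
  obtain ⟨e, he'⟩ : ∃ e : ℕ → ℝ, ∀ i, dist (p i) (p (i + 1)) = e i := ⟨_, fun _ => rfl⟩
  simp only [he']
  have a1 : ∑ i ∈ Finset.range (M + 1), e (i - 1) = ∑ i ∈ Finset.range M, e i + e 0 := by
    rw [Finset.sum_range_succ']
    simp only [Nat.add_sub_cancel, Nat.zero_sub]
  have a2 : ∑ i ∈ Finset.range (M + 1), (if i + 1 < M + 1 then e (i + 1) else e i) =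
      ∑ i ∈ Finset.range M, e (i + 1) + e M := by
    rw [Finset.sum_range_succ, if_neg (lt_irrefl _)]
    congr 1
    exact Finset.sum_congr rfl fun i hi => if_pos (Nat.succ_lt_succ (Finset.mem_range.1 hi))
  rw [← Finset.sum_div, Finset.sum_add_distrib, a1, a2]
  linarith [Finset.sum_range_succ e M, Finset.sum_range_succ' e M]

theorem ChB_avg (h : Loc X r) (he : 9 * ε ≤ r) {N : ℕ} {p p' : ℕ → X}
    (s : ∀ i, dist (p i) (p (i + 1)) ≤ ε) (s' : ∀ i, dist (p' i) (p' (i + 1)) ≤ ε) {i : ℕ}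
    (hi : i + 1 < N) (c : dist (p i) (p' i) ≤ r / 3) :
    dist (ChB_J h N p (i + 1)) (ChB_J h N p' (i + 1)) ≤
      (dist (p i) (p' i) + dist (p (i + 2)) (p' (i + 2))) / 2 := by
  rw [ChB_Jin h p hi, ChB_Jin h p' hi]
  exact md_con h (ChB_two he s i) c (ChB_two he s' i)

theorem ChB_pair (h : Loc X r) (he : 9 * ε ≤ r) {N : ℕ} {p p' : ℕ → X}
    (s : ∀ i, dist (p i) (p (i + 1)) ≤ ε) (s' : ∀ i, dist (p' i) (p' (i + 1)) ≤ ε)
    (c : ∀ i, dist (p i) (p' i) ≤ ε) (i : ℕ) : dist (ChB_J h N p i) (ChB_J h N p' i) ≤ ε := by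
  have e0 : 0 ≤ ε := dist_nonneg.trans (s 0)
  rcases i with _ | j
  · rw [ChB_J0, ChB_J0]
    exact c 0
  rcases lt_or_ge (j + 1) N with k | k
  · linarith [ChB_avg h he s s' k (by linarith [c j]), c j, c (j + 2)]
  · rw [ChB_Jge h p k, ChB_Jge h p' k]
    exact c _

theorem ChB_move (h : Loc X r) (he : 9 * ε ≤ r) {N : ℕ} {p : ℕ → X}
    (s : ∀ i, dist (p i) (p (i + 1)) ≤ ε) (i : ℕ) : dist (p i) (ChB_J h N p i) ≤ ε := by
  have e0 : 0 ≤ ε := dist_nonneg.trans (s 0)
  rcases i with _ | j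
  · rw [ChB_J0, dist_self]
    exact e0
  rcases lt_or_ge (j + 1) N with k | k
  · rw [ChB_Jin h p k]
    have a := md_cn h (x := p j) (y := p (j + 2)) (z := p (j + 1))
      (by linarith [ChB_two he s j]) (by rw [dist_comm]; linarith [s j])
    rw [dist_comm (p (j + 1)) (p j)] at a
    have b1 := pow_le_pow_left₀ dist_nonneg (s j) 2
    have b2 := pow_le_pow_left₀ dist_nonneg (s (j + 1)) 2
    refine (abs_le_of_sq_le_sq' ?_ e0).2
    linarith [sq_nonneg (dist (p j) (p (j + 2)))]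
  · rw [ChB_Jge h p k, dist_self]
    exact e0

/-- decay of discrete subsolutions of the heat equation -/
theorem ChB_decay (N : ℕ) (e0 : 0 ≤ ε) (d : ℕ → ℕ → ℝ) (d0 : ∀ k, d k 0 ≤ 0)
    (dN : ∀ k i, N ≤ i → d k i ≤ 0) (di : ∀ i, d 0 i ≤ ε)
    (ds : ∀ k i, i + 1 < N → d (k + 1) (i + 1) ≤ (d k i + d k (i + 2)) / 2) (k i : ℕ) :
    d k i ≤ ε * N ^ 2 * (1 - 1 / ((N : ℝ) ^ 2 + 1)) ^ k := by
  obtain ⟨c, hc⟩ : ∃ c : ℝ, c = 1 / ((N : ℝ) ^ 2 + 1) := ⟨_, rfl⟩
  have n0 : (0 : ℝ) < (N : ℝ) ^ 2 + 1 := by positivity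
  have c0 : 0 ≤ c := hc ▸ (one_div_pos.2 n0).le
  have c1 : c * ((N : ℝ) ^ 2 + 1) = 1 := hc ▸ one_div_mul_cancel n0.ne'
  have l0 : 0 ≤ 1 - c := by nlinarith [sq_nonneg (N : ℝ)]
  rw [← hc]
  have ub : ∀ j : ℕ, j ≤ N → (j : ℝ) * (N - j) ≤ (N : ℝ) ^ 2 := fun j hj => by
    have : (j : ℝ) ≤ N := by exact_mod_cast hj
    nlinarith [Nat.cast_nonneg (α := ℝ) j]
  have key : ∀ k j : ℕ, j ≤ N → d k j ≤ ε * (1 - c) ^ k * (j * (N - j)) := by
    intro k
    induction k with
    | zero =>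
      intro j hj
      rcases j with _ | j
      · simpa using d0 0
      rcases hj.eq_or_lt with a | a
      · rw [a, sub_self, mul_zero, mul_zero]
        exact dN 0 N le_rfl
      · have : ((j + 1 : ℕ) : ℝ) + 1 ≤ N := by exact_mod_cast a
        have j1 : (1 : ℝ) ≤ ((j + 1 : ℕ) : ℝ) := by exact_mod_cast Nat.succ_pos j
        rw [pow_zero, mul_one]
        refine (di _).trans (le_mul_of_one_le_right e0 ?_)
        nlinarith
    | succ k ih =>
      intro j hj
      rcases j with _ | j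
      · simpa using d0 (k + 1)
      rcases hj.eq_or_lt with a | a
      · rw [a, sub_self, mul_zero, mul_zero]
        exact dN _ N le_rfl
      · have b1 := ih j (by omega)
        have b2 := ih (j + 2) (by omega)
        have b3 := ub (j + 1) hj
        have w : 0 ≤ ε * (1 - c) ^ k := mul_nonneg e0 (pow_nonneg l0 k)
        have b4 : c * (((j + 1 : ℕ) : ℝ) * (N - ((j + 1 : ℕ) : ℝ))) ≤ 1 := by
          linarith [mul_le_mul_of_nonneg_left b3 c0]
        have b5 := mul_le_mul_of_nonneg_left b4 w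
        have b6 := ds k j a
        rw [pow_succ]
        push_cast at b2 b5 ⊢
        linarith
  have w : 0 ≤ ε * (1 - c) ^ k := mul_nonneg e0 (pow_nonneg l0 k)
  rcases le_total i N with a | a
  · linarith [key k i a, mul_le_mul_of_nonneg_left (ub i a) w]
  · linarith [dN k i a, mul_nonneg w (sq_nonneg (N : ℝ))]

theorem ChB_lam (N : ℕ) : 0 ≤ 1 - 1 / ((N : ℝ) ^ 2 + 1) ∧ 1 - 1 / ((N : ℝ) ^ 2 + 1) < 1 := by
  have n0 : (0 : ℝ) < (N : ℝ) ^ 2 + 1 := by positivity
  refine ⟨sub_nonneg.2 ((div_le_one n0).2 ?_), sub_lt_self _ (one_div_pos.2 n0)⟩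
  linarith [sq_nonneg (N : ℝ)]

theorem ChB_it (h : Loc X r) (he : 9 * ε ≤ r) {N : ℕ} {x y : X} {p : ℕ → X}
    (s : Pth ε x y N p) (k : ℕ) : Pth ε x y N ((ChB_J h N)^[k] p) := by
  induction k with
  | zero => exact s
  | succ k ih =>
    rw [Function.iterate_succ_apply']
    exact ChB_pth h he ih

theorem ChB_cau (h : Loc X r) (he : 9 * ε ≤ r) {N : ℕ} {x y : X} {p : ℕ → X}
    (s : Pth ε x y N p) (i : ℕ) : CauchySeq fun k => (ChB_J h N)^[k] p i := by
  have e0 : 0 ≤ ε := dist_nonneg.trans (s.2.2 0)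
  refine cauchySeq_of_le_geometric _ (ε * N ^ 2) (ChB_lam N).2 fun k => ?_
  refine ChB_decay N e0 (fun k i => dist ((ChB_J h N)^[k] p i) ((ChB_J h N)^[k + 1] p i))
    (fun k => ?_) (fun k i hi => ?_) (fun i => ChB_move h he s.2.2 i) (fun k i hi => ?_) k i
  · rw [(ChB_it h he s k).1, (ChB_it h he s (k + 1)).1, dist_self]
  · rw [(ChB_it h he s k).2.1 i hi, (ChB_it h he s (k + 1)).2.1 i hi, dist_self]
  · have a := ChB_avg h he (ChB_it h he s k).2.2 (ChB_it h he s (k + 1)).2.2 hi (by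
      rw [Function.iterate_succ_apply']
      linarith [ChB_move (N := N) h he (ChB_it h he s k).2.2 i])
    rwa [← Function.iterate_succ_apply' (ChB_J h N) k,
      ← Function.iterate_succ_apply' (ChB_J h N) (k + 1)] at a

/-- the straightening of discrete paths with `N` steps -/
theorem jacobi [CompleteSpace X] (h : Loc X r) (he : 9 * ε ≤ r) (N : ℕ) :
    ∃ Λ : (ℕ → X) → ℕ → X,
      (∀ x y p, Pth ε x y N p → Pth ε x y N (Λ p) ∧ Fx h N (Λ p) ∧
        ∑ i ∈ Finset.range N, dist (Λ p i) (Λ p (i + 1)) ≤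
          ∑ i ∈ Finset.range N, dist (p i) (p (i + 1))) ∧
      ∀ x y p x' y' p', Pth ε x y N p → Pth ε x' y' N p' → (∀ i, dist (p i) (p' i) ≤ ε) →
        ∀ i, dist (Λ p i) (Λ p' i) ≤ ε := by
  have ex : ∀ (p : ℕ → X) (i : ℕ), ∃ q : X, ∀ x y, Pth ε x y N p →
      Tendsto (fun k => (ChB_J h N)^[k] p i) atTop (𝓝 q) := fun p i => by
    by_cases c : ∃ x y, Pth ε x y N p
    · obtain ⟨x, y, s⟩ := c
      obtain ⟨q, hq⟩ := cauchySeq_tendsto_of_complete (ChB_cau h he s i)
      exact ⟨q, fun _ _ _ => hq⟩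
    · exact ⟨p i, fun x y s => absurd ⟨x, y, s⟩ c⟩
  choose Λ hΛ using ex
  refine ⟨Λ, fun x y p s => ?_, fun x y p x' y' p' s s' c i => ?_⟩
  · have T := fun i => hΛ p i x y s
    have P := ChB_it h he s
    have e0 : 0 ≤ ε := dist_nonneg.trans (s.2.2 0)
    have st : ∀ i, dist (Λ p i) (Λ p (i + 1)) ≤ ε := fun i =>
      le_of_tendsto' ((T i).dist (T (i + 1))) fun k => (P k).2.2 i
    refine ⟨⟨?_, fun i hi => ?_, st⟩, fun i hi => ?_, ?_⟩
    · exact tendsto_nhds_unique (T 0) (tendsto_const_nhds.congr fun k => (P k).1.symm)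
    · exact tendsto_nhds_unique (T i) (tendsto_const_nhds.congr fun k => ((P k).2.1 i hi).symm)
    · rcases lt_or_ge 0 r with r0 | r0
      · rw [← ChB_Jin h (Λ p) hi]
        refine (dist_le_zero.1 ?_).symm
        have t1 : Tendsto (fun k => dist (ChB_J h N (Λ p) (i + 1)) ((ChB_J h N)^[k + 1] p (i + 1)))
            atTop (𝓝 (dist (ChB_J h N (Λ p) (i + 1)) (Λ p (i + 1)))) :=
          tendsto_const_nhds.dist ((T (i + 1)).comp (tendsto_add_atTop_nat 1))
        have t0 : ∀ j, Tendsto (fun k => dist (Λ p j) ((ChB_J h N)^[k] p j)) atTop (𝓝 0) :=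
          fun j => dist_self (Λ p j) ▸ tendsto_const_nhds.dist (T j)
        have t2 := ((t0 i).add (t0 (i + 2))).div_const 2
        rw [add_zero, zero_div] at t2
        refine le_of_tendsto_of_tendsto t1 t2 ?_
        filter_upwards [(t0 i).eventually_le_const (by linarith : (0 : ℝ) < r / 3)] with k hk
        rw [Function.iterate_succ_apply']
        exact ChB_avg h he st (P k).2.2 hi hk
      · have a := md_left h (x := Λ p i) (y := Λ p (i + 2)) (by linarith [ChB_two he st i])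
        refine dist_le_zero.1 ?_
        linarith [dist_triangle_left (Λ p (i + 1)) (md h (Λ p i) (Λ p (i + 2))) (Λ p i), st i,
          ChB_two he st i]
    · refine le_of_tendsto' (tendsto_finsetSum _ fun i _ => (T i).dist (T (i + 1))) fun k => ?_
      induction k with
      | zero => exact le_rfl
      | succ k ih =>
        rw [Function.iterate_succ_apply']
        exact (ChB_len h he (P k).2.2).trans ih
  · refine le_of_tendsto' ((hΛ p i x y s).dist (hΛ p' i x' y' s')) fun k => ?_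
    induction k generalizing i with
    | zero => exact c i
    | succ k ih =>
      rw [Function.iterate_succ_apply', Function.iterate_succ_apply']
      exact ChB_pair h he (ChB_it h he s k).2.2 (ChB_it h he s' k).2.2 ih i

/-- close discrete local geodesics with the same ends are equal -/
theorem fx_uniq (h : Loc X r) (he : 9 * ε ≤ r) {N : ℕ} {x y : X} {p p' : ℕ → X}
    (c : Cls ε x y N p p') (f : Fx h N p) (f' : Fx h N p') : p = p' := by
  obtain ⟨s, s', c⟩ := c
  have e0 : 0 ≤ ε := dist_nonneg.trans (c 0)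
  funext i
  have t := (tendsto_pow_atTop_nhds_zero_of_lt_one (ChB_lam N).1 (ChB_lam N).2).const_mul
    (ε * N ^ 2)
  rw [mul_zero] at t
  refine dist_le_zero.1 (ge_of_tendsto' t fun k => ?_)
  refine ChB_decay N e0 (fun _ i => dist (p i) (p' i)) (fun _ => ?_) (fun _ i hi => ?_) c
    (fun _ i hi => ?_) k i
  · rw [s.1, s'.1, dist_self]
  · rw [s.2.1 i hi, s'.2.1 i hi, dist_self]
  · rw [f i hi, f' i hi]
    exact md_con h (ChB_two he s.2.2 i) (by linarith [c i]) (ChB_two he s'.2.2 i)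

end Pool.Agent.Work.MP_9d1ffa_al.Ar
end

-- merged part: Pool.Agent.Work.MP_9d1ffa_al.Ar.ChC
section
/-! The Cartan-Hadamard theorem for discrete simple connectivity. -/

namespace Pool.Agent.Work.MP_9d1ffa_al.Ar

open Set

variable {X : Type} [MetricSpace X] {r ε δ : ℝ}

/-- the steps of a discrete local geodesic are equal -/
theorem fx_step (h : Loc X r) (he : 9 * ε ≤ r) {N : ℕ} {x y : X} {p : ℕ → X}
    (c : Pth ε x y N p) (f : Fx h N p) : ∃ s, (∀ i < N, dist (p i) (p (i + 1)) = s) ∧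
      ∀ i, i + 1 < N → dist (p i) (p (i + 2)) = 2 * s := by
  have e0 : 0 ≤ ε := dist_nonneg.trans (c.2.2 0)
  have key : ∀ i, i + 1 < N → dist (p i) (p (i + 1)) = dist (p i) (p (i + 2)) / 2 ∧
      dist (p (i + 1)) (p (i + 2)) = dist (p i) (p (i + 2)) / 2 := by
    intro i hi
    have e : dist (p i) (p (i + 2)) ≤ r := by
      have h1 := c.2.2 i
      have h2 : dist (p (i + 1)) (p (i + 2)) ≤ ε := c.2.2 (i + 1)
      have h3 := dist_triangle (p i) (p (i + 1)) (p (i + 2))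
      linarith
    have hm := f i hi
    constructor
    · rw [hm]; exact md_left h e
    · rw [hm]; exact md_right h e
  have st : ∀ i < N, dist (p i) (p (i + 1)) = dist (p 0) (p 1) := by
    intro i
    induction i with
    | zero => intro _; rfl
    | succ j ih =>
      intro hj
      have h1 := key j hj
      have h2 := ih (by omega)
      have h3 : dist (p (j + 1)) (p (j + 1 + 1)) = dist (p (j + 1)) (p (j + 2)) := rfl
      rw [h3, h1.2, ← h1.1, h2]
  refine ⟨dist (p 0) (p 1), st, fun i hi => ?_⟩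
  have h1 := (key i hi).1
  have h2 := st i (by omega)
  linarith

/-- the ladder between two close discrete local geodesics from the same point -/
theorem ladder (h : Loc X r) (he : 9 * ε ≤ r) {N : ℕ} {x a b : X} {p p' : ℕ → X}
    (c : Pth ε x a N p) (c' : Pth ε x b N p') (f : Fx h N p) (f' : Fx h N p')
    (cl : ∀ i, dist (p i) (p' i) ≤ ε) :
    dist x (md h a b) ^ 2 ≤ (∑ i ∈ Finset.range N, dist (p i) (p (i + 1))) ^ 2 / 2 +
      (∑ i ∈ Finset.range N, dist (p' i) (p' (i + 1))) ^ 2 / 2 - dist a b ^ 2 / 4 := by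
  have e0 : 0 ≤ ε := dist_nonneg.trans (c.2.2 0)
  obtain ⟨s, hs, -⟩ := fx_step h he c f
  obtain ⟨s', hs', -⟩ := fx_step h he c' f'
  have e3 : ε ≤ r / 3 := by linarith
  have m0 : md h (p 0) (p' 0) = x := by
    rw [c.1, c'.1]
    have := md_left h (x := x) (y := x) (by rw [dist_self]; linarith)
    rw [dist_self, zero_div] at this
    exact (dist_eq_zero.1 this).symm
  have mN : md h (p N) (p' N) = md h a b := by rw [c.2.1 N le_rfl, c'.2.1 N le_rfl]
  have t1 := dist_le_range_sum_dist (fun i => md h (p i) (p' i)) N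
  simp only [m0, mN] at t1
  have t2 : ∀ i ∈ Finset.range N, dist (md h (p i) (p' i)) (md h (p (i + 1)) (p' (i + 1))) ^ 2 ≤
      s ^ 2 / 2 + s' ^ 2 / 2 -
        (dist (p (i + 1)) (p' (i + 1)) - dist (p i) (p' i)) ^ 2 / 4 := by
    intro i hi
    have hi' := Finset.mem_range.1 hi
    have := ks h ((cl i).trans e3) ((c.2.2 i).trans e3) ((cl (i + 1)).trans e3)
    rw [hs i hi', hs' i hi'] at this
    linarith
  have t3 := Finset.sum_le_sum t2
  have t4 := sq_sum_le_card_mul_sum_sq (s := Finset.range N)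
    (f := fun i => dist (md h (p i) (p' i)) (md h (p (i + 1)) (p' (i + 1))))
  have t5 := sq_sum_le_card_mul_sum_sq (s := Finset.range N)
    (f := fun i => dist (p (i + 1)) (p' (i + 1)) - dist (p i) (p' i))
  rw [Finset.sum_range_sub (fun i => dist (p i) (p' i)), c.1, c'.1, c.2.1 N le_rfl,
    c'.2.1 N le_rfl, dist_self, sub_zero] at t5
  rw [Finset.sum_sub_distrib, Finset.sum_const, ← Finset.sum_div] at t3
  rw [Finset.sum_congr rfl (fun i hi => hs i (Finset.mem_range.1 hi)),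
    Finset.sum_congr rfl (fun i hi => hs' i (Finset.mem_range.1 hi)), Finset.sum_const,
    Finset.sum_const]
  simp only [Finset.card_range, nsmul_eq_mul] at t3 t4 t5 ⊢
  have t6 := pow_le_pow_left₀ dist_nonneg t1 2
  have t7 := mul_le_mul_of_nonneg_left t3 (Nat.cast_nonneg (α := ℝ) N)
  nlinarith

theorem ChC_sum {N M : ℕ} {x y : X} {p : ℕ → X} (c : Pth ε x y N p) (e : N ≤ M) :
    ∑ i ∈ Finset.range M, dist (p i) (p (i + 1)) =
      ∑ i ∈ Finset.range N, dist (p i) (p (i + 1)) := by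
  induction M, e using Nat.le_induction with
  | base => rfl
  | succ k hk ih =>
    rw [Finset.sum_range_succ, ih, c.2.1 k hk, c.2.1 (k + 1) (by omega), dist_self, add_zero]

theorem ChC_lim {A u v w : ℝ} (h : ∀ η > 0, A ≤ (u + η) ^ 2 / 2 + (v + η) ^ 2 / 2 - w) :
    A ≤ u ^ 2 / 2 + v ^ 2 / 2 - w := by
  have hc : Continuous fun η : ℝ => (u + η) ^ 2 / 2 + (v + η) ^ 2 / 2 - w := by fun_prop
  have ht := (hc.tendsto 0).mono_left (nhdsWithin_le_nhds (s := Ioi (0 : ℝ)))
  simp only [add_zero] at ht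
  exact ge_of_tendsto ht (eventually_nhdsWithin_of_forall fun η hη => h η hη)

/-- the midpoint inequality for short segments and all points -/
theorem far [CompleteSpace X] (h : Loc X r) (he : 9 * ε ≤ r) (h0 : 0 < δ) (h1 : δ ≤ ε)
    (sc : Sc X δ ε) (ln : Len X) (x : X) {a b : X} (e : dist a b ≤ δ) :
    dist x (md h a b) ^ 2 ≤ dist x a ^ 2 / 2 + dist x b ^ 2 / 2 - dist a b ^ 2 / 4 := by
  refine ChC_lim fun η hη => ?_
  obtain ⟨Na, pa, ca, sa⟩ := ln x a η δ hη h0
  obtain ⟨Nb, pb, cb, sb⟩ := ln x b η δ hη h0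
  have cq : Pth δ x b (Na + 1) fun i => if i ≤ Na then pa i else b := by
    refine ⟨by simp [ca.1], fun i hi => if_neg (by omega), fun i => ?_⟩
    by_cases h2 : i + 1 ≤ Na
    · simp only [if_pos h2, if_pos (show i ≤ Na by omega)]
      exact ca.2.2 i
    · by_cases h3 : i ≤ Na
      · simp only [if_neg h2, if_pos h3]
        rw [ca.2.1 i (by omega)]
        exact e
      · simp only [if_neg h2, if_neg h3, dist_self]
        exact h0.le
  have cl : ∀ i, dist (pa i) (if i ≤ Na then pa i else b) ≤ ε := by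
    intro i
    by_cases h3 : i ≤ Na
    · rw [if_pos h3, dist_self]
      linarith
    · rw [if_neg h3, ca.2.1 i (by omega)]
      linarith
  obtain ⟨K, hK⟩ := sc x b _ _ _ _ cq cb
  obtain ⟨N, n1, n2, n3⟩ : ∃ N, Na + 1 ≤ N ∧ Nb ≤ N ∧ K ≤ N :=
    ⟨Na + 1 + Nb + K, by omega, by omega, by omega⟩
  obtain ⟨Λ, L1, L2⟩ := jacobi h he N
  have st : ∀ p p', Relation.ReflTransGen (Cls ε x b K) p p' → Λ p = Λ p' := by
    intro p p' hp
    induction hp with
    | refl => rfl
    | tail _ c ih =>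
      have c1 := c.1.mono le_rfl n3
      have c2 := c.2.1.mono le_rfl n3
      rw [ih]
      exact fx_uniq h he ⟨(L1 _ _ _ c1).1, (L1 _ _ _ c2).1, L2 _ _ _ _ _ _ c1 c2 c.2.2⟩
        (L1 _ _ _ c1).2.1 (L1 _ _ _ c2).2.1
  have ca' := ca.mono h1 (show Na ≤ N by omega)
  have cb' := cb.mono h1 n2
  have c3 := L2 _ _ _ _ _ _ ca' (cq.mono h1 n1) cl
  rw [st _ _ hK] at c3
  obtain ⟨a1, a2, a3⟩ := L1 _ _ _ ca'
  obtain ⟨b1, b2, b3⟩ := L1 _ _ _ cb'
  have t := ladder h he a1 b1 a2 b2 c3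
  rw [ChC_sum ca (show Na ≤ N by omega)] at a3
  rw [ChC_sum cb n2] at b3
  have u1 := pow_le_pow_left₀ (Finset.sum_nonneg fun _ _ => dist_nonneg) (a3.trans sa) 2
  have u2 := pow_le_pow_left₀ (Finset.sum_nonneg fun _ _ => dist_nonneg) (b3.trans sb) 2
  linarith

theorem cvx_le (g : ℕ → ℝ) {N : ℕ} (h : ∀ i, i + 1 < N → 2 * g (i + 1) ≤ g i + g (i + 2))
    {i : ℕ} (hi : i ≤ N) : N * g i ≤ (N - i) * g 0 + i * g N := by
  rcases hi.eq_or_lt with rfl | hi
  · simp
  have A : ∀ j k, j ≤ k → k < N → g (j + 1) - g j ≤ g (k + 1) - g k := by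
    intro j k hjk
    induction k, hjk using Nat.le_induction with
    | base => exact fun _ => le_rfl
    | succ k hk ih =>
      intro hN
      have h1 := ih (by omega)
      have h2 := h k hN
      have h3 : g (k + 1 + 1) = g (k + 2) := rfl
      linarith
  have B : ∀ j, j ≤ i → g j - g 0 ≤ j * (g (i + 1) - g i) := by
    intro j
    induction j with
    | zero => simp
    | succ j ih =>
      intro hj
      have h1 := ih (by omega)
      have h2 := A j i (by omega) hi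
      push_cast
      linarith
  have C : ∀ k, i ≤ k → k ≤ N → ((k : ℝ) - i) * (g (i + 1) - g i) ≤ g k - g i := by
    intro k hk
    induction k, hk using Nat.le_induction with
    | base => simp
    | succ k hk ih =>
      intro hN
      have h1 := ih (by omega)
      have h2 := A i k hk (by omega)
      push_cast
      linarith
  have h1 := mul_le_mul_of_nonneg_left (B i le_rfl)
    (sub_nonneg.2 (Nat.cast_le (α := ℝ).2 hi.le))
  have h2 := mul_le_mul_of_nonneg_left (C N hi.le le_rfl) (Nat.cast_nonneg (α := ℝ) i)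
  nlinarith

/-- the comparison inequality on a dense set of parameters suffices -/
theorem cat_of_dense [CompleteSpace X]
    (h : ∀ (x y : X), ∀ t ∈ Icc (0 : ℝ) 1, ∀ η > 0, ∃ τ ∈ Icc (0 : ℝ) 1, |τ - t| ≤ η ∧ ∃ m, ∀ z,
      dist z m ^ 2 ≤ (1 - τ) * dist z x ^ 2 + τ * dist z y ^ 2 - τ * (1 - τ) * dist x y ^ 2) :
    Px.Cat0 X := by
  intro x y t ht
  choose τ hτ hd m hm using fun n : ℕ => h x y t ht (1 / ((n : ℝ) + 1)) Nat.one_div_pos_of_nat
  have dx : ∀ n, dist (m n) x ^ 2 ≤ τ n ^ 2 * dist x y ^ 2 := by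
    intro n
    have := hm n x
    rw [dist_self, dist_comm] at this
    linarith
  have dy : ∀ n, dist (m n) y ^ 2 ≤ (1 - τ n) ^ 2 * dist x y ^ 2 := by
    intro n
    have := hm n y
    rw [dist_self, dist_comm, dist_comm y x] at this
    linarith
  have dm : ∀ n k, dist (m n) (m k) ≤ |τ n - τ k| * dist x y := by
    intro n k
    refine le_of_sq_le_sq ?_ (by positivity)
    have h1 := hm k (m n)
    have h2 := mul_le_mul_of_nonneg_left (dx n) (sub_nonneg.2 (hτ k).2)
    have h3 := mul_le_mul_of_nonneg_left (dy n) (hτ k).1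
    rw [mul_pow, sq_abs]
    linarith
  have t0 : Filter.Tendsto (fun n : ℕ => 1 / ((n : ℝ) + 1)) Filter.atTop (nhds 0) :=
    tendsto_one_div_add_atTop_nhds_zero_nat
  have tτ : Filter.Tendsto τ Filter.atTop (nhds t) := by
    rw [tendsto_iff_dist_tendsto_zero]
    exact squeeze_zero (fun _ => dist_nonneg) (fun n => by rw [Real.dist_eq]; exact hd n) t0
  have cy : CauchySeq m := by
    refine cauchySeq_of_le_tendsto_0' (fun n : ℕ => 2 * (1 / ((n : ℝ) + 1)) * dist x y)
      (fun n k hnk => (dm n k).trans (mul_le_mul_of_nonneg_right ?_ dist_nonneg)) ?_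
    · have h1 := abs_le.1 (hd n)
      have h2 := abs_le.1 (hd k)
      have h3 : 1 / ((k : ℝ) + 1) ≤ 1 / ((n : ℝ) + 1) := Nat.one_div_le_one_div hnk
      exact abs_le.2 ⟨by linarith, by linarith⟩
    · simpa using (t0.const_mul 2).mul_const (dist x y)
  obtain ⟨l, hl⟩ := cauchySeq_tendsto_of_complete cy
  refine ⟨l, fun z => ?_⟩
  refine le_of_tendsto_of_tendsto' ((tendsto_const_nhds.dist hl).pow 2) ?_ fun n => hm n z
  exact (((tendsto_const_nhds.sub tτ).mul_const _).add (tτ.mul_const _)).sub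
    ((tτ.mul (tendsto_const_nhds.sub tτ)).mul_const _)

theorem cartan [CompleteSpace X] (h : Loc X r) (he : 9 * ε ≤ r) (h0 : 0 < δ) (h1 : δ ≤ ε)
    (sc : Sc X δ ε) (ln : Len X) : Px.Cat0 X := by
  refine cat_of_dense fun x y t ht η hη => ?_
  have he' : 9 * (δ / 2) ≤ r := by linarith
  obtain ⟨N0, p, cp, -⟩ := ln x y 1 (δ / 2) one_pos (by linarith)
  obtain ⟨N1, hN1⟩ := exists_nat_gt (1 / η)
  obtain ⟨N, n0, n1, n2⟩ : ∃ N, 0 < N ∧ N0 ≤ N ∧ N1 ≤ N :=
    ⟨N0 + N1 + 1, by omega, by omega, by omega⟩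
  have np : (0 : ℝ) < N := Nat.cast_pos.2 n0
  obtain ⟨Λ, L1, -⟩ := jacobi h he' N
  obtain ⟨c1, c2, -⟩ := L1 _ _ _ (cp.mono le_rfl n1)
  generalize Λ p = c at c1 c2
  obtain ⟨s, s1, s2⟩ := fx_step h he' c1 c2
  have s3 : s ≤ δ / 2 := s1 0 n0 ▸ c1.2.2 0
  have s4 : dist x y ≤ N * s := by
    have := dist_le_range_sum_dist c N
    rw [c1.1, c1.2.1 N le_rfl, Finset.sum_congr rfl (fun i hi => s1 i (Finset.mem_range.1 hi)),
      Finset.sum_const, Finset.card_range, nsmul_eq_mul] at this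
    exact this
  have s5 := pow_le_pow_left₀ dist_nonneg s4 2
  have tN : 0 ≤ t * N := mul_nonneg ht.1 np.le
  have i1 := Nat.floor_le tN
  have i2 := Nat.lt_floor_add_one (t * N)
  generalize ⌊t * N⌋₊ = i at i1 i2
  have i3 : (i : ℝ) ≤ N := i1.trans (mul_le_of_le_one_left np.le ht.2)
  obtain ⟨τ, hτ⟩ : ∃ τ : ℝ, (i : ℝ) = τ * N := ⟨i / N, by field_simp⟩
  have i0 : (0 : ℝ) ≤ i := Nat.cast_nonneg i
  have τ0 : 0 ≤ τ := by
    rw [hτ] at i0
    exact nonneg_of_mul_nonneg_left i0 np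
  have τ1 : τ ≤ 1 := by
    rw [hτ] at i3
    exact le_of_mul_le_mul_right (by linarith) np
  refine ⟨τ, ⟨τ0, τ1⟩, ?_, c i, fun z => ?_⟩
  · have h2 : (N1 : ℝ) ≤ N := Nat.cast_le.2 n2
    have h3 : 1 < η * N := by
      have := (div_lt_iff₀ hη).1 (hN1.trans_le h2)
      linarith
    rw [hτ] at i1 i2
    have h4 : τ ≤ t := le_of_mul_le_mul_right i1 np
    have h5 : t ≤ τ + η := le_of_mul_le_mul_right (by linarith) np
    exact abs_le.2 ⟨by linarith, by linarith⟩
  · have cv := cvx_le (fun j => dist z (c j) ^ 2 - (j : ℝ) ^ 2 * s ^ 2) (N := N) (fun j hj => by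
      have h2 := s2 j hj
      have h3 := far h he h0 h1 sc ln z (a := c j) (b := c (j + 2)) (by linarith)
      rw [← c2 j hj, h2] at h3
      push_cast
      linarith) (Nat.cast_le.1 i3)
    simp only [c1.1, c1.2.1 N le_rfl] at cv
    have h6 := mul_le_mul_of_nonneg_left s5 (mul_nonneg τ0 (sub_nonneg.2 τ1))
    refine le_trans (le_of_mul_le_mul_left (a := (N : ℝ))
      (c := (1 - τ) * dist z x ^ 2 + τ * dist z y ^ 2 - τ * (1 - τ) * (N * s) ^ 2) ?_ np)
      (by linarith)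
    rw [hτ] at cv
    push_cast at cv
    linarith

end Pool.Agent.Work.MP_9d1ffa_al.Ar
end

-- merged part: Pool.Agent.Work.MP_9d1ffa_al.Ar.ScA
section
/-! If discrete coverings are trivial then discrete paths are homotopic. -/

namespace Pool.Agent.Work.MP_9d1ffa_al.Ar

open Set

variable {X : Type} [MetricSpace X] {ε δ : ℝ}

/-- homotopic paths -/
def ScA_H (ε : ℝ) (x y : X) (p p' : ℕ → X) : Prop :=
  ∃ K, Relation.ReflTransGen (Cls ε x y K) p p'

theorem ScA_cls_mono {x y : X} {K K' : ℕ} (e : K ≤ K') {p p' : ℕ → X} (h : Cls ε x y K p p') :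
    Cls ε x y K' p p' :=
  ⟨h.1.mono le_rfl e, h.2.1.mono le_rfl e, h.2.2⟩

theorem ScA_refl (x y : X) (p : ℕ → X) : ScA_H ε x y p p := ⟨0, Relation.ReflTransGen.refl⟩

theorem ScA_of_cls {x y : X} {K : ℕ} {p p' : ℕ → X} (h : Cls ε x y K p p') : ScA_H ε x y p p' :=
  ⟨K, Relation.ReflTransGen.single h⟩

theorem ScA_symm {x y : X} {p p' : ℕ → X} (h : ScA_H ε x y p p') : ScA_H ε x y p' p := by
  obtain ⟨K, h⟩ := h
  refine ⟨K, ?_⟩
  induction h with
  | refl => exact Relation.ReflTransGen.refl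
  | tail _ hb ih =>
    exact Relation.ReflTransGen.head ⟨hb.2.1, hb.1, fun i => by rw [dist_comm]; exact hb.2.2 i⟩ ih

theorem ScA_lift {x y z : X} {K K' : ℕ} (f : (ℕ → X) → ℕ → X)
    (hf : ∀ a b, Cls ε x y K a b → Cls ε x z K' (f a) (f b)) {p p' : ℕ → X}
    (h : Relation.ReflTransGen (Cls ε x y K) p p') :
    Relation.ReflTransGen (Cls ε x z K') (f p) (f p') := by
  induction h with
  | refl => exact Relation.ReflTransGen.refl
  | tail _ hb ih => exact ih.tail (hf _ _ hb)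

theorem ScA_trans {x y : X} {p p' p'' : ℕ → X} (h : ScA_H ε x y p p') (h' : ScA_H ε x y p' p'') :
    ScA_H ε x y p p'' := by
  obtain ⟨K, h⟩ := h
  obtain ⟨K', h'⟩ := h'
  exact ⟨max K K',
    (ScA_lift id (fun _ _ e => ScA_cls_mono (le_max_left _ _) e) h).trans
      (ScA_lift id (fun _ _ e => ScA_cls_mono (le_max_right _ _) e) h')⟩

/-- add a last point -/
def ScA_ext (p : ℕ → X) (z : X) (n : ℕ) : ℕ → X := fun i => if i ≤ n then p i else z

theorem ScA_ext_pth (hε : 0 ≤ ε) {x y z : X} {n : ℕ} {p : ℕ → X} (h : Pth ε x y n p)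
    (e : dist y z ≤ ε) : Pth ε x z (n + 1) (ScA_ext p z n) := by
  refine ⟨by simp [ScA_ext, h.1], fun i hi => ?_, fun i => ?_⟩
  · have : ¬ i ≤ n := by omega
    simp [ScA_ext, this]
  · by_cases h1 : i + 1 ≤ n
    · have h2 : i ≤ n := by omega
      simpa [ScA_ext, h1, h2] using h.2.2 i
    · by_cases h2 : i ≤ n
      · have h3 : p i = y := h.2.1 i (by omega)
        simpa [ScA_ext, h1, h2, h3] using e
      · simpa [ScA_ext, h1, h2] using hε

theorem ScA_ext_up (hε : 0 ≤ ε) {x y z : X} {n : ℕ} {p : ℕ → X} (h : Pth ε x y n p)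
    (e : dist y z ≤ ε) {m : ℕ} (hm : n ≤ m) : ScA_H ε x z (ScA_ext p z n) (ScA_ext p z m) := by
  refine ScA_of_cls (K := m + 1) ⟨(ScA_ext_pth hε h e).mono le_rfl (by omega),
    ScA_ext_pth hε (h.mono le_rfl hm) e, fun i => ?_⟩
  by_cases h1 : i ≤ n
  · have h2 : i ≤ m := by omega
    simpa [ScA_ext, h1, h2] using hε
  · by_cases h2 : i ≤ m
    · have h3 : p i = y := h.2.1 i (by omega)
      simpa [ScA_ext, h1, h2, h3, dist_comm] using e
    · simpa [ScA_ext, h1, h2] using hε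

theorem ScA_ext_congr (hε : 0 ≤ ε) {x y z : X} {n n' : ℕ} {p p' : ℕ → X} (h : Pth ε x y n p)
    (h' : Pth ε x y n' p') (e : dist y z ≤ ε) (H : ScA_H ε x y p p') :
    ScA_H ε x z (ScA_ext p z n) (ScA_ext p' z n') := by
  obtain ⟨K, H⟩ := H
  have h1 : n ≤ max K (max n n') := le_max_of_le_right (le_max_left _ _)
  have h2 : n' ≤ max K (max n n') := le_max_of_le_right (le_max_right _ _)
  have h3 : K ≤ max K (max n n') := le_max_left _ _
  generalize max K (max n n') = m at h1 h2 h3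
  refine ScA_trans (ScA_ext_up hε h e h1) (ScA_trans ?_ (ScA_symm (ScA_ext_up hε h' e h2)))
  refine ⟨m + 1, ScA_lift (fun q => ScA_ext q z m) (fun a b hab => ?_) H⟩
  refine ⟨ScA_ext_pth hε (hab.1.mono le_rfl h3) e, ScA_ext_pth hε (hab.2.1.mono le_rfl h3) e,
    fun i => ?_⟩
  by_cases h4 : i ≤ m
  · simpa [ScA_ext, h4] using hab.2.2 i
  · simpa [ScA_ext, h4] using hε

/-- paths from `x` with their end point -/
def ScA_P (ε : ℝ) (x : X) : Type := {a : X × (ℕ → X) // ∃ N, Pth ε x a.1 N a.2}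

/-- homotopy of paths from `x` -/
def ScA_S (ε : ℝ) (x : X) : Setoid (ScA_P ε x) where
  r a b := a.1.1 = b.1.1 ∧ ScA_H ε x a.1.1 a.1.2 b.1.2
  iseqv := ⟨fun _ => ⟨rfl, ScA_refl _ _ _⟩, fun h => ⟨h.1.symm, h.1 ▸ ScA_symm h.2⟩,
    fun h h' => ⟨h.1.trans h'.1, ScA_trans h.2 (h.1 ▸ h'.2)⟩⟩

/-- the class of a path -/
def ScA_mk {x y : X} {N : ℕ} {p : ℕ → X} (h : Pth ε x y N p) : Quotient (ScA_S ε x) :=
  Quotient.mk _ ⟨(y, p), N, h⟩

theorem ScA_mk_eq {x y : X} {N N' : ℕ} {p p' : ℕ → X} (h : Pth ε x y N p) (h' : Pth ε x y N' p') :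
    ScA_mk h = ScA_mk h' ↔ ScA_H ε x y p p' :=
  ⟨fun e => (Quotient.exact e).2, fun e => Quotient.sound ⟨rfl, e⟩⟩

theorem ScA_ind {x : X} (ω : Quotient (ScA_S ε x)) :
    ∃ y N p, ∃ h : Pth ε x y N p, ω = ScA_mk h := by
  induction ω using Quotient.inductionOn with
  | h a => obtain ⟨⟨y, p⟩, N, h⟩ := a; exact ⟨y, N, p, h, rfl⟩

/-- the end point -/
def ScA_pi (x : X) : Quotient (ScA_S ε x) → X := Quotient.lift (fun a => a.1.1) fun _ _ h => h.1

open Classical in
/-- transport -/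
noncomputable def ScA_E (hε : 0 ≤ ε) (x : X) (ω : Quotient (ScA_S ε x)) (z : X) :
    Quotient (ScA_S ε x) :=
  Quotient.lift (fun a : ScA_P ε x => if e : dist a.1.1 z ≤ ε then
      ScA_mk (ScA_ext_pth hε a.2.choose_spec e) else Quotient.mk _ a) (by
    rintro ⟨⟨y, p⟩, ha⟩ ⟨⟨y', p'⟩, hb⟩ ⟨h1, h2⟩
    obtain rfl : y = y' := h1
    by_cases e : dist y z ≤ ε
    · simp only [e, dif_pos]
      exact (ScA_mk_eq _ _).2 (ScA_ext_congr hε ha.choose_spec hb.choose_spec e h2)
    · simp only [e, dif_neg, not_false_eq_true]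
      exact Quotient.sound ⟨rfl, h2⟩) ω

theorem ScA_E_mk (hε : 0 ≤ ε) {x y z : X} {N : ℕ} {p : ℕ → X} (h : Pth ε x y N p)
    (e : dist y z ≤ ε) : ScA_E hε x (ScA_mk h) z = ScA_mk (ScA_ext_pth hε h e) := by
  have : ScA_E hε x (ScA_mk h) z = ScA_mk (ScA_ext_pth hε
      (Exists.choose_spec (⟨N, h⟩ : ∃ N, Pth ε x y N p)) e) := dif_pos e
  rw [this]
  exact (ScA_mk_eq _ _).2 (ScA_ext_congr hε
    (Exists.choose_spec (⟨N, h⟩ : ∃ N, Pth ε x y N p)) h e (ScA_refl _ _ _))

theorem ScA_cov (hε : 0 ≤ ε) (x : X) : Cov (Small X ε) (ScA_pi x) (ScA_E hε x) where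
  top s hs ω v h1 h2 := by
    obtain ⟨y, N, p, h, rfl⟩ := ScA_ind ω
    rw [ScA_E_mk hε h (hs y h1 v h2)]
    rfl
  self ω := by
    obtain ⟨y, N, p, h, rfl⟩ := ScA_ind ω
    have e : dist y y ≤ ε := by simpa using hε
    change ScA_E hε x (ScA_mk h) y = _
    rw [ScA_E_mk hε h e, ScA_mk_eq]
    have : ScA_ext p y N = p := by
      funext i
      by_cases h1 : i ≤ N
      · simp [ScA_ext, h1]
      · simp [ScA_ext, h1, h.2.1 i (by omega)]
    rw [this]
    exact ScA_refl _ _ _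
  comp s hs ω v w h1 h2 h3 := by
    obtain ⟨y, N, p, h, rfl⟩ := ScA_ind ω
    have e1 : dist y v ≤ ε := hs y h1 v h2
    have e2 : dist y w ≤ ε := hs y h1 w h3
    have e3 : dist v w ≤ ε := hs v h2 w h3
    rw [ScA_E_mk hε h e1, ScA_E_mk hε _ e3, ScA_E_mk hε h e2, ScA_mk_eq]
    refine ScA_trans ?_ (ScA_symm (ScA_ext_up hε h e2 (Nat.le_succ N)))
    refine ScA_of_cls (K := N + 1 + 1) ⟨ScA_ext_pth hε (ScA_ext_pth hε h e1) e3,
      ScA_ext_pth hε (h.mono le_rfl (Nat.le_succ N)) e2, fun i => ?_⟩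
    by_cases h4 : i ≤ N
    · have h5 : i ≤ N + 1 := by omega
      simpa [ScA_ext, h4, h5] using hε
    · by_cases h5 : i ≤ N + 1
      · have h6 : p i = y := h.2.1 i (by omega)
        simpa [ScA_ext, h4, h5, h6, dist_comm] using e1
      · simpa [ScA_ext, h4, h5] using hε

theorem ScA_trunc (h0 : 0 ≤ δ) (h1 : δ ≤ ε) {x y : X} {N : ℕ} {p : ℕ → X} (h : Pth δ x y N p)
    (i : ℕ) : Pth ε x (p i) i fun j => p (min j i) := by
  refine ⟨by simpa using h.1, fun j hj => by simp [hj], fun j => ?_⟩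
  by_cases h2 : j + 1 ≤ i
  · have h3 : j ≤ i := by omega
    simpa [h2, h3] using (h.2.2 j).trans h1
  · have h3 : i ≤ j := by omega
    have h4 : i ≤ j + 1 := by omega
    simpa [h3, h4] using h0.trans h1

theorem ScA_mk_cast {x y y' : X} {N N' : ℕ} {p p' : ℕ → X} (h : Pth ε x y N p)
    (h' : Pth ε x y' N' p') (e : y = y') (e' : p = p') : ScA_mk h = ScA_mk h' := by
  subst e e'
  rfl

theorem sc_of_triv (h0 : 0 ≤ δ) (h1 : δ ≤ ε) (h : Triv (Small X ε) (Small X δ)) : Sc X δ ε := by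
  intro x y N N' p p' hp hp'
  have hε : 0 ≤ ε := h0.trans h1
  have hc : Pth ε x x 0 fun _ => x := ⟨rfl, fun _ _ => rfl, fun _ => by simpa using hε⟩
  obtain ⟨σ, hσ, hs⟩ := h _ _ _ (ScA_cov hε x) (ScA_mk hc)
  change σ x = _ at hσ
  have key : ∀ (M : ℕ) (q : ℕ → X) (hq : Pth δ x y M q), σ y = ScA_mk (hq.mono h1 le_rfl) := by
    intro M q hq
    have step : ∀ i, σ (q i) = ScA_mk (ScA_trunc h0 h1 hq i) := by
      intro i
      induction i with
      | zero =>
        refine ((congrArg σ hq.1).trans hσ).trans ?_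
        exact ScA_mk_cast _ _ hq.1.symm (by funext j; simp [hq.1])
      | succ i ih =>
        have hsm : ({q i, q (i + 1)} : Set X) ∈ Small X δ := by
          rintro a (rfl | rfl) b (rfl | rfl)
          · simpa using h0
          · exact hq.2.2 i
          · rw [dist_comm]; exact hq.2.2 i
          · simpa using h0
        rw [← (hs _ hsm (q i) (by simp) (q (i + 1)) (by simp)).2, ih,
          ScA_E_mk hε _ ((hq.2.2 i).trans h1)]
        refine ScA_mk_cast _ _ rfl ?_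
        funext j
        by_cases h2 : j ≤ i
        · have h3 : j ≤ i + 1 := by omega
          simp [ScA_ext, h2, h3]
        · have h3 : i + 1 ≤ j := by omega
          simp [ScA_ext, h2, h3]
    have hM : q M = y := hq.2.1 M le_rfl
    refine ((congrArg σ hM.symm).trans (step M)).trans ?_
    refine ScA_mk_cast _ _ hM ?_
    funext j
    by_cases h2 : j ≤ M
    · simp [h2]
    · have h3 : M ≤ j := by omega
      simp [h3, hM, hq.2.1 j h3]
  exact (ScA_mk_eq _ _).1 ((key N p hp).symm.trans (key N' p' hp'))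

end Pool.Agent.Work.MP_9d1ffa_al.Ar
end

-- merged part: Pool.Agent.Work.MP_9d1ffa_al.Ar.ScB
section
/-! From coverings of the set of vertices to discrete coverings of the complex. -/

namespace Pool.Agent.Work.MP_9d1ffa_al.Ar

open Set Px

variable {V X : Type} [MetricSpace X] {F : Set (Finset V)} {q : V → V → ℝ} {n : ℕ}
  {co : X → V → ℝ}

/-- the simplices as sets of vertices -/
def Fs (F : Set (Finset V)) : Set (Set V) := (fun s : Finset V => (s : Set V)) '' F

/-- the simplices as sets of points -/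
def Sx {X : Type} (F : Set (Finset V)) (co : X → V → ℝ) : Set (Set X) :=
  (fun s : Finset V => {x | In s (co x)}) '' F

theorem ScB_le_one {s : Finset V} {x : V → ℝ} (hx : In s x) (v : V) : x v ≤ 1 := by
  by_cases e : v ∈ s
  · exact hx.2.2 ▸ Finset.single_le_sum (f := x) (fun u _ => hx.1 u) e
  · rw [hx.2.1 v e]
    exact zero_le_one

theorem ScB_vx {s : Finset V} {w : V → ℝ} (hw : In s w) {u v : V} (hv : w v = 1) (e : u ≠ v) :
    w u = 0 := by
  classical
  by_contra k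
  have m : v ∈ s := by_contra fun j => one_ne_zero (hv ▸ hw.2.1 v j)
  have m' : u ∈ s := by_contra fun j => k (hw.2.1 u j)
  have a := Finset.sum_le_sum_of_subset_of_nonneg (f := w)
    (show ({u, v} : Finset V) ⊆ s by simp [Finset.insert_subset_iff, m, m']) fun i _ _ => hw.1 i
  rw [Finset.sum_pair e, hw.2.2, hv] at a
  exact k (le_antisymm (by linarith) (hw.1 u))

theorem ScB_dist (h : Cx0 F q n co) : ∃ C : ℝ, 1 ≤ C ∧ ∀ s ∈ F, ∀ (x y : X) (a : ℝ), 0 ≤ a →
    In s (co x) → In s (co y) → (∀ v, |co x v - co y v| ≤ a) → dist x y ≤ C * a := by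
  obtain ⟨C, hC, hh⟩ := h.hi
  refine ⟨C, hC, fun s hs x y a a0 hx hy ha => (h.le_ed hs hx hy).trans ?_⟩
  have b0 : 0 ≤ C * a := by positivity
  rw [ed, Real.sqrt_le_left b0, mul_pow]
  exact hh s hs _ _ ha

theorem ScB_cb {s : Finset V} {x y : V → ℝ} (hx : In s x) (hy : In s y) {t : ℝ} (h0 : 0 ≤ t)
    (h1 : t ≤ 1) : In s fun v => (1 - t) * x v + t * y v := by
  refine ⟨fun v => ?_, fun v hv => ?_, ?_⟩
  · exact add_nonneg (mul_nonneg (sub_nonneg.2 h1) (hx.1 v)) (mul_nonneg h0 (hy.1 v))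
  · simp [hx.2.1 v hv, hy.2.1 v hv]
  · rw [Finset.sum_add_distrib, ← Finset.mul_sum, ← Finset.mul_sum, hx.2.2, hy.2.2]
    ring

open Classical in
/-- the point of the segment from `x` to `y` with parameter `t` -/
noncomputable def ScB_sg {X : Type} (co : X → V → ℝ) (x y : X) (t : ℝ) : X :=
  if e : ∃ z, co z = fun v => (1 - t) * co x v + t * co y v then e.choose else y

theorem ScB_co (h : Cx0 F q n co) {s : Finset V} (hs : s ∈ F) {x y : X} (hx : In s (co x))
    (hy : In s (co y)) {t : ℝ} (h0 : 0 ≤ t) (h1 : t ≤ 1) :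
    co (ScB_sg co x y t) = fun v => (1 - t) * co x v + t * co y v := by
  have e := h.exX hs (ScB_cb hx hy h0 h1)
  unfold ScB_sg
  rw [dif_pos e]
  exact e.choose_spec

theorem ScB_eq (h : Cx0 F q n co) {x y z : X} {t : ℝ}
    (e : ∀ v, co z v = (1 - t) * co x v + t * co y v) : ScB_sg co x y t = z := by
  have e' : ∃ z, co z = fun v => (1 - t) * co x v + t * co y v := ⟨z, funext e⟩
  unfold ScB_sg
  rw [dif_pos e']
  exact h.inj (e'.choose_spec.trans (funext e).symm)

theorem ScB_near (h : Cx0 F q n co) {s : Finset V} (hs : s ∈ F) {x x' w : X} (hx : In s (co x))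
    (hx' : In s (co x')) (hw : In s (co w)) {b c t t' : ℝ} (hb : ∀ v, |co x v - co x' v| ≤ b)
    (h0 : 0 ≤ t) (h1 : t ≤ 1) (h0' : 0 ≤ t') (h1' : t' ≤ 1) (hc : |t - t'| ≤ c) (v : V) :
    |co (ScB_sg co x w t) v - co (ScB_sg co x' w t') v| ≤ b + c := by
  rw [ScB_co h hs hx hw h0 h1, ScB_co h hs hx' hw h0' h1']
  have e : (1 - t) * co x v + t * co w v - ((1 - t') * co x' v + t' * co w v) =
      (1 - t) * (co x v - co x' v) + (t - t') * (co w v - co x' v) := by ring
  have a1 : |co w v - co x' v| ≤ 1 := by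
    rw [abs_le]
    constructor <;> linarith [hw.1 v, hx'.1 v, ScB_le_one hw v, ScB_le_one hx' v]
  have a2 : |1 - t| ≤ 1 := by
    rw [abs_le]
    constructor <;> linarith
  have a3 := mul_le_mul a2 (hb v) (abs_nonneg _) zero_le_one
  have a4 := mul_le_mul hc a1 (abs_nonneg _) ((abs_nonneg _).trans hc)
  dsimp only
  rw [e]
  refine (abs_add_le _ _).trans ?_
  rw [abs_mul, abs_mul]
  linarith

theorem ScB_top {ε : ℝ} {Ω : Type} {π : Ω → X} {E : Ω → X → Ω} (c : Cov (Small X ε) π E) {ω : Ω}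
    {v : X} (e : dist (π ω) v ≤ ε) : π (E ω v) = v := by
  have e0 : 0 ≤ ε := dist_nonneg.trans e
  refine c.top {π ω, v} ?_ ω v (by simp) (by simp)
  rintro x (rfl | rfl) y (rfl | rfl)
  · simpa using e0
  · exact e
  · rwa [dist_comm]
  · simpa using e0

theorem ScB_comp {ε : ℝ} {Ω : Type} {π : Ω → X} {E : Ω → X → Ω} (c : Cov (Small X ε) π E) {ω : Ω}
    {v w : X} (e1 : dist (π ω) v ≤ ε) (e2 : dist (π ω) w ≤ ε) (e3 : dist v w ≤ ε) :
    E (E ω v) w = E ω w := by
  have e0 : 0 ≤ ε := dist_nonneg.trans e1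
  refine c.comp {π ω, v, w} ?_ ω v w (by simp) (by simp) (by simp)
  rintro x (rfl | rfl | rfl) y (rfl | rfl | rfl)
  · simpa using e0
  · exact e1
  · exact e2
  · rwa [dist_comm]
  · simpa using e0
  · exact e3
  · rwa [dist_comm]
  · rwa [dist_comm]
  · simpa using e0

/-- transport along a chain of points -/
def ScB_tr {X Ω : Type} (π : Ω → X) (E : Ω → X → Ω) (P : X → X → ℕ → X) (ω : Ω) (y : X) : ℕ → Ω
  | 0 => ω
  | i + 1 => E (ScB_tr π E P ω y i) (P (π ω) y (i + 1))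

/-- the combinatorial part of the transport along segments -/
theorem ScB_abs {ε : ℝ} {Ω : Type} {π : Ω → X} {E : Ω → X → Ω} (c : Cov (Small X ε) π E)
    (G : Set (Set X)) (R : X → X → Prop) (P : X → X → ℕ → X) (K : ℕ) (r0 : ∀ x, R x x)
    (p0 : ∀ x y, P x y 0 = x) (pK : ∀ x y, P x y K = y) (ps : ∀ x i, P x x i = x)
    (pm : ∀ s ∈ G, ∀ x ∈ s, ∀ y ∈ s, ∀ i ≤ K, P x y i ∈ s)
    (pr : ∀ s ∈ G, ∀ x ∈ s, ∀ y ∈ s, ∀ i < K, R (P x y i) (P x y (i + 1)))
    (pd : ∀ s ∈ G, ∀ x ∈ s, ∀ x' ∈ s, ∀ y ∈ s, R x x' → ∀ i ≤ K, ∀ j ≤ K, i ≤ j → j ≤ i + 1 →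
      dist (P x y i) (P x' y j) ≤ ε) :
    ∃ E' : Ω → X → Ω, Cov G π E' ∧ ∀ s ∈ G, ∀ ω y, π ω ∈ s → y ∈ s → R (π ω) y →
      E' ω y = E ω y := by
  have top : ∀ s ∈ G, ∀ ω y, π ω ∈ s → y ∈ s → ∀ i ≤ K,
      π (ScB_tr π E P ω y i) = P (π ω) y i := by
    intro s hs ω y hx hy i
    induction i with
    | zero => exact fun _ => (p0 _ _).symm
    | succ i ih =>
      intro hi
      refine ScB_top c ?_
      rw [ih (by omega)]
      exact pd s hs _ hx _ hx _ hy (r0 _) i (by omega) _ hi (by omega) le_rfl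
  have slf : ∀ ω i, ScB_tr π E P ω (π ω) i = ω := by
    intro ω i
    induction i with
    | zero => rfl
    | succ i ih => rw [ScB_tr, ih, ps, c.self]
  have st : ∀ s ∈ G, ∀ ω x', π ω ∈ s → x' ∈ s → R (π ω) x' → π (E ω x') = x' := by
    intro s hs ω x' hx hx' hr
    have := pd s hs _ hx _ hx' _ hx hr 0 (by omega) 0 (by omega) le_rfl (by omega)
    rw [p0, p0] at this
    exact ScB_top c this
  have lad : ∀ s ∈ G, ∀ ω x' w, π ω ∈ s → x' ∈ s → w ∈ s → R (π ω) x' →
      ScB_tr π E P (E ω x') w K = ScB_tr π E P ω w K := by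
    intro s hs ω x' w hx hx' hw hr
    have key : ∀ i ≤ K, ScB_tr π E P (E ω x') w i = E (ScB_tr π E P ω w i) (P x' w i) := by
      intro i
      induction i with
      | zero => exact fun _ => by rw [p0]; rfl
      | succ i ih =>
        intro hi
        have hi' : i ≤ K := by omega
        have t := top s hs ω w hx hw i hi'
        have d1 := pd s hs _ hx _ hx' _ hw hr i hi' i hi' le_rfl (by omega)
        have d2 := pd s hs _ hx _ hx' _ hw hr i hi' _ hi (by omega) le_rfl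
        have d3 := pd s hs _ hx' _ hx' _ hw (r0 _) i hi' _ hi (by omega) le_rfl
        have d4 := pd s hs _ hx _ hx _ hw (r0 _) i hi' _ hi (by omega) le_rfl
        have d5 := pd s hs _ hx _ hx' _ hw hr _ hi _ hi le_rfl (by omega)
        rw [← t] at d1 d2 d4
        rw [ScB_tr, ScB_tr, ih hi', st s hs ω x' hx hx' hr, ScB_comp c d1 d2 d3,
          ScB_comp c d4 d2 d5]
    have t := top s hs ω w hx hw K le_rfl
    rw [pK] at t
    rw [key K le_rfl, pK]
    nth_rewrite 2 [← t]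
    exact c.self _
  refine ⟨fun ω y => ScB_tr π E P ω y K, ⟨fun s hs ω v hx hv => ?_, fun ω => slf ω K,
    fun s hs ω v w hx hv hw => ?_⟩, fun s hs ω y hx hy hr => ?_⟩
  · rw [top s hs ω v hx hv K le_rfl, pK]
  · have key : ∀ i ≤ K, ScB_tr π E P (ScB_tr π E P ω v i) w K = ScB_tr π E P ω w K := by
      intro i
      induction i with
      | zero => exact fun _ => rfl
      | succ i ih =>
        intro hi
        have hi' : i ≤ K := by omega
        have t := top s hs ω v hx hv i hi'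
        rw [← ih hi', ScB_tr]
        refine lad s hs _ _ w ?_ (pm s hs _ hx _ hv _ hi) hw ?_
        · rw [t]
          exact pm s hs _ hx _ hv _ hi'
        · rw [t]
          exact pr s hs _ hx _ hv i hi
    exact key K le_rfl
  · have a := lad s hs ω y y hx hy hy hr
    have b := slf (E ω y) K
    rw [st s hs ω y hx hy hr] at b
    exact a.symm.trans b

/-- transport along straight segments in the simplices -/
theorem cov_sx (h : Cx0 F q n co) {ε : ℝ} (hε : 0 < ε) : ∃ a : ℝ, 0 < a ∧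
    ∀ (Ω : Type) (π : Ω → X) (E : Ω → X → Ω), Cov (Small X ε) π E → ∃ E' : Ω → X → Ω,
      Cov (Sx F co) π E' ∧ ∀ s ∈ F, ∀ ω y, In s (co (π ω)) → In s (co y) →
        (∀ v, |co (π ω) v - co y v| ≤ a) → E' ω y = E ω y := by
  obtain ⟨C, hC, hd⟩ := ScB_dist h
  have a0 : 0 < ε / (2 * C) := by positivity
  refine ⟨ε / (2 * C), a0, fun Ω π E c => ?_⟩
  have aC : C * (ε / (2 * C) + ε / (2 * C)) = ε := by
    field_simp
    ring
  generalize ε / (2 * C) = a at a0 aC
  obtain ⟨k, hk⟩ := exists_nat_one_div_lt a0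
  have k0 : (0 : ℝ) < (k + 1 : ℕ) := by positivity
  have t0 : ∀ i : ℕ, (0 : ℝ) ≤ i / (k + 1 : ℕ) := fun i => by positivity
  have t1 : ∀ i ≤ k + 1, (i : ℝ) / (k + 1 : ℕ) ≤ 1 := fun i hi =>
    (div_le_one k0).2 (by exact_mod_cast hi)
  have t2 : ∀ i j : ℕ, i ≤ j → j ≤ i + 1 → |(i : ℝ) / (k + 1 : ℕ) - j / (k + 1 : ℕ)| ≤ a := by
    intro i j h1 h2
    have e1 : (i : ℝ) ≤ j := by exact_mod_cast h1
    have e2 : (j : ℝ) ≤ i + 1 := by exact_mod_cast h2
    rw [← sub_div, abs_div, abs_of_pos k0]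
    refine le_trans (div_le_div_of_nonneg_right (b := 1) ?_ k0.le) ?_
    · rw [abs_le]
      constructor <;> linarith
    · push_cast
      exact hk.le
  obtain ⟨E', c', e'⟩ := ScB_abs c (Sx F co) (fun x y => ∀ v, |co x v - co y v| ≤ a)
    (fun x y i => ScB_sg co x y (i / (k + 1 : ℕ))) (k + 1) (fun x v => by simpa using a0.le)
    (fun x y => ScB_eq h fun v => by simp) (fun x y => ScB_eq h fun v => by
      rw [div_self k0.ne']
      ring) (fun x i => ScB_eq h fun v => by ring) (by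
      rintro _ ⟨s, hs, rfl⟩ x hx y hy i hi
      show In s _
      rw [ScB_co h hs hx hy (t0 i) (t1 i hi)]
      exact ScB_cb hx hy (t0 i) (t1 i hi)) (by
      rintro _ ⟨s, hs, rfl⟩ x hx y hy i hi v
      have := ScB_near h hs hx hx hy (b := 0) (fun v => by simp) (t0 i) (t1 i hi.le) (t0 (i + 1))
        (t1 _ hi) (t2 i (i + 1) (by omega) le_rfl) v
      rwa [zero_add] at this) (by
      rintro _ ⟨s, hs, rfl⟩ x hx x' hx' y hy hr i hi j hj h1 h2
      rw [← aC]
      refine hd s hs _ _ _ (by positivity) ?_ ?_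
        (ScB_near h hs hx hx' hy hr (t0 i) (t1 i hi) (t0 j) (t1 j hj) (t2 i j h1 h2))
      · rw [ScB_co h hs hx hy (t0 i) (t1 i hi)]
        exact ScB_cb hx hy (t0 i) (t1 i hi)
      · rw [ScB_co h hs hx' hy (t0 j) (t1 j hj)]
        exact ScB_cb hx' hy (t0 j) (t1 j hj))
  exact ⟨E', c', fun s hs ω y hx hy hr => e' _ ⟨s, hs, rfl⟩ ω y hx hy hr⟩

theorem triv_sx (h : Cx0 F q n co) (hF : Triv (Fs F) (Fs F)) : Triv (Sx F co) (Sx F co) := by
  classical
  intro Ω π E c ω0
  have vin : ∀ {s : Finset V} {x : X} {v : V}, co x v = 1 → v ∈ s → In s (co x) := by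
    intro s x v e m
    obtain ⟨t, -, ht⟩ := h.exF x
    refine ⟨ht.1, fun u hu => ScB_vx ht e fun k => hu (k ▸ m), ?_⟩
    rw [Finset.sum_eq_single_of_mem v m fun u _ k => ScB_vx ht e k, e]
  have veq : ∀ {x y : X} {v : V}, co x v = 1 → co y v = 1 → x = y := by
    intro x y v hx hy
    refine h.inj (funext fun u => ?_)
    by_cases e : u = v
    · rw [e, hx, hy]
    · rw [ScB_vx (h.exF x).choose_spec.2 hx e, ScB_vx (h.exF y).choose_spec.2 hy e]
  have ept : ∀ v : V, ∃ x : X, ∀ s ∈ F, v ∈ s → co x v = 1 := by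
    intro v
    by_cases e : ∃ s ∈ F, v ∈ s
    · obtain ⟨s, hs, m⟩ := e
      have a : In s fun u => if u = v then 1 else 0 :=
        ⟨fun u => by positivity, fun u hu => if_neg fun e : u = v => hu (e ▸ m), by simp [m]⟩
      obtain ⟨y, hy⟩ := h.exX hs a
      exact ⟨y, fun _ _ _ => by simp [hy]⟩
    · exact ⟨π ω0, fun s hs m => (e ⟨s, hs, m⟩).elim⟩
  choose pt hpt using ept
  have evx : ∀ x : X, ∃ v, ∀ s : Finset V, In s (co x) → v ∈ s := by
    intro x
    obtain ⟨t, -, ht⟩ := h.exF x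
    obtain ⟨v, -, hv⟩ := Finset.exists_ne_zero_of_sum_ne_zero (s := t) (f := co x)
      (by rw [ht.2.2]; exact one_ne_zero)
    exact ⟨v, fun s hs => by_contra fun k => hv (hs.2.1 v k)⟩
  choose vx hvx using evx
  have top : ∀ s ∈ F, ∀ ω y, In s (co (π ω)) → In s (co y) → π (E ω y) = y :=
    fun s hs ω y a b => c.top _ ⟨s, hs, rfl⟩ ω y a b
  have cmp : ∀ s ∈ F, ∀ ω y z, In s (co (π ω)) → In s (co y) → In s (co z) →
      E (E ω y) z = E ω z := fun s hs ω y z a b d => c.comp _ ⟨s, hs, rfl⟩ ω y z a b d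
  have pin : ∀ s ∈ F, ∀ v ∈ s, In s (co (pt v)) := fun s hs v m => vin (hpt v s hs m) m
  have eE : ∀ (p : {p : Ω × V // co (π p.1) p.2 = 1}) (v : V),
      ∃ p' : {p : Ω × V // co (π p.1) p.2 = 1},
        ∀ s ∈ F, p.1.2 ∈ s → v ∈ s → p'.1 = (E p.1.1 (pt v), v) := by
    intro p v
    by_cases e : ∃ s ∈ F, p.1.2 ∈ s ∧ v ∈ s
    · obtain ⟨s, hs, m, m'⟩ := e
      refine ⟨⟨(E p.1.1 (pt v), v), ?_⟩, fun _ _ _ _ => rfl⟩
      dsimp only
      rw [top s hs _ _ (vin p.2 m) (pin s hs v m')]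
      exact hpt v s hs m'
    · exact ⟨p, fun s hs m m' => (e ⟨s, hs, m, m'⟩).elim⟩
  choose E2 hE using eE
  have c2 : Cov (Fs F) (fun p : {p : Ω × V // co (π p.1) p.2 = 1} => p.1.2) E2 := by
    refine ⟨?_, fun p => ?_, ?_⟩
    · rintro _ ⟨s, hs, rfl⟩ p v m m'
      rw [hE p v s hs m m']
    · obtain ⟨s, hs, hx⟩ := h.exF (π p.1.1)
      have m : p.1.2 ∈ s := by_contra fun k => one_ne_zero (p.2.symm.trans (hx.2.1 _ k))
      refine Subtype.ext ?_
      rw [hE p _ s hs m m, veq (hpt _ s hs m) p.2, c.self]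
    · rintro _ ⟨s, hs, rfl⟩ p v w m m' m''
      have e := hE p v s hs m m'
      refine Subtype.ext ?_
      rw [hE _ w s hs (by rw [e]; exact m') m'', hE p w s hs m m'', e]
      dsimp only
      rw [cmp s hs _ _ _ (vin p.2 m) (pin s hs v m') (pin s hs w m'')]
  obtain ⟨s0, hs0, hx0⟩ := h.exF (π ω0)
  have m0 := hvx _ s0 hx0
  obtain ⟨σ, σ0, hσ⟩ := hF _ _ _ c2 ⟨(E ω0 (pt (vx (π ω0))), vx (π ω0)), by
    dsimp only
    rw [top s0 hs0 _ _ hx0 (pin s0 hs0 _ m0)]
    exact hpt _ s0 hs0 m0⟩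
  dsimp only at σ0 hσ
  have sin : ∀ s ∈ F, ∀ u ∈ s, In s (co (π (σ u).1.1)) := fun s hs u m =>
    vin (σ u).2 (by rw [(hσ _ ⟨s, hs, rfl⟩ u m u m).1]; exact m)
  have ind : ∀ s ∈ F, ∀ u ∈ s, ∀ v ∈ s, ∀ x, In s (co x) → E (σ v).1.1 x = E (σ u).1.1 x := by
    intro s hs u m v m' x hx
    obtain ⟨e1, e2⟩ := hσ _ ⟨s, hs, rfl⟩ u m v m'
    rw [← e2, hE _ v s hs (by rw [e1]; exact m) m']
    exact cmp s hs _ _ _ (sin s hs u m) (pin s hs v m') hx
  refine ⟨fun x => E (σ (vx x)).1.1 x, ?_, ?_⟩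
  · dsimp only
    rw [σ0]
    dsimp only
    rw [cmp s0 hs0 _ _ _ hx0 (pin s0 hs0 _ m0) hx0, c.self]
  · rintro _ ⟨s, hs, rfl⟩ x hx y hy
    have mx := hvx x s hx
    refine ⟨top s hs _ _ (sin s hs _ mx) hx, ?_⟩
    dsimp only
    rw [cmp s hs _ _ _ (sin s hs _ mx) hx hy]
    exact ind s hs _ (hvx y s hy) _ mx y hy

/-- two close points have a common neighbour -/
theorem mid_pt (h : Cx0 F q n co) {a : ℝ} (ha : 0 < a) : ∃ δ : ℝ, 0 < δ ∧ ∀ x y, dist x y ≤ δ →
    ∃ z, ∃ s ∈ F, ∃ t ∈ F, In s (co x) ∧ In s (co z) ∧ In t (co z) ∧ In t (co y) ∧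
      (∀ v, |co x v - co z v| ≤ a) ∧ ∀ v, |co z v - co y v| ≤ a := by
  classical
  obtain ⟨L, L0, hL⟩ := h.lip
  have n0 : (0 : ℝ) ≤ n := Nat.cast_nonneg n
  have L1 : (0 : ℝ) < L := by exact_mod_cast L0
  obtain ⟨b, b0, b1, b2⟩ : ∃ b : ℝ, 0 < b ∧ b * (n + 2) ≤ 1 ∧ b * (n + 2) ≤ a := by
    refine ⟨min 1 a / (n + 2), by positivity, ?_, ?_⟩ <;>
      rw [div_mul_cancel₀ _ (by positivity)]
    · exact min_le_left _ _
    · exact min_le_right _ _
  refine ⟨b / L, by positivity, fun x y hxy => ?_⟩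
  have hb : ∀ v, |co x v - co y v| ≤ b := fun v => (hL x y v).trans (by
    rw [le_div_iff₀ L1] at hxy
    linarith)
  obtain ⟨s, hs, hx⟩ := h.exF x
  obtain ⟨t, ht, hy⟩ := h.exF y
  set μ : V → ℝ := fun v => min (co x v) (co y v) with hμ
  have m0 : ∀ v, 0 ≤ μ v := fun v => le_min (hx.1 v) (hy.1 v)
  have ms : ∀ v ∉ s, μ v = 0 := fun v hv =>
    le_antisymm ((min_le_left _ _).trans (hx.2.1 v hv).le) (m0 v)
  have mt : ∀ v ∉ t, μ v = 0 := fun v hv =>
    le_antisymm ((min_le_right _ _).trans (hy.2.1 v hv).le) (m0 v)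
  have mx : ∀ v, co x v - b ≤ μ v := fun v =>
    le_min (by linarith) (by linarith [(abs_le.1 (hb v)).2])
  have my : ∀ v, co y v - b ≤ μ v := fun v =>
    le_min (by linarith [(abs_le.1 (hb v)).1]) (by linarith)
  have est : ∑ v ∈ s, μ v = ∑ v ∈ t, μ v := by
    exact (Finset.sum_subset (Finset.inter_subset_left (s₂ := t))
        fun v h1 h2 => mt v fun e => h2 (Finset.mem_inter.2 ⟨h1, e⟩)).symm.trans
      (Finset.sum_subset (Finset.inter_subset_right (s₁ := s))
        fun v h1 h2 => ms v fun e => h2 (Finset.mem_inter.2 ⟨e, h1⟩))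
  have c0 : (s.card : ℝ) ≤ n + 1 := by exact_mod_cast h.dim s hs
  have e1 : 1 - (n + 1) * b ≤ ∑ v ∈ s, μ v := by
    have := Finset.sum_le_sum fun v (_ : v ∈ s) => mx v
    rw [Finset.sum_sub_distrib, hx.2.2, Finset.sum_const, nsmul_eq_mul] at this
    nlinarith
  have e2 : ∑ v ∈ s, μ v ≤ 1 :=
    hx.2.2 ▸ Finset.sum_le_sum fun v (_ : v ∈ s) => min_le_left (co x v) (co y v)
  obtain ⟨v0, _, hv0⟩ : ∃ v ∈ s, μ v ≠ 0 := by
    apply Finset.exists_ne_zero_of_sum_ne_zero
    intro e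
    rw [e] at e1
    nlinarith
  have vs : v0 ∈ s := by
    by_contra e
    exact hv0 (ms v0 e)
  have vt : v0 ∈ t := by
    by_contra e
    exact hv0 (mt v0 e)
  set δ := 1 - ∑ v ∈ s, μ v with hδ
  set z : V → ℝ := fun v => μ v + if v = v0 then δ else 0 with hz
  have z1 : ∀ v, μ v ≤ z v ∧ z v ≤ μ v + (n + 1) * b := fun v => by
    rw [hz]
    dsimp only
    split_ifs
    · constructor <;> linarith
    · constructor
      · linarith
      · nlinarith
  have iz : ∀ r : Finset V, v0 ∈ r → (∀ v ∉ r, μ v = 0) → ∑ v ∈ r, μ v = ∑ v ∈ s, μ v →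
      In r z := fun r h1 h2 h3 => by
    refine ⟨fun v => (m0 v).trans (z1 v).1, fun v hv => ?_, ?_⟩
    · have : v ≠ v0 := fun e => hv (e ▸ h1)
      simp [hz, h2 v hv, this]
    · simp only [hz, Finset.sum_add_distrib, Finset.sum_ite_eq', if_pos h1, h3, hδ]
      ring
  have is := iz s vs ms rfl
  have it := iz t vt mt est.symm
  obtain ⟨w, hw⟩ := h.exX hs is
  have nb : 0 ≤ n * b := by positivity
  refine ⟨w, s, hs, t, ht, hx, hw ▸ is, hw ▸ it, hy, fun v => ?_, fun v => ?_⟩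
  · have := min_le_left (co x v) (co y v)
    rw [hw, abs_le]
    constructor <;> linarith [(z1 v).1, (z1 v).2, mx v]
  · have := min_le_right (co x v) (co y v)
    rw [hw, abs_le]
    constructor <;> linarith [(z1 v).1, (z1 v).2, my v]

theorem triv_geo (h : Cx0 F q n co) (hF : Triv (Fs F) (Fs F)) {ε : ℝ} (hε : 0 < ε) :
    ∃ δ : ℝ, 0 < δ ∧ δ ≤ ε ∧ Triv (Small X ε) (Small X δ) := by
  obtain ⟨a, a0, ha⟩ := cov_sx h hε
  obtain ⟨C, hC, hd⟩ := ScB_dist h
  have b0 : 0 < min a (ε / C) := lt_min a0 (by positivity)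
  have b1 : C * min a (ε / C) ≤ ε := by
    have := min_le_right a (ε / C)
    rw [le_div_iff₀ (by positivity)] at this
    linarith
  have b2 := min_le_left a (ε / C)
  generalize min a (ε / C) = b at b0 b1 b2
  obtain ⟨δ, δ0, hδ⟩ := mid_pt h b0
  refine ⟨min δ ε, lt_min δ0 hε, min_le_right _ _, fun Ω π E c ω => ?_⟩
  obtain ⟨E', c', e'⟩ := ha Ω π E c
  obtain ⟨σ, σ0, hσ⟩ := triv_sx h hF Ω π E' c' ω
  have pσ : ∀ x, π (σ x) = x := fun x => by
    obtain ⟨s, hs, hx⟩ := h.exF x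
    exact (hσ _ ⟨s, hs, rfl⟩ x hx x hx).1
  have st : ∀ s ∈ F, ∀ x y, In s (co x) → In s (co y) → (∀ v, |co x v - co y v| ≤ b) →
      E (σ x) y = σ y := fun s hs x y hx hy hb => by
    rw [← e' s hs (σ x) y (by rwa [pσ]) hy fun v => by rw [pσ]; exact (hb v).trans b2]
    exact (hσ _ ⟨s, hs, rfl⟩ x hx y hy).2
  refine ⟨σ, σ0, fun S hS x hx y hy => ⟨pσ x, ?_⟩⟩
  have d := hS x hx y hy
  obtain ⟨z, s, hs, t, ht, h1, h2, h3, h4, h5, h6⟩ := hδ x y (d.trans (min_le_left _ _))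
  rw [← st t ht z y h3 h4 h6, ← st s hs x z h1 h2 h5]
  refine (ScB_comp c ?_ ?_ ((hd t ht _ _ _ b0.le h3 h4 h6).trans b1)).symm
  · rw [pσ]
    exact (hd s hs _ _ _ b0.le h1 h2 h5).trans b1
  · rw [pσ]
    exact d.trans (min_le_right _ _)

end Pool.Agent.Work.MP_9d1ffa_al.Ar
end

-- merged part: Pool.Agent.Work.MP_9d1ffa_al.Ar.ScC
section
/-! The coset complex of an Artin group has only trivial coverings. -/

namespace Pool.Agent.Work.MP_9d1ffa_al.Ar

open Set

variable {S : Type} (M : CoxeterMatrix S)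

section
variable {M} {Ω : Type} {π : Ω → Vx M} {E : Ω → Vx M → Ω}

theorem ScC_mem {u v w : Vx M} (h1 : u ≤ v ∨ v ≤ u) (h2 : v ≤ w ∨ w ≤ v) (h3 : u ≤ w ∨ w ≤ u) :
    ({u, v, w} : Set (Vx M)) ∈ Fs (Fc M) := by
  classical
  refine ⟨{u, v, w}, ?_, by simp⟩
  intro a ha b hb _
  simp only [Finset.coe_insert, Finset.coe_singleton, mem_insert_iff, mem_singleton_iff] at ha hb
  rcases ha with rfl | rfl | rfl <;> rcases hb with rfl | rfl | rfl <;>
    first | exact Or.inl le_rfl | assumption | exact Or.symm (by assumption)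

theorem ScC_top (h : Cov (Fs (Fc M)) π E) {ω : Ω} {v : Vx M} (h1 : π ω ≤ v ∨ v ≤ π ω) :
    π (E ω v) = v :=
  h.top _ (ScC_mem h1 (Or.inl le_rfl) h1) ω v (by simp) (by simp)

theorem ScC_comp (h : Cov (Fs (Fc M)) π E) {ω : Ω} {v w : Vx M} (h1 : π ω ≤ v ∨ v ≤ π ω)
    (h2 : v ≤ w ∨ w ≤ v) (h3 : π ω ≤ w ∨ w ≤ π ω) : E (E ω v) w = E ω w :=
  h.comp _ (ScC_mem h1 h2 h3) ω v w (by simp) (by simp) (by simp)

theorem ScC_le {T T' : Finset S} (hT : Sph M T) (hT' : Sph M T') (e : T ⊆ T') (g : Art M) :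
    vt hT g ≤ vt hT' g := (vt_le _ _ _ _).2 ⟨e, by simp⟩

theorem ScC_vt {T : Finset S} (hT : Sph M T) (g : Art M) {a : Art M} (ha : a ∈ Pb M T) :
    vt hT (g * a) = vt hT g := (vt_eq _ _ _).2 (by simpa using ha)

/-- the points over the group elements -/
abbrev ScC_O (π : Ω → Vx M) : Type := {p : Art M × Ω // π p.2 = vt (sph_empty M) p.1}

/-- transport to the coset of type `T` -/
def ScC_U (E : Ω → Vx M → Ω) {T : Finset S} (hT : Sph M T) (p : ScC_O π) : Ω :=
  E p.1.2 (vt hT p.1.1)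

theorem ScC_ple {T : Finset S} (hT : Sph M T) (p : ScC_O π) : π p.1.2 ≤ vt hT p.1.1 :=
  p.2.le.trans (ScC_le _ hT (Finset.empty_subset _) _)

theorem ScC_piU (h : Cov (Fs (Fc M)) π E) {T : Finset S} (hT : Sph M T) (p : ScC_O π) :
    π (ScC_U E hT p) = vt hT p.1.1 := ScC_top h (Or.inl (ScC_ple hT p))

theorem ScC_uniq (h : Cov (Fs (Fc M)) π E) {T : Finset S} (hT : Sph M T) {p q : ScC_O π}
    (e : p.1.1 = q.1.1) (e' : ScC_U E hT p = ScC_U E hT q) : p = q := by
  have key : ∀ p : ScC_O π, E (ScC_U E hT p) (vt (sph_empty M) p.1.1) = p.1.2 := fun p => by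
    rw [← p.2, ScC_U, ScC_comp h (Or.inl (ScC_ple hT p)) (Or.inr (ScC_ple hT p)) (Or.inl le_rfl),
      h.self]
  exact Subtype.ext (Prod.ext e (by rw [← key p, ← key q, e, e']))

theorem ScC_le' (h : Cov (Fs (Fc M)) π E) {T : Finset S} (hT : Sph M T) {a : Art M}
    (ha : a ∈ Pb M T) (p : ScC_O π) : vt (sph_empty M) (p.1.1 * a) ≤ π (ScC_U E hT p) := by
  rw [ScC_piU h, ← ScC_vt hT _ ha]
  exact ScC_le _ _ (Finset.empty_subset _) _

/-- the move through the coset of type `T` -/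
def ScC_mv (h : Cov (Fs (Fc M)) π E) {T : Finset S} (hT : Sph M T) {a : Art M}
    (ha : a ∈ Pb M T) (p : ScC_O π) : ScC_O π :=
  ⟨(p.1.1 * a, E (ScC_U E hT p) (vt (sph_empty M) (p.1.1 * a))),
    ScC_top h (Or.inr (ScC_le' h hT ha p))⟩

theorem ScC_mvU (h : Cov (Fs (Fc M)) π E) {T T' : Finset S} (hT : Sph M T) (hT' : Sph M T')
    (e : T ⊆ T') {a : Art M} (ha : a ∈ Pb M T) (p : ScC_O π) :
    ScC_U E hT' (ScC_mv h hT ha p) = ScC_U E hT' p := by
  have h1 : π (ScC_U E hT p) ≤ vt hT' p.1.1 := (ScC_piU h hT p).le.trans (ScC_le _ _ e _)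
  have h2 := ScC_le' h hT ha p
  change E (E (ScC_U E hT p) (vt (sph_empty M) (p.1.1 * a))) (vt hT' (p.1.1 * a)) = _
  rw [ScC_vt hT' _ (Pb_mono M e ha), ScC_comp h (Or.inr h2) (Or.inl (h2.trans h1)) (Or.inl h1)]
  exact ScC_comp h (Or.inl (ScC_ple hT p)) (Or.inl (ScC_le _ _ e _)) (Or.inl (ScC_ple hT' p))

/-- the permutation of a generator -/
def ScC_f (h : Cov (Fs (Fc M)) π E) (s : S) : Equiv.Perm (ScC_O π) where
  toFun := ScC_mv h (sph_one M s) ((Pb M {s}).inv_mem (gn_mem M (Finset.mem_singleton_self s)))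
  invFun := ScC_mv h (sph_one M s) (gn_mem M (Finset.mem_singleton_self s))
  left_inv _ := ScC_uniq h (sph_one M s) (inv_mul_cancel_right _ _)
    ((ScC_mvU h _ _ subset_rfl _ _).trans (ScC_mvU h _ _ subset_rfl _ _))
  right_inv _ := ScC_uniq h (sph_one M s) (mul_inv_cancel_right _ _)
    ((ScC_mvU h _ _ subset_rfl _ _).trans (ScC_mvU h _ _ subset_rfl _ _))

/-- pairs that preserve `U` -/
def ScC_K {Z : Type} (U : ScC_O π → Z) : Subgroup (Equiv.Perm (ScC_O π) × Art M) where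
  carrier := {x | ∀ p, (x.1 p).1.1 = p.1.1 * x.2⁻¹ ∧ U (x.1 p) = U p}
  one_mem' p := ⟨by simp, rfl⟩
  mul_mem' {x y} hx hy p := by
    refine ⟨?_, (hx (y.1 p)).2.trans (hy p).2⟩
    rw [Prod.snd_mul, mul_inv_rev, ← mul_assoc, ← (hy p).1]
    exact (hx (y.1 p)).1
  inv_mem' {x} hx p := by
    have h1 := hx (x.1⁻¹ p)
    rw [show x.1 (x.1⁻¹ p) = p from x.1.apply_symm_apply p] at h1
    refine ⟨?_, h1.2.symm⟩
    rw [h1.1, Prod.snd_inv, inv_inv, inv_mul_cancel_right]
    rfl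

theorem ScC_fK (h : Cov (Fs (Fc M)) π E) {T : Finset S} (hT : Sph M T) {s : S} (hs : s ∈ T) :
    (ScC_f h s, gn M s) ∈ ScC_K (ScC_U (π := π) E hT) := fun p =>
  ⟨rfl, ScC_mvU h _ hT (Finset.singleton_subset_iff.2 hs)
    ((Pb M {s}).inv_mem (gn_mem M (Finset.mem_singleton_self s))) p⟩

theorem ScC_syl {K : Type} [Group K] (H : Subgroup K) {T : Bool → K} (hT : ∀ b, T b ∈ H)
    (b : Bool) (l : List ℤ) : syl T b l ∈ H := by
  induction l generalizing b with
  | nil => exact H.one_mem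
  | cons a l ih => exact H.mul_mem (H.zpow_mem (hT b) a) (ih _)

theorem ScC_brd (h : Cov (Fs (Fc M)) π E) : Brd M (ScC_f h) := by
  classical
  intro s t
  by_cases h0 : M s t = 0
  · rw [h0]
    rfl
  have hT : Sph M {s, t} := by
    refine ⟨Finset.card_le_two, fun a ha b hb => ?_⟩
    simp only [Finset.mem_insert, Finset.mem_singleton] at ha hb
    have h1 : M t s ≠ 0 := by rwa [M.symmetric t s]
    rcases ha with rfl | rfl <;> rcases hb with rfl | rfl <;> simp [h0, h1]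
  let P : Bool → Equiv.Perm (ScC_O π) × Art M := fun b => (two (ScC_f h) s t b, two (gn M) s t b)
  have hP : ∀ b, P b ∈ ScC_K (ScC_U (π := π) E hT) := fun b => by
    cases b
    · exact ScC_fK h hT (s := t) (by simp)
    · exact ScC_fK h hT (s := s) (by simp)
  have k : ∀ b p, (syl (two (ScC_f h) s t) b (List.replicate (M s t) 1) p).1.1 =
      p.1.1 * (syl (two (gn M) s t) b (List.replicate (M s t) 1))⁻¹ ∧
      ScC_U E hT (syl (two (ScC_f h) s t) b (List.replicate (M s t) 1) p) = ScC_U E hT p := by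
    intro b p
    have h1 := ScC_syl _ hP b (List.replicate (M s t) 1) p
    have h2 := map_syl (MonoidHom.fst _ _) P b (List.replicate (M s t) 1)
    have h3 := map_syl (MonoidHom.snd _ _) P b (List.replicate (M s t) 1)
    simp only [MonoidHom.coe_fst, MonoidHom.coe_snd] at h2 h3
    rwa [h2, h3] at h1
  refine Equiv.ext fun p => ScC_uniq h hT ?_ ((k true p).2.trans (k false p).2.symm)
  rw [(k true p).1, (k false p).1, gn_brd M s t]

theorem ScC_all (h : Cov (Fs (Fc M)) π E) (a : Art M) (p : ScC_O π) :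
    (lift M (ScC_brd h) a p).1.1 = p.1.1 * a⁻¹ := by
  have h1 : Subgroup.closure (range (gn M)) ≤ (ScC_K fun _ : ScC_O π => ()).comap
      ((lift M (ScC_brd h)).prod (MonoidHom.id _)) := by
    rw [Subgroup.closure_le]
    rintro _ ⟨s, rfl⟩ p
    refine ⟨?_, rfl⟩
    rw [MonoidHom.prod_apply, lift_gn]
    rfl
  rw [closure_gn] at h1
  exact (h1 (Subgroup.mem_top a) p).1

theorem ScC_Pb (h : Cov (Fs (Fc M)) π E) {T : Finset S} (hT : Sph M T) {a : Art M}
    (ha : a ∈ Pb M T) (p : ScC_O π) : ScC_U E hT (lift M (ScC_brd h) a p) = ScC_U E hT p := by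
  have h1 : Pb M T ≤ (ScC_K (ScC_U (π := π) E hT)).comap
      ((lift M (ScC_brd h)).prod (MonoidHom.id _)) := by
    rw [Pb, Subgroup.closure_le]
    rintro _ ⟨s, hs, rfl⟩
    rw [SetLike.mem_coe, Subgroup.mem_comap, MonoidHom.prod_apply, lift_gn]
    exact ScC_fK h hT hs
  exact (h1 ha p).2

end

theorem triv_art : Triv (Fs (Fc M)) (Fs (Fc M)) := by
  intro Ω π E h ω0
  obtain ⟨g0, hg0⟩ := exists_vt (π ω0)
  have h0 : vt (sph_empty M) g0 ≤ π ω0 :=
    (ScC_le _ _ (Finset.empty_subset _) _).trans hg0.ge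
  let p1 : ScC_O π := ⟨(g0, E ω0 (vt (sph_empty M) g0)), ScC_top h (Or.inr h0)⟩
  let om : Art M → ScC_O π := fun g => lift M (ScC_brd h) (g⁻¹ * g0) p1
  have hb : ∀ g, (om g).1.1 = g := fun g => by
    rw [ScC_all h]
    simp [p1]
  choose c hc using exists_vt (M := M)
  have key : ∀ v g, v = vt v.2.1 g → ScC_U E v.2.1 (om (c v)) = E (om g).1.2 v := by
    intro v g hg
    have h1 : g⁻¹ * c v ∈ Pb M v.1.1 := (vt_eq v.2.1 _ _).1 ((hc v).symm.trans hg)
    have h2 : om (c v) = lift M (ScC_brd h) (g⁻¹ * c v)⁻¹ (om g) := by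
      rw [← Equiv.Perm.mul_apply, ← map_mul, mul_inv_rev, inv_inv, mul_assoc, mul_inv_cancel_left]
    rw [h2, ScC_Pb h _ ((Pb M _).inv_mem h1), ScC_U, hb, ← hg]
  have hle : ∀ v g, v = vt v.2.1 g → π (om g).1.2 ≤ v := fun v g hg => by
    have h1 := ScC_ple v.2.1 (om g)
    rwa [hb, ← hg] at h1
  refine ⟨fun v => ScC_U E v.2.1 (om (c v)), ?_, ?_⟩
  · have e : om g0 = p1 := by simp [om]
    dsimp only
    rw [key _ g0 hg0, e]
    exact (ScC_comp h (Or.inr h0) (Or.inl h0) (Or.inl le_rfl)).trans (h.self ω0)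
  rintro _ ⟨s, hs, rfl⟩ u hu v hv
  refine ⟨by rw [ScC_piU h, hb, ← hc], ?_⟩
  have huv : u ≤ v ∨ v ≤ u := IsChain.total hs hu hv
  obtain ⟨g, h1, h2⟩ : ∃ g, u = vt u.2.1 g ∧ v = vt v.2.1 g := by
    rcases huv with e | e
    · exact ⟨c u, hc u, vt_of_le ((hc u).ge.trans e)⟩
    · exact ⟨c v, vt_of_le ((hc v).ge.trans e), hc v⟩
  dsimp only
  rw [key u g h1, key v g h2]
  exact ScC_comp h (Or.inl (hle u g h1)) huv (Or.inl (hle v g h2))

end Pool.Agent.Work.MP_9d1ffa_al.Ar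
end
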