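import Pool.Agent.Work.MP_9d1ffa_al.Ar.Dl
import Pool.Agent.Work.MP_9d1ffa_al.Ar.ChC
import Pool.Agent.Work.MP_9d1ffa_al.Ar.ScA
import Pool.Agent.Work.MP_9d1ffa_al.Ar.ScC

/-! The coset complex of a two-dimensional Artin group is CAT(0). -/

namespace Pool.Agent.Work.MP_9d1ffa_al.Ar

open Px

/-- a simply connected two-dimensional complex with the link condition is CAT(0) -/
theorem Cx0.cat {V X : Type} [MetricSpace X] {F : Set (Finset V)} {q : V → V → ℝ}
    {co : X → V → ℝ} (h : Cx0 F q 2 co) (qs : ∀ u v, q u v = q v u) (qd : ∀ u, q u u = 0)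
    (hl : LinkOK F q) (hF : Triv (Fs F) (Fs F)) : Cat0 X := by
  obtain ⟨r, hr, H⟩ := h.loc qs qd hl
  obtain ⟨δ, h0, h1, h2⟩ := triv_geo h hF (ε := r / 9) (by positivity)
  have := h.complete
  exact cartan H (by linarith) h0 h1 (sc_of_triv h0.le h1 h2) h.len'

variable {S : Type} {M : CoxeterMatrix S}

/-- the coset complex is a complete CAT(0) complex with an isometric simplicial action -/
theorem deligne_cx [Finite S] (hD : Dim2 M) :
    ∃ (X : Type) (_ : MetricSpace X) (_ : MulAction (Art M) X) (co : X → Vx M → ℝ),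
      Nonempty X ∧ CompleteSpace X ∧ Cx (Fc M) (qq M) 2 co ∧
      (∀ (g : Art M) (x y : X), dist (g • x) (g • y) = dist x y) ∧
      ∀ (g : Art M) x v, co (g • x) (g • v) = co x v := by
  obtain ⟨i, j, h1, h2, h3, h4, -⟩ := deligne hD
  refine ⟨Pt (Fc M), i, j, fun x => x.1, ?_, h4,
    h1.cx (h1.cat qq_symm qq_self (fc_link hD) (triv_art M)), h3, h2⟩
  classical
  refine ⟨⟨Pi.single (vt (sph_empty M) 1) 1, {vt (sph_empty M) 1}, by simp [Fc], fun v => ?_,
    fun v hv => Pi.single_eq_of_ne (by simpa using hv) _, by simp⟩⟩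
  rw [Pi.single_apply]
  split_ifs <;> norm_num

end Pool.Agent.Work.MP_9d1ffa_al.Ar
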