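import Mathlib
import Pool.Agent.Work.MP_9d1ffa_al.Px.Df
import Pool.Agent.Work.MP_9d1ffa_al.Ar.ScC

-- merged part: Pool.Agent.Work.MP_9d1ffa_al.Px.ShA
section
/-! Chains for an adjacency relation with weights, greedy grouping, and plane trigonometry. -/

namespace Pool.Agent.Work.MP_9d1ffa_al.Px

open Real

/-- `Ch adj w m x y l`: a chain with `m` pieces from `x` to `y` of total weight `l` -/
inductive Ch {P : Type} (adj : P → P → Prop) (w : P → P → ℝ) : ℕ → P → P → ℝ → Prop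
  | nil (x : P) : Ch adj w 0 x x 0
  | cons {m : ℕ} {x y z : P} {l : ℝ} : adj x y → Ch adj w m y z l →
      Ch adj w (m + 1) x z (w x y + l)

section generic

variable {P : Type} {adj : P → P → Prop} {w : P → P → ℝ}

theorem Ch.one {x y : P} (h : adj x y) : Ch adj w 1 x y (w x y) := by
  simpa using Ch.cons (w := w) h (Ch.nil y)

theorem Ch.append {m m' : ℕ} {x y z : P} {l l' : ℝ} (h : Ch adj w m x y l)
    (h' : Ch adj w m' y z l') : Ch adj w (m + m') x z (l + l') := by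
  induction h with
  | nil x => simpa using h'
  | cons a _ ih =>
    have := Ch.cons (w := w) a (ih h')
    rw [Nat.add_right_comm, add_assoc (w _ _)]
    exact this

theorem Ch.nonneg (hw : ∀ x y, 0 ≤ w x y) {m : ℕ} {x y : P} {l : ℝ} (h : Ch adj w m x y l) :
    0 ≤ l := by
  induction h with
  | nil x => exact le_rfl
  | cons _ _ ih => exact add_nonneg (hw _ _) ih

theorem Ch.group_aux (hw : ∀ x y, 0 ≤ w x y) {ε : ℝ} (hε : 0 < ε) {N : ℕ}
    (hs : ∀ m x y l, Ch adj w m x y l → l ≤ ε → ∃ m' ≤ N, ∃ l' ≤ l, Ch adj w m' x y l')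
    {m : ℕ} {x y : P} {l : ℝ} (h : Ch adj w m x y l) :
    ∀ m0 u l0, Ch adj w m0 u x l0 → l0 ≤ ε →
      ∃ m' : ℕ, (m' : ℝ) ≤ (N + 1) * ((l0 + l) / ε + 1) ∧ ∃ l' ≤ l0 + l, Ch adj w m' u y l' := by
  induction h with
  | nil x =>
    intro m0 u l0 h0 hl
    obtain ⟨m', hm, l', hl', hc⟩ := hs _ _ _ _ h0 hl
    refine ⟨m', ?_, l', by linarith, hc⟩
    have h1 : (m' : ℝ) ≤ N := by exact_mod_cast hm
    have h2 : 0 ≤ (l0 + 0) / ε := div_nonneg (by linarith [h0.nonneg hw]) hε.le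
    nlinarith [(Nat.cast_nonneg N : (0 : ℝ) ≤ N)]
  | @cons m x y z l a hc ih =>
    intro m0 u l0 h0 hl
    by_cases hle : l0 + w x y ≤ ε
    · obtain ⟨m', hm, l', hl', hc'⟩ := ih _ _ _ (h0.append (Ch.one a)) hle
      exact ⟨m', by rwa [← add_assoc], l', by linarith, hc'⟩
    · obtain ⟨m1, hm1, l1, hl1, hc1⟩ := hs _ _ _ _ h0 hl
      obtain ⟨m2, hm2, l2, hl2, hc2⟩ := ih _ _ _ (Ch.nil y) hε.le
      refine ⟨m1 + (m2 + 1), ?_, l1 + (w x y + l2), by linarith, hc1.append (Ch.cons a hc2)⟩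
      have h1 : (m1 : ℝ) ≤ N := by exact_mod_cast hm1
      have h2 : (0 + l) / ε + 1 ≤ (l0 + (w x y + l)) / ε := by
        rw [div_add_one hε.ne', div_le_div_iff_of_pos_right hε]
        linarith
      have h3 : ((N : ℝ) + 1) * ((0 + l) / ε + 1) ≤ (N + 1) * ((l0 + (w x y + l)) / ε) :=
        mul_le_mul_of_nonneg_left h2 (by positivity)
      push_cast
      nlinarith

/-- if chains of weight at most `ε` can be shortened to `N` pieces, all chains can be shortened -/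
theorem Ch.group (hw : ∀ x y, 0 ≤ w x y) {ε : ℝ} (hε : 0 < ε) {N : ℕ}
    (hs : ∀ m x y l, Ch adj w m x y l → l ≤ ε → ∃ m' ≤ N, ∃ l' ≤ l, Ch adj w m' x y l')
    {m : ℕ} {x y : P} {l : ℝ} (h : Ch adj w m x y l) :
    ∃ m' : ℕ, (m' : ℝ) ≤ (N + 1) * (l / ε + 1) ∧ ∃ l' ≤ l, Ch adj w m' x y l' := by
  simpa using Ch.group_aux hw hε hs h 0 x 0 (Ch.nil x) hε.le

end generic

theorem mink (a b a' b' : ℝ) :
    √((a + a') ^ 2 + (b + b') ^ 2) ≤ √(a ^ 2 + b ^ 2) + √(a' ^ 2 + b' ^ 2) := by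
  have h := norm_add_le (⟨a, b⟩ : ℂ) ⟨a', b'⟩
  simpa [Complex.norm_eq_sqrt_sq_add_sq] using h

theorem sqrt_scale {t : ℝ} (ht : 0 ≤ t) (a b : ℝ) :
    √((t * a) ^ 2 + (t * b) ^ 2) = t * √(a ^ 2 + b ^ 2) := by
  rw [show (t * a) ^ 2 + (t * b) ^ 2 = t ^ 2 * (a ^ 2 + b ^ 2) by ring,
    Real.sqrt_mul (sq_nonneg t), Real.sqrt_sq ht]

theorem split_le {a b : ℝ} (ha : 0 ≤ a) (hb : 0 ≤ b) (d : ℝ) :
    √(a ^ 2 + (d * (a / (a + b))) ^ 2) + √(b ^ 2 + (d - d * (a / (a + b))) ^ 2) ≤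
      √((a + b) ^ 2 + d ^ 2) := by
  rcases (add_nonneg ha hb).eq_or_lt with h | h
  · have h1 : a = 0 := by linarith
    have h2 : b = 0 := by linarith
    subst h1 h2
    simp
  · set t := a / (a + b) with ht
    have t0 : 0 ≤ t := div_nonneg ha h.le
    have t1 : t ≤ 1 := by rw [ht, div_le_one h]; linarith
    have e1 : a = t * (a + b) := by rw [ht]; field_simp
    have e2 : b = (1 - t) * (a + b) := by linarith
    have q1 := sqrt_scale t0 (a + b) d
    have q2 := sqrt_scale (sub_nonneg.2 t1) (a + b) d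
    rw [← e1, mul_comm t d] at q1
    rw [← e2, show (1 - t) * d = d - d * t by ring] at q2
    rw [q1, q2]
    linarith

/-- the third side of a plane triangle with sides `r`, `s` and angle `θ` -/
noncomputable def Dd (r s θ : ℝ) : ℝ := √(r ^ 2 + s ^ 2 - 2 * r * s * cos θ)

theorem Dd_a (r s φ : ℝ) : Dd r s φ = √((r * cos φ - s) ^ 2 + (r * sin φ) ^ 2) := by
  unfold Dd
  congr 1
  nlinarith [sin_sq_add_cos_sq φ]

theorem Dd_b (s t θ : ℝ) : Dd s t θ = √((s - t * cos θ) ^ 2 + (t * sin θ) ^ 2) := by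
  unfold Dd
  congr 1
  nlinarith [sin_sq_add_cos_sq θ]

theorem Dd_c (r t φ θ : ℝ) :
    Dd r t (φ + θ) = √((r * cos φ - t * cos θ) ^ 2 + (r * sin φ + t * sin θ) ^ 2) := by
  unfold Dd
  congr 1
  rw [cos_add]
  have h1 := sin_sq_add_cos_sq φ
  have h2 := sin_sq_add_cos_sq θ
  linear_combination (-r ^ 2) * h1 - t ^ 2 * h2

theorem Dd_tri (r s t φ θ : ℝ) : Dd r t (φ + θ) ≤ Dd r s φ + Dd s t θ := by
  have h := mink (r * cos φ - s) (r * sin φ) (s - t * cos θ) (t * sin θ)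
  rw [Dd_c, Dd_a r s, Dd_b s t]
  rwa [show r * cos φ - s + (s - t * cos θ) = r * cos φ - t * cos θ by ring] at h

theorem Dd_ge_b (s t θ : ℝ) : s - t * cos θ ≤ Dd s t θ := by
  rw [Dd_b]
  exact Real.le_sqrt_of_sq_le (by nlinarith [sq_nonneg (t * sin θ)])

theorem Dd_comm (r s θ : ℝ) : Dd r s θ = Dd s r θ := by
  unfold Dd
  congr 1
  ring

theorem Dd_far {r s t φ θ : ℝ} (hs : 0 ≤ s) (h1 : φ ≤ π) (h2 : θ ≤ π) (h : π ≤ φ + θ) :
    r + t ≤ Dd r s φ + Dd s t θ := by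
  have a1 := Dd_ge_b r s φ
  have a2 := Dd_ge_b t s θ
  rw [Dd_comm t s θ] at a2
  have a3 : cos θ ≤ cos (π - φ) :=
    cos_le_cos_of_nonneg_of_le_pi (by linarith) h2 (by linarith)
  rw [cos_pi_sub] at a3
  nlinarith

theorem Dd_ge_sub {s t : ℝ} (hs : 0 ≤ s) (θ : ℝ) : t - s ≤ Dd s t θ := by
  have a2 := Dd_ge_b t s θ
  rw [Dd_comm t s θ] at a2
  nlinarith [cos_le_one θ]

theorem Dd_zero (r s : ℝ) : Dd r s 0 = |r - s| := by
  unfold Dd
  rw [cos_zero, show r ^ 2 + s ^ 2 - 2 * r * s * 1 = (r - s) ^ 2 by ring, sqrt_sq_eq_abs]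

theorem Dd_mid {r t φ θ : ℝ} (hr : 0 < r) (ht : 0 < t) (h1 : 0 ≤ φ) (h2 : 0 ≤ θ)
    (h : φ + θ < π) : ∃ s, 0 < s ∧ Dd r s φ + Dd s t θ ≤ Dd r t (φ + θ) := by
  rcases (add_nonneg h1 h2).eq_or_lt with h0 | h0
  · have e1 : φ = 0 := by linarith
    have e2 : θ = 0 := by linarith
    subst e1 e2
    exact ⟨r, hr, by simp [Dd_zero]⟩
  · have s1 : 0 ≤ sin φ := sin_nonneg_of_nonneg_of_le_pi h1 (by linarith)
    have s2 : 0 ≤ sin θ := sin_nonneg_of_nonneg_of_le_pi h2 (by linarith)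
    have s3 : 0 < sin (φ + θ) := sin_pos_of_pos_of_lt_pi h0 h
    have hd : 0 < r * sin φ + t * sin θ := by
      rcases h1.eq_or_lt with e | e
      · have : 0 < sin θ := sin_pos_of_pos_of_lt_pi (by linarith) (by linarith)
        positivity
      · have : 0 < sin φ := sin_pos_of_pos_of_lt_pi e (by linarith)
        positivity
    set d := r * sin φ + t * sin θ with hdd
    set τ := r * sin φ / d with hτ
    have t0 : 0 ≤ τ := by positivity
    have e1 : r * sin φ = τ * d := by rw [hτ]; field_simp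
    have e2 : t * sin θ = (1 - τ) * d := by linarith
    have t1 : 0 ≤ 1 - τ := by
      by_contra hh
      have : (1 - τ) * d < 0 := mul_neg_of_neg_of_pos (lt_of_not_ge hh) hd
      have : 0 ≤ t * sin θ := by positivity
      linarith
    refine ⟨r * t * sin (φ + θ) / d, by positivity, ?_⟩
    have e3 : r * cos φ - r * t * sin (φ + θ) / d = τ * (r * cos φ - t * cos θ) := by
      rw [hτ, sin_add]
      field_simp
      rw [hdd]
      ring
    have e4 : r * t * sin (φ + θ) / d - t * cos θ = (1 - τ) * (r * cos φ - t * cos θ) := by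
      linarith
    rw [Dd_a, Dd_b, Dd_c, e3, e4, ← hdd]
    have q1 := sqrt_scale t0 (r * cos φ - t * cos θ) d
    have q2 := sqrt_scale t1 (r * cos φ - t * cos θ) d
    rw [← e1] at q1
    rw [← e2] at q2
    rw [q1, q2]
    linarith

theorem Dd_one_le {θ : ℝ} (h : 0 ≤ θ) : Dd 1 1 θ ≤ θ := by
  unfold Dd
  rw [Real.sqrt_le_left h]
  nlinarith [one_sub_sq_div_two_le_cos (x := θ)]

theorem le_of_Dd_one {θ θ' : ℝ} (h0 : 0 ≤ θ) (h1 : θ' ≤ π) (h : Dd 1 1 θ' ≤ Dd 1 1 θ) :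
    θ' ≤ θ := by
  by_contra hh
  have hh := lt_of_not_ge hh
  have h2 : cos θ' < cos θ := cos_lt_cos_of_nonneg_of_le_pi h0 h1 hh
  unfold Dd at h
  have h3 := Real.sqrt_lt_sqrt (x := 1 ^ 2 + 1 ^ 2 - 2 * 1 * 1 * cos θ)
    (y := 1 ^ 2 + 1 ^ 2 - 2 * 1 * 1 * cos θ') (by nlinarith [cos_le_one θ]) (by linarith)
  linarith

end Pool.Agent.Work.MP_9d1ffa_al.Px
end

-- merged part: Pool.Agent.Work.MP_9d1ffa_al.Px.ShB
section
/-! Cone complexes: chains can be shortened to a bounded number of pieces. -/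

namespace Pool.Agent.Work.MP_9d1ffa_al.Px

open Real LinearMap

variable {V : Type}

/-- two non-negative vectors supported in a common face -/
def adjC (F : Set (Finset V)) (x y : V →₀ ℝ) : Prop :=
  (∀ v, 0 ≤ x v) ∧ (∀ v, 0 ≤ y v) ∧ ∃ s ∈ F, x.support ⊆ s ∧ y.support ⊆ s

/-- the length of a vector -/
noncomputable def nr (B : LinearMap.BilinForm ℝ (V →₀ ℝ)) (x : V →₀ ℝ) : ℝ := √(B x x)

/-- the length of a segment -/
noncomputable def wB (B : LinearMap.BilinForm ℝ (V →₀ ℝ)) (x y : V →₀ ℝ) : ℝ := nr B (x - y)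

/-- a cone complex with faces of at most `k` vertices and metric constants `c`, `C` -/
structure Cone (F : Set (Finset V)) (B : LinearMap.BilinForm ℝ (V →₀ ℝ)) (k : ℕ) (c C : ℝ) :
    Prop where
  card : ∀ s ∈ F, s.card ≤ k
  symm : ∀ x y, B x y = B y x
  psd : ∀ s ∈ F, ∀ x : V →₀ ℝ, x.support ⊆ s → 0 ≤ B x x
  low : ∀ s ∈ F, ∀ x : V →₀ ℝ, x.support ⊆ s → ∀ v, c * |x v| ≤ nr B x
  up : ∀ s ∈ F, ∀ x : V →₀ ℝ, x.support ⊆ s → ∀ a, 0 ≤ a → (∀ v, |x v| ≤ a) → nr B x ≤ C * a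

theorem supp_comb {s : Finset V} {x y : V →₀ ℝ} (hx : x.support ⊆ s) (hy : y.support ⊆ s)
    (a b : ℝ) : (a • x - b • y).support ⊆ s := by
  intro v hv
  by_contra h
  have h1 : x v = 0 := by
    by_contra e
    exact h (hx (Finsupp.mem_support_iff.2 e))
  have h2 : y v = 0 := by
    by_contra e
    exact h (hy (Finsupp.mem_support_iff.2 e))
  simp [h1, h2] at hv

theorem supp_sub {s : Finset V} {x y : V →₀ ℝ} (hx : x.support ⊆ s) (hy : y.support ⊆ s) :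
    (x - y).support ⊆ s := by
  simpa using supp_comb hx hy 1 1

theorem supp_smul {s : Finset V} {x : V →₀ ℝ} (hx : x.support ⊆ s) (a : ℝ) :
    (a • x).support ⊆ s := by
  simpa using supp_comb hx hx a 0

theorem nr_nonneg (B : LinearMap.BilinForm ℝ (V →₀ ℝ)) (x : V →₀ ℝ) : 0 ≤ nr B x :=
  Real.sqrt_nonneg _

theorem wB_nonneg (B : LinearMap.BilinForm ℝ (V →₀ ℝ)) (x y : V →₀ ℝ) : 0 ≤ wB B x y :=
  Real.sqrt_nonneg _

theorem nr_zero (B : LinearMap.BilinForm ℝ (V →₀ ℝ)) : nr B 0 = 0 := by simp [nr]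

theorem nr_neg (B : LinearMap.BilinForm ℝ (V →₀ ℝ)) (x : V →₀ ℝ) : nr B (-x) = nr B x := by
  simp [nr]

theorem nr_smul (B : LinearMap.BilinForm ℝ (V →₀ ℝ)) {a : ℝ} (ha : 0 ≤ a) (x : V →₀ ℝ) :
    nr B (a • x) = a * nr B x := by
  unfold nr
  rw [show B (a • x) (a • x) = a ^ 2 * B x x by simp; ring, Real.sqrt_mul (sq_nonneg a),
    Real.sqrt_sq ha]

theorem adjC.left {F : Set (Finset V)} {x y : V →₀ ℝ} (h : adjC F x y) : adjC F x x := by
  obtain ⟨a, _, s, hs, c, _⟩ := h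
  exact ⟨a, a, s, hs, c, c⟩

theorem adjC.right {F : Set (Finset V)} {x y : V →₀ ℝ} (h : adjC F x y) : adjC F y y := by
  obtain ⟨_, a, s, hs, _, c⟩ := h
  exact ⟨a, a, s, hs, c, c⟩

theorem adjC.smul {F : Set (Finset V)} {x y : V →₀ ℝ} (h : adjC F x y) {a b : ℝ} (ha : 0 ≤ a)
    (hb : 0 ≤ b) : adjC F (a • x) (b • y) := by
  obtain ⟨h1, h2, s, hs, h3, h4⟩ := h
  refine ⟨fun v => ?_, fun v => ?_, s, hs, supp_smul h3 a, supp_smul h4 b⟩
  · simpa using mul_nonneg ha (h1 v)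
  · simpa using mul_nonneg hb (h2 v)

/-- adjacency of non-zero vectors -/
def adjA (F : Set (Finset V)) (x y : V →₀ ℝ) : Prop := adjC F x y ∧ x ≠ 0 ∧ y ≠ 0

/-- the angle between two vectors -/
noncomputable def ang (B : LinearMap.BilinForm ℝ (V →₀ ℝ)) (x y : V →₀ ℝ) : ℝ :=
  arccos (B x y / (nr B x * nr B y))

theorem ang_nonneg (B : LinearMap.BilinForm ℝ (V →₀ ℝ)) (x y : V →₀ ℝ) : 0 ≤ ang B x y :=
  arccos_nonneg _

namespace Cone

variable {F : Set (Finset V)} {B : LinearMap.BilinForm ℝ (V →₀ ℝ)} {k : ℕ} {c C : ℝ}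

theorem expand (H : Cone F B k c C) (x y : V →₀ ℝ) (a b : ℝ) :
    B (a • x - b • y) (a • x - b • y) = a ^ 2 * B x x + b ^ 2 * B y y - 2 * a * b * B x y := by
  simp only [map_sub, map_smul, LinearMap.sub_apply, LinearMap.smul_apply, smul_eq_mul]
  rw [H.symm y x]
  ring

theorem sq_nr (H : Cone F B k c C) {s : Finset V} (hs : s ∈ F) {x : V →₀ ℝ}
    (hx : x.support ⊆ s) : nr B x ^ 2 = B x x :=
  Real.sq_sqrt (H.psd s hs x hx)

theorem cs (H : Cone F B k c C) {s : Finset V} (hs : s ∈ F) {x y : V →₀ ℝ}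
    (hx : x.support ⊆ s) (hy : y.support ⊆ s) : |B x y| ≤ nr B x * nr B y := by
  have h : ∀ t : ℝ, 0 ≤ B y y * (t * t) + (-2 * B x y) * t + B x x := fun t => by
    have := H.psd s hs _ (supp_comb hx hy 1 t)
    rw [H.expand] at this
    linarith
  have h2 := discrim_le_zero h
  unfold discrim at h2
  refine abs_le.2 (abs_le_of_sq_le_sq' ?_ (mul_nonneg (nr_nonneg _ _) (nr_nonneg _ _)))
  rw [mul_pow, H.sq_nr hs hx, H.sq_nr hs hy]
  nlinarith

theorem nr_pos (H : Cone F B k c C) (hc : 0 < c) {x : V →₀ ℝ} (hx : adjC F x x) (h0 : x ≠ 0) :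
    0 < nr B x := by
  obtain ⟨_, _, s, hs, h3, _⟩ := hx
  obtain ⟨v, hv⟩ : ∃ v, x v ≠ 0 := by
    by_contra hh
    push Not at hh
    exact h0 (Finsupp.ext hh)
  exact lt_of_lt_of_le (mul_pos hc (abs_pos.2 hv)) (H.low s hs x h3 v)

theorem tri (H : Cone F B k c C) {x y : V →₀ ℝ} (h : adjC F x y) :
    nr B x ≤ wB B x y + nr B y := by
  obtain ⟨_, _, s, hs, h3, h4⟩ := h
  have h1 := H.cs hs (supp_sub h3 h4) h4
  have h2 := H.sq_nr hs (supp_sub h3 h4)
  have h5 := H.sq_nr hs h4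
  have h6 := H.sq_nr hs h3
  have h7 := H.expand (x - y) y 1 (-1)
  have h8 : (1 : ℝ) • (x - y) - (-1 : ℝ) • y = x := by simp
  rw [h8] at h7
  unfold wB
  refine (abs_le_of_sq_le_sq' ?_ (add_nonneg (nr_nonneg _ _) (nr_nonneg _ _))).2
  nlinarith [le_abs_self (B (x - y) y)]

theorem cosine (H : Cone F B k c C) (hc : 0 < c) {x y : V →₀ ℝ} (h : adjA F x y) (a b : ℝ) :
    wB B (a • x) (b • y) = Dd (a * nr B x) (b * nr B y) (ang B x y) := by
  have p1 := H.nr_pos hc h.1.left h.2.1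
  have p2 := H.nr_pos hc h.1.right h.2.2
  obtain ⟨⟨_, _, s, hs, h3, h4⟩, _, _⟩ := h
  have h1 := abs_le.1 (H.cs hs h3 h4)
  have p3 := mul_pos p1 p2
  unfold wB Dd ang
  rw [cos_arccos (by rw [le_div_iff₀ p3]; linarith) (by rw [div_le_one p3]; linarith)]
  unfold nr
  congr 1
  rw [H.expand]
  have h5 := H.sq_nr hs h4
  have h6 := H.sq_nr hs h3
  unfold nr at h5 h6 p1 p2
  rw [mul_pow, mul_pow, h5, h6]
  field_simp

theorem ang_ray (H : Cone F B k c C) (hc : 0 < c) {x : V →₀ ℝ} (h : adjA F x x) {a b : ℝ}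
    (ha : 0 < a) (hb : 0 < b) : ang B (a • x) (b • x) = 0 := by
  have p1 := H.nr_pos hc h.1 h.2.1
  obtain ⟨⟨_, _, s, hs, h3, _⟩, _, _⟩ := h
  unfold ang
  rw [nr_smul B ha.le, nr_smul B hb.le, arccos_eq_zero]
  have : B (a • x) (b • x) = a * nr B x * (b * nr B x) := by
    have := H.sq_nr hs h3
    simp only [map_smul, LinearMap.smul_apply, smul_eq_mul]
    rw [← this]
    ring
  rw [this, div_self (by positivity)]

/-- a short chain avoids the apex and has total angle less than `π` -/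
theorem to_ang (H : Cone F B k c C) (hc : 0 < c) {m : ℕ} {x y : V →₀ ℝ} {l : ℝ}
    (h : Ch (adjC F) (wB B) m x y l) : nr B x + nr B y ≤ l ∨ (x ≠ 0 ∧ y ≠ 0 ∧
      ∃ θ, θ < π ∧ Ch (adjA F) (ang B) m x y θ ∧ Dd (nr B x) (nr B y) θ ≤ l) := by
  induction h with
  | nil x =>
    by_cases hx : x = 0
    · left
      simp [hx, nr_zero]
    · exact Or.inr ⟨hx, hx, 0, pi_pos, Ch.nil x, by simp [Dd_zero]⟩
  | @cons m x y z l a _ ih =>
    rcases ih with ih | ⟨hy, hz, θ, h1, h2, h3⟩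
    · left
      linarith [H.tri a]
    · by_cases hx : x = 0
      · left
        subst hx
        have := Dd_ge_sub (t := nr B z) (nr_nonneg B y) θ
        have e : wB B 0 y = nr B y := by simp [wB, nr_neg]
        rw [e, nr_zero]
        linarith
      · have e := H.cosine hc (x := x) (y := y) ⟨a, hx, hy⟩ 1 1
        simp only [one_smul, one_mul] at e
        by_cases hl : ang B x y + θ < π
        · refine Or.inr ⟨hx, hz, _, hl, Ch.cons ⟨a, hx, hy⟩ h2, ?_⟩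
          rw [e]
          linarith [Dd_tri (nr B x) (nr B y) (nr B z) (ang B x y) θ]
        · left
          rw [e]
          have q : ang B x y ≤ π := arccos_le_pi _
          linarith [Dd_far (r := nr B x) (t := nr B z) (nr_nonneg B y) q h1.le (le_of_not_gt hl)]

theorem pt_end {m : ℕ} {x y : V →₀ ℝ} {θ : ℝ} (h : Ch (adjA F) (ang B) m x y θ)
    (hx : adjA F x x) : adjA F y y := by
  induction h with
  | nil x => exact hx
  | cons a _ ih => exact ih ⟨a.1.right, a.2.2, a.2.2⟩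

/-- straightening -/
theorem of_ang (H : Cone F B k c C) (hc : 0 < c) {m : ℕ} {x y : V →₀ ℝ} {θ : ℝ}
    (h : Ch (adjA F) (ang B) m x y θ) (hx : adjA F x x) (hθ : θ < π) {b : ℝ} (hb : 0 < b) :
    ∀ a, 0 < a → ∃ l ≤ Dd (a * nr B x) (b * nr B y) θ,
      Ch (adjC F) (wB B) (m + 1) (a • x) (b • y) l := by
  induction h with
  | nil x =>
    intro a ha
    refine ⟨_, ?_, Ch.one (hx.1.smul ha.le hb.le)⟩
    have := H.ang_ray hc hx one_pos one_pos
    simp only [one_smul] at this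
    rw [H.cosine hc hx, this]
  | @cons m x y z θ h1 h2 ih =>
    intro a ha
    have hy : adjA F y y := ⟨h1.1.right, h1.2.2, h1.2.2⟩
    have hz := pt_end h2 hy
    have p1 := H.nr_pos hc hx.1 hx.2.1
    have p2 := H.nr_pos hc hy.1 hy.2.1
    have p3 := H.nr_pos hc hz.1 hz.2.1
    have t0 := h2.nonneg (ang_nonneg B)
    obtain ⟨s, hs, hd⟩ := Dd_mid (mul_pos ha p1) (mul_pos hb p3) (ang_nonneg B x y) t0 hθ
    obtain ⟨l, hl, hc'⟩ := ih hy (by linarith [ang_nonneg B x y]) (s / nr B y) (by positivity)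
    refine ⟨_, ?_, Ch.cons (h1.1.smul ha.le (by positivity : 0 ≤ s / nr B y)) hc'⟩
    rw [H.cosine hc h1]
    rw [div_mul_cancel₀ _ p2.ne'] at hl ⊢
    linarith

end Cone

end Pool.Agent.Work.MP_9d1ffa_al.Px
end

-- merged part: Pool.Agent.Work.MP_9d1ffa_al.Px.ShC
section
/-! The link of a vertex of a cone complex and the induction on the dimension. -/

namespace Pool.Agent.Work.MP_9d1ffa_al.Px

open Real LinearMap

variable {V : Type}

/-- the link of a vertex -/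
def lk (F : Set (Finset V)) (v : V) : Set (Finset V) := {t | v ∉ t ∧ ∃ s ∈ F, v ∈ s ∧ t ⊆ s}

/-- the basis vector -/
noncomputable def ev (v : V) : V →₀ ℝ := Finsupp.single v 1

/-- forget the coordinate `v` -/
noncomputable def pr (v : V) (x : V →₀ ℝ) : V →₀ ℝ := x - x v • ev v

theorem ev_same (v : V) : ev v v = 1 := by simp [ev]

theorem ev_ne {u v : V} (h : u ≠ v) : ev v u = 0 := by simp [ev, Finsupp.single_eq_of_ne h]

theorem pr_same (v : V) (x : V →₀ ℝ) : pr v x v = 0 := by simp [pr, ev_same]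

theorem pr_ne {u v : V} (h : u ≠ v) (x : V →₀ ℝ) : pr v x u = x u := by simp [pr, ev_ne h]

theorem pr_sub (v : V) (x y : V →₀ ℝ) : pr v x - pr v y = pr v (x - y) := by
  simp only [pr, Finsupp.sub_apply, sub_smul]
  abel

theorem supp_ev {s : Finset V} {v : V} (h : v ∈ s) : (ev v).support ⊆ s := by
  intro u hu
  by_cases e : u = v
  · exact e ▸ h
  · exact absurd (ev_ne e) (Finsupp.mem_support_iff.1 hu)

theorem pr_nonneg {v : V} {x : V →₀ ℝ} (h : ∀ u, 0 ≤ x u) (u : V) : 0 ≤ pr v x u := by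
  by_cases e : u = v
  · rw [e, pr_same]
  · rw [pr_ne e]
    exact h u

theorem nonneg_of_pr {v : V} {x : V →₀ ℝ} (h : ∀ u, 0 ≤ pr v x u) (hv : 0 ≤ x v) (u : V) :
    0 ≤ x u := by
  by_cases e : u = v
  · rwa [e]
  · rw [← pr_ne e]
    exact h u

theorem supp_of_pr {s t : Finset V} {v : V} {x : V →₀ ℝ} (h : (pr v x).support ⊆ t) (ht : t ⊆ s)
    (hv : v ∈ s) : x.support ⊆ s := by
  intro u hu
  by_cases e : u = v
  · exact e ▸ hv
  · refine ht (h ?_)
    rw [Finsupp.mem_support_iff, pr_ne e]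
    exact Finsupp.mem_support_iff.1 hu

theorem adj_pr {F : Set (Finset V)} {v : V} {x y : V →₀ ℝ} (h : adjC F x y) (hv : 0 < x v) :
    adjC (lk F v) (pr v x) (pr v y) := by
  classical
  obtain ⟨h1, h2, s, hs, h3, h4⟩ := h
  have hvs : v ∈ s := h3 (Finsupp.mem_support_iff.2 hv.ne')
  have key : ∀ z : V →₀ ℝ, z.support ⊆ s → (pr v z).support ⊆ s.erase v := fun z hz u hu => by
    have hu := Finsupp.mem_support_iff.1 hu
    have e : u ≠ v := fun e => hu (e ▸ pr_same v z)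
    rw [pr_ne e] at hu
    exact Finset.mem_erase.2 ⟨e, hz (Finsupp.mem_support_iff.2 hu)⟩
  exact ⟨pr_nonneg h1, pr_nonneg h2, s.erase v,
    ⟨Finset.notMem_erase v s, s, hs, hvs, Finset.erase_subset v s⟩, key x h3, key y h4⟩

theorem card_lk {F : Set (Finset V)} {k : ℕ} (h : ∀ s ∈ F, s.card ≤ k + 1) (v : V) :
    ∀ t ∈ lk F v, t.card ≤ k := by
  rintro t ⟨h1, s, hs, h2, h3⟩
  have := Finset.card_lt_card (s := t) (t := s) ⟨h3, fun e => h1 (e h2)⟩
  have := h s hs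
  omega

theorem pr_add_ev {v : V} {z : V →₀ ℝ} (hz : z v = 0) (t : ℝ) : pr v (z + t • ev v) = z := by
  simp [pr, hz, ev_same]

theorem zero_of_lk {F : Set (Finset V)} {v : V} {x y : V →₀ ℝ} (h : adjC (lk F v) x y) :
    y v = 0 := by
  obtain ⟨_, _, t, ht, _, h4⟩ := h
  by_contra e
  exact ht.1 (h4 (Finsupp.mem_support_iff.2 e))

/-- the form on the link -/
noncomputable def sch (B : LinearMap.BilinForm ℝ (V →₀ ℝ)) (v : V) :
    LinearMap.BilinForm ℝ (V →₀ ℝ) :=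
  B - (B (ev v) (ev v))⁻¹ • LinearMap.BilinForm.linMulLin (B (ev v)) (B (ev v))

theorem sch_apply (B : LinearMap.BilinForm ℝ (V →₀ ℝ)) (v : V) (x y : V →₀ ℝ) :
    sch B v x y = B x y - (B (ev v) (ev v))⁻¹ * (B (ev v) x * B (ev v) y) := by
  simp [sch]

/-- the height along the vertex -/
noncomputable def ht (B : LinearMap.BilinForm ℝ (V →₀ ℝ)) (v : V) (x : V →₀ ℝ) : ℝ :=
  B (ev v) x / √(B (ev v) (ev v))

namespace Cone

variable {F : Set (Finset V)} {B : LinearMap.BilinForm ℝ (V →₀ ℝ)} {k : ℕ} {c C : ℝ}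

theorem ev_pos (H : Cone F B k c C) (hc : 0 < c) {s : Finset V} (hs : s ∈ F) {v : V}
    (hv : v ∈ s) : 0 < B (ev v) (ev v) := by
  have h := H.low s hs _ (supp_ev hv) v
  rw [ev_same, abs_one, mul_one] at h
  exact Real.sqrt_pos.1 (lt_of_lt_of_le hc h)

theorem sch_eq (H : Cone F B k c C) {v : V} (hg : 0 < B (ev v) (ev v)) (x : V →₀ ℝ) :
    sch B v x x = B ((1 : ℝ) • x - (B (ev v) x / B (ev v) (ev v)) • ev v)
      ((1 : ℝ) • x - (B (ev v) x / B (ev v) (ev v)) • ev v) := by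
  rw [H.expand, sch_apply, H.symm x (ev v)]
  field_simp
  ring

theorem link (H : Cone F B (k + 1) c C) (hc : 0 < c) (v : V) : Cone (lk F v) (sch B v) k c C where
  card := card_lk H.card v
  symm x y := by rw [sch_apply, sch_apply, H.symm x y, mul_comm (B _ x)]
  psd := by
    rintro t ⟨_, s, hs, h2, h3⟩ x hx
    rw [H.sch_eq (H.ev_pos hc hs h2)]
    exact H.psd s hs _ (supp_comb (hx.trans h3) (supp_ev h2) _ _)
  low := by
    rintro t ⟨h1, s, hs, h2, h3⟩ x hx u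
    unfold nr
    rw [H.sch_eq (H.ev_pos hc hs h2)]
    by_cases e : u = v
    · have : x u = 0 := by
        by_contra hh
        exact h1 (e ▸ hx (Finsupp.mem_support_iff.2 hh))
      rw [this, abs_zero, mul_zero]
      exact Real.sqrt_nonneg _
    · have := H.low s hs _ (supp_comb (hx.trans h3) (supp_ev h2) 1
        (B (ev v) x / B (ev v) (ev v))) u
      simpa [nr, ev_ne e] using this
  up := by
    rintro t ⟨_, s, hs, h2, h3⟩ x hx a ha hb
    refine le_trans ?_ (H.up s hs x (hx.trans h3) a ha hb)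
    unfold nr
    apply Real.sqrt_le_sqrt
    rw [sch_apply]
    have := mul_nonneg (inv_pos.2 (H.ev_pos hc hs h2)).le (mul_self_nonneg (B (ev v) x))
    linarith

theorem pyth (H : Cone F B k c C) (hc : 0 < c) {s : Finset V} (hs : s ∈ F) {v : V} (hv : v ∈ s)
    {x y : V →₀ ℝ} (hx : x.support ⊆ s) (hy : y.support ⊆ s) :
    wB B x y = √(wB (sch B v) (pr v x) (pr v y) ^ 2 + (ht B v y - ht B v x) ^ 2) := by
  have hg := H.ev_pos hc hs hv
  have e1 : sch B v (pr v (x - y)) (pr v (x - y)) = sch B v (x - y) (x - y) := by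
    have := H.expand (x - y) (ev v) 1 ((x - y) v)
    rw [one_smul] at this
    rw [sch_apply, sch_apply, pr, this, H.symm (x - y) (ev v)]
    simp only [map_sub (B (ev v)) (x - y), map_smul, smul_eq_mul]
    field_simp
    ring
  have e2 : 0 ≤ sch B v (x - y) (x - y) := by
    rw [H.sch_eq hg]
    exact H.psd s hs _ (supp_comb (supp_sub hx hy) (supp_ev hv) _ _)
  unfold wB nr
  rw [pr_sub, e1, Real.sq_sqrt e2, sch_apply]
  congr 1
  unfold ht
  rw [← sub_div, div_pow, Real.sq_sqrt hg.le, map_sub (B (ev v))]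
  field_simp
  ring

theorem coord (H : Cone F B k c C) {s : Finset V} (hs : s ∈ F) {x y : V →₀ ℝ}
    (hx : x.support ⊆ s) (hy : y.support ⊆ s) (hc : 0 < c) (v : V) :
    c * x v - wB B x y ≤ c * y v := by
  have h := H.low s hs _ (supp_sub hx hy) v
  have h2 := mul_le_mul_of_nonneg_left (le_abs_self ((x - y) v)) hc.le
  rw [Finsupp.sub_apply] at h h2
  unfold wB
  nlinarith

theorem proj (H : Cone F B k c C) (hc : 0 < c) (v : V) {m : ℕ} {x y : V →₀ ℝ} {l : ℝ}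
    (h : Ch (adjC F) (wB B) m x y l) (hl : l < c * x v) :
    ∃ L, Ch (adjC (lk F v)) (wB (sch B v)) m (pr v x) (pr v y) L ∧
      √(L ^ 2 + (ht B v y - ht B v x) ^ 2) ≤ l := by
  induction h with
  | nil x => exact ⟨0, Ch.nil _, by simp⟩
  | @cons m x y z l a h2 ih =>
    have l0 := h2.nonneg (wB_nonneg B)
    have w0 := wB_nonneg B x y
    have xv : 0 < x v := by
      by_contra hh
      have := mul_nonpos_of_nonneg_of_nonpos hc.le (le_of_not_gt hh)
      linarith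
    have a' := adj_pr a xv
    obtain ⟨_, _, s, hs, h3, h4⟩ := a
    obtain ⟨L, hL, hL2⟩ := ih (by linarith [H.coord hs h3 h4 hc v])
    refine ⟨_, Ch.cons a' hL, ?_⟩
    rw [H.pyth hc hs (h3 (Finsupp.mem_support_iff.2 xv.ne')) h3 h4]
    have := mink (wB (sch B v) (pr v x) (pr v y)) (ht B v y - ht B v x) L (ht B v z - ht B v y)
    rw [show ht B v y - ht B v x + (ht B v z - ht B v y) = ht B v z - ht B v x by ring] at this
    linarith

theorem lift (H : Cone F B k c C) (hc : 0 < c) (v : V) {m : ℕ} {x' y' : V →₀ ℝ} {L : ℝ}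
    (h : Ch (adjC (lk F v)) (wB (sch B v)) m x' y' L) (y : V →₀ ℝ) (hy : pr v y = y') :
    ∀ x, pr v x = x' → adjC (lk F v) x' x' → √(L ^ 2 + (ht B v y - ht B v x) ^ 2) < c * x v →
      ∃ l ≤ √(L ^ 2 + (ht B v y - ht B v x) ^ 2), Ch (adjC F) (wB B) (m + 1) x y l := by
  have pos : ∀ {a t : ℝ}, a ≤ c * t → 0 ≤ a → 0 ≤ t := fun {a t} h1 h2 => by
    by_contra hh
    have := mul_neg_of_pos_of_neg hc (lt_of_not_ge hh)
    linarith
  induction h with
  | nil x' =>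
    rintro x hx ⟨h1, _, t, ⟨_, s, hs, hv, hts⟩, h3, _⟩ hl
    have sx : x.support ⊆ s := supp_of_pr (hx ▸ h3) hts hv
    have sy : y.support ⊆ s := supp_of_pr (hy ▸ h3) hts hv
    have e := H.pyth hc hs hv sx sy
    have e0 : wB (sch B v) (pr v x) (pr v y) = 0 := by simp [hx, hy, wB, nr_zero]
    rw [e0] at e
    have c1 := H.coord hs sx sy hc v
    refine ⟨_, e.le, Ch.one ⟨nonneg_of_pr (hx ▸ h1) (pos hl.le (Real.sqrt_nonneg _)),
      nonneg_of_pr (hy ▸ h1) (pos c1 (by linarith)), s, hs, sx, sy⟩⟩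
  | @cons m x' z' y' L a h2 ih =>
    intro x hx _ hl
    have L0 := h2.nonneg (wB_nonneg _)
    have w0 := wB_nonneg (sch B v) x' z'
    have zv := zero_of_lk a
    have ar := a.right
    obtain ⟨h1, h1', t, ⟨_, s, hs, hv, hts⟩, h3, h4⟩ := a
    have hg := H.ev_pos hc hs hv
    have hr := Real.sqrt_pos.2 hg
    set d := ht B v y - ht B v x with hd
    set a := wB (sch B v) x' z' with ha
    set z := z' + ((ht B v x + d * (a / (a + L)) - ht B v z') / √(B (ev v) (ev v))) • ev v with hz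
    have pz : pr v z = z' := pr_add_ev zv _
    have hz2 : ht B v z = ht B v x + d * (a / (a + L)) := by
      have e : ∀ r : ℝ, ht B v (z' + r • ev v) = ht B v z' + r * √(B (ev v) (ev v)) := fun r => by
        unfold ht
        rw [map_add, map_smul, smul_eq_mul, add_div, mul_div_assoc, Real.div_sqrt]
      rw [hz, e, div_mul_cancel₀ _ hr.ne']
      ring
    have sx : x.support ⊆ s := supp_of_pr (hx ▸ h3) hts hv
    have sz : z.support ⊆ s := supp_of_pr (pz ▸ h4) hts hv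
    have e := H.pyth hc hs hv sx sz
    rw [hx, pz, hz2, ← ha, add_sub_cancel_left] at e
    have sp := split_le w0 L0 d
    have c1 := H.coord hs sx sz hc v
    have e3 : ht B v y - ht B v z = d - d * (a / (a + L)) := by rw [hz2, hd]; ring
    have r0 := Real.sqrt_nonneg (L ^ 2 + (d - d * (a / (a + L))) ^ 2)
    obtain ⟨l, hl1, hl2⟩ := ih hy z pz ar (by rw [e3]; linarith)
    rw [e3] at hl1
    refine ⟨_, ?_, Ch.cons ⟨nonneg_of_pr (hx ▸ h1) (pos hl.le (Real.sqrt_nonneg _)),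
      nonneg_of_pr (pz ▸ h1') (pos c1 (by linarith)), s, hs, sx, sz⟩ hl2⟩
    linarith

/-- chains of small total angle -/
theorem small (H : Cone F B (k + 1) c C) (hc : 0 < c) (hC : 0 < C) {N : ℕ}
    (ih : ∀ (F : Set (Finset V)) (B : LinearMap.BilinForm ℝ (V →₀ ℝ)), Cone F B k c C →
      ∀ m x y l, Ch (adjC F) (wB B) m x y l → ∃ m' ≤ N, ∃ l' ≤ l, Ch (adjC F) (wB B) m' x y l')
    (m : ℕ) (x y : V →₀ ℝ) (θ : ℝ) (h : Ch (adjA F) (ang B) m x y θ)
    (hθ : θ ≤ min (c / (2 * C)) 1) :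
    ∃ m' ≤ N + 3, ∃ θ' ≤ θ, Ch (adjA F) (ang B) m' x y θ' := by
  have hx : m = 0 ∨ adjA F x x := by
    cases h with
    | nil => exact Or.inl rfl
    | cons a _ => exact Or.inr ⟨a.1.left, a.2.1, a.2.1⟩
  rcases hx with rfl | hx
  · exact ⟨0, Nat.zero_le _, θ, le_rfl, h⟩
  have hy := pt_end h hx
  have p1 := H.nr_pos hc hx.1 hx.2.1
  have p2 := H.nr_pos hc hy.1 hy.2.1
  have t0 := h.nonneg (ang_nonneg B)
  have t1 := hθ.trans (min_le_left _ _)
  have t2 := hθ.trans (min_le_right _ _)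
  obtain ⟨l, hl, h1⟩ := H.of_ang hc h hx (by linarith [pi_gt_three]) (inv_pos.2 p2) _
    (inv_pos.2 p1)
  rw [inv_mul_cancel₀ p1.ne', inv_mul_cancel₀ p2.ne'] at hl
  have l1 := hl.trans (Dd_one_le t0)
  set u := (nr B x)⁻¹ • x with hu
  set u' := (nr B y)⁻¹ • y with hu'
  have n1 : nr B u = 1 := by rw [hu, nr_smul B (inv_pos.2 p1).le, inv_mul_cancel₀ p1.ne']
  have n2 : nr B u' = 1 := by rw [hu', nr_smul B (inv_pos.2 p2).le, inv_mul_cancel₀ p2.ne']
  have au : adjC F u u := hx.1.smul (inv_pos.2 p1).le (inv_pos.2 p1).le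
  obtain ⟨v, hv⟩ : ∃ v, 1 / (2 * C) < u v := by
    by_contra hh
    push Not at hh
    obtain ⟨q1, _, s, hs, q3, _⟩ := au
    have := H.up s hs u q3 (1 / (2 * C)) (by positivity) fun v => by
      rw [abs_of_nonneg (q1 v)]
      exact hh v
    rw [n1, show C * (1 / (2 * C)) = 1 / 2 by field_simp] at this
    linarith
  have hv2 : c / (2 * C) < c * u v := by
    rw [div_eq_mul_one_div]
    exact mul_lt_mul_of_pos_left hv hc
  obtain ⟨L, h2, hL⟩ := H.proj hc v h1 (by linarith)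
  obtain ⟨m', hm', L', hL', h3⟩ := ih _ _ (H.link hc v) _ _ _ _ h2
  have L0 := h3.nonneg (wB_nonneg _)
  have hLL : √(L' ^ 2 + (ht B v u' - ht B v u) ^ 2) ≤ √(L ^ 2 + (ht B v u' - ht B v u) ^ 2) :=
    Real.sqrt_le_sqrt (by nlinarith)
  obtain ⟨l', hl', h4⟩ := H.lift hc v h3 u' rfl u rfl
    (adj_pr au (lt_trans (by positivity) hv)) (by linarith)
  rcases H.to_ang hc h4 with h5 | ⟨u0, u0', θ', h5, h6, h7⟩
  · rw [n1, n2] at h5
    linarith
  rw [n1, n2] at h7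
  have e1 : ang B x u = 0 := by simpa using H.ang_ray hc hx one_pos (inv_pos.2 p1)
  have e2 : ang B u' y = 0 := by simpa using H.ang_ray hc hy (inv_pos.2 p2) one_pos
  have a1 : adjA F x u :=
    ⟨by simpa using hx.1.smul zero_le_one (inv_pos.2 p1).le, hx.2.1, u0⟩
  have a2 : adjA F u' y :=
    ⟨by simpa using hy.1.smul (inv_pos.2 p2).le zero_le_one, u0', hy.2.1⟩
  refine ⟨m' + 1 + 1 + 1, by omega, _, ?_, Ch.cons a1 (h6.append (Ch.one a2))⟩
  rw [e1, e2]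
  have := le_of_Dd_one t0 h5.le (by linarith)
  linarith

end Cone

/-- in a cone complex every chain can be replaced by one with boundedly many pieces -/
theorem cone_short {c C : ℝ} (hc : 0 < c) (hC : 0 < C) (k : ℕ) : ∃ N : ℕ,
    ∀ (F : Set (Finset V)) (B : LinearMap.BilinForm ℝ (V →₀ ℝ)), Cone F B k c C →
      ∀ m x y l, Ch (adjC F) (wB B) m x y l →
        ∃ m' ≤ N, ∃ l' ≤ l, Ch (adjC F) (wB B) m' x y l' := by
  induction k with
  | zero =>
    refine ⟨0, fun F B H m x y l h => ⟨0, le_rfl, 0, h.nonneg (wB_nonneg B), ?_⟩⟩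
    have : x = y := by
      induction h with
      | nil x => rfl
      | cons a _ ih =>
        obtain ⟨_, _, s, hs, h3, h4⟩ := a
        have e : s = ∅ := Finset.card_eq_zero.1 (Nat.le_zero.1 (H.card s hs))
        rw [e, Finset.subset_empty, Finsupp.support_eq_empty] at h3 h4
        rw [h3, ← ih, h4]
    exact this ▸ Ch.nil x
  | succ k ih =>
    obtain ⟨N, hN⟩ := ih
    have hε : 0 < min (c / (2 * C)) 1 := lt_min (by positivity) one_pos
    refine ⟨⌈((N + 3 : ℕ) + 1 : ℝ) * (π / min (c / (2 * C)) 1 + 1)⌉₊ + 2,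
      fun F B H m x y l h => ?_⟩
    have hx : m = 0 ∨ (adjC F x x ∧ adjC F y y) := by
      cases h with
      | nil => exact Or.inl rfl
      | cons a h2 =>
        refine Or.inr ⟨a.left, ?_⟩
        have := a.right
        clear a
        induction h2 with
        | nil => exact this
        | cons b _ ih => exact ih b.right
    rcases hx with rfl | ⟨hx, hy⟩
    · exact ⟨0, Nat.zero_le _, l, le_rfl, h⟩
    rcases H.to_ang hc h with h1 | ⟨x0, y0, θ, h1, h2, h3⟩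
    · have a1 : adjC F x 0 := by simpa using hx.smul zero_le_one le_rfl
      have a2 : adjC F 0 y := by simpa using hy.smul le_rfl zero_le_one
      refine ⟨1 + 1, by omega, _, ?_, Ch.cons a1 (Ch.one a2)⟩
      simpa [wB, nr_neg] using h1
    · obtain ⟨m', hm', θ', h4, h5⟩ := Ch.group (ang_nonneg B) hε (H.small hc hC hN) h2
      have t0 := h5.nonneg (ang_nonneg B)
      obtain ⟨l', hl', h6⟩ := H.of_ang hc h5 ⟨hx, x0, x0⟩ (by linarith) one_pos 1 one_pos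
      simp only [one_smul, one_mul] at hl' h6
      refine ⟨m' + 1, ?_, l', hl'.trans (le_trans ?_ h3), h6⟩
      · have q1 : θ / min (c / (2 * C)) 1 ≤ π / min (c / (2 * C)) 1 :=
          div_le_div_of_nonneg_right h1.le hε.le
        have q2 : (m' : ℝ) ≤ ((N + 3 : ℕ) + 1 : ℝ) * (π / min (c / (2 * C)) 1 + 1) :=
          hm'.trans (mul_le_mul_of_nonneg_left (by linarith) (by positivity))
        have q3 : m' ≤ ⌈((N + 3 : ℕ) + 1 : ℝ) * (π / min (c / (2 * C)) 1 + 1)⌉₊ := by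
          exact_mod_cast q2.trans (Nat.le_ceil _)
        omega
      · unfold Dd
        apply Real.sqrt_le_sqrt
        have q1 := cos_le_cos_of_nonneg_of_le_pi t0 h1.le h4
        have q2 := mul_nonneg (nr_nonneg B x) (nr_nonneg B y)
        nlinarith

end Pool.Agent.Work.MP_9d1ffa_al.Px
end

-- merged part: Pool.Agent.Work.MP_9d1ffa_al.Px.ShD
section
/-! Simplicial complexes: chains can be shortened to a number of pieces linear in the length. -/

namespace Pool.Agent.Work.MP_9d1ffa_al.Px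

open Real LinearMap

variable {V : Type}

/-- the sum of the coordinates -/
noncomputable def tot : (V →₀ ℝ) →ₗ[ℝ] ℝ := Finsupp.linearCombination ℝ fun _ => (1 : ℝ)

theorem tot_eq {s : Finset V} {x : V →₀ ℝ} (h : x.support ⊆ s) : tot x = ∑ v ∈ s, x v := by
  unfold tot
  rw [Finsupp.linearCombination_apply, Finsupp.sum_of_support_subset x h _ (by simp)]
  simp

theorem tot_ev (v : V) : tot (ev v) = 1 := by simp [tot, ev]

theorem tot_pr (v : V) (x : V →₀ ℝ) : tot (pr v x) = tot x - x v := by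
  simp [pr, tot_ev]

/-- two points of a common simplex -/
def adjS (F : Set (Finset V)) (x y : V →₀ ℝ) : Prop := adjC F x y ∧ tot x = 1 ∧ tot y = 1

/-- a simplicial complex with faces of at most `k` vertices and metric constants `c`, `C` -/
structure Simp (F : Set (Finset V)) (B : LinearMap.BilinForm ℝ (V →₀ ℝ)) (k : ℕ) (c C : ℝ) :
    Prop where
  card : ∀ s ∈ F, s.card ≤ k
  symm : ∀ x y, B x y = B y x
  psd : ∀ s ∈ F, ∀ x : V →₀ ℝ, x.support ⊆ s → tot x = 0 → 0 ≤ B x x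
  low : ∀ s ∈ F, ∀ x : V →₀ ℝ, x.support ⊆ s → tot x = 0 → ∀ v, c * |x v| ≤ nr B x
  up : ∀ s ∈ F, ∀ x : V →₀ ℝ, x.support ⊆ s → tot x = 0 → ∀ a, 0 ≤ a → (∀ v, |x v| ≤ a) →
    nr B x ≤ C * a

/-- the chart at a vertex -/
noncomputable def cht (v : V) : (V →₀ ℝ) →ₗ[ℝ] (V →₀ ℝ) :=
  LinearMap.id - (tot (V := V)).smulRight (ev v)

theorem cht_apply (v : V) (x : V →₀ ℝ) : cht v x = (1 : ℝ) • x - tot x • ev v := by
  simp [cht]

theorem tot_cht (v : V) (x : V →₀ ℝ) : tot (cht v x) = 0 := by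
  simp [cht_apply, tot_ev]

/-- the form in the chart -/
noncomputable def chB (B : LinearMap.BilinForm ℝ (V →₀ ℝ)) (v : V) :
    LinearMap.BilinForm ℝ (V →₀ ℝ) := B.comp (cht v) (cht v)

theorem nr_chB (B : LinearMap.BilinForm ℝ (V →₀ ℝ)) (v : V) (x : V →₀ ℝ) :
    nr (chB B v) x = nr B (cht v x) := rfl

theorem wB_chB (B : LinearMap.BilinForm ℝ (V →₀ ℝ)) (v : V) {x y : V →₀ ℝ}
    (h : tot x = tot y) : wB (chB B v) (pr v x) (pr v y) = wB B x y := by
  unfold wB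
  rw [nr_chB, pr_sub, cht_apply, tot_pr, map_sub, h, pr]
  congr 1
  rw [one_smul, sub_self, zero_sub, neg_smul, sub_neg_eq_add, sub_add_cancel]

theorem eq_of_pr {v : V} {x y : V →₀ ℝ} (h : pr v x = pr v y) (h2 : tot x = tot y) : x = y := by
  have h3 := congrArg tot h
  rw [tot_pr, tot_pr] at h3
  ext u
  by_cases e : u = v
  · rw [e]
    linarith
  · rw [← pr_ne e x, ← pr_ne e y, h]

namespace Simp

variable {F : Set (Finset V)} {B : LinearMap.BilinForm ℝ (V →₀ ℝ)} {k : ℕ} {c C : ℝ}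

theorem cone (H : Simp F B k c C) (v : V) :
    Cone (lk F v) (chB B v) k c (C * (k + 1)) where
  card := by
    rintro t ⟨_, s, hs, _, h3⟩
    exact (Finset.card_le_card h3).trans (H.card s hs)
  symm x y := H.symm _ _
  psd := by
    rintro t ⟨_, s, hs, h2, h3⟩ x hx
    refine H.psd s hs (cht v x) ?_ (tot_cht v x)
    rw [cht_apply]
    exact supp_comb (hx.trans h3) (supp_ev h2) _ _
  low := by
    rintro t ⟨h1, s, hs, h2, h3⟩ x hx u
    by_cases e : u = v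
    · have : x u = 0 := by
        by_contra hh
        exact h1 (e ▸ hx (Finsupp.mem_support_iff.2 hh))
      rw [this, abs_zero, mul_zero]
      exact nr_nonneg _ _
    · have := H.low s hs (cht v x)
        (by rw [cht_apply]; exact supp_comb (hx.trans h3) (supp_ev h2) _ _) (tot_cht v x) u
      rw [nr_chB]
      simpa [cht_apply, ev_ne e] using this
  up := by
    rintro t ⟨h1, s, hs, h2, h3⟩ x hx a ha hb
    have k0 : (0 : ℝ) ≤ k := Nat.cast_nonneg k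
    have := H.up s hs (cht v x)
      (by rw [cht_apply]; exact supp_comb (hx.trans h3) (supp_ev h2) _ _) (tot_cht v x)
      ((k + 1) * a) (by positivity) fun u => by
        have q1 : |tot x| ≤ k * a := by
          rw [tot_eq (hx.trans h3)]
          refine (Finset.abs_sum_le_sum_abs _ _).trans ?_
          refine (Finset.sum_le_card_nsmul _ _ a fun i _ => hb i).trans ?_
          rw [nsmul_eq_mul]
          exact mul_le_mul_of_nonneg_right (by exact_mod_cast H.card s hs) ha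
        have q2 := hb u
        have q3 : |ev v u| ≤ 1 := by
          by_cases e : u = v
          · rw [e, ev_same, abs_one]
          · rw [ev_ne e, abs_zero]
            exact zero_le_one
        have q4 : |tot x * ev v u| ≤ k * a := by
          rw [abs_mul]
          nlinarith [abs_nonneg (tot x), abs_nonneg (ev v u)]
        have q5 := abs_sub (x u) (tot x * ev v u)
        simp only [cht_apply, one_smul, Finsupp.sub_apply, Finsupp.smul_apply, smul_eq_mul]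
        linarith
    rw [nr_chB]
    linarith

theorem coord (H : Simp F B k c C) {s : Finset V} (hs : s ∈ F) {x y : V →₀ ℝ}
    (hx : x.support ⊆ s) (hy : y.support ⊆ s) (h : tot x = tot y) (hc : 0 < c) (v : V) :
    c * x v - wB B x y ≤ c * y v := by
  have h := H.low s hs _ (supp_sub hx hy) (by rw [map_sub, h, sub_self]) v
  have h2 := mul_le_mul_of_nonneg_left (le_abs_self ((x - y) v)) hc.le
  rw [Finsupp.sub_apply] at h h2
  unfold wB
  nlinarith

theorem proj (H : Simp F B k c C) (hc : 0 < c) (v : V) {m : ℕ} {x y : V →₀ ℝ} {l : ℝ}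
    (h : Ch (adjS F) (wB B) m x y l) (hl : l < c * x v) :
    Ch (adjC (lk F v)) (wB (chB B v)) m (pr v x) (pr v y) l := by
  induction h with
  | nil x => exact Ch.nil _
  | @cons m x y z l a h2 ih =>
    have l0 := h2.nonneg (wB_nonneg B)
    have w0 := wB_nonneg B x y
    have xv : 0 < x v := by
      by_contra hh
      have := mul_nonpos_of_nonneg_of_nonpos hc.le (le_of_not_gt hh)
      linarith
    have a' := adj_pr a.1 xv
    obtain ⟨⟨_, _, s, hs, h3, h4⟩, h5, h6⟩ := a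
    have := Ch.cons a' (ih (by linarith [H.coord hs h3 h4 (h5.trans h6.symm) hc v]))
    rwa [wB_chB B v (h5.trans h6.symm)] at this

theorem lift (H : Simp F B k c C) (hc : 0 < c) (v : V) {m : ℕ} {x' y' : V →₀ ℝ} {l : ℝ}
    (h : Ch (adjC (lk F v)) (wB (chB B v)) m x' y' l) (y : V →₀ ℝ) (hy : pr v y = y')
    (ty : tot y = 1) : ∀ x, pr v x = x' → tot x = 1 → l < c * x v →
      Ch (adjS F) (wB B) m x y l := by
  have pos : ∀ {a t : ℝ}, a ≤ c * t → 0 ≤ a → 0 ≤ t := fun {a t} h1 h2 => by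
    by_contra hh
    have := mul_neg_of_pos_of_neg hc (lt_of_not_ge hh)
    linarith
  induction h with
  | nil x' =>
    intro x hx tx _
    rw [eq_of_pr (hx.trans hy.symm) (tx.trans ty.symm)]
    exact Ch.nil y
  | @cons m x' z' y' l a h2 ih =>
    intro x hx tx hl
    have L0 := h2.nonneg (wB_nonneg _)
    have w0 := wB_nonneg (chB B v) x' z'
    have zv := zero_of_lk a
    obtain ⟨h1, h1', t, ⟨_, s, hs, hv, hts⟩, h3, h4⟩ := a
    set z := z' + (1 - tot z') • ev v with hz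
    have pz : pr v z = z' := pr_add_ev zv _
    have tz : tot z = 1 := by simp [hz, tot_ev]
    have sx : x.support ⊆ s := supp_of_pr (hx ▸ h3) hts hv
    have sz : z.support ⊆ s := supp_of_pr (pz ▸ h4) hts hv
    have e := wB_chB B v (tx.trans tz.symm)
    rw [hx, pz] at e
    have c1 := H.coord hs sx sz (tx.trans tz.symm) hc v
    rw [e] at hl w0 ⊢
    exact Ch.cons ⟨⟨nonneg_of_pr (hx ▸ h1) (pos hl.le (by linarith)),
      nonneg_of_pr (pz ▸ h1') (pos c1 (by linarith)), s, hs, sx, sz⟩, tx, tz⟩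
      (ih hy z pz tz (by linarith))

end Simp

/-- every chain of length `l` can be replaced by one with at most `N (l + 1)` pieces -/
theorem simp_short {c C : ℝ} (hc : 0 < c) (hC : 0 < C) (k : ℕ) : ∃ N : ℕ,
    ∀ (F : Set (Finset V)) (B : LinearMap.BilinForm ℝ (V →₀ ℝ)), Simp F B k c C →
      ∀ m x y l, Ch (adjS F) (wB B) m x y l →
        ∃ m' : ℕ, (m' : ℝ) ≤ N * (l + 1) ∧ ∃ l' ≤ l, Ch (adjS F) (wB B) m' x y l' := by
  have k0 : (0 : ℝ) ≤ k := Nat.cast_nonneg k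
  obtain ⟨N, hN⟩ := cone_short (V := V) hc (C := C * (k + 1)) (by positivity) k
  have hε : 0 < c / (k + 1) := by positivity
  refine ⟨⌈((N : ℝ) + 1) * ((k + 1) / c + 1)⌉₊, fun F B H m x y l h => ?_⟩
  obtain ⟨m', hm', h2⟩ := Ch.group (N := N) (wB_nonneg B) hε (fun m x y l h hl => by
    have hx : m = 0 ∨ (adjS F x x ∧ tot y = 1) := by
      cases h with
      | nil => exact Or.inl rfl
      | cons a h2 =>
        refine Or.inr ⟨⟨a.1.left, a.2.1, a.2.1⟩, ?_⟩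
        have := a.2.2
        clear a hl
        induction h2 with
        | nil => exact this
        | cons b _ ih => exact ih b.2.2
    rcases hx with rfl | ⟨⟨⟨_, _, s, hs, h3, _⟩, tx, _⟩, ty⟩
    · exact ⟨0, Nat.zero_le _, l, le_rfl, h⟩
    obtain ⟨v, hv⟩ : ∃ v, 1 / (k + 1) < x v := by
      by_contra hh
      push Not at hh
      rw [tot_eq h3] at tx
      have q1 := Finset.sum_le_card_nsmul s x _ fun i _ => hh i
      rw [tx, nsmul_eq_mul] at q1
      have q2 : (s.card : ℝ) ≤ k := by exact_mod_cast H.card s hs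
      rw [mul_one_div, le_div_iff₀ (by positivity)] at q1
      linarith
    have hv2 : c / (k + 1) < c * x v := by
      rw [div_eq_mul_one_div]
      exact mul_lt_mul_of_pos_left hv hc
    obtain ⟨m', hm', l', hl', h4⟩ := hN _ _ (H.cone v) _ _ _ _ (H.proj hc v h (by linarith))
    exact ⟨m', hm', l', hl', H.lift hc v h4 y rfl ty x rfl tx (by linarith)⟩) h
  refine ⟨m', hm'.trans ?_, h2⟩
  have l0 := h.nonneg (wB_nonneg B)
  have q1 := Nat.le_ceil (((N : ℝ) + 1) * ((k + 1) / c + 1))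
  refine le_trans ?_ (mul_le_mul_of_nonneg_right q1 (by linarith))
  rw [mul_assoc]
  refine mul_le_mul_of_nonneg_left ?_ (by positivity)
  rw [div_div_eq_mul_div, mul_div_assoc]
  have q2 : 0 ≤ ((k : ℝ) + 1) / c := by positivity
  nlinarith

end Pool.Agent.Work.MP_9d1ffa_al.Px
end

-- merged part: Pool.Agent.Work.MP_9d1ffa_al.Px.Sh
section
/-! Short chains, in terms of barycentric coordinates. -/

namespace Pool.Agent.Work.MP_9d1ffa_al.Px

open Real LinearMap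

variable {V : Type}

/-- the symmetric bilinear form of the squared edge lengths -/
noncomputable def qB (q : V → V → ℝ) : LinearMap.BilinForm ℝ (V →₀ ℝ) :=
  Finsupp.linearCombination ℝ fun u =>
    Finsupp.linearCombination ℝ fun v => -(1 / 4) * (q u v + q v u)

theorem qB_eq (q : V → V → ℝ) {s : Finset V} {x y : V →₀ ℝ} (hx : x.support ⊆ s)
    (hy : y.support ⊆ s) :
    qB q x y = ∑ u ∈ s, ∑ v ∈ s, x u * (y v * (-(1 / 4) * (q u v + q v u))) := by
  unfold qB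
  rw [Finsupp.linearCombination_apply, Finsupp.sum_of_support_subset x hx _ (by simp),
    LinearMap.sum_apply]
  refine Finset.sum_congr rfl fun u _ => ?_
  rw [LinearMap.smul_apply, Finsupp.linearCombination_apply,
    Finsupp.sum_of_support_subset y hy _ (by simp), smul_eq_mul, Finset.mul_sum]
  rfl

theorem qB_symm (q : V → V → ℝ) (x y : V →₀ ℝ) : qB q x y = qB q y x := by
  classical
  rw [qB_eq q (s := x.support ∪ y.support) Finset.subset_union_left Finset.subset_union_right,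
    qB_eq q (s := x.support ∪ y.support) Finset.subset_union_right Finset.subset_union_left,
    Finset.sum_comm]
  refine Finset.sum_congr rfl fun u _ => Finset.sum_congr rfl fun v _ => ?_
  ring

theorem qB_self (q : V → V → ℝ) {s : Finset V} {x : V →₀ ℝ} (hx : x.support ⊆ s) :
    qB q x x = Qf q s x := by
  have e : ∑ u ∈ s, ∑ v ∈ s, q v u * x u * x v = ∑ u ∈ s, ∑ v ∈ s, q u v * x u * x v := by
    rw [Finset.sum_comm]
    refine Finset.sum_congr rfl fun u _ => Finset.sum_congr rfl fun v _ => ?_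
    ring
  have e2 : qB q x x = -(1 / 4) * (∑ u ∈ s, ∑ v ∈ s, q u v * x u * x v +
      ∑ u ∈ s, ∑ v ∈ s, q v u * x u * x v) := by
    rw [qB_eq q hx hx, ← Finset.sum_add_distrib, Finset.mul_sum]
    refine Finset.sum_congr rfl fun u _ => ?_
    rw [← Finset.sum_add_distrib, Finset.mul_sum]
    refine Finset.sum_congr rfl fun v _ => ?_
    ring
  rw [e2, e, Qf]
  ring

open Classical in
/-- a finitely supported function as a vector -/
noncomputable def fs (x : V → ℝ) : V →₀ ℝ :=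
  if h : (Function.support x).Finite then Finsupp.ofSupportFinite x h else 0

theorem fs_coe {s : Finset V} {x : V → ℝ} (h : In s x) : (fs x : V → ℝ) = x := by
  have : (Function.support x).Finite :=
    s.finite_toSet.subset fun v hv => by
      by_contra e
      exact hv (h.2.1 v e)
  unfold fs
  rw [dif_pos this]
  rfl

theorem fs_supp {s : Finset V} {x : V → ℝ} (h : In s x) : (fs x).support ⊆ s := fun v hv => by
  by_contra e
  rw [Finsupp.mem_support_iff, fs_coe h] at hv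
  exact hv (h.2.1 v e)

theorem in_of_supp {s : Finset V} {x : V →₀ ℝ} (h0 : ∀ v, 0 ≤ x v) (h : x.support ⊆ s)
    (h1 : tot x = 1) : In s x :=
  ⟨h0, fun v hv => by
    by_contra e
    exact hv (h (Finsupp.mem_support_iff.2 e)), by rw [← tot_eq h, h1]⟩

theorem wB_qB (q : V → V → ℝ) {s : Finset V} {x y : V →₀ ℝ} (hx : x.support ⊆ s)
    (hy : y.support ⊆ s) : wB (qB q) x y = ed q s x y := by
  unfold wB nr ed
  rw [qB_self q (supp_sub hx hy), Finsupp.coe_sub]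

theorem ch_of_seq {F : Set (Finset V)} (q : V → V → ℝ) (m : ℕ) (z : ℕ → V → ℝ) (s : ℕ → Finset V)
    (h : ∀ i < m, s i ∈ F ∧ In (s i) (z i) ∧ In (s i) (z (i + 1))) :
    Ch (adjS F) (wB (qB q)) m (fs (z 0)) (fs (z m))
      (∑ i ∈ Finset.range m, ed q (s i) (z i) (z (i + 1))) := by
  induction m with
  | zero => simpa using Ch.nil _
  | succ m ih =>
    obtain ⟨h1, h2, h3⟩ := h m (Nat.lt_succ_self m)
    have a : adjS F (fs (z m)) (fs (z (m + 1))) := by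
      refine ⟨⟨?_, ?_, s m, h1, fs_supp h2, fs_supp h3⟩, ?_, ?_⟩
      · rw [fs_coe h2]
        exact h2.1
      · rw [fs_coe h3]
        exact h3.1
      · rw [tot_eq (fs_supp h2), fs_coe h2]
        exact h2.2.2
      · rw [tot_eq (fs_supp h3), fs_coe h3]
        exact h3.2.2
    have := (ih fun i hi => h i (Nat.lt_succ_of_lt hi)).append (Ch.one a)
    rwa [wB_qB q (fs_supp h2) (fs_supp h3), fs_coe h2, fs_coe h3, ← Finset.sum_range_succ
      (fun i => ed q (s i) (z i) (z (i + 1)))] at this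

theorem seq_of_ch {F : Set (Finset V)} (q : V → V → ℝ) {m : ℕ} {x y : V →₀ ℝ} {l : ℝ}
    (h : Ch (adjS F) (wB (qB q)) m x y l) : ∃ (z : ℕ → V → ℝ) (s : ℕ → Finset V),
      z 0 = x ∧ (∀ i, m ≤ i → z i = y) ∧
      (∀ i < m, s i ∈ F ∧ In (s i) (z i) ∧ In (s i) (z (i + 1))) ∧
      ∑ i ∈ Finset.range m, ed q (s i) (z i) (z (i + 1)) = l := by
  induction h with
  | nil x => exact ⟨fun _ => x, fun _ => ∅, rfl, fun _ _ => rfl, by simp, by simp⟩
  | @cons m x y w l a _ ih =>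
    obtain ⟨z, s, h1, h2, h3, h4⟩ := ih
    obtain ⟨⟨a1, a2, t, ht, a3, a4⟩, a5, a6⟩ := a
    refine ⟨fun i => Nat.casesOn i x z, fun i => Nat.casesOn i t s, rfl, ?_, ?_, ?_⟩
    · rintro (_ | i) hi
      · omega
      · exact h2 i (by omega)
    · rintro (_ | i) hi
      · refine ⟨ht, in_of_supp a1 a3 a5, ?_⟩
        change In t (z 0)
        rw [h1]
        exact in_of_supp a2 a4 a6
      · exact h3 i (by omega)
    · rw [Finset.sum_range_succ', add_comm, ← h4, wB_qB q a3 a4, ← h1]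
      rfl

/-- short chains -/
theorem short_chain (k : ℕ) {c C : ℝ} (hc : 0 < c) (hC : 0 < C) : ∃ N : ℕ,
    ∀ (F : Set (Finset V)) (q : V → V → ℝ), (∀ s ∈ F, s.card ≤ k) →
      (∀ s ∈ F, ∀ w : V → ℝ, (∀ v, v ∉ s → w v = 0) → ∑ v ∈ s, w v = 0 →
        (∀ v, c ^ 2 * w v ^ 2 ≤ Qf q s w) ∧
          ∀ a, (∀ v, |w v| ≤ a) → Qf q s w ≤ C ^ 2 * a ^ 2) →
      ∀ (m : ℕ) (z : ℕ → V → ℝ) (s : ℕ → Finset V),
        (∀ i < m, s i ∈ F ∧ In (s i) (z i) ∧ In (s i) (z (i + 1))) →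
        ∃ (m2 : ℕ) (z2 : ℕ → V → ℝ) (s2 : ℕ → Finset V),
          (m2 : ℝ) ≤ N * (∑ i ∈ Finset.range m, ed q (s i) (z i) (z (i + 1)) + 1) ∧
          z2 0 = z 0 ∧ (∀ i, m2 ≤ i → z2 i = z m) ∧
          (∀ i < m2, s2 i ∈ F ∧ In (s2 i) (z2 i) ∧ In (s2 i) (z2 (i + 1))) ∧
          ∑ i ∈ Finset.range m2, ed q (s2 i) (z2 i) (z2 (i + 1)) ≤
            ∑ i ∈ Finset.range m, ed q (s i) (z i) (z (i + 1)) := by
  obtain ⟨N, hN⟩ := simp_short (V := V) hc hC k
  refine ⟨N, fun F q h1 h2 m z s h => ?_⟩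
  have key : ∀ s ∈ F, ∀ x : V →₀ ℝ, x.support ⊆ s → tot x = 0 →
      (∀ v, c ^ 2 * x v ^ 2 ≤ qB q x x) ∧
        ∀ a, (∀ v, |x v| ≤ a) → qB q x x ≤ C ^ 2 * a ^ 2 := fun s hs x hx tx => by
    rw [qB_self q hx]
    refine h2 s hs x (fun v hv => ?_) (by rw [← tot_eq hx, tx])
    by_contra e
    exact hv (hx (Finsupp.mem_support_iff.2 e))
  have H : Simp F (qB q) k c C :=
    { card := h1
      symm := qB_symm q
      psd := fun s hs x hx tx => by
        by_cases e : x = 0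
        · simp [e]
        · obtain ⟨v, _⟩ := Finsupp.support_nonempty_iff.2 e
          exact le_trans (by positivity) ((key s hs x hx tx).1 v)
      low := fun s hs x hx tx v => by
        apply Real.le_sqrt_of_sq_le
        rw [mul_pow, sq_abs]
        exact (key s hs x hx tx).1 v
      up := fun s hs x hx tx a ha hb => by
        unfold nr
        rw [Real.sqrt_le_left (by positivity), mul_pow]
        exact (key s hs x hx tx).2 a hb }
  rcases Nat.eq_zero_or_pos m with rfl | hm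
  · exact ⟨0, fun _ => z 0, s, by simp, rfl, fun _ _ => rfl, by simp, by simp⟩
  obtain ⟨m2, hm2, l', hl', h3⟩ := hN F _ H _ _ _ _ (ch_of_seq q m z s h)
  obtain ⟨z2, s2, h4, h5, h6, h7⟩ := seq_of_ch q h3
  have e0 := fs_coe (h 0 hm).2.1
  have e1 := fs_coe (h (m - 1) (by omega)).2.2
  rw [Nat.sub_add_cancel hm] at e1
  exact ⟨m2, z2, s2, hm2, h4.trans e0, fun i hi => (h5 i hi).trans e1, h6, h7 ▸ hl'⟩

/-- short chains, for `Chn` -/
theorem short_chn (k : ℕ) {c C : ℝ} (hc : 0 < c) (hC : 0 < C) : ∃ N : ℕ,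
    ∀ (F : Set (Finset V)) (q : V → V → ℝ), (∀ s ∈ F, s.card ≤ k) →
      (∀ s ∈ F, ∀ w : V → ℝ, (∀ v, v ∉ s → w v = 0) → ∑ v ∈ s, w v = 0 →
        (∀ v, c ^ 2 * w v ^ 2 ≤ Qf q s w) ∧
          ∀ a, (∀ v, |w v| ≤ a) → Qf q s w ≤ C ^ 2 * a ^ 2) →
      ∀ m x y l, Chn F q m x y l →
        ∃ m2 : ℕ, (m2 : ℝ) ≤ N * (l + 1) ∧ ∃ l2 ≤ l, Chn F q m2 x y l2 := by
  obtain ⟨N, hN⟩ := short_chain (V := V) k hc hC
  refine ⟨N, fun F q h1 h2 m x y l ⟨z, s, a, b, h3, h4⟩ => ?_⟩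
  obtain ⟨m2, z2, s2, e1, e2, e3, e4, e5⟩ := hN F q h1 h2 m z s h3
  rw [h4] at e1 e5
  exact ⟨m2, e1, _, e5, z2, s2, e2.trans a, (e3 m2 le_rfl).trans b, e4, rfl⟩

end Pool.Agent.Work.MP_9d1ffa_al.Px
end

-- merged part: Pool.Agent.Work.MP_9d1ffa_al.Ar.Lc1
section
/-! Angles in the faces of a two-dimensional cone complex. -/

namespace Pool.Agent.Work.MP_9d1ffa_al.Ar

open Real Px

variable {V : Type}

theorem Lc_rev {P : Type} {adj : P → P → Prop} {w : P → P → ℝ} (ha : ∀ x y, adj x y → adj y x)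
    (hw : ∀ x y, w x y = w y x) {m : ℕ} {x y : P} {l : ℝ} (h : Ch adj w m x y l) :
    Ch adj w m y x l := by
  induction h with
  | nil x => exact Ch.nil x
  | cons a _ ih =>
    have := ih.append (Ch.one (ha _ _ a))
    rwa [add_comm _ (w _ _), hw] at this

theorem Lc_mono {P : Type} {adj adj' : P → P → Prop} {w : P → P → ℝ}
    (ha : ∀ x y, adj x y → adj' x y) {m : ℕ} {x y : P} {l : ℝ} (h : Ch adj w m x y l) :
    Ch adj' w m x y l := by
  induction h with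
  | nil x => exact Ch.nil x
  | cons a _ ih => exact Ch.cons (ha _ _ a) ih

theorem Lc_adjC_symm {F : Set (Finset V)} (x y : V →₀ ℝ) (h : adjC F x y) : adjC F y x := by
  obtain ⟨a, b, s, hs, c, d⟩ := h
  exact ⟨b, a, s, hs, d, c⟩

theorem Lc_adjA_symm {F : Set (Finset V)} (x y : V →₀ ℝ) (h : adjA F x y) : adjA F y x :=
  ⟨Lc_adjC_symm _ _ h.1, h.2.2, h.2.1⟩

theorem Lc_wB_symm (B : LinearMap.BilinForm ℝ (V →₀ ℝ)) (x y : V →₀ ℝ) : wB B x y = wB B y x := by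
  unfold wB
  rw [← nr_neg, neg_sub]

/-- a non-zero point of the face `s` -/
def Pf (s : Finset V) (p : V →₀ ℝ) : Prop := (∀ v, 0 ≤ p v) ∧ p ≠ 0 ∧ p.support ⊆ s

theorem Pf.adj {F : Set (Finset V)} {s : Finset V} (hs : s ∈ F) {p p' : V →₀ ℝ} (h : Pf s p)
    (h' : Pf s p') : adjA F p p' :=
  ⟨⟨h.1, h'.1, s, hs, h.2.2, h'.2.2⟩, h.2.1, h'.2.1⟩

theorem Lc_pf {F : Set (Finset V)} {p p' : V →₀ ℝ} (h : adjA F p p') :
    ∃ s ∈ F, Pf s p ∧ Pf s p' := by
  obtain ⟨⟨a, b, s, hs, c, d⟩, e, f⟩ := h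
  exact ⟨s, hs, ⟨a, e, c⟩, b, f, d⟩

theorem Pf.of_supp {s t : Finset V} {p : V →₀ ℝ} (h : Pf s p) (ht : p.support ⊆ t) : Pf t p :=
  ⟨h.1, h.2.1, ht⟩

theorem Lc_pf_ev {s : Finset V} {u : V} (h : u ∈ s) : Pf s (ev u) := by
  refine ⟨fun v => ?_, fun e => ?_, supp_ev h⟩
  · by_cases e : v = u
    · rw [e, ev_same]
      exact zero_le_one
    · rw [ev_ne e]
  · have := ev_same u
    rw [e] at this
    simp at this

theorem Lc_two {s : Finset V} (hs : s.card ≤ 2) {u v w : V} (hu : u ∈ s) (hv : v ∈ s)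
    (huv : u ≠ v) (hw : w ∈ s) : w = u ∨ w = v := by
  by_contra hh
  push Not at hh
  have := Finset.two_lt_card.2 ⟨u, hu, v, hv, w, hw, huv, hh.1.symm, hh.2.symm⟩
  omega

theorem Lc_ray {p : V →₀ ℝ} {u : V} (h : ∀ v ∈ p.support, v = u) : p = p u • ev u := by
  ext v
  by_cases e : v = u
  · simp [e, ev_same]
  · have : p v = 0 := by
      by_contra hh
      exact e (h v (Finsupp.mem_support_iff.2 hh))
    simp [this, ev_ne e]

theorem Lc_dec {s : Finset V} (hs : s.card ≤ 2) {u v : V} (hu : u ∈ s) (hv : v ∈ s)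
    (huv : u ≠ v) {p : V →₀ ℝ} (h : p.support ⊆ s) : p = p u • ev u + p v • ev v := by
  ext w
  by_cases e : w = u
  · simp [e, ev_same, ev_ne huv]
  by_cases e' : w = v
  · simp [e', ev_same, ev_ne huv.symm]
  have : p w = 0 := by
    by_contra hh
    rcases Lc_two hs hu hv huv (h (Finsupp.mem_support_iff.2 hh)) with t | t
    · exact e t
    · exact e' t
  simp [this, ev_ne e, ev_ne e']

variable {F : Set (Finset V)} {B : LinearMap.BilinForm ℝ (V →₀ ℝ)} {k : ℕ} {c C : ℝ}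

theorem Lc_ang_symm (H : Cone F B k c C) (x y : V →₀ ℝ) : ang B x y = ang B y x := by
  unfold ang
  rw [H.symm x y, mul_comm]

theorem Lc_ang_smul (B : LinearMap.BilinForm ℝ (V →₀ ℝ)) {a : ℝ} (ha : 0 < a) (x y : V →₀ ℝ) :
    ang B x (a • y) = ang B x y := by
  unfold ang
  rw [nr_smul B ha.le, map_smul, smul_eq_mul, mul_left_comm, mul_div_mul_left _ _ ha.ne']

theorem Pf.pos_of_ray {s : Finset V} {p : V →₀ ℝ} (hp : Pf s p) {u : V}
    (h : ∀ v ∈ p.support, v = u) : 0 < p u := by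
  refine lt_of_le_of_ne (hp.1 u) fun e => hp.2.1 ?_
  rw [Lc_ray h, ← e, zero_smul]

theorem Lc_ang_of_ray (B : LinearMap.BilinForm ℝ (V →₀ ℝ)) {s : Finset V} {p : V →₀ ℝ}
    (hp : Pf s p) {u : V} (h : ∀ v ∈ p.support, v = u) (x : V →₀ ℝ) :
    ang B x p = ang B x (ev u) := by
  rw [← Lc_ang_smul B (hp.pos_of_ray h) x (ev u), ← Lc_ray h]

theorem Lc_ang_self (H : Cone F B k c C) (hc : 0 < c) {s : Finset V} (hs : s ∈ F) {p : V →₀ ℝ}
    (hp : Pf s p) : ang B p p = 0 := by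
  simpa using H.ang_ray hc (hp.adj hs hp) one_pos one_pos

theorem Lc_cos (H : Cone F B k c C) (hc : 0 < c) {s : Finset V} (hs : s ∈ F) {p p' : V →₀ ℝ}
    (hp : Pf s p) (hp' : Pf s p') : cos (ang B p p') = B p p' / (nr B p * nr B p') := by
  have p1 := H.nr_pos hc (hp.adj hs hp).1 hp.2.1
  have p2 := H.nr_pos hc (hp'.adj hs hp').1 hp'.2.1
  have h1 := abs_le.1 (H.cs hs hp.2.2 hp'.2.2)
  have p3 := mul_pos p1 p2
  unfold ang
  rw [cos_arccos (by rw [le_div_iff₀ p3]; linarith) (by rw [div_le_one p3]; linarith)]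

/-- the angle from a vertex is a coordinate on the face -/
theorem Lc_face (H : Cone F B 2 c C) (hc : 0 < c) {s : Finset V} (hs : s ∈ F) {u : V}
    (hu : u ∈ s) {p p' : V →₀ ℝ} (hp : Pf s p) (hp' : Pf s p') :
    ang B p p' = |ang B (ev u) p - ang B (ev u) p'| := by
  have he := Lc_pf_ev hu
  by_cases h1 : ∀ v ∈ s, v = u
  · have r1 : ∀ v ∈ p.support, v = u := fun v hv => h1 v (hp.2.2 hv)
    have r2 : ∀ v ∈ p'.support, v = u := fun v hv => h1 v (hp'.2.2 hv)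
    rw [Lc_ang_of_ray B hp' r2, Lc_ang_of_ray B hp' r2, Lc_ang_symm H p, Lc_ang_of_ray B hp r1,
      Lc_ang_self H hc hs he]
    simp
  push Not at h1
  obtain ⟨v, hv, hvu⟩ := h1
  have hg := H.ev_pos hc hs hu
  set g := B (ev u) (ev u) with hgd
  set h := B (ev u) (ev v) with hhd
  set κ := B (ev v) (ev v) with hκ
  have cs := H.cs hs (supp_ev hu) (supp_ev hv)
  have su := H.sq_nr hs (supp_ev hu)
  have sv := H.sq_nr hs (supp_ev hv)
  have hΔ : 0 ≤ g * κ - h ^ 2 := by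
    have := pow_le_pow_left₀ (abs_nonneg _) cs 2
    rw [sq_abs, mul_pow, su, sv] at this
    linarith
  have pe := H.nr_pos hc (he.adj hs he).1 he.2.1
  have bil : ∀ x y : V →₀ ℝ, x.support ⊆ s → y.support ⊆ s →
      B x y = g * x u * y u + h * (x u * y v + x v * y u) + κ * x v * y v := fun x y hx hy => by
    have e1 := Lc_dec (H.card s hs) hu hv hvu.symm hx
    have e2 := Lc_dec (H.card s hs) hu hv hvu.symm hy
    generalize x u = a at e1 ⊢
    generalize x v = b at e1 ⊢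
    generalize y u = a' at e2 ⊢
    generalize y v = b' at e2 ⊢
    rw [e1, e2]
    simp only [map_add, map_smul, LinearMap.add_apply, LinearMap.smul_apply, smul_eq_mul]
    rw [H.symm (ev v) (ev u)]
    ring
  have trig : ∀ x : V →₀ ℝ, Pf s x →
      cos (ang B (ev u) x) = (g * x u + h * x v) / (nr B (ev u) * nr B x) ∧
      sin (ang B (ev u) x) = x v * √(g * κ - h ^ 2) / (nr B (ev u) * nr B x) := fun x hx => by
    have px := H.nr_pos hc (hx.adj hs hx).1 hx.2.1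
    have sx := H.sq_nr hs hx.2.2
    have c1 := Lc_cos H hc hs he hx
    rw [bil _ _ (supp_ev hu) hx.2.2, ev_same, ev_ne hvu] at c1
    have c2 : cos (ang B (ev u) x) = (g * x u + h * x v) / (nr B (ev u) * nr B x) := by
      rw [c1]
      ring
    refine ⟨c2, ?_⟩
    have s0 : 0 ≤ sin (ang B (ev u) x) :=
      sin_nonneg_of_nonneg_of_le_pi (arccos_nonneg _) (arccos_le_pi _)
    have x0 := hx.1 v
    refine (pow_left_inj₀ s0 (by positivity) two_ne_zero).1 ?_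
    rw [sin_sq, c2, div_pow, div_pow, mul_pow, mul_pow, su, sx, Real.sq_sqrt hΔ]
    have sx0 : 0 < B x x := sx ▸ pow_pos px 2
    rw [eq_div_iff (by positivity), sub_mul, div_mul_cancel₀ _ (by positivity),
      bil _ _ hx.2.2 hx.2.2]
    ring
  obtain ⟨c1, s1⟩ := trig p hp
  obtain ⟨c2, s2⟩ := trig p' hp'
  have p1 := H.nr_pos hc (hp.adj hs hp).1 hp.2.1
  have p2 := H.nr_pos hc (hp'.adj hs hp').1 hp'.2.1
  have key : B p p' / (nr B p * nr B p') = cos (|ang B (ev u) p - ang B (ev u) p'|) := by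
    rw [cos_abs, cos_sub, c1, c2, s1, s2, bil _ _ hp.2.2 hp'.2.2]
    have sq := Real.mul_self_sqrt hΔ
    field_simp
    rw [su, Real.sq_sqrt hΔ]
    ring
  have b1 : ang B (ev u) p ≤ π := arccos_le_pi _
  have b2 : ang B (ev u) p' ≤ π := arccos_le_pi _
  have b3 := ang_nonneg B (ev u) p
  have b4 := ang_nonneg B (ev u) p'
  change arccos (B p p' / (nr B p * nr B p')) = _
  rw [key, arccos_cos (abs_nonneg _) (abs_le.2 ⟨by linarith, by linarith⟩)]

theorem Lc_edge_pos (H : Cone F B 2 c C) (hc : 0 < c) {s : Finset V} (hs : s ∈ F) {u v : V}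
    (hu : u ∈ s) (hv : v ∈ s) (huv : u ≠ v) : 0 < ang B (ev u) (ev v) := by
  refine lt_of_le_of_ne (ang_nonneg _ _ _) fun e => ?_
  have a := (Lc_pf_ev hu).adj hs (Lc_pf_ev hv)
  have p1 := H.nr_pos hc a.1.left a.2.1
  have p2 := H.nr_pos hc a.1.right a.2.2
  have h1 := H.cosine hc a (nr B (ev v)) (nr B (ev u))
  rw [← e, Dd_zero, mul_comm, sub_self, abs_zero] at h1
  have h2 := H.low s hs _ (supp_comb (supp_ev hu) (supp_ev hv) (nr B (ev v)) (nr B (ev u))) u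
  unfold wB at h1
  rw [h1] at h2
  simp only [Finsupp.sub_apply, Finsupp.smul_apply, ev_same, ev_ne huv, smul_eq_mul, mul_one,
    mul_zero, sub_zero, abs_of_pos p2] at h2
  nlinarith

theorem Lc_sum (H : Cone F B 2 c C) (hc : 0 < c) {s : Finset V} (hs : s ∈ F) {u v : V}
    (hu : u ∈ s) (hv : v ∈ s) (huv : u ≠ v) {p : V →₀ ℝ} (hp : Pf s p) :
    ang B (ev u) p + ang B (ev v) p = ang B (ev u) (ev v) := by
  have h1 := Lc_face H hc hs hu hp (Lc_pf_ev hv)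
  have h2 := Lc_face H hc hs hv hp (Lc_pf_ev hu)
  have h3 := Lc_edge_pos H hc hs hu hv huv
  rw [Lc_ang_symm H p] at h1 h2
  rw [Lc_ang_symm H (ev v) (ev u)] at h2
  have := ang_nonneg B (ev u) p
  have := ang_nonneg B (ev v) p
  rcases abs_cases (ang B (ev u) p - ang B (ev u) (ev v)) with a | a <;>
    rcases abs_cases (ang B (ev v) p - ang B (ev u) (ev v)) with b | b <;> linarith [a.1, b.1]

end Pool.Agent.Work.MP_9d1ffa_al.Ar
end

-- merged part: Pool.Agent.Work.MP_9d1ffa_al.Ar.Lc2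
section
/-! Links of girth at least `2π`: a short loop through a point crosses it twice. -/

namespace Pool.Agent.Work.MP_9d1ffa_al.Ar

open Real Px

variable {V : Type}

/-- the angle of an edge of the link -/
noncomputable def thE (B : LinearMap.BilinForm ℝ (V →₀ ℝ)) (a b : V) : ℝ := ang B (ev a) (ev b)

/-- the length of a walk in the link -/
noncomputable def wl (B : LinearMap.BilinForm ℝ (V →₀ ℝ)) {G : SimpleGraph V} {a b : V}
    (w : G.Walk a b) : ℝ := (w.darts.map fun d => thE B d.fst d.snd).sum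

/-- a two-dimensional cone whose link has girth at least `2π` -/
structure Lk (F : Set (Finset V)) (B : LinearMap.BilinForm ℝ (V →₀ ℝ)) (c C : ℝ)
    (G : SimpleGraph V) : Prop where
  cone : Cone F B 2 c C
  pos : 0 < c
  adj : ∀ s ∈ F, ∀ a ∈ s, ∀ b ∈ s, a ≠ b → G.Adj a b
  girth : ∀ (a : V) (w : G.Walk a a), w.IsCycle → 2 * π ≤ wl B w
  fin : {r | ∃ s ∈ F, ∃ a ∈ s, ∃ b ∈ s, thE B a b = r}.Finite

/-- edges that do not contain `μ` -/
def eA (F : Set (Finset V)) (μ : V →₀ ℝ) (a b : V) : Prop :=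
  a ≠ b ∧ (∃ s ∈ F, a ∈ s ∧ b ∈ s) ∧ ¬∀ v ∈ μ.support, v = a ∨ v = b

/-- the segment from `p` to `p'` contains `μ` -/
def Crs (F : Set (Finset V)) (B : LinearMap.BilinForm ℝ (V →₀ ℝ)) (μ p p' : V →₀ ℝ) : Prop :=
  ∃ s ∈ F, Pf s p ∧ Pf s p' ∧ Pf s μ ∧ ang B p μ + ang B μ p' = ang B p p'

/-- segments that avoid `μ` -/
def adjN (F : Set (Finset V)) (B : LinearMap.BilinForm ℝ (V →₀ ℝ)) (μ p p' : V →₀ ℝ) : Prop :=
  adjA F p p' ∧ ¬Crs F B μ p p'

/-- the segment from the vertex `u` to `p` avoids `μ` -/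
def Rch (F : Set (Finset V)) (B : LinearMap.BilinForm ℝ (V →₀ ℝ)) (μ : V →₀ ℝ) (u : V)
    (p : V →₀ ℝ) : Prop :=
  (∃ s ∈ F, u ∈ s ∧ Pf s p) ∧
    ∀ s ∈ F, u ∈ s → p.support ⊆ s → μ.support ⊆ s → ang B (ev u) p < ang B (ev u) μ

/-- how `p` is reached from `μ` through the side `a` -/
def Alt (F : Set (Finset V)) (B : LinearMap.BilinForm ℝ (V →₀ ℝ)) (μ : V →₀ ℝ) (a u : V)
    (p : V →₀ ℝ) (r : ℝ) : Prop :=
  (∃ m l, Ch (eA F μ) (thE B) m a u l ∧ ang B (ev a) μ + l + ang B (ev u) p ≤ r) ∨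
    (u = a ∧ (∃ s ∈ F, a ∈ s ∧ p.support ⊆ s ∧ μ.support ⊆ s) ∧
      ang B (ev a) μ - ang B (ev a) p ≤ r)

/-- `p` lies on the side `a` of `μ` -/
def Sd (F : Set (Finset V)) (B : LinearMap.BilinForm ℝ (V →₀ ℝ)) (μ : V →₀ ℝ) (a : V)
    (p : V →₀ ℝ) : Prop :=
  (∃ s ∈ F, a ∈ s ∧ Pf s p ∧ μ.support ⊆ s) ∧ ang B (ev a) p < ang B (ev a) μ

theorem Lc_meet {s s' : Finset V} (hs : s.card ≤ 2) {p : V →₀ ℝ} (hp : Pf s p)
    (hp' : p.support ⊆ s') {w : V} (hw : w ∈ s) (hw' : w ∉ s') :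
    ∃ v, v ≠ w ∧ v ∈ s ∧ v ∈ s' ∧ ∀ x ∈ p.support, x = v := by
  obtain ⟨v, hv⟩ := Finsupp.support_nonempty_iff.2 hp.2.1
  have hvw : v ≠ w := fun e => hw' (e ▸ hp' hv)
  refine ⟨v, hvw, hp.2.2 hv, hp' hv, fun x hx => ?_⟩
  rcases Lc_two hs (hp.2.2 hv) hw hvw (hp.2.2 hx) with e | e
  · exact e
  · exact absurd (e ▸ hp' hx) hw'

variable {F : Set (Finset V)} {B : LinearMap.BilinForm ℝ (V →₀ ℝ)} {c C : ℝ} {G : SimpleGraph V}
  {μ : V →₀ ℝ}

theorem Lc_crs_symm {k : ℕ} (H : Cone F B k c C) {p p' : V →₀ ℝ} (h : Crs F B μ p p') :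
    Crs F B μ p' p := by
  obtain ⟨s, hs, a, b, d, e⟩ := h
  refine ⟨s, hs, b, a, d, ?_⟩
  rw [Lc_ang_symm H p' μ, Lc_ang_symm H μ p, Lc_ang_symm H p' p]
  linarith

theorem Lc_adjN_symm {k : ℕ} (H : Cone F B k c C) (p p' : V →₀ ℝ) (h : adjN F B μ p p') :
    adjN F B μ p' p :=
  ⟨Lc_adjA_symm _ _ h.1, fun e => h.2 (Lc_crs_symm H e)⟩

namespace Lk

theorem ray_of_zero (H : Lk F B c C G) {s : Finset V} (hs : s ∈ F) {u : V} (hu : u ∈ s)
    {p : V →₀ ℝ} (hp : Pf s p) (h : ang B (ev u) p = 0) : ∀ v ∈ p.support, v = u := by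
  intro v hv
  by_contra e
  have a := (Lc_pf_ev hu).adj hs hp
  have p1 := H.cone.nr_pos H.pos a.1.left a.2.1
  have h1 := H.cone.cosine H.pos a (nr B p) (nr B (ev u))
  rw [h, Dd_zero, mul_comm, sub_self, abs_zero] at h1
  have h2 := H.cone.low s hs _ (supp_comb (supp_ev hu) hp.2.2 (nr B p) (nr B (ev u))) v
  unfold wB at h1
  rw [h1] at h2
  simp only [Finsupp.sub_apply, Finsupp.smul_apply, ev_ne e, smul_eq_mul, mul_zero, zero_sub,
    abs_neg] at h2
  have h3 := abs_pos.2 (mul_ne_zero p1.ne' (Finsupp.mem_support_iff.1 hv))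
  nlinarith [H.pos]

theorem zero_of_ray (H : Lk F B c C G) {s : Finset V} (hs : s ∈ F) {u : V} (hu : u ∈ s)
    {t : Finset V} {p : V →₀ ℝ} (hp : Pf t p) (h : ∀ v ∈ p.support, v = u) :
    ang B (ev u) p = 0 := by
  rw [Lc_ang_of_ray B hp h, Lc_ang_self H.cone H.pos hs (Lc_pf_ev hu)]

theorem tri (H : Lk F B c C G) {s : Finset V} (hs : s ∈ F) {p p' p'' : V →₀ ℝ} (h : Pf s p)
    (h' : Pf s p') (h'' : Pf s p'') : ang B p p'' ≤ ang B p p' + ang B p' p'' := by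
  obtain ⟨u, hu⟩ := Finsupp.support_nonempty_iff.2 h.2.1
  have hu := h.2.2 hu
  rw [Lc_face H.cone H.pos hs hu h h'', Lc_face H.cone H.pos hs hu h h',
    Lc_face H.cone H.pos hs hu h' h'']
  exact abs_sub_le _ _ _

theorem move (H : Lk F B c C G) {s1 : Finset V} (hμ : Pf s1 μ) {s : Finset V} (hs : s ∈ F)
    {p : V →₀ ℝ} (hp : Pf s p) {a u : V} {r : ℝ} (h1 : Rch F B μ u p) (h2 : Alt F B μ a u p r) :
    ∃ u ∈ s, Rch F B μ u p ∧ Alt F B μ a u p r := by
  by_cases hu : u ∈ s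
  · exact ⟨u, hu, h1, h2⟩
  obtain ⟨⟨s0, hs0, hu0, hp0⟩, h3⟩ := h1
  obtain ⟨v, hvu, hv0, hv, hr⟩ := Lc_meet (H.cone.card s0 hs0) hp0 hp.2.2 hu0 hu
  have e1 : ang B (ev u) p = thE B u v := Lc_ang_of_ray B hp hr _
  have e2 := H.zero_of_ray hs hv hp hr
  have nμ : ¬∀ x ∈ μ.support, x = u ∨ x = v := fun hh => by
    have q1 : μ.support ⊆ s0 := fun x hx => by
      rcases hh x hx with e | e
      · exact e ▸ hu0
      · exact e ▸ hv0
    have q2 := h3 s0 hs0 hu0 hp0.2.2 q1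
    have q3 := Lc_sum H.cone H.pos hs0 hu0 hv0 hvu.symm (hμ.of_supp q1)
    have q4 := ang_nonneg B (ev v) μ
    unfold thE at e1
    linarith
  refine ⟨v, hv, ⟨⟨s, hs, hv, hp⟩, fun s' hs' hv' _ h5 => ?_⟩, ?_⟩
  · rw [e2]
    refine lt_of_le_of_ne (ang_nonneg _ _ _) fun e => nμ fun x hx => Or.inr ?_
    exact H.ray_of_zero hs' hv' (hμ.of_supp h5) e.symm x hx
  · rcases h2 with ⟨m, l, h4, h5⟩ | ⟨rfl, ⟨s', hs', h4, h5, h6⟩, _⟩
    · refine Or.inl ⟨_, _, h4.append (Ch.one ⟨hvu.symm, ⟨s0, hs0, hu0, hv0⟩, nμ⟩), ?_⟩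
      linarith
    · obtain ⟨x, hx⟩ := Finsupp.support_nonempty_iff.2 hp.2.1
      have : v ∈ s' := hr x hx ▸ h5 hx
      exact absurd (fun x hx => Lc_two (H.cone.card s' hs') h4 this hvu.symm (h6 hx)) nμ

theorem step (H : Lk F B c C G) {s1 : Finset V} (hμ : Pf s1 μ) {p p' : V →₀ ℝ}
    (h : adjN F B μ p p') {a u : V} {r : ℝ} (h1 : Rch F B μ u p) (h2 : Alt F B μ a u p r) :
    ∃ u, Rch F B μ u p' ∧ Alt F B μ a u p' (r + ang B p p') := by
  obtain ⟨s, hs, hp, hp'⟩ := Lc_pf h.1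
  obtain ⟨u, hu, h1, h2⟩ := H.move hμ hs hp h1 h2
  have f1 := Lc_face H.cone H.pos hs hu hp hp'
  have g1 := le_abs_self (ang B (ev u) p - ang B (ev u) p')
  have g2 := neg_le_abs (ang B (ev u) p - ang B (ev u) p')
  by_cases hm : μ.support ⊆ s
  · have q1 := h1.2 s hs hu hp.2.2 hm
    have f2 := Lc_face H.cone H.pos hs hu hp (hμ.of_supp hm)
    have f3 := Lc_face H.cone H.pos hs hu (hμ.of_supp hm) hp'
    have q2 : ang B (ev u) p' < ang B (ev u) μ := by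
      by_contra hh
      have hh := le_of_not_gt hh
      refine h.2 ⟨s, hs, hp, hp', hμ.of_supp hm, ?_⟩
      rw [f1, f2, f3, abs_of_nonpos (by linarith), abs_of_nonpos (by linarith),
        abs_of_nonpos (by linarith)]
      ring
    refine ⟨u, ⟨⟨s, hs, hu, hp'⟩, fun _ _ _ _ _ => q2⟩, ?_⟩
    rcases h2 with ⟨m, l, h4, h5⟩ | ⟨rfl, _, h5⟩
    · exact Or.inl ⟨m, l, h4, by linarith⟩
    · exact Or.inr ⟨rfl, ⟨s, hs, hu, hp'.2.2, hm⟩, by linarith⟩
  · obtain ⟨w, hw, hws⟩ := Finset.not_subset.1 hm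
    have key : ∀ x : V →₀ ℝ, Pf s x → ∀ s' ∈ F, u ∈ s' → x.support ⊆ s' → μ.support ⊆ s' →
        ang B (ev u) x = 0 := fun x hx s' hs' h3 h4 h5 => by
      obtain ⟨v, hvw, hv', _, hr⟩ :=
        Lc_meet (H.cone.card s' hs') (hx.of_supp h4) hx.2.2 (h5 hw) hws
      rcases Lc_two (H.cone.card s' hs') hv' (h5 hw) hvw h3 with e | e
      · exact H.zero_of_ray hs hu hx (e ▸ hr)
      · exact absurd (e ▸ hu) hws
    refine ⟨u, ⟨⟨s, hs, hu, hp'⟩, fun s' hs' h3 h4 h5 => ?_⟩, ?_⟩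
    · rw [key p' hp' s' hs' h3 h4 h5]
      refine lt_of_le_of_ne (ang_nonneg _ _ _) fun e => hws ?_
      exact H.ray_of_zero hs' h3 (hμ.of_supp h5) e.symm w hw ▸ hu
    · rcases h2 with ⟨m, l, h4, h5⟩ | ⟨rfl, ⟨s', hs', h3, h4, h6⟩, h5⟩
      · exact Or.inl ⟨m, l, h4, by linarith⟩
      · have := key p hp s' hs' h3 h4 h6
        exact Or.inl ⟨0, 0, Ch.nil _, by linarith⟩

theorem steps (H : Lk F B c C G) {s1 : Finset V} (hμ : Pf s1 μ) {m : ℕ} {p p' : V →₀ ℝ} {l : ℝ}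
    (h : Ch (adjN F B μ) (ang B) m p p' l) {a : V} : ∀ {u : V} {r : ℝ}, Rch F B μ u p →
      Alt F B μ a u p r → ∃ u, Rch F B μ u p' ∧ Alt F B μ a u p' (r + l) := by
  induction h with
  | nil x => exact fun h1 h2 => ⟨_, h1, by simpa using h2⟩
  | cons e _ ih =>
    intro u r h1 h2
    obtain ⟨u', h3, h4⟩ := H.step hμ e h1 h2
    rw [← add_assoc]
    exact ih h3 h4

theorem side_ang (H : Lk F B c C G) {s1 : Finset V} (hμ : Pf s1 μ) {a : V} {p : V →₀ ℝ}
    (h : Sd F B μ a p) : ang B μ p = ang B (ev a) μ - ang B (ev a) p := by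
  obtain ⟨⟨s, hs, ha, hp, hm⟩, h2⟩ := h
  rw [Lc_face H.cone H.pos hs ha (hμ.of_supp hm) hp, abs_of_pos (by linarith)]

theorem side (H : Lk F B c C G) {s : Finset V} (hs : s ∈ F) (hμ : Pf s μ) {p : V →₀ ℝ}
    (hp : Pf s p) (h : 0 < ang B μ p) : ∃ a, Sd F B μ a p := by
  obtain ⟨u, hu⟩ := Finsupp.support_nonempty_iff.2 hp.2.1
  have hu := hp.2.2 hu
  have f := Lc_face H.cone H.pos hs hu hμ hp
  rcases lt_trichotomy (ang B (ev u) p) (ang B (ev u) μ) with e | e | e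
  · exact ⟨u, ⟨s, hs, hu, hp, hμ.2.2⟩, e⟩
  · rw [f, e, sub_self, abs_zero] at h
    exact absurd h (lt_irrefl _)
  · obtain ⟨v, hv, hvu⟩ : ∃ v ∈ p.support, v ≠ u := by
      by_contra hh
      push Not at hh
      have := H.zero_of_ray hs hu hp hh
      linarith [ang_nonneg B (ev u) μ]
    have q1 := Lc_sum H.cone H.pos hs hu (hp.2.2 hv) hvu.symm hp
    have q2 := Lc_sum H.cone H.pos hs hu (hp.2.2 hv) hvu.symm hμ
    exact ⟨v, ⟨s, hs, hp.2.2 hv, hp, hμ.2.2⟩, by linarith⟩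

theorem same_side (H : Lk F B c C G) {s1 : Finset V} (hμ : Pf s1 μ) {a : V} {p p' : V →₀ ℝ}
    (h : Sd F B μ a p) (h' : Sd F B μ a p') :
    adjA F p p' ∧ ang B p p' < ang B μ p + ang B μ p' := by
  have e1 := H.side_ang hμ h
  have e2 := H.side_ang hμ h'
  obtain ⟨⟨s, hs, ha, hp, hm⟩, h2⟩ := h
  obtain ⟨⟨s', hs', ha', hp', hm'⟩, h2'⟩ := h'
  obtain ⟨v, hv, hva⟩ : ∃ v ∈ μ.support, v ≠ a := by
    by_contra hh
    push Not at hh
    have := H.zero_of_ray hs ha hμ hh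
    linarith [ang_nonneg B (ev a) p]
  have hp'' : Pf s p' := hp'.of_supp fun x hx => by
    rcases Lc_two (H.cone.card s' hs') ha' (hm' hv) hva.symm (hp'.2.2 hx) with e | e
    · exact e ▸ ha
    · exact e ▸ hm hv
  refine ⟨hp.adj hs hp'', ?_⟩
  rw [Lc_face H.cone H.pos hs ha hp hp'', abs_lt]
  constructor <;> linarith

theorem walk (H : Lk F B c C G) {m : ℕ} {a b : V} {l : ℝ} (h : Ch (eA F μ) (thE B) m a b l) :
    ∃ w : G.Walk a b, w.IsPath ∧ wl B w ≤ l ∧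
      ∀ d ∈ w.darts, ¬∀ v ∈ μ.support, v = d.fst ∨ v = d.snd := by
  classical
  obtain ⟨w, h1, h2⟩ : ∃ w : G.Walk a b, wl B w = l ∧
      ∀ d ∈ w.darts, ¬∀ v ∈ μ.support, v = d.fst ∨ v = d.snd := by
    induction h with
    | nil x => exact ⟨SimpleGraph.Walk.nil, by simp [wl], by simp⟩
    | cons e _ ih =>
      obtain ⟨w, h1, h2⟩ := ih
      obtain ⟨e1, ⟨s, hs, e2, e3⟩, e4⟩ := e
      refine ⟨SimpleGraph.Walk.cons (H.adj s hs _ e2 _ e3 e1) w, by simp [wl, ← h1], ?_⟩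
      intro d hd
      rw [SimpleGraph.Walk.darts_cons, List.mem_cons] at hd
      rcases hd with rfl | hd
      · exact e4
      · exact h2 d hd
  refine ⟨w.bypass, w.bypass_isPath, ?_, fun d hd => h2 d (w.darts_bypass_subset_darts hd)⟩
  rw [← h1]
  refine (w.darts_bypass_sublist_darts.map _).sum_le_sum fun x hx => ?_
  obtain ⟨d, _, rfl⟩ := List.mem_map.1 hx
  exact ang_nonneg _ _ _

theorem cyc (H : Lk F B c C G) {s1 : Finset V} (hμ : Pf s1 μ) {a b : V} (hab : a ≠ b)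
    {p p' : V →₀ ℝ} (h : Sd F B μ a p) (h' : Sd F B μ b p') {m : ℕ} {l : ℝ}
    (hc : Ch (eA F μ) (thE B) m a b l) : 2 * π ≤ ang B (ev a) μ + l + ang B (ev b) μ := by
  obtain ⟨w, w1, w2, w3⟩ := H.walk hc
  obtain ⟨⟨s, hs, ha, hp, hm⟩, h2⟩ := h
  obtain ⟨⟨s', hs', hb, hp', hm'⟩, h2'⟩ := h'
  have edge : ∀ x y, s(x, y) ∈ w.edges → ¬∀ v ∈ μ.support, v = x ∨ v = y := fun x y he hh => by
    obtain ⟨d, hd, e⟩ := List.mem_map.1 he
    refine w3 d hd fun v hv => ?_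
    rcases Sym2.eq_iff.1 (show s(d.fst, d.snd) = s(x, y) from e) with ⟨e1, e2⟩ | ⟨e1, e2⟩
    · rw [e1, e2]
      exact hh v hv
    · rw [e1, e2]
      exact (hh v hv).symm
  by_cases hbs : b ∈ s
  · have q1 := Lc_sum H.cone H.pos hs hbs ha hab.symm (hμ.of_supp hm)
    have q2 := H.girth b (SimpleGraph.Walk.cons (H.adj s hs _ hbs _ ha hab.symm) w)
      ((SimpleGraph.Walk.cons_isCycle_iff _ _).2 ⟨w1, fun he => edge _ _ he fun v hv =>
        Lc_two (H.cone.card s hs) hbs ha hab.symm (hm hv)⟩)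
    have q3 : wl B (SimpleGraph.Walk.cons (H.adj s hs _ hbs _ ha hab.symm) w) =
        thE B b a + wl B w := by simp [wl]
    unfold thE at q3
    linarith
  · obtain ⟨v, hvb, hv', hv, hr⟩ := Lc_meet (H.cone.card s' hs') (hμ.of_supp hm') hm hb hbs
    have hva : v ≠ a := fun e => by
      have := H.zero_of_ray hs ha hμ (e ▸ hr)
      linarith [ang_nonneg B (ev a) p]
    have nv : v ∉ w.support := fun hh => by
      rcases SimpleGraph.Walk.mem_support_iff_exists_mem_edges.1 hh with e | ⟨e, he, hve⟩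
      · exact hvb e
      · induction e using Sym2.ind with
        | _ x y => exact edge x y he fun z hz => hr z hz ▸ Sym2.mem_iff.1 hve
    have a1 := H.adj s hs _ hv _ ha hva
    have a2 := H.adj s' hs' _ hb _ hv' hvb.symm
    have q2 := H.girth v (SimpleGraph.Walk.cons a1 (w.concat a2))
      ((SimpleGraph.Walk.cons_isCycle_iff _ _).2 ⟨w1.concat nv a2, fun he => by
        rw [SimpleGraph.Walk.edges_concat, List.concat_eq_append, List.mem_append,
          List.mem_singleton] at he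
        rcases he with he | he
        · exact nv (w.fst_mem_support_of_mem_edges he)
        · rcases Sym2.eq_iff.1 he with ⟨e, _⟩ | ⟨_, e⟩
          · exact hvb e
          · exact hab e⟩)
    have q3 : wl B (SimpleGraph.Walk.cons a1 (w.concat a2)) = thE B v a + wl B w + thE B b v := by
      simp [wl, SimpleGraph.Walk.darts_concat, add_assoc]
    unfold thE at q3
    rw [Lc_ang_of_ray B hμ hr, Lc_ang_of_ray B hμ hr, Lc_ang_symm H.cone (ev a)]
    linarith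

/-- a loop that leaves `μ` on one side and comes back on another side is long -/
theorem cut (H : Lk F B c C G) {s1 : Finset V} (hμ : Pf s1 μ) {a b : V} (hab : a ≠ b)
    {p p' : V →₀ ℝ} (h : Sd F B μ a p) (h' : Sd F B μ b p') {m : ℕ} {l : ℝ}
    (hc : Ch (adjN F B μ) (ang B) m p p' l) : 2 * π ≤ ang B μ p + l + ang B μ p' := by
  have e1 := H.side_ang hμ h
  have e2 := H.side_ang hμ h'
  obtain ⟨u, h1, h2⟩ := H.steps hμ hc (a := a) (u := a) (r := ang B μ p)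
    (by
      obtain ⟨⟨s, hs, ha, hp, _⟩, h2⟩ := h
      exact ⟨⟨s, hs, ha, hp⟩, fun _ _ _ _ _ => h2⟩)
    (by
      obtain ⟨⟨s, hs, ha, hp, hm⟩, _⟩ := h
      exact Or.inr ⟨rfl, ⟨s, hs, ha, hp.2.2, hm⟩, e1.ge⟩)
  obtain ⟨⟨s, hs, hb, hp', hm⟩, h3⟩ := id h'
  obtain ⟨u, hu, h1, h2⟩ := H.move hμ hs hp' h1 h2
  by_cases hub : u = b
  · subst hub
    rcases h2 with ⟨m', l', h4, h5⟩ | ⟨e, _⟩
    · linarith [H.cyc hμ hab h h' h4]
    · exact absurd e.symm hab
  · have q1 := h1.2 s hs hu hp'.2.2 hm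
    have q2 := Lc_sum H.cone H.pos hs hu hb hub hp'
    have q3 := Lc_sum H.cone H.pos hs hu hb hub (hμ.of_supp hm)
    linarith

end Lk

end Pool.Agent.Work.MP_9d1ffa_al.Ar
end

-- merged part: Pool.Agent.Work.MP_9d1ffa_al.Ar.Lc3
section
/-! Shortest paths in a link of girth at least `2π`, and small triangles. -/

namespace Pool.Agent.Work.MP_9d1ffa_al.Ar

open Real Px

variable {V : Type}

/-- there is a chain of total angle `θ` -/
def An (F : Set (Finset V)) (B : LinearMap.BilinForm ℝ (V →₀ ℝ)) (x y : V →₀ ℝ) (θ : ℝ) : Prop :=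
  ∃ m, Ch (adjA F) (ang B) m x y θ

/-- edges of the link -/
def eE (F : Set (Finset V)) (a b : V) : Prop := a ≠ b ∧ ∃ s ∈ F, a ∈ s ∧ b ∈ s

variable {F : Set (Finset V)} {B : LinearMap.BilinForm ℝ (V →₀ ℝ)} {c C : ℝ} {G : SimpleGraph V}
  {μ : V →₀ ℝ}

theorem An.trans {x y z : V →₀ ℝ} {a b : ℝ} (h : An F B x y a) (h' : An F B y z b) :
    An F B x z (a + b) := by
  obtain ⟨_, h⟩ := h
  obtain ⟨_, h'⟩ := h'
  exact ⟨_, h.append h'⟩

theorem An.nonneg {x y : V →₀ ℝ} {a : ℝ} (h : An F B x y a) : 0 ≤ a := by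
  obtain ⟨_, h⟩ := h
  exact h.nonneg (ang_nonneg B)

theorem An.one {x y : V →₀ ℝ} (h : adjA F x y) : An F B x y (ang B x y) := ⟨1, Ch.one h⟩

theorem An.symm {k : ℕ} (H : Cone F B k c C) {x y : V →₀ ℝ} {a : ℝ} (h : An F B x y a) :
    An F B y x a := by
  obtain ⟨m, h⟩ := h
  exact ⟨m, Lc_rev Lc_adjA_symm (Lc_ang_symm H) h⟩

theorem Lc_split {m : ℕ} {p p' : V →₀ ℝ} {α : ℝ} (h : Ch (adjA F) (ang B) m p p' α) :
    Ch (adjN F B μ) (ang B) m p p' α ∨
      ∃ a1 a2, An F B p μ a1 ∧ An F B μ p' a2 ∧ a1 + a2 = α := by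
  induction h with
  | nil x => exact Or.inl (Ch.nil x)
  | @cons m x y z l a h2 ih =>
    rcases ih with ih | ⟨a1, a2, h3, h4, h5⟩
    · by_cases e : Crs F B μ x y
      · obtain ⟨s, hs, e1, e2, e3, e4⟩ := e
        exact Or.inr ⟨_, _, An.one (e1.adj hs e3), (An.one (e3.adj hs e2)).trans ⟨_, h2⟩,
          by linarith⟩
      · exact Or.inl (Ch.cons ⟨a, e⟩ ih)
    · exact Or.inr ⟨_, _, (An.one a).trans h3, h4, by linarith⟩

namespace Lk

theorem crs_par (H : Lk F B c C G) {p p' : V →₀ ℝ} (h : adjA F μ p) (h0 : ang B μ p = 0)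
    (h' : adjA F p p') : Crs F B μ p p' := by
  have p1 := H.cone.nr_pos H.pos h.1.right h.2.2
  have h1 := H.cone.cosine H.pos h (nr B p) (nr B μ)
  rw [h0, Dd_zero, mul_comm, sub_self, abs_zero] at h1
  obtain ⟨s0, hs0, hμ, hp0⟩ := Lc_pf h
  obtain ⟨s, hs, hp, hp'⟩ := Lc_pf h'
  have hm : μ.support ⊆ s := fun v hv => by
    refine hp.2.2 (Finsupp.mem_support_iff.2 fun e => ?_)
    have h2 := H.cone.low s0 hs0 _ (supp_comb hμ.2.2 hp0.2.2 (nr B p) (nr B μ)) v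
    unfold wB at h1
    rw [h1] at h2
    simp only [Finsupp.sub_apply, Finsupp.smul_apply, e, smul_eq_mul, mul_zero, sub_zero] at h2
    have h3 := abs_pos.2 (mul_ne_zero p1.ne' (Finsupp.mem_support_iff.1 hv))
    nlinarith [H.pos]
  refine ⟨s, hs, hp, hp', hμ.of_supp hm, ?_⟩
  have t1 := H.tri hs hp (hμ.of_supp hm) hp'
  have t2 := H.tri hs (hμ.of_supp hm) hp hp'
  rw [Lc_ang_symm H.cone p μ] at t1 ⊢
  linarith

theorem exit_aux (H : Lk F B c C G) {m : ℕ} {p η : V →₀ ℝ} {l : ℝ}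
    (h : Ch (adjA F) (ang B) m p η l) (hη : ¬(adjA F μ η ∧ ang B μ η = 0)) :
    Ch (adjN F B μ) (ang B) m p η l ∨ ∃ p' m' l', adjA F μ p' ∧ 0 < ang B μ p' ∧
      Ch (adjN F B μ) (ang B) m' p' η l' ∧ ang B μ p' + l' ≤ l := by
  induction h with
  | nil x => exact Or.inl (Ch.nil x)
  | @cons m x y z l a h2 ih =>
    rcases ih hη with ih | ⟨p', m', l', h3, h4, h5, h6⟩
    · by_cases e : Crs F B μ x y
      · obtain ⟨s, hs, e1, e2, e3, e4⟩ := e
        refine Or.inr ⟨y, _, _, e3.adj hs e2, ?_, ih, by linarith [ang_nonneg B x μ]⟩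
        refine lt_of_le_of_ne (ang_nonneg _ _ _) fun e0 => ?_
        cases ih with
        | nil => exact hη ⟨e3.adj hs e2, e0.symm⟩
        | cons b _ => exact b.2 (H.crs_par (e3.adj hs e2) e0.symm b.1)
      · exact Or.inl (Ch.cons ⟨a, e⟩ ih)
    · exact Or.inr ⟨p', m', l', h3, h4, h5, by linarith [ang_nonneg B x y]⟩

theorem exit (H : Lk F B c C G) (hμ : adjA F μ μ) {η : V →₀ ℝ} {l : ℝ} (h : An F B μ η l)
    (hη : ¬(adjA F μ η ∧ ang B μ η = 0)) : ∃ p a m' l', Sd F B μ a p ∧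
      Ch (adjN F B μ) (ang B) m' p η l' ∧ ang B μ p + l' ≤ l := by
  obtain ⟨m, h⟩ := h
  obtain ⟨s, hs, h1, _⟩ := Lc_pf hμ
  have e0 := Lc_ang_self H.cone H.pos hs h1
  rcases H.exit_aux h hη with h2 | ⟨p', m', l', h3, h4, h5, h6⟩
  · cases h2 with
    | nil => exact absurd ⟨hμ, e0⟩ hη
    | cons b _ => exact absurd (H.crs_par hμ e0 b.1) b.2
  · obtain ⟨s', hs', q1, q2⟩ := Lc_pf h3
    obtain ⟨a, ha⟩ := H.side hs' q1 q2 h4
    exact ⟨p', a, m', l', ha, h5, h6⟩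

/-- small triangles are tripods -/
theorem tripod (H : Lk F B c C G) (hμ : adjA F μ μ) {x y z : V →₀ ℝ} {θ1 θ2 α β : ℝ}
    (hmin : ∀ a, An F B x y a → θ1 + θ2 ≤ a) (h1 : An F B x μ θ1) (h2 : An F B μ y θ2)
    (ha : An F B z x α) (hb : An F B z y β) (hl : α + β + (θ1 + θ2) < 2 * π) :
    (∃ γ ≤ α - θ1, An F B z μ γ) ∨ ∃ γ ≤ β - θ2, An F B z μ γ := by
  by_cases hx : adjA F μ x ∧ ang B μ x = 0
  · have q := (An.one (B := B) hx.1).symm H.cone
    rw [hx.2] at q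
    exact Or.inl ⟨_, by linarith [hmin _ (q.trans h2)], ha.trans q⟩
  by_cases hy : adjA F μ y ∧ ang B μ y = 0
  · have q := An.one (B := B) hy.1
    rw [hy.2] at q
    exact Or.inr ⟨_, by linarith [hmin _ (h1.trans q)], hb.trans (q.symm H.cone)⟩
  obtain ⟨s, _, hs, _⟩ := Lc_pf hμ
  obtain ⟨p, a, m1, l1, s1, c1, e1⟩ := H.exit hμ (h1.symm H.cone) hx
  obtain ⟨p', b, m2, l2, s2, c2, e2⟩ := H.exit hμ h2 hy
  obtain ⟨_, ha⟩ := ha
  obtain ⟨_, hb⟩ := hb
  by_cases hab : a = b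
  · subst hab
    obtain ⟨q1, q2⟩ := H.same_side hs s1 s2
    have q3 : An F B p x l1 := ⟨_, Lc_mono (fun _ _ h => h.1) c1⟩
    have q4 : An F B p' y l2 := ⟨_, Lc_mono (fun _ _ h => h.1) c2⟩
    have := hmin _ (((q3.symm H.cone).trans (An.one q1)).trans q4)
    linarith
  rcases Lc_split (μ := μ) ha with ha | ⟨a1, a2, q1, q2, q3⟩
  · rcases Lc_split (μ := μ) hb with hb | ⟨a1, a2, q1, q2, q3⟩
    · have rv := fun {m : ℕ} {u v : V →₀ ℝ} {l : ℝ} (h : Ch (adjN F B μ) (ang B) m u v l) =>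
        Lc_rev (Lc_adjN_symm H.cone) (Lc_ang_symm H.cone) h
      have := H.cut hs hab s1 s2 (((c1.append (rv ha)).append hb).append (rv c2))
      linarith
    · exact Or.inr ⟨a1, by linarith [hmin _ (h1.trans q2)], q1⟩
  · exact Or.inl ⟨a1, by linarith [hmin _ ((q2.symm H.cone).trans h2)], q1⟩

theorem normal (H : Lk F B c C G) {x : V →₀ ℝ} {m : ℕ} {p y : V →₀ ℝ} {l : ℝ}
    (h : Ch (adjA F) (ang B) m p y l) : ∀ r, ((adjA F x p ∧ ang B x p ≤ r) ∨
      ∃ u v m l0, adjA F x (ev u) ∧ Ch (eE F) (thE B) m u v l0 ∧ adjA F (ev v) p ∧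
        ang B x (ev u) + l0 + ang B (ev v) p ≤ r) → ((adjA F x y ∧ ang B x y ≤ r + l) ∨
      ∃ u v m l0, adjA F x (ev u) ∧ Ch (eE F) (thE B) m u v l0 ∧ adjA F (ev v) y ∧
        ang B x (ev u) + l0 + ang B (ev v) y ≤ r + l) := by
  induction h with
  | nil p => exact fun r h => by simpa using h
  | @cons m p p' y l a _ ih =>
    intro r h
    rw [← add_assoc]
    refine ih _ ?_
    obtain ⟨s, hs, hp, hp'⟩ := Lc_pf a
    rcases h with ⟨h1, h2⟩ | ⟨u, v, m, l0, h1, h2, h3, h4⟩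
    · obtain ⟨s0, hs0, hx, hp0⟩ := Lc_pf h1
      by_cases e : x.support ⊆ s
      · exact Or.inl ⟨(hx.of_supp e).adj hs hp', by linarith [H.tri hs (hx.of_supp e) hp hp']⟩
      · obtain ⟨w, hw, hws⟩ := Finset.not_subset.1 e
        obtain ⟨u, _, hu0, hu, hr⟩ := Lc_meet (H.cone.card s0 hs0) hp0 hp.2.2 (hx.2.2 hw) hws
        refine Or.inr ⟨u, u, 0, 0, hx.adj hs0 (Lc_pf_ev hu0), Ch.nil u,
          (Lc_pf_ev hu).adj hs hp', ?_⟩
        rw [← Lc_ang_of_ray B hp hr, Lc_ang_symm H.cone (ev u), ← Lc_ang_of_ray B hp hr,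
          Lc_ang_symm H.cone p']
        linarith
    · obtain ⟨s0, hs0, hv, hp0⟩ := Lc_pf h3
      have hv0 : v ∈ s0 := hv.2.2 (Finsupp.mem_support_iff.2 (by rw [ev_same]; exact one_ne_zero))
      by_cases e : v ∈ s
      · exact Or.inr ⟨u, v, m, l0, h1, h2, (Lc_pf_ev e).adj hs hp',
          by linarith [H.tri hs (Lc_pf_ev e) hp hp']⟩
      · obtain ⟨w, hwv, hw0, hw, hr⟩ := Lc_meet (H.cone.card s0 hs0) hp0 hp.2.2 hv0 e
        refine Or.inr ⟨u, w, _, _, h1, h2.append (Ch.one ⟨hwv.symm, s0, hs0, hv0, hw0⟩),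
          (Lc_pf_ev hw).adj hs hp', ?_⟩
        unfold thE
        rw [← Lc_ang_of_ray B hp hr, Lc_ang_symm H.cone (ev w), ← Lc_ang_of_ray B hp hr,
          Lc_ang_symm H.cone p']
        linarith

theorem fin_ang (H : Lk F B c C G) (x : V →₀ ℝ) :
    {r | ∃ u, adjA F x (ev u) ∧ ang B x (ev u) = r}.Finite := by
  have mem : ∀ {s : Finset V} {u : V}, Pf s (ev u) → u ∈ s := fun {s u} h =>
    h.2.2 (Finsupp.mem_support_iff.2 (by rw [ev_same]; exact one_ne_zero))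
  refine (H.fin.union (x.support.finite_toSet.image fun u => ang B x (ev u))).subset ?_
  rintro _ ⟨u, hu, rfl⟩
  by_cases e : u ∈ x.support
  · exact Or.inr ⟨u, e, rfl⟩
  · obtain ⟨s, hs, hx, he⟩ := Lc_pf hu
    obtain ⟨w, _, hw, _, hr⟩ := Lc_meet (H.cone.card s hs) hx subset_rfl (mem he) e
    refine Or.inl ⟨s, hs, u, mem he, w, hw, ?_⟩
    rw [thE, ← Lc_ang_of_ray B hx hr, Lc_ang_symm H.cone]

theorem fin_len (H : Lk F B c C G) :
    {l | l ≤ π ∧ ∃ m u v, Ch (eE F) (thE B) m u v l}.Finite := by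
  have f1 : ∀ m, {l | ∃ u v, Ch (eE F) (thE B) m u v l}.Finite := fun m => by
    induction m with
    | zero =>
      refine (Set.finite_singleton 0).subset ?_
      rintro l ⟨u, v, h⟩
      cases h
      rfl
    | succ m ih =>
      refine (H.fin.image2 (· + ·) ih).subset ?_
      rintro l ⟨u, v, h⟩
      cases h with
      | cons a h2 =>
        obtain ⟨_, s, hs, h3, h4⟩ := a
        exact ⟨_, ⟨s, hs, _, h3, _, h4, rfl⟩, _, ⟨_, _, h2⟩, rfl⟩
  obtain ⟨δ, hδ, hδ'⟩ := (H.fin.inter_of_left (Set.Ioi 0)).isCompact.exists_forall_le'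
    continuousOn_id (a := 0) fun b hb => hb.2
  have f2 : ∀ {m u v l}, Ch (eE F) (thE B) m u v l → m * δ ≤ l := fun h => by
    induction h with
    | nil x => simp
    | cons a _ ih =>
      obtain ⟨h1, s, hs, h3, h4⟩ := a
      have := hδ' _ ⟨⟨s, hs, _, h3, _, h4, rfl⟩, Lc_edge_pos H.cone H.pos hs h3 h4 h1⟩
      simp only [id] at this
      push_cast
      linarith
  refine ((Set.finite_Iic ⌈π / δ⌉₊).biUnion fun m _ => f1 m).subset ?_
  rintro l ⟨hl, m, u, v, h⟩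
  refine Set.mem_biUnion (x := m) ?_ ⟨u, v, h⟩
  have : (m : ℝ) ≤ π / δ := by
    rw [le_div_iff₀ hδ]
    linarith [f2 h]
  exact_mod_cast this.trans (Nat.le_ceil _)

/-- a shortest chain -/
theorem exists_min (H : Lk F B c C G) {x y : V →₀ ℝ} (hx : adjA F x x) {α : ℝ} (hα : α < π)
    (h : An F B x y α) : ∃ θ, θ < π ∧ An F B x y θ ∧ ∀ a, An F B x y a → θ ≤ a := by
  obtain ⟨s, hs, h1, _⟩ := Lc_pf hx
  have e0 := Lc_ang_self H.cone H.pos hs h1
  set S := {r | r < π ∧ ((adjA F x y ∧ ang B x y = r) ∨ ∃ u v m l0, adjA F x (ev u) ∧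
    Ch (eE F) (thE B) m u v l0 ∧ adjA F (ev v) y ∧ ang B x (ev u) + l0 + ang B (ev v) y = r)}
    with hS
  have k1 : ∀ a, a < π → An F B x y a → ∃ r ∈ S, r ≤ a := by
    rintro a ha ⟨m, h⟩
    rcases H.normal (x := x) h 0 (Or.inl ⟨hx, e0.le⟩) with ⟨q1, q2⟩ | ⟨u, v, m, l0, q1, q2, q3, q4⟩
    · exact ⟨_, ⟨by linarith, Or.inl ⟨q1, rfl⟩⟩, by linarith⟩
    · exact ⟨_, ⟨by linarith, Or.inr ⟨u, v, m, l0, q1, q2, q3, rfl⟩⟩, by linarith⟩
  have k0 : ∀ {m u v l}, Ch (eE F) (thE B) m u v l → An F B (ev u) (ev v) l := fun h => by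
    induction h with
    | nil x => exact ⟨0, Ch.nil _⟩
    | cons a _ ih =>
      obtain ⟨_, s, hs, h3, h4⟩ := a
      exact (An.one ((Lc_pf_ev h3).adj hs (Lc_pf_ev h4))).trans ih
  have k2 : ∀ r ∈ S, An F B x y r := by
    rintro r ⟨_, ⟨q1, rfl⟩ | ⟨u, v, m, l0, q1, q2, q3, rfl⟩⟩
    · exact An.one q1
    · exact ((An.one q1).trans (k0 q2)).trans (An.one q3)
  have k3 : S.Finite := by
    refine ((Set.finite_singleton (ang B x y)).union
      (((H.fin_ang x).image2 (· + ·) H.fin_len).image2 (· + ·) (H.fin_ang y))).subset ?_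
    rintro r ⟨hr, ⟨_, rfl⟩ | ⟨u, v, m, l0, q1, q2, q3, rfl⟩⟩
    · exact Or.inl rfl
    · refine Or.inr ⟨_, ⟨_, ⟨u, q1, rfl⟩, l0, ⟨?_, m, u, v, q2⟩, rfl⟩, _,
        ⟨v, Lc_adjA_symm _ _ q3, Lc_ang_symm H.cone _ _⟩, rfl⟩
      linarith [ang_nonneg B x (ev u), ang_nonneg B (ev v) y]
  obtain ⟨r0, hr0, _⟩ := k1 α hα h
  obtain ⟨θ, hθ, hm⟩ := Set.exists_min_image S id k3 ⟨r0, hr0⟩
  refine ⟨θ, hθ.1, k2 θ hθ, fun a ha => ?_⟩
  by_cases e : a < π
  · obtain ⟨r, hr, h2⟩ := k1 a e ha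
    exact (hm r hr).trans h2
  · linarith [hθ.1, le_of_not_gt e]

end Lk

end Pool.Agent.Work.MP_9d1ffa_al.Ar
end

-- merged part: Pool.Agent.Work.MP_9d1ffa_al.Ar.Lc4
section
/-! The cone over a link of girth at least `2π` satisfies the comparison inequality. -/

namespace Pool.Agent.Work.MP_9d1ffa_al.Ar

open Real Px

theorem Lc_Dd_sq (r s θ : ℝ) : Dd r s θ ^ 2 = r ^ 2 + s ^ 2 - 2 * r * s * cos θ := by
  unfold Dd
  apply Real.sq_sqrt
  nlinarith [sin_sq_add_cos_sq θ, sq_nonneg (r * cos θ - s), sq_nonneg (r * sin θ)]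

theorem Lc_Dd_nonneg (r s θ : ℝ) : 0 ≤ Dd r s θ := Real.sqrt_nonneg _

theorem Lc_Dd_pi {r s : ℝ} (hr : 0 ≤ r) (hs : 0 ≤ s) : Dd r s π = r + s := by
  unfold Dd
  rw [cos_pi, show r ^ 2 + s ^ 2 - 2 * r * s * -1 = (r + s) ^ 2 by ring,
    Real.sqrt_sq (add_nonneg hr hs)]

theorem Lc_Dd_mono {r s θ θ' : ℝ} (hr : 0 ≤ r) (hs : 0 ≤ s) (h0 : 0 ≤ θ) (h : θ ≤ θ')
    (h1 : θ' ≤ π) : Dd r s θ ≤ Dd r s θ' := by
  unfold Dd
  apply Real.sqrt_le_sqrt
  have q1 := cos_le_cos_of_nonneg_of_le_pi h0 h1 h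
  have q2 := mul_nonneg hr hs
  nlinarith

theorem Lc_plane {X Y ρ θ1 θ2 t D : ℝ} (hX : 0 ≤ X) (hY : 0 ≤ Y) (hρ : 0 ≤ ρ) (t0 : 0 ≤ t)
    (t1 : t ≤ 1) (hD : D = Dd X Y (θ1 + θ2)) (h1 : Dd X ρ θ1 ≤ t * D)
    (h2 : Dd ρ Y θ2 ≤ (1 - t) * D) {r φ γ α β : ℝ} (hr : 0 ≤ r) (c1 : cos φ ≤ cos γ)
    (c2 : cos α ≤ cos (φ + θ1)) (c3 : cos β ≤ cos (φ - θ2)) :
    Dd r ρ γ ^ 2 ≤ (1 - t) * Dd r X α ^ 2 + t * Dd r Y β ^ 2 - t * (1 - t) * D ^ 2 := by
  have q1 := pow_le_pow_left₀ (Lc_Dd_nonneg _ _ _) h1 2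
  have q2 := pow_le_pow_left₀ (Lc_Dd_nonneg _ _ _) h2 2
  have q3 : D ^ 2 = X ^ 2 + Y ^ 2 - 2 * X * Y * cos (θ1 + θ2) := by rw [hD, Lc_Dd_sq]
  rw [Lc_Dd_sq] at q1 q2
  rw [cos_add] at q3 c2
  rw [cos_sub] at c3
  have s1 := sin_sq_add_cos_sq θ1
  have s2 := sin_sq_add_cos_sq θ2
  have t2 : 0 ≤ 1 - t := by linarith
  have e0 : (ρ - ((1 - t) * X * cos θ1 + t * Y * cos θ2)) ^ 2 +
      ((1 - t) * X * sin θ1 - t * Y * sin θ2) ^ 2 =
      (1 - t) * (X ^ 2 + ρ ^ 2 - 2 * X * ρ * cos θ1) + t * (ρ ^ 2 + Y ^ 2 - 2 * ρ * Y * cos θ2) -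
        t * (1 - t) * D ^ 2 := by
    rw [q3]
    linear_combination ((1 - t) ^ 2 * X ^ 2) * s1 + (t ^ 2 * Y ^ 2) * s2
  have e1 := mul_le_mul_of_nonneg_left q1 t2
  have e2 := mul_le_mul_of_nonneg_left q2 t0
  have e3 : (ρ - ((1 - t) * X * cos θ1 + t * Y * cos θ2)) ^ 2 +
      ((1 - t) * X * sin θ1 - t * Y * sin θ2) ^ 2 ≤ 0 := by
    rw [e0]
    nlinarith
  have e4 : ρ = (1 - t) * X * cos θ1 + t * Y * cos θ2 := by
    have : (ρ - ((1 - t) * X * cos θ1 + t * Y * cos θ2)) ^ 2 = 0 :=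
      le_antisymm (by linarith [sq_nonneg ((1 - t) * X * sin θ1 - t * Y * sin θ2)]) (sq_nonneg _)
    linarith [pow_eq_zero_iff (two_ne_zero) |>.1 this]
  have e5 : (1 - t) * X * sin θ1 = t * Y * sin θ2 := by
    have : ((1 - t) * X * sin θ1 - t * Y * sin θ2) ^ 2 = 0 :=
      le_antisymm (by linarith [sq_nonneg (ρ - ((1 - t) * X * cos θ1 + t * Y * cos θ2))])
        (sq_nonneg _)
    linarith [pow_eq_zero_iff (two_ne_zero) |>.1 this]
  have e6 : ρ ^ 2 = (1 - t) * X ^ 2 + t * Y ^ 2 - t * (1 - t) * D ^ 2 := by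
    have : ρ ^ 2 = ((1 - t) * X * cos θ1 + t * Y * cos θ2) ^ 2 +
        ((1 - t) * X * sin θ1 - t * Y * sin θ2) ^ 2 := by
      rw [← e4, e5, sub_self]
      ring
    rw [this, q3]
    linear_combination ((1 - t) ^ 2 * X ^ 2) * s1 + (t ^ 2 * Y ^ 2) * s2
  have e7 : ρ * cos φ = (1 - t) * X * (cos φ * cos θ1 - sin φ * sin θ1) +
      t * Y * (cos φ * cos θ2 + sin φ * sin θ2) := by
    rw [e4]
    linear_combination (sin φ) * e5
  rw [Lc_Dd_sq, Lc_Dd_sq, Lc_Dd_sq]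
  have f1 := mul_le_mul_of_nonneg_left c1 (mul_nonneg hr hρ)
  have f2 := mul_le_mul_of_nonneg_left c2 (mul_nonneg hr (mul_nonneg t2 hX))
  have f3 := mul_le_mul_of_nonneg_left c3 (mul_nonneg hr (mul_nonneg t0 hY))
  have f4 : r * (ρ * cos φ) = r * ((1 - t) * X * (cos φ * cos θ1 - sin φ * sin θ1) +
      t * Y * (cos φ * cos θ2 + sin φ * sin θ2)) := by rw [e7]
  nlinarith

theorem Lc_cos_abs {a b : ℝ} (h1 : -b ≤ a) (h2 : a ≤ b) (h3 : b ≤ π) : cos b ≤ cos a := by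
  rw [← cos_abs a]
  exact cos_le_cos_of_nonneg_of_le_pi (abs_nonneg a) h3 (abs_le.2 ⟨h1, h2⟩)

theorem Lc_choose {Av : ℝ → Prop} {θ1 θ2 α β : ℝ} (t1 : 0 ≤ θ1) (t2 : 0 ≤ θ2)
    (ht : θ1 + θ2 < π) (a1 : α ≤ π) (b1 : β ≤ π) (h1 : α ≤ β + (θ1 + θ2))
    (h2 : β ≤ α + (θ1 + θ2)) (h3 : θ1 + θ2 ≤ α + β) (v0 : ∀ γ, Av γ → 0 ≤ γ) (v1 : Av π)
    (v2 : α + θ1 < π → Av (α + θ1)) (v3 : β + θ2 < π → Av (β + θ2))
    (v4 : α + β + (θ1 + θ2) < 2 * π → (∃ γ ≤ α - θ1, Av γ) ∨ ∃ γ ≤ β - θ2, Av γ) :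
    ∃ γ φ, Av γ ∧ cos φ ≤ cos γ ∧ cos α ≤ cos (φ + θ1) ∧ cos β ≤ cos (φ - θ2) := by
  by_cases h : α + β + (θ1 + θ2) < 2 * π
  · rcases v4 h with ⟨γ, e, hγ⟩ | ⟨γ, e, hγ⟩
    · have := v0 γ hγ
      exact ⟨γ, α - θ1, hγ, Lc_cos_abs (by linarith) e (by linarith), by rw [sub_add_cancel],
        Lc_cos_abs (by linarith) (by linarith) b1⟩
    · have := v0 γ hγ
      refine ⟨γ, -(β - θ2), hγ, ?_, Lc_cos_abs (by linarith) (by linarith) a1, ?_⟩
      · rw [cos_neg]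
        exact Lc_cos_abs (by linarith) e (by linarith)
      · rw [show -(β - θ2) - θ2 = -β by ring, cos_neg]
  · have h := le_of_not_gt h
    by_cases p1 : α + θ1 < π
    · refine ⟨_, -(α + θ1), v2 p1, (cos_neg _).le, ?_, ?_⟩
      · rw [show -(α + θ1) + θ1 = -α by ring, cos_neg]
      · rw [← cos_add_two_pi (-(α + θ1) - θ2)]
        exact Lc_cos_abs (by linarith) (by linarith) b1
    by_cases p2 : β + θ2 < π
    · refine ⟨_, β + θ2, v3 p2, le_rfl, ?_, by rw [add_sub_cancel_right]⟩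
      rw [← cos_sub_two_pi (β + θ2 + θ1)]
      exact Lc_cos_abs (by linarith) (by linarith) a1
    · have p1 := le_of_not_gt p1
      have p2 := le_of_not_gt p2
      refine ⟨π, π, v1, le_rfl, ?_, Lc_cos_abs (by linarith) (by linarith) b1⟩
      rw [← cos_sub_two_pi (π + θ1)]
      exact Lc_cos_abs (by linarith) (by linarith) a1

variable {V : Type}

/-- there is a chain of length `l` -/
def Cc (F : Set (Finset V)) (B : LinearMap.BilinForm ℝ (V →₀ ℝ)) (x y : V →₀ ℝ) (l : ℝ) : Prop :=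
  ∃ m, Ch (adjC F) (wB B) m x y l

/-- the truncated angle is at most `α` -/
def Al (F : Set (Finset V)) (B : LinearMap.BilinForm ℝ (V →₀ ℝ)) (z x : V →₀ ℝ) (α : ℝ) : Prop :=
  0 ≤ α ∧ α ≤ π ∧ (α = π ∨ (z ≠ 0 ∧ x ≠ 0 ∧ An F B z x α))

/-- the comparison inequality for chains -/
def Cn (F : Set (Finset V)) (B : LinearMap.BilinForm ℝ (V →₀ ℝ)) (x y : V →₀ ℝ) (t D : ℝ)
    (m : V →₀ ℝ) : Prop :=
  ∀ z, adjC F z z → ∀ l1 l2, Cc F B z x l1 → Cc F B z y l2 →
    ∃ l, Cc F B z m l ∧ l ^ 2 ≤ (1 - t) * l1 ^ 2 + t * l2 ^ 2 - t * (1 - t) * D ^ 2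

variable {F : Set (Finset V)} {B : LinearMap.BilinForm ℝ (V →₀ ℝ)} {c C : ℝ} {G : SimpleGraph V}
  {k : ℕ}

theorem Cc.nonneg {x y : V →₀ ℝ} {a : ℝ} (h : Cc F B x y a) : 0 ≤ a := by
  obtain ⟨_, h⟩ := h
  exact h.nonneg (wB_nonneg B)

theorem Lc_apex {z x : V →₀ ℝ} (hz : adjC F z z) (hx : adjC F x x) :
    Cc F B z x (nr B z + nr B x) := by
  have a1 : adjC F z 0 := by simpa using hz.smul zero_le_one le_rfl
  have a2 : adjC F 0 x := by simpa using hx.smul le_rfl zero_le_one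
  have := Ch.cons (w := wB B) a1 (Ch.one a2)
  exact ⟨_, by simpa [wB, nr_neg] using this⟩

theorem Lc_up (H : Cone F B k c C) (hc : 0 < c) {z x : V →₀ ℝ} {l : ℝ} (h : Cc F B z x l) :
    ∃ α, Al F B z x α ∧ Dd (nr B z) (nr B x) α ≤ l := by
  obtain ⟨m, h⟩ := h
  rcases H.to_ang hc h with h1 | ⟨z0, x0, θ, h1, h2, h3⟩
  · exact ⟨π, ⟨pi_pos.le, le_rfl, Or.inl rfl⟩,
      by rwa [Lc_Dd_pi (nr_nonneg _ _) (nr_nonneg _ _)]⟩
  · exact ⟨θ, ⟨h2.nonneg (ang_nonneg B), h1.le, Or.inr ⟨z0, x0, m, h2⟩⟩, h3⟩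

theorem Lc_down (H : Cone F B k c C) (hc : 0 < c) {z x : V →₀ ℝ} (hz : adjC F z z)
    (hx : adjC F x x) {α a : ℝ} (h : Al F B z x α) (ha : 0 ≤ a) :
    ∃ l ≤ Dd (nr B z) (a * nr B x) α, Cc F B z (a • x) l := by
  have ap := Lc_apex (B := B) hz (hx.smul ha ha)
  rw [nr_smul B ha] at ap
  by_cases e : α = π
  · exact ⟨_, by rw [e, Lc_Dd_pi (nr_nonneg _ _) (mul_nonneg ha (nr_nonneg _ _))], ap⟩
  rcases ha.eq_or_lt with rfl | ha'
  · refine ⟨_, ?_, ap⟩
    have := Dd_ge_b (nr B z) 0 α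
    simpa using this
  obtain ⟨_, h1, h2 | ⟨z0, _, m, h2⟩⟩ := h
  · exact absurd h2 e
  obtain ⟨l, hl, h3⟩ := H.of_ang hc h2 ⟨hz, z0, z0⟩ (lt_of_le_of_ne h1 e) ha' 1 one_pos
  rw [one_mul] at hl
  rw [one_smul] at h3
  exact ⟨l, hl, _, h3⟩

theorem Lc_cut {m : ℕ} {x y : V →₀ ℝ} {l : ℝ} (h : Ch (adjC F) (wB B) m x y l)
    (hx : adjC F x x) : ∀ a, 0 ≤ a → a ≤ l →
      ∃ z, adjC F z z ∧ Cc F B x z a ∧ Cc F B z y (l - a) := by
  induction h with
  | nil x =>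
    intro a h0 h1
    obtain rfl : a = 0 := le_antisymm h1 h0
    exact ⟨x, hx, ⟨0, Ch.nil x⟩, 0, by simpa using Ch.nil x⟩
  | @cons m x y w l e h2 ih =>
    intro a h0 h1
    by_cases ha : wB B x y ≤ a
    · obtain ⟨z, q1, ⟨_, q2⟩, q3⟩ := ih e.right (a - wB B x y) (by linarith) (by linarith)
      refine ⟨z, q1, ⟨_, by simpa using Ch.cons e q2⟩, ?_⟩
      rwa [show wB B x y + l - a = l - (a - wB B x y) by ring]
    · have ha := lt_of_not_ge ha
      have w0 : 0 < wB B x y := lt_of_le_of_lt h0 ha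
      set u := a / wB B x y with hu
      have u0 : 0 ≤ u := by positivity
      have u1 : 0 ≤ 1 - u := by
        rw [sub_nonneg, hu, div_le_one w0]
        exact ha.le
      have uw : u * wB B x y = a := div_mul_cancel₀ _ w0.ne'
      obtain ⟨e1, e2, s, hs, e3, e4⟩ := e
      have p0 : ∀ v, 0 ≤ ((1 - u) • x - (-u) • y) v := fun v => by
        have := mul_nonneg u1 (e1 v)
        have := mul_nonneg u0 (e2 v)
        simp only [Finsupp.sub_apply, Finsupp.smul_apply, smul_eq_mul]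
        linarith
      have p1 := supp_comb e3 e4 (1 - u) (-u)
      have d1 : wB B x ((1 - u) • x - (-u) • y) = a := by
        rw [← uw]
        unfold wB
        rw [← nr_smul B u0]
        congr 1
        module
      have d2 : wB B ((1 - u) • x - (-u) • y) y = (1 - u) * wB B x y := by
        unfold wB
        rw [← nr_smul B u1]
        congr 1
        module
      refine ⟨_, ⟨p0, p0, s, hs, p1, p1⟩, ⟨1, d1 ▸ Ch.one ⟨e1, p0, s, hs, e3, p1⟩⟩, m + 1, ?_⟩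
      have := Ch.cons (w := wB B) (⟨p0, e2, s, hs, p1, e4⟩ : adjC F _ y) h2
      rwa [d2, show (1 - u) * wB B x y + l = wB B x y + l - a by linarith] at this

theorem Lc_far (H : Cone F B k c C) (hc : 0 < c) {x y : V →₀ ℝ} (hx : adjC F x x)
    (far : ∀ α, α < π → x ≠ 0 → y ≠ 0 → ¬An F B x y α) {t : ℝ} (t0 : 0 ≤ t) (t1 : t ≤ 1)
    (ht : t * (nr B x + nr B y) ≤ nr B x) :
    ∃ m, adjC F m m ∧ Cn F B x y t (nr B x + nr B y) m := by
  have X0 := nr_nonneg B x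
  have Y0 := nr_nonneg B y
  set a := (nr B x - t * (nr B x + nr B y)) / nr B x with ha
  have a0 : 0 ≤ a := div_nonneg (by linarith) X0
  have a1 : a * nr B x = nr B x - t * (nr B x + nr B y) := by
    rcases X0.eq_or_lt with e | e
    · have : 0 ≤ t * (nr B x + nr B y) := by positivity
      rw [← e] at ht this ⊢
      linarith
    · exact div_mul_cancel₀ _ e.ne'
  refine ⟨a • x, hx.smul a0 a0, fun z hz l1 l2 h1 h2 => ?_⟩
  obtain ⟨α, q1, q2⟩ := Lc_up H hc h1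
  obtain ⟨β, q3, q4⟩ := Lc_up H hc h2
  obtain ⟨l, q5, q6⟩ := Lc_down H hc hz hx q1 a0
  refine ⟨l, q6, ?_⟩
  have s : π ≤ α + β := by
    obtain ⟨b1, _, e | ⟨_, x0, b2⟩⟩ := q1
    · linarith [q3.1]
    obtain ⟨_, _, e | ⟨_, y0, b3⟩⟩ := q3
    · linarith
    by_contra hh
    exact far _ (lt_of_not_ge hh) x0 y0 ((b2.symm H).trans b3)
  have cβ : cos β ≤ -cos α := by
    rw [← cos_pi_sub]
    exact cos_le_cos_of_nonneg_of_le_pi (by linarith [q1.2.1]) q3.2.1 (by linarith)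
  have r1 := pow_le_pow_left₀ q6.nonneg q5 2
  have r2 := mul_le_mul_of_nonneg_left (pow_le_pow_left₀ (Lc_Dd_nonneg _ _ _) q2 2)
    (sub_nonneg.2 t1)
  have r3 := mul_le_mul_of_nonneg_left (pow_le_pow_left₀ (Lc_Dd_nonneg _ _ _) q4 2) t0
  rw [Lc_Dd_sq] at r1 r2 r3
  rw [a1] at r1
  have r4 := mul_le_mul_of_nonneg_left cβ (mul_nonneg t0 (mul_nonneg (nr_nonneg B z) Y0))
  nlinarith

/-- the comparison inequality in the cone -/
theorem Lk.cn (H : Lk F B c C G) {x y : V →₀ ℝ} (hx : adjC F x x) (hy : adjC F y y) {t : ℝ}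
    (t0 : 0 ≤ t) (t1 : t ≤ 1) : ∃ m D, adjC F m m ∧ Cc F B x y D ∧
      (∀ l, Cc F B x y l → D ≤ l) ∧ Cn F B x y t D m := by
  have X0 := nr_nonneg B x
  have Y0 := nr_nonneg B y
  by_cases far : ∀ α, α < π → x ≠ 0 → y ≠ 0 → ¬An F B x y α
  · have mn : ∀ l, Cc F B x y l → nr B x + nr B y ≤ l := fun l hl => by
      obtain ⟨α, ⟨_, q1, q2⟩, q3⟩ := Lc_up H.cone H.pos hl
      by_cases e : α = π
      · rwa [e, Lc_Dd_pi X0 Y0] at q3
      · obtain ⟨x0, y0, q4⟩ := q2.resolve_left e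
        exact absurd q4 (far _ (lt_of_le_of_ne q1 e) x0 y0)
    by_cases ht : t * (nr B x + nr B y) ≤ nr B x
    · obtain ⟨m, h1, h2⟩ := Lc_far H.cone H.pos hx far t0 t1 ht
      exact ⟨m, _, h1, Lc_apex hx hy, mn, h2⟩
    · obtain ⟨m, h1, h2⟩ := Lc_far H.cone H.pos hy (y := x)
        (fun α a b d e => far α a d b (e.symm H.cone)) (t := 1 - t) (by linarith) (by linarith)
        (by nlinarith [lt_of_not_ge ht])
      refine ⟨m, _, h1, Lc_apex hx hy, mn, fun z hz l1 l2 q1 q2 => ?_⟩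
      obtain ⟨l, q3, q4⟩ := h2 z hz l2 l1 q2 q1
      exact ⟨l, q3, by nlinarith⟩
  push Not at far
  obtain ⟨α0, hα0, x0, y0, h0⟩ := far
  obtain ⟨θ, hθ, hA, hmin⟩ := H.exists_min ⟨hx, x0, x0⟩ hα0 h0
  have θ0 := hA.nonneg
  have pX := H.cone.nr_pos H.pos hx x0
  have pY := H.cone.nr_pos H.pos hy y0
  have mn : ∀ l, Cc F B x y l → Dd (nr B x) (nr B y) θ ≤ l := fun l hl => by
    obtain ⟨α, ⟨_, q1, q2⟩, q3⟩ := Lc_up H.cone H.pos hl
    refine le_trans (Lc_Dd_mono X0 Y0 θ0 ?_ q1) q3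
    rcases q2 with e | ⟨_, _, q4⟩
    · linarith
    · exact hmin _ q4
  obtain ⟨l0, hl0, hc0⟩ := Lc_down H.cone H.pos hx hy
    (⟨θ0, hθ.le, Or.inr ⟨x0, y0, hA⟩⟩ : Al F B x y θ) zero_le_one
  rw [one_mul] at hl0
  rw [one_smul] at hc0
  obtain rfl : l0 = Dd (nr B x) (nr B y) θ := le_antisymm hl0 (mn _ hc0)
  set D := Dd (nr B x) (nr B y) θ with hD
  have D0 : 0 ≤ D := Lc_Dd_nonneg _ _ _
  obtain ⟨_, hc1⟩ := id hc0
  obtain ⟨m, hm, c1, c2⟩ := Lc_cut hc1 hx (t * D) (by positivity) (by nlinarith)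
  obtain ⟨θ1, b1, d1⟩ := Lc_up H.cone H.pos c1
  obtain ⟨θ2, b2, d2⟩ := Lc_up H.cone H.pos c2
  have ρ0 := nr_nonneg B m
  have cθ : -1 < cos θ := by
    rw [← cos_pi]
    exact cos_lt_cos_of_nonneg_of_le_pi θ0 le_rfl hθ
  have hD2 := Lc_Dd_sq (nr B x) (nr B y) θ
  have lt : θ1 + θ2 < π := by
    by_contra hh
    have q := Dd_far (r := nr B x) (t := nr B y) ρ0 b1.2.1 b2.2.1 (le_of_not_gt hh)
    have q2 := pow_le_pow_left₀ (by positivity) (show nr B x + nr B y ≤ D by linarith) 2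
    have := mul_pos (mul_pos pX pY) (show 0 < cos θ + 1 by linarith)
    nlinarith
  obtain ⟨t1', _, e | ⟨_, m0, A1⟩⟩ := b1
  · linarith [b2.1]
  obtain ⟨t2', _, e | ⟨_, _, A2⟩⟩ := b2
  · linarith
  have eq : θ = θ1 + θ2 := by
    refine le_antisymm (hmin _ (A1.trans A2)) ?_
    by_contra hh
    have q := cos_lt_cos_of_nonneg_of_le_pi θ0 lt.le (lt_of_not_ge hh)
    have q1 := Dd_tri (nr B x) (nr B m) (nr B y) θ1 θ2
    have q2 := pow_le_pow_left₀ (Lc_Dd_nonneg _ _ _)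
      (show Dd (nr B x) (nr B y) (θ1 + θ2) ≤ D by linarith) 2
    rw [Lc_Dd_sq] at q2
    have := mul_pos (mul_pos pX pY) (sub_pos.2 q)
    nlinarith
  subst eq
  refine ⟨m, D, hm, hc0, mn, fun z hz l1 l2 q1 q2 => ?_⟩
  obtain ⟨α, a1, a2⟩ := Lc_up H.cone H.pos q1
  obtain ⟨β, a3, a4⟩ := Lc_up H.cone H.pos q2
  have ext : ∀ {u w : V →₀ ℝ} {γ δ : ℝ}, Al F B z u γ → An F B u w δ → w ≠ 0 → γ + δ < π →
      Al F B z w (γ + δ) := fun {u w γ δ} h1 h2 h3 h4 => by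
    obtain ⟨g0, _, e | ⟨z0, _, g1⟩⟩ := h1
    · linarith [h2.nonneg]
    · exact ⟨by linarith [h2.nonneg], h4.le, Or.inr ⟨z0, h3, g1.trans h2⟩⟩
  obtain ⟨α', β', n1, n2, n3, n4, n5, n6⟩ : ∃ α' β', α' ≤ α ∧ β' ≤ β ∧ Al F B z x α' ∧
      Al F B z y β' ∧ α' ≤ β' + (θ1 + θ2) ∧ β' ≤ α' + (θ1 + θ2) := by
    by_cases e1 : α ≤ β + (θ1 + θ2)
    · by_cases e2 : β ≤ α + (θ1 + θ2)
      · exact ⟨α, β, le_rfl, le_rfl, a1, a3, e1, e2⟩
      · have e2 := lt_of_not_ge e2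
        exact ⟨α, _, le_rfl, e2.le, a1, ext a1 hA y0 (by linarith [a3.2.1]), by linarith, le_rfl⟩
    · have e1 := lt_of_not_ge e1
      exact ⟨_, β, e1.le, le_rfl, ext a3 (hA.symm H.cone) x0 (by linarith [a1.2.1]), a3, le_rfl,
        by linarith⟩
  have n7 : θ1 + θ2 ≤ α' + β' := by
    obtain ⟨g1, _, e | ⟨_, _, g2⟩⟩ := n3
    · linarith [n4.1]
    obtain ⟨_, _, e | ⟨_, _, g3⟩⟩ := n4
    · linarith
    exact hmin _ ((g2.symm H.cone).trans g3)
  obtain ⟨γ, φ, v1, v2, v3, v4⟩ := Lc_choose (Av := Al F B z m) t1' t2' lt n3.2.1 n4.2.1 n5 n6 n7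
    (fun γ h => h.1) ⟨pi_pos.le, le_rfl, Or.inl rfl⟩ (ext n3 A1 m0) (ext n4 (A2.symm H.cone) m0)
    (fun hs => by
      obtain ⟨g1, g1', e | ⟨z0, _, g2⟩⟩ := n3
      · linarith
      obtain ⟨_, g3', e | ⟨_, _, g3⟩⟩ := n4
      · linarith
      rcases H.tripod ⟨hm, m0, m0⟩ hmin A1 A2 g2 g3 hs with ⟨γ, g4, g5⟩ | ⟨γ, g4, g5⟩
      · exact Or.inl ⟨γ, g4, g5.nonneg, by linarith, Or.inr ⟨z0, m0, g5⟩⟩
      · exact Or.inr ⟨γ, g4, g5.nonneg, by linarith, Or.inr ⟨z0, m0, g5⟩⟩)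
  obtain ⟨l, q5, q6⟩ := Lc_down H.cone H.pos hz hm v1 zero_le_one
  rw [one_mul] at q5
  rw [one_smul] at q6
  refine ⟨l, q6, ?_⟩
  have pl := Lc_plane X0 Y0 ρ0 t0 t1 hD d1 (by linarith) (nr_nonneg B z) v2
    ((cos_le_cos_of_nonneg_of_le_pi n3.1 a1.2.1 n1).trans v3)
    ((cos_le_cos_of_nonneg_of_le_pi n4.1 a3.2.1 n2).trans v4)
  have r1 := pow_le_pow_left₀ q6.nonneg q5 2
  have r2 := mul_le_mul_of_nonneg_left (pow_le_pow_left₀ (Lc_Dd_nonneg _ _ _) a2 2)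
    (sub_nonneg.2 t1)
  have r3 := mul_le_mul_of_nonneg_left (pow_le_pow_left₀ (Lc_Dd_nonneg _ _ _) a4 2) t0
  linarith

end Pool.Agent.Work.MP_9d1ffa_al.Ar
end

-- merged part: Pool.Agent.Work.MP_9d1ffa_al.Ar.Lc5
section
/-! The link condition gives the local comparison inequality; completeness. -/

namespace Pool.Agent.Work.MP_9d1ffa_al.Ar

open Real Px

variable {V X : Type} [MetricSpace X] {F : Set (Finset V)} {q : V → V → ℝ} {n : ℕ}
  {co : X → V → ℝ}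

/-- the link of the vertex `v` as a graph -/
def lkG (F : Set (Finset V)) (v : V) : SimpleGraph V where
  Adj a b := a ≠ b ∧ a ≠ v ∧ b ≠ v ∧ ∃ s ∈ F, v ∈ s ∧ a ∈ s ∧ b ∈ s
  symm := ⟨fun _ _ ⟨h1, h2, h3, s, hs, h4, h5, h6⟩ => ⟨h1.symm, h3, h2, s, hs, h4, h6, h5⟩⟩
  loopless := ⟨fun _ h => h.1 rfl⟩

/-- the angle at `v` of the triangle `v, a, b` with squared edge lengths `q` -/
noncomputable def corner (q : V → V → ℝ) (v a b : V) : ℝ :=
  arccos ((q v a + q v b - q a b) / (2 * √(q v a) * √(q v b)))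

/-- every cycle in a vertex link has length at least `2π` -/
def LinkOK (F : Set (Finset V)) (q : V → V → ℝ) : Prop :=
  ∀ (v a : V) (p : (lkG F v).Walk a a), p.IsCycle →
    2 * π ≤ (p.darts.map fun d => corner q v d.fst d.snd).sum

theorem Lc_thE (qs : ∀ u v, q u v = q v u) (qd : ∀ u, q u u = 0) (v a b : V) :
    thE (chB (qB q) v) a b = corner q v a b := by
  have e0 : ∀ a b, qB q (ev a) (ev b) = -(1 / 2) * q a b := fun a b => by
    simp only [qB, ev, Finsupp.linearCombination_single, one_smul]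
    rw [qs b a]
    ring
  have e1 : ∀ a b, chB (qB q) v (ev a) (ev b) = (q v a + q v b - q a b) / 2 := fun a b => by
    change qB q (cht v (ev a)) (cht v (ev b)) = _
    simp only [cht_apply, tot_ev, one_smul, map_sub, LinearMap.sub_apply, e0, qd]
    rw [qs a v]
    ring
  unfold thE ang nr corner
  rw [e1, e1, e1, qd, qd, show (q v a + q v a - 0) / 2 = q v a by ring,
    show (q v b + q v b - 0) / 2 = q v b by ring, div_div, mul_assoc]

theorem Cx0.simp (h : Cx0 F q n co) : ∃ c C, 0 < c ∧ Simp F (qB q) (n + 1) c C := by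
  obtain ⟨c, hc, _, hl⟩ := h.lo
  obtain ⟨C, hC, hh⟩ := h.hi
  have key : ∀ s ∈ F, ∀ x : V →₀ ℝ, x.support ⊆ s → tot x = 0 →
      ∀ v, c ^ 2 * x v ^ 2 ≤ qB q x x := fun s hs x hx tx => by
    rw [qB_self q hx]
    refine hl s hs x (fun v hv => ?_) (by rw [← tot_eq hx, tx])
    by_contra e
    exact hv (hx (Finsupp.mem_support_iff.2 e))
  refine ⟨c, C, hc, h.dim, qB_symm q, fun s hs x hx tx => ?_, fun s hs x hx tx v => ?_,
    fun s hs x hx _ a ha hb => ?_⟩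
  · by_cases e : x = 0
    · simp [e]
    · obtain ⟨v, _⟩ := Finsupp.support_nonempty_iff.2 e
      exact le_trans (by positivity) (key s hs x hx tx v)
  · apply Real.le_sqrt_of_sq_le
    rw [mul_pow, sq_abs]
    exact key s hs x hx tx v
  · unfold nr
    rw [Real.sqrt_le_left (by positivity), mul_pow, qB_self q hx]
    exact hh s hs x a hb

theorem Cx0.fs_co (h : Cx0 F q n co) (x : X) : (fs (co x) : V → ℝ) = co x := by
  obtain ⟨s, _, hx⟩ := h.exF x
  exact fs_coe hx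

theorem Cx0.fs_pt (h : Cx0 F q n co) (x : X) : adjS F (fs (co x)) (fs (co x)) := by
  obtain ⟨s, hs, hx⟩ := h.exF x
  have e : tot (fs (co x)) = 1 := by
    rw [tot_eq (fs_supp hx), fs_coe hx]
    exact hx.2.2
  have p : ∀ v, 0 ≤ fs (co x) v := by
    rw [fs_coe hx]
    exact hx.1
  exact ⟨⟨p, p, s, hs, fs_supp hx, fs_supp hx⟩, e, e⟩

theorem Cx0.ch_up (h : Cx0 F q n co) (x y : X) {ε : ℝ} (hε : 0 < ε) :
    ∃ m l, l < dist x y + ε ∧ Ch (adjS F) (wB (qB q)) m (fs (co x)) (fs (co y)) l := by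
  obtain ⟨l, ⟨m, z, s, h1, h2, h3, h4⟩, _, h5⟩ :=
    (h.len x y).exists_between (lt_add_of_pos_right _ hε)
  have := ch_of_seq q m z s h3
  rw [h1, h2, h4] at this
  exact ⟨m, l, h5, this⟩

theorem Cx0.ch_down (h : Cx0 F q n co) {x y : X} {m : ℕ} {l : ℝ}
    (hc : Ch (adjS F) (wB (qB q)) m (fs (co x)) (fs (co y)) l) : dist x y ≤ l := by
  obtain ⟨z, s, h1, h2, h3, h4⟩ := seq_of_ch q hc
  exact (h.len x y).1 ⟨m, z, s, h1.trans (h.fs_co x), (h2 m le_rfl).trans (h.fs_co y), h3, h4⟩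

/-- the local comparison inequality -/
theorem Lc_loc (h : Cx0 F q 2 co) (qs : ∀ u v, q u v = q v u) (qd : ∀ u, q u u = 0)
    (hl : LinkOK F q) : ∃ r > 0, ∀ a x y : X, dist x a ≤ r → dist y a ≤ r →
      ∀ t ∈ Set.Icc (0 : ℝ) 1, ∃ m, ∀ z, dist z a ≤ r →
        dist z m ^ 2 ≤ (1 - t) * dist z x ^ 2 + t * dist z y ^ 2 - t * (1 - t) * dist x y ^ 2 := by
  obtain ⟨c, C, hc, H⟩ := h.simp
  have co1 : ∀ {m : ℕ} {x y : V →₀ ℝ} {l : ℝ}, Ch (adjS F) (wB (qB q)) m x y l →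
      ∀ v, c * x v - l ≤ c * y v := fun hc' v => by
    induction hc' with
    | nil x => simp
    | cons a _ ih =>
      obtain ⟨⟨_, _, s, hs, h3, h4⟩, h5, h6⟩ := a
      linarith [H.coord hs h3 h4 (h5.trans h6.symm) hc v]
  have pe : ∀ {m : ℕ} {x y : V →₀ ℝ} {l : ℝ}, Ch (adjS F) (wB (qB q)) m x y l →
      adjS F x x → adjS F y y := fun hc' => by
    induction hc' with
    | nil x => exact id
    | cons a _ ih => exact fun _ => ih ⟨a.1.right, a.2.2, a.2.2⟩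
  obtain ⟨r, hr, hrc⟩ : ∃ r : ℝ, 0 < r ∧ c = 100 * r := ⟨c / 100, by positivity, by ring⟩
  refine ⟨r, hr, fun a x y hx hy t ⟨t0, t1⟩ => ?_⟩
  obtain ⟨v, hv⟩ : ∃ v, 1 / 4 < fs (co a) v := by
    by_contra hh
    push Not at hh
    obtain ⟨⟨_, _, s, hs, h3, _⟩, h5, _⟩ := h.fs_pt a
    have q1 := Finset.sum_le_card_nsmul s (fs (co a)) _ fun i _ => hh i
    rw [← tot_eq h3, h5, nsmul_eq_mul] at q1
    have q2 : (s.card : ℝ) ≤ 3 := by exact_mod_cast h.dim s hs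
    linarith
  have big : ∀ w, dist w a ≤ r → 20 * r < c * fs (co w) v := fun w hw => by
    obtain ⟨m, l, h1, h2⟩ := h.ch_up a w hr
    have := co1 h2 v
    rw [dist_comm] at hw
    nlinarith
  have pt : ∀ w, dist w a ≤ r → adjC (lk F v) (pr v (fs (co w))) (pr v (fs (co w))) :=
    fun w hw => adj_pr (h.fs_pt w).1 (by nlinarith [big w hw])
  have L : Lk (lk F v) (chB (qB q) v) c (C * ((2 + 1 : ℕ) + 1)) (lkG F v) :=
    { cone := { H.cone v with card := card_lk H.card v }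
      pos := hc
      adj := by
        rintro s ⟨h1, s', hs', h2, h3⟩ a ha b hb hab
        exact ⟨hab, fun e => h1 (e ▸ ha), fun e => h1 (e ▸ hb), s', hs', h2, h3 ha, h3 hb⟩
      girth := fun a w hw => by
        have := hl v a w hw
        unfold wl
        simpa only [Lc_thE qs qd] using this
      fin := by
        refine (((h.shp.prod h.shp).prod h.shp).image fun p : (ℝ × ℝ) × ℝ =>
          arccos ((p.1.1 + p.1.2 - p.2) / (2 * √p.1.1 * √p.1.2))).subset ?_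
        rintro _ ⟨s, ⟨_, s', hs', h2, h3⟩, a, ha, b, hb, rfl⟩
        exact ⟨((q v a, q v b), q a b), ⟨⟨⟨s', hs', v, h2, a, h3 ha, rfl⟩,
          s', hs', v, h2, b, h3 hb, rfl⟩, s', hs', a, h3 ha, b, h3 hb, rfl⟩,
          (Lc_thE qs qd v a b).symm⟩ }
  have prj : ∀ w w', dist w a ≤ r → dist w' a ≤ r → ∀ ε, 0 < ε → ε ≤ r → ∃ l, l < dist w w' + ε ∧
      l ≤ 3 * r ∧ Cc (lk F v) (chB (qB q) v) (pr v (fs (co w))) (pr v (fs (co w'))) l :=
    fun w w' hw hw' ε e0 e1 => by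
      obtain ⟨m, l, h1, h2⟩ := h.ch_up w w' e0
      have := dist_triangle_right w w' a
      exact ⟨l, h1, by linarith, m, H.proj hc v h2 (by linarith [big w hw])⟩
  obtain ⟨m', D, hm', ⟨_, hD⟩, hmin, hcn⟩ := L.cn (pt x hx) (pt y hy) t0 t1
  obtain ⟨l0, _, l01, l02⟩ := prj x y hx hy r hr le_rfl
  have D1 : D ≤ 3 * r := (hmin _ l02).trans l01
  have D0 := hD.nonneg (wB_nonneg _)
  have D2 : dist x y ≤ D := h.ch_down (H.lift hc v hD _ rfl (h.fs_pt y).2.1 _ rfl (h.fs_pt x).2.1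
    (by linarith [big x hx]))
  set ms := m' + (1 - tot m') • ev v with hms
  have pm : pr v ms = m' := pr_add_ev (zero_of_lk hm') _
  have tm : tot ms = 1 := by simp [hms, tot_ev]
  have tt : 0 ≤ t * (1 - t) := mul_nonneg t0 (sub_nonneg.2 t1)
  have sm : ∀ {l l1 l2 : ℝ}, 0 ≤ l1 → 0 ≤ l2 → l1 ≤ 3 * r → l2 ≤ 3 * r →
      l ^ 2 ≤ (1 - t) * l1 ^ 2 + t * l2 ^ 2 - t * (1 - t) * D ^ 2 → l ≤ 3 * r :=
    fun {l l1 l2} a1 a2 a3 a4 a5 => by
      have b1 := mul_le_mul_of_nonneg_left (pow_le_pow_left₀ a1 a3 2) (sub_nonneg.2 t1)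
      have b2 := mul_le_mul_of_nonneg_left (pow_le_pow_left₀ a2 a4 2) t0
      have b3 := mul_nonneg tt (sq_nonneg D)
      exact (abs_le_of_sq_le_sq' (by linarith) (by positivity)).2
  obtain ⟨l, ⟨_, k1⟩, k2⟩ := hcn _ (pt x hx) 0 D ⟨0, Ch.nil _⟩ ⟨_, hD⟩
  have k3 := sm le_rfl D0 (by positivity) D1 k2
  obtain ⟨⟨p1, _, s, hs, p2, _⟩, _⟩ := pe (H.lift hc v k1 ms pm tm _ rfl (h.fs_pt x).2.1
    (by linarith [big x hx])) (h.fs_pt x)
  obtain ⟨m, hm⟩ := h.exX hs (in_of_supp p1 p2 tm)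
  have fm : fs (co m) = ms := DFunLike.coe_injective ((h.fs_co m).trans hm)
  refine ⟨m, fun z hz => le_of_forall_pos_le_add fun δ hδ => ?_⟩
  have e0 : 0 < min r (δ / (5 * r)) := lt_min hr (by positivity)
  have e1 : min r (δ / (5 * r)) ≤ r := min_le_left _ _
  have e2 : min r (δ / (5 * r)) * (5 * r) ≤ δ := by
    rw [← le_div_iff₀ (by positivity)]
    exact min_le_right _ _
  generalize min r (δ / (5 * r)) = ε at e0 e1 e2
  obtain ⟨l1, a1, a2, a3⟩ := prj z x hz hx ε e0 e1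
  obtain ⟨l2, b1, b2, b3⟩ := prj z y hz hy ε e0 e1
  obtain ⟨l, ⟨_, g1⟩, g2⟩ := hcn _ (pt z hz) l1 l2 a3 b3
  have g3 := sm a3.nonneg b3.nonneg a2 b2 g2
  have g4 : dist z m ≤ l := h.ch_down (fm ▸ H.lift hc v g1 ms pm tm _ rfl (h.fs_pt z).2.1
    (by linarith [big z hz]))
  have g5 := pow_le_pow_left₀ dist_nonneg g4 2
  have d1 := dist_triangle_right z x a
  have d2 := dist_triangle_right z y a
  have f1 : l1 ^ 2 ≤ dist z x ^ 2 + δ := by
    have := pow_le_pow_left₀ a3.nonneg a1.le 2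
    nlinarith [dist_nonneg (x := z) (y := x)]
  have f2 : l2 ^ 2 ≤ dist z y ^ 2 + δ := by
    have := pow_le_pow_left₀ b3.nonneg b1.le 2
    nlinarith [dist_nonneg (x := z) (y := y)]
  have f3 := mul_le_mul_of_nonneg_left f1 (sub_nonneg.2 t1)
  have f4 := mul_le_mul_of_nonneg_left f2 t0
  have f5 := mul_le_mul_of_nonneg_left (pow_le_pow_left₀ dist_nonneg D2 2) tt
  linarith

/-- completeness -/
theorem Cx0.complete (h : Cx0 F q n co) : CompleteSpace X := by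
  classical
  obtain ⟨L, hL, hl⟩ := h.lip
  obtain ⟨B, hB, hn⟩ := h.near
  have L0 : (0 : ℝ) < L := by exact_mod_cast hL
  have B0 : (0 : ℝ) < B := by exact_mod_cast (by omega : 0 < B)
  refine Metric.complete_of_cauchySeq_tendsto fun u hu => ?_
  have c1 : ∀ v, CauchySeq fun k => co (u k) v := fun v => by
    rw [Metric.cauchySeq_iff] at hu ⊢
    intro ε hε
    obtain ⟨N, hN⟩ := hu (ε / L) (by positivity)
    refine ⟨N, fun a ha b hb => lt_of_le_of_lt (hl _ _ v) ?_⟩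
    have := hN a ha b hb
    rwa [lt_div_iff₀' L0] at this
  choose w hw using fun v => cauchySeq_tendsto_of_complete (c1 v)
  have un : ∀ ε > 0, ∃ N, ∀ k ≥ N, ∀ v, |co (u k) v - w v| ≤ ε := fun ε hε => by
    obtain ⟨N, hN⟩ := Metric.cauchySeq_iff.1 hu (ε / L) (by positivity)
    refine ⟨N, fun k hk v => ?_⟩
    refine le_of_tendsto ((tendsto_const_nhds.sub (hw v)).abs) ?_
    filter_upwards [Filter.eventually_ge_atTop N] with j hj
    have := hN k hk j hj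
    rw [lt_div_iff₀' L0] at this
    exact (hl _ _ v).trans this.le
  choose s hs hs' using fun k => h.exF (u k)
  have w0 : ∀ v, 0 ≤ w v := fun v => ge_of_tendsto' (hw v) fun k => (hs' k).1 v
  have ev1 : ∀ T : Finset V, (∀ v ∈ T, w v ≠ 0) → ∃ k, T ⊆ s k := fun T hT => by
    have : ∀ᶠ k in Filter.atTop, ∀ v ∈ T, v ∈ s k := by
      rw [Filter.eventually_all_finset]
      intro v hv
      filter_upwards [(hw v).eventually_ne (hT v hv)] with k hk
      by_contra e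
      exact hk ((hs' k).2.1 v e)
    obtain ⟨k, hk⟩ := this.exists
    exact ⟨k, hk⟩
  have fin : {v | w v ≠ 0}.Finite := by
    by_contra hh
    obtain ⟨T, h1, h2⟩ := Set.Infinite.exists_subset_card_eq hh (n + 2)
    obtain ⟨k, hk⟩ := ev1 T fun v hv => h1 hv
    have := (Finset.card_le_card hk).trans (h.dim _ (hs k))
    omega
  obtain ⟨k0, hk0⟩ := ev1 fin.toFinset fun v hv => fin.mem_toFinset.1 hv
  have z0 : ∀ v ∉ s k0, w v = 0 := fun v hv => by
    by_contra e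
    exact hv (hk0 (fin.mem_toFinset.2 e))
  have s1 : ∑ v ∈ s k0, w v = 1 := by
    refine eq_of_forall_dist_le fun ε hε => ?_
    obtain ⟨N, hN⟩ := un (ε / (2 * (n + 1))) (by positivity)
    have a1 : ∑ v ∈ s k0, w v = ∑ v ∈ s k0 ∪ s N, w v :=
      Finset.sum_subset Finset.subset_union_left fun v _ hv => z0 v hv
    have a2 : ∑ v ∈ s N, co (u N) v = ∑ v ∈ s k0 ∪ s N, co (u N) v :=
      Finset.sum_subset Finset.subset_union_right fun v _ hv => (hs' N).2.1 v hv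
    rw [← (hs' N).2.2, a1, a2, dist_comm, Real.dist_eq, ← Finset.sum_sub_distrib]
    refine (Finset.abs_sum_le_sum_abs _ _).trans ?_
    refine (Finset.sum_le_card_nsmul _ _ _ fun v _ => hN N le_rfl v).trans ?_
    have a3 : ((s k0 ∪ s N).card : ℝ) ≤ 2 * (n + 1) := by
      have := Finset.card_union_le (s k0) (s N)
      have := h.dim _ (hs k0)
      have := h.dim _ (hs N)
      exact_mod_cast (by omega : (s k0 ∪ s N).card ≤ 2 * (n + 1))
    rw [nsmul_eq_mul]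
    refine (mul_le_mul_of_nonneg_right a3 (by positivity)).trans (le_of_eq ?_)
    field_simp
  obtain ⟨x, hx⟩ := h.exX (hs k0) ⟨w0, z0, s1⟩
  refine ⟨x, Metric.tendsto_atTop.2 fun ε hε => ?_⟩
  obtain ⟨N, hN⟩ := un (min (1 / B) (ε / (2 * B))) (lt_min (by positivity) (by positivity))
  refine ⟨N, fun k hk => lt_of_le_of_lt (hn _ _ _ (hx ▸ hN k hk) ?_) ?_⟩
  · rw [← le_div_iff₀ B0]
    exact min_le_left _ _
  · refine lt_of_le_of_lt (mul_le_mul_of_nonneg_left (min_le_right _ _) B0.le) ?_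
    rw [show (B : ℝ) * (ε / (2 * B)) = ε / 2 by field_simp]
    linarith

end Pool.Agent.Work.MP_9d1ffa_al.Ar
end

-- merged part: Pool.Agent.Work.MP_9d1ffa_al.Ar.Lc6
section
/-! The link condition for sequences, fine paths, and the construction of the metric complex. -/

namespace Pool.Agent.Work.MP_9d1ffa_al.Ar

open Real Px

variable {V X : Type} [MetricSpace X] {F : Set (Finset V)} {q : V → V → ℝ} {n : ℕ}
  {co : X → V → ℝ}

theorem Lc_darts {G : SimpleGraph V} (f : V → V → ℝ) {a b : V} (p : G.Walk a b) :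
    (p.darts.map fun d => f d.fst d.snd).sum =
      ∑ i ∈ Finset.range p.length, f (p.getVert i) (p.getVert (i + 1)) := by
  induction p with
  | nil => simp
  | cons h p ih =>
    rw [SimpleGraph.Walk.length_cons, Finset.sum_range_succ', SimpleGraph.Walk.darts_cons,
      List.map_cons, List.sum_cons, ih, add_comm]
    simp

theorem LinkOK.of_seq (h : ∀ (v : V) (k : ℕ) (u : ℕ → V), 0 < k → (∀ i, u (i + k) = u i) →
    (∀ i, (lkG F v).Adj (u i) (u (i + 1))) → (∀ i, u i ≠ u (i + 2)) →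
      2 * π ≤ ∑ i ∈ Finset.range k, corner q v (u i) (u (i + 1))) : LinkOK F q := by
  intro v a p hp
  have k3 := hp.three_le_length
  have k0 : 0 < p.length := by omega
  have nx : ∀ i, p.getVert ((i + 1) % p.length) = p.getVert (i % p.length + 1) := fun i => by
    have h1 := Nat.mod_lt i k0
    rw [← Nat.mod_add_mod]
    rcases Nat.lt_or_ge (i % p.length + 1) p.length with e | e
    · rw [Nat.mod_eq_of_lt e]
    · have e2 : i % p.length + 1 = p.length := by omega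
      rw [e2, Nat.mod_self, SimpleGraph.Walk.getVert_zero, SimpleGraph.Walk.getVert_length]
  have := h v p.length (fun i => p.getVert (i % p.length)) k0 (fun i => by simp)
    (fun i => by
      rw [nx]
      exact p.adj_getVert_succ (Nat.mod_lt i k0))
    (fun i e => by
      have h1 := Nat.mod_lt i k0
      have h2 := Nat.mod_lt (i + 2) k0
      have h3 := hp.getVert_injOn' (show i % p.length ≤ p.length - 1 by omega)
        (show (i + 2) % p.length ≤ p.length - 1 by omega) e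
      have h4 := (Nat.modEq_iff_dvd' (Nat.le_add_right i 2)).1 h3
      rw [Nat.add_sub_cancel_left] at h4
      have := Nat.le_of_dvd two_pos h4
      omega)
  rw [Lc_darts (corner q v)]
  refine this.trans (le_of_eq (Finset.sum_congr rfl fun i hi => ?_))
  rw [nx, Nat.mod_eq_of_lt (Finset.mem_range.1 hi)]

theorem Lc_seq {P : Type} {adj : P → P → Prop} {w : P → P → ℝ} {m : ℕ} {x y : P} {l : ℝ}
    (h : Ch adj w m x y l) : ∃ z : ℕ → P, z 0 = x ∧ (∀ i, m ≤ i → z i = y) ∧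
      (∀ i < m, adj (z i) (z (i + 1))) ∧ ∑ i ∈ Finset.range m, w (z i) (z (i + 1)) = l := by
  induction h with
  | nil x => exact ⟨fun _ => x, rfl, fun _ _ => rfl, by simp, by simp⟩
  | @cons m x y u l a _ ih =>
    obtain ⟨z, h1, h2, h3, h4⟩ := ih
    refine ⟨fun i => Nat.casesOn i x z, rfl, ?_, ?_, ?_⟩
    · rintro (_ | i) hi
      · omega
      · exact h2 i (by omega)
    · rintro (_ | i) hi
      · change adj x (z 0)
        rwa [h1]
      · exact h3 i (by omega)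
    · rw [Finset.sum_range_succ', add_comm, ← h4, ← h1]
      rfl

theorem Cx0.fine (h : Cx0 F q n co) {ε : ℝ} (hε : 0 < ε) {s : Finset V} (hs : s ∈ F) {x y : X}
    (hx : In s (co x)) (hy : In s (co y)) : ∃ N, ∃ l ≤ ed q s (co x) (co y),
      Ch (fun a b : X => dist a b ≤ ε) dist N x y l := by
  have e0 : 0 ≤ ed q s (co x) (co y) := Real.sqrt_nonneg _
  obtain ⟨K, hK⟩ := exists_nat_gt (ed q s (co x) (co y) / ε)
  have K0 : (0 : ℝ) < K := lt_of_le_of_lt (by positivity) hK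
  have K1 : 1 / (K : ℝ) * ed q s (co x) (co y) ≤ ε := by
    rw [div_lt_iff₀ hε] at hK
    rw [one_div, ← div_eq_inv_mul, div_le_iff₀ K0]
    linarith
  have pin : ∀ j : ℕ, j ≤ K → In s (co x - ((j : ℝ) / K) • (co x - co y)) := fun j hj => by
    have u0 : (0 : ℝ) ≤ j / K := by positivity
    have u1 : (j : ℝ) / K ≤ 1 := by
      rw [div_le_one K0]
      exact_mod_cast hj
    refine ⟨fun v => ?_, fun v hv => by simp [hx.2.1 v hv, hy.2.1 v hv], ?_⟩
    · have := mul_nonneg u0 (hy.1 v)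
      have := mul_nonneg (sub_nonneg.2 u1) (hx.1 v)
      simp only [Pi.sub_apply, Pi.smul_apply, smul_eq_mul]
      linarith
    · simp only [Pi.sub_apply, Pi.smul_apply, smul_eq_mul, Finset.sum_sub_distrib,
        ← Finset.mul_sum, hx.2.2, hy.2.2]
      ring
  have key : ∀ j : ℕ, j ≤ K → ∀ z, co z = co x - ((j : ℝ) / K) • (co x - co y) →
      ∃ l ≤ (j : ℝ) / K * ed q s (co x) (co y), Ch (fun a b : X => dist a b ≤ ε) dist j x z l := by
    intro j
    induction j with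
    | zero =>
      intro _ z hz
      obtain rfl : z = x := h.inj (by simpa using hz)
      exact ⟨0, by simp, Ch.nil _⟩
    | succ j ih =>
      intro hj z hz
      obtain ⟨z', hz'⟩ := h.exX hs (pin j (by omega))
      obtain ⟨l, h1, h2⟩ := ih (by omega) z' hz'
      have d : dist z' z ≤ 1 / (K : ℝ) * ed q s (co x) (co y) := by
        refine (h.le_ed hs (hz' ▸ pin j (by omega)) (hz ▸ pin _ hj)).trans (le_of_eq ?_)
        have e : co z' - co z = (1 / (K : ℝ)) • (co x - co y) := by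
          rw [hz, hz', Nat.cast_succ, add_div]
          module
        unfold ed
        rw [e, Cn_smul, Real.sqrt_mul (sq_nonneg _), Real.sqrt_sq (by positivity)]
      refine ⟨_, ?_, h2.append (Ch.one (d.trans K1))⟩
      rw [Nat.cast_succ, add_div, add_mul]
      linarith
  obtain ⟨l, h1, h2⟩ := key K le_rfl y (by rw [div_self K0.ne']; simp)
  exact ⟨K, l, by rwa [div_self K0.ne', one_mul] at h1, h2⟩

/-- fine paths of almost minimal length -/
theorem Cx0.path (h : Cx0 F q n co) (x y : X) {η ε : ℝ} (hη : 0 < η) (hε : 0 < ε) :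
    ∃ (N : ℕ) (p : ℕ → X), p 0 = x ∧ (∀ i ≥ N, p i = y) ∧ (∀ i, dist (p i) (p (i + 1)) ≤ ε) ∧
      ∑ i ∈ Finset.range N, dist (p i) (p (i + 1)) ≤ dist x y + η := by
  obtain ⟨l, ⟨m, z, s, h1, h2, h3, h4⟩, _, h5⟩ :=
    (h.len x y).exists_between (lt_add_of_pos_right _ hη)
  have key : ∀ j ≤ m, ∀ w, co w = z j →
      ∃ N, ∃ l ≤ ∑ i ∈ Finset.range j, ed q (s i) (z i) (z (i + 1)),
        Ch (fun a b : X => dist a b ≤ ε) dist N x w l := by
    intro j
    induction j with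
    | zero =>
      intro _ w hw
      obtain rfl : w = x := h.inj (hw.trans h1)
      exact ⟨0, 0, by simp, Ch.nil _⟩
    | succ j ih =>
      intro hj w hw
      obtain ⟨a1, a2, a3⟩ := h3 j hj
      obtain ⟨w', hw'⟩ := h.exX a1 a2
      obtain ⟨_, l1, b1, b2⟩ := ih (by omega) w' hw'
      obtain ⟨_, l2, b3, b4⟩ := h.fine hε a1 (hw' ▸ a2) (hw ▸ a3)
      rw [hw, hw'] at b3
      exact ⟨_, _, by rw [Finset.sum_range_succ]; linarith, b2.append b4⟩
  obtain ⟨N, l', b1, b2⟩ := key m le_rfl y h2.symm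
  obtain ⟨p, c1, c2, c3, c4⟩ := Lc_seq b2
  refine ⟨N, p, c1, c2, fun i => ?_, by linarith⟩
  rcases Nat.lt_or_ge i N with e | e
  · exact c3 i e
  · rw [c2 i e, c2 (i + 1) (by omega), dist_self]
    exact hε.le

/-- the points of the complex -/
def Pt (F : Set (Finset V)) : Type := {x : V → ℝ // ∃ s ∈ F, In s x}

theorem Lc_lo (dim : ∀ s ∈ F, s.card ≤ n + 1)
    (shp : {r | ∃ s ∈ F, ∃ u ∈ s, ∃ v ∈ s, q u v = r}.Finite)
    (pos : ∀ s ∈ F, ∀ w : V → ℝ, (∀ v ∉ s, w v = 0) → ∑ v ∈ s, w v = 0 → w ≠ 0 → 0 < Qf q s w) :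
    ∃ c : ℝ, 0 < c ∧ ∀ s ∈ F, ∀ w : V → ℝ,
      (∀ v ∉ s, w v = 0) → ∑ v ∈ s, w v = 0 → ∀ v, c ^ 2 * w v ^ 2 ≤ Qf q s w := by
  classical
  choose c hc hc' using fun i : (Σ k : Fin (n + 2), Fin k → Fin k → shp.toFinset) =>
    Cn_fin fun a b => (i.2 a b : ℝ)
  have : Nonempty (Σ k : Fin (n + 2), Fin k → Fin k → shp.toFinset) := ⟨⟨0, fun a => a.elim0⟩⟩
  obtain ⟨i0, hi0⟩ := Finite.exists_min c
  refine ⟨c i0, hc i0, fun s hs w h0 h1 v => ?_⟩
  have sm : ∀ f : V → ℝ, ∑ v ∈ s, f v = ∑ a, f (s.equivFin.symm a) := fun f => by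
    rw [← Finset.sum_coe_sort, ← Equiv.sum_comp s.equivFin.symm]
  have qe : ∀ w : V → ℝ, Qf q s w = Qf (fun a b => q (s.equivFin.symm a) (s.equivFin.symm b))
      Finset.univ fun a => w (s.equivFin.symm a) := fun w => by
    unfold Qf
    rw [sm]
    simp only [sm]
  have key := hc' ⟨⟨s.card, Nat.lt_succ_of_le (dim s hs)⟩, fun a b =>
    ⟨q (s.equivFin.symm a) (s.equivFin.symm b), shp.mem_toFinset.2
      ⟨s, hs, _, (s.equivFin.symm a).2, _, (s.equivFin.symm b).2, rfl⟩⟩⟩ (fun w' e1 e2 => by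
    have e3 : (fun a => (fun v => if hv : v ∈ s then w' (s.equivFin ⟨v, hv⟩) else 0)
        (s.equivFin.symm a : V)) = w' := by
      funext a
      simp
    have := pos s hs (fun v => if hv : v ∈ s then w' (s.equivFin ⟨v, hv⟩) else 0)
      (fun v hv => dif_neg hv) (by rw [sm]; exact (congrArg _ e3).trans e1) fun e => by
        apply e2
        rw [← e3, e]
        rfl
    rw [qe, e3] at this
    exact this) (fun a => w (s.equivFin.symm a)) (by rw [← h1, sm])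
  by_cases hv : v ∈ s
  · have k1 := key (s.equivFin ⟨v, hv⟩)
    simp only [Equiv.symm_apply_apply] at k1
    rw [qe]
    exact le_trans (mul_le_mul_of_nonneg_right (pow_le_pow_left₀ (hc i0).le (hi0 _) 2)
      (sq_nonneg _)) k1
  · rw [h0 v hv]
    by_cases e : w = 0
    · simp [e, Qf]
    · simpa using (pos s hs w h0 h1 e).le

theorem Lc_chn_iff (x y : Pt F) {m : ℕ} {l : ℝ} :
    Chn F q m x.1 y.1 l ↔ Ch (adjS F) (wB (qB q)) m (fs x.1) (fs y.1) l := by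
  obtain ⟨_, _, hx⟩ := x.2
  obtain ⟨_, _, hy⟩ := y.2
  constructor
  · rintro ⟨z, s, h1, h2, h3, h4⟩
    have := ch_of_seq q m z s h3
    rwa [h1, h2, h4] at this
  · intro hc
    obtain ⟨z, s, h1, h2, h3, h4⟩ := seq_of_ch q hc
    exact ⟨z, s, h1.trans (fs_coe hx), (h2 m le_rfl).trans (fs_coe hy), h3, h4⟩

/-- the metric complex -/
theorem exists_cx0 (dim : ∀ s ∈ F, s.card ≤ n + 1)
    (shp : {r | ∃ s ∈ F, ∃ u ∈ s, ∃ v ∈ s, q u v = r}.Finite)
    (pos : ∀ s ∈ F, ∀ w : V → ℝ, (∀ v ∉ s, w v = 0) → ∑ v ∈ s, w v = 0 → w ≠ 0 → 0 < Qf q s w)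
    (conn : ∀ u v, (∃ s ∈ F, u ∈ s) → (∃ s ∈ F, v ∈ s) →
      Relation.ReflTransGen (fun a b => ∃ s ∈ F, a ∈ s ∧ b ∈ s) u v) :
    ∃ _ : MetricSpace (Pt F), Cx0 F q n (fun x : Pt F => x.1) := by
  obtain ⟨c, hc, hl⟩ := Lc_lo dim shp pos
  have sy : ∀ a b : V →₀ ℝ, adjS F a b → adjS F b a := fun a b h =>
    ⟨Lc_adjC_symm _ _ h.1, h.2.2, h.2.1⟩
  have tov : ∀ x : Pt F, ∃ u, (∃ s ∈ F, u ∈ s) ∧ adjS F (fs x.1) (ev u) := fun x => by
    obtain ⟨s, hs, hx⟩ := x.2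
    obtain ⟨u, hu⟩ : s.Nonempty :=
      Finset.nonempty_of_sum_ne_zero (by rw [hx.2.2]; exact one_ne_zero)
    refine ⟨u, ⟨s, hs, hu⟩, ⟨?_, (Lc_pf_ev hu).1, s, hs, fs_supp hx, supp_ev hu⟩, ?_, tot_ev u⟩
    · rw [fs_coe hx]
      exact hx.1
    · rw [tot_eq (fs_supp hx), fs_coe hx]
      exact hx.2.2
  have ne : ∀ x y : Pt F, {l | ∃ m, Chn F q m x.1 y.1 l}.Nonempty := fun x y => by
    obtain ⟨u, hu, a1⟩ := tov x
    obtain ⟨v, hv, a2⟩ := tov y
    obtain ⟨m, l, h⟩ : ∃ m l, Ch (adjS F) (wB (qB q)) m (ev u) (ev v) l := by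
      have := conn u v hu hv
      clear a2 hv
      induction this with
      | refl => exact ⟨_, _, Ch.nil _⟩
      | tail _ e ih =>
        obtain ⟨_, _, ih⟩ := ih
        obtain ⟨s, hs, e1, e2⟩ := e
        exact ⟨_, _, ih.append (Ch.one ⟨((Lc_pf_ev e1).adj hs (Lc_pf_ev e2)).1, tot_ev _,
          tot_ev _⟩)⟩
    exact ⟨_, _, (Lc_chn_iff x y).2 (Ch.cons a1 (h.append (Ch.one (sy _ _ a2))))⟩
  have nn : ∀ x y : Pt F, ∀ l ∈ {l | ∃ m, Chn F q m x.1 y.1 l}, 0 ≤ l := fun x y l ⟨_, h⟩ =>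
    ((Lc_chn_iff x y).1 h).nonneg (wB_nonneg _)
  have gl : ∀ x y : Pt F, IsGLB {l | ∃ m, Chn F q m x.1 y.1 l}
      (sInf {l | ∃ m, Chn F q m x.1 y.1 l}) := fun x y => isGLB_csInf (ne x y) ⟨0, nn x y⟩
  have rv : ∀ x y : Pt F, {l | ∃ m, Chn F q m x.1 y.1 l} ⊆ {l | ∃ m, Chn F q m y.1 x.1 l} :=
    fun x y l ⟨m, h⟩ => ⟨m, (Lc_chn_iff y x).2 (Lc_rev sy (Lc_wB_symm _) ((Lc_chn_iff x y).1 h))⟩
  suffices hh : (∀ x y z : Pt F, sInf {l | ∃ m, Chn F q m x.1 z.1 l} ≤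
      sInf {l | ∃ m, Chn F q m x.1 y.1 l} + sInf {l | ∃ m, Chn F q m y.1 z.1 l}) ∧
      ∀ x y : Pt F, sInf {l | ∃ m, Chn F q m x.1 y.1 l} = 0 → x = y by
    let i : MetricSpace (Pt F) :=
      { dist := fun x y => sInf {l | ∃ m, Chn F q m x.1 y.1 l}
        dist_self := fun x => le_antisymm ((gl x x).1 ⟨0, (Lc_chn_iff x x).2 (Ch.nil _)⟩)
          ((gl x x).2 (nn x x))
        dist_comm := fun x y => by rw [Set.Subset.antisymm (rv x y) (rv y x)]
        dist_triangle := hh.1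
        eq_of_dist_eq_zero := fun {x y} h => hh.2 x y h }
    exact ⟨i, Subtype.val_injective, Subtype.range_coe_subtype, dim, shp, gl⟩
  refine ⟨fun x y z => ?_, fun x y h => ?_⟩
  · rw [← sub_le_iff_le_add]
    refine (gl x y).2 fun l ⟨_, h⟩ => ?_
    rw [sub_le_comm]
    refine (gl y z).2 fun l' ⟨_, h'⟩ => ?_
    have := (gl x z).1 ⟨_, (Lc_chn_iff x z).2
      (((Lc_chn_iff x y).1 h).append ((Lc_chn_iff y z).1 h'))⟩
    linarith
  · refine Subtype.ext (funext fun v => ?_)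
    have key : c * |x.1 v - y.1 v| ≤ sInf {l | ∃ m, Chn F q m x.1 y.1 l} := by
      refine (gl x y).2 ?_
      rintro l ⟨m, z, s, rfl0, rflm, hz, rfl⟩
      rw [← rfl0, ← rflm]
      clear rfl0 rflm
      induction m with
      | zero => simp
      | succ m ih =>
        obtain ⟨h1, h2, h3⟩ := hz m (Nat.lt_succ_self m)
        have q1 := ih fun i hi => hz i (Nat.lt_succ_of_lt hi)
        have q2 : c * |z m v - z (m + 1) v| ≤ ed q (s m) (z m) (z (m + 1)) := by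
          apply Real.le_sqrt_of_sq_le
          rw [mul_pow, sq_abs]
          refine hl _ h1 (z m - z (m + 1)) (fun u hu => ?_) ?_ v
          · rw [Pi.sub_apply, h2.2.1 u hu, h3.2.1 u hu, sub_zero]
          · simp only [Pi.sub_apply, Finset.sum_sub_distrib, h2.2.2, h3.2.2, sub_self]
        have q3 := mul_le_mul_of_nonneg_left (abs_sub_le (z 0 v) (z m v) (z (m + 1) v)) hc.le
        rw [Finset.sum_range_succ]
        linarith
    rw [h] at key
    have := abs_nonneg (x.1 v - y.1 v)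
    have h2 : |x.1 v - y.1 v| = 0 := by nlinarith
    exact sub_eq_zero.1 (abs_eq_zero.1 h2)

section action

variable {G : Type} [Group G] [MulAction G V]

theorem Lc_in_smul (g : G) {s : Finset V} {x : V → ℝ} (h : In s x) :
    In (s.map (MulAction.toPerm g).toEmbedding) fun v => x (g⁻¹ • v) := by
  refine ⟨fun v => h.1 _, fun v hv => h.2.1 _ fun e => hv ?_, ?_⟩
  · exact Finset.mem_map.2 ⟨_, e, by simp⟩
  · rw [Finset.sum_map]
    simpa using h.2.2

theorem Lc_chn_smul (hF : ∀ (g : G), ∀ s ∈ F, s.map (MulAction.toPerm g).toEmbedding ∈ F)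
    (hq : ∀ (g : G) u v, q (g • u) (g • v) = q u v) (g : G) {m : ℕ} {x y : V → ℝ} {l : ℝ}
    (h : Chn F q m x y l) : Chn F q m (fun v => x (g⁻¹ • v)) (fun v => y (g⁻¹ • v)) l := by
  obtain ⟨z, s, h1, h2, h3, h4⟩ := h
  refine ⟨fun i v => z i (g⁻¹ • v), fun i => (s i).map (MulAction.toPerm g).toEmbedding,
    by rw [← h1], by rw [← h2], fun i hi => ⟨hF g _ (h3 i hi).1, Lc_in_smul g (h3 i hi).2.1,
      Lc_in_smul g (h3 i hi).2.2⟩, ?_⟩
  rw [← h4]
  refine Finset.sum_congr rfl fun i _ => ?_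
  simp [ed, Qf, Finset.sum_map, hq]

/-- an action that preserves the simplices and the edge lengths is isometric -/
theorem Cx0.iso [MulAction G X] (h : Cx0 F q n co)
    (hF : ∀ (g : G), ∀ s ∈ F, s.map (MulAction.toPerm g).toEmbedding ∈ F)
    (hq : ∀ (g : G) u v, q (g • u) (g • v) = q u v)
    (eqv : ∀ (g : G) x v, co (g • x) (g • v) = co x v) (g : G) (x y : X) :
    dist (g • x) (g • y) = dist x y := by
  have key : ∀ (g : G) (x y : X), dist (g • x) (g • y) ≤ dist x y := fun g x y => by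
    have e : ∀ x, co (g • x) = fun v => co x (g⁻¹ • v) := fun x => funext fun v => by
      rw [← eqv g x, smul_inv_smul]
    refine (h.len x y).2 fun l ⟨m, hl⟩ => (h.len _ _).1 ⟨m, ?_⟩
    rw [e, e]
    exact Lc_chn_smul hF hq g hl
  refine le_antisymm (key g x y) ?_
  simpa using key g⁻¹ (g • x) (g • y)

/-- the action on the points -/
@[reducible] def ptAct (hF : ∀ (g : G), ∀ s ∈ F, s.map (MulAction.toPerm g).toEmbedding ∈ F) :
    MulAction G (Pt F) where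
  smul g x := ⟨fun v => x.1 (g⁻¹ • v), by
    obtain ⟨s, hs, hx⟩ := x.2
    exact ⟨_, hF g s hs, Lc_in_smul g hx⟩⟩
  one_smul x := Subtype.ext (funext fun v => by
    change x.1 ((1 : G)⁻¹ • v) = _
    simp)
  mul_smul g g' x := Subtype.ext (funext fun v => by
    change x.1 ((g * g')⁻¹ • v) = x.1 (g'⁻¹ • g⁻¹ • v)
    rw [mul_inv_rev, mul_smul])

/-- the metric complex with its isometric action -/
theorem exists_cx0_act (dim : ∀ s ∈ F, s.card ≤ n + 1)
    (shp : {r | ∃ s ∈ F, ∃ u ∈ s, ∃ v ∈ s, q u v = r}.Finite)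
    (pos : ∀ s ∈ F, ∀ w : V → ℝ, (∀ v ∉ s, w v = 0) → ∑ v ∈ s, w v = 0 → w ≠ 0 → 0 < Qf q s w)
    (conn : ∀ u v, (∃ s ∈ F, u ∈ s) → (∃ s ∈ F, v ∈ s) →
      Relation.ReflTransGen (fun a b => ∃ s ∈ F, a ∈ s ∧ b ∈ s) u v)
    (hF : ∀ (g : G), ∀ s ∈ F, s.map (MulAction.toPerm g).toEmbedding ∈ F)
    (hq : ∀ (g : G) u v, q (g • u) (g • v) = q u v) :
    ∃ (_ : MetricSpace (Pt F)) (_ : MulAction G (Pt F)),
      Cx0 F q n (fun x : Pt F => x.1) ∧
      (∀ (g : G) (x : Pt F) v, (g • x).1 (g • v) = x.1 v) ∧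
      ∀ (g : G) (x y : Pt F), dist (g • x) (g • y) = dist x y := by
  obtain ⟨i, h⟩ := exists_cx0 dim shp pos conn
  let _ := ptAct hF
  have e : ∀ (g : G) (x : Pt F) v, (g • x).1 (g • v) = x.1 v := fun g x v => by
    change x.1 (g⁻¹ • g • v) = _
    rw [inv_smul_smul]
  exact ⟨i, ptAct hF, h, e, h.iso hF hq e⟩

end action

end Pool.Agent.Work.MP_9d1ffa_al.Ar
end
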