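import Pool.Agent.Work.MP_9d1ffa_al.Ar.Mt
import Pool.Agent.Work.MP_9d1ffa_al.Ar.AlD

/-! The links of the coset complex have no short cycles. -/

namespace Pool.Agent.Work.MP_9d1ffa_al.Ar

open Set Real

variable {S : Type} {M : CoxeterMatrix S}

/-- a closed path without backtracking in the link of `v` -/
structure Cyc (v : Vx M) (k : ℕ) (u : ℕ → Vx M) : Prop where
  pos : 0 < k
  per : ∀ i, u (i + k) = u i
  adj : ∀ i, u i ≠ u (i + 1) ∧ u i ≠ v ∧ u (i + 1) ≠ v ∧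
    ∃ s ∈ Fc M, v ∈ s ∧ u i ∈ s ∧ u (i + 1) ∈ s
  red : ∀ i, u i ≠ u (i + 2)

theorem Cyc.shift {v : Vx M} {k : ℕ} {u : ℕ → Vx M} (h : Cyc v k u) : Cyc v k fun i => u (i + 1) :=
  ⟨h.pos, fun i => by rw [Nat.add_right_comm]; exact h.per _, fun i => h.adj _, fun i => h.red _⟩

theorem Cyc.sum_shift {v : Vx M} {k : ℕ} {u : ℕ → Vx M} (h : Cyc v k u) :
    ∑ i ∈ Finset.range k, crn M v (u (i + 1)) (u (i + 1 + 1)) =
      ∑ i ∈ Finset.range k, crn M v (u i) (u (i + 1)) := by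
  have a := Finset.sum_range_succ (fun i => crn M v (u i) (u (i + 1))) k
  have b := h.per 0
  have c := h.per 1
  rw [zero_add] at b
  rw [Finset.sum_range_succ', b, add_comm k, c] at a
  exact add_right_cancel a

theorem Cyc.cmp {v : Vx M} {k : ℕ} {u : ℕ → Vx M} (h : Cyc v k u) (i : ℕ) :
    (u i < u (i + 1) ∨ u (i + 1) < u i) ∧ (u i < v ∨ v < u i) ∧
      (u (i + 1) < v ∨ v < u (i + 1)) := by
  obtain ⟨a, b, c, s, hs, d, e, f⟩ := h.adj i
  exact ⟨(hs e f a).imp (lt_of_le_of_ne · a) (lt_of_le_of_ne · a.symm),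
    (hs e d b).imp (lt_of_le_of_ne · b) (lt_of_le_of_ne · b.symm),
    (hs f d c).imp (lt_of_le_of_ne · c) (lt_of_le_of_ne · c.symm)⟩

theorem LkA_le_two (v : Vx M) : v.1.1.card ≤ 2 := v.2.1.1

theorem LkA_ne {a b : Vx M} (h : a < b ∨ b < a) : a.1.1.card ≠ b.1.1.card :=
  h.elim (fun h => (card_lt h).ne) fun h => (card_lt h).ne'

theorem LkA_sum {f : ℕ → ℝ} {c : ℝ} {k n : ℕ} (h : ∀ i, c ≤ f i) (hc : 0 ≤ c) (hk : n ≤ k) :
    n * c ≤ ∑ i ∈ Finset.range k, f i := by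
  have a := Finset.card_nsmul_le_sum (Finset.range k) f c fun i _ => h i
  rw [Finset.card_range, nsmul_eq_mul] at a
  exact (mul_le_mul_of_nonneg_right (by exact_mod_cast hk) hc).trans a

theorem cyc_mid {v : Vx M} {k : ℕ} {u : ℕ → Vx M} (h : Cyc v k u) (e : v.1.1.card = 1) :
    2 * π ≤ ∑ i ∈ Finset.range k, crn M v (u i) (u (i + 1)) := by
  have key : ∀ i, π / 2 ≤ crn M v (u i) (u (i + 1)) ∧
      (u i).1.1.card + (u (i + 1)).1.1.card = 2 ∧ (u i).1.1.card ≠ (u (i + 1)).1.1.card := by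
    intro i
    obtain ⟨a, b, c⟩ := h.cmp i
    have n := LkA_ne a
    have l1 := LkA_le_two (u i)
    have l2 := LkA_le_two (u (i + 1))
    rcases b with b | b <;> rcases c with c | c <;> have b' := card_lt b <;> have c' := card_lt c
    · omega
    · exact ⟨(crn_mid b c).ge, by omega, n⟩
    · exact ⟨(crn_mid c b).ge.trans (crn_symm _ _ _).le, by omega, n⟩
    · omega
  have hk : 4 ≤ k := by
    have p := h.per 0
    have k0 := h.pos
    rw [zero_add] at p
    by_contra hc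
    obtain rfl | rfl | rfl : k = 1 ∨ k = 2 ∨ k = 3 := by omega
    · exact (h.adj 0).1 p.symm
    · exact h.red 0 p.symm
    · have a0 : (u 0).1.1.card + (u 1).1.1.card = 2 := (key 0).2.1
      have a1 : (u 1).1.1.card + (u 2).1.1.card = 2 := (key 1).2.1
      have a2 : (u 2).1.1.card + (u 3).1.1.card = 2 := (key 2).2.1
      have a3 : (u 0).1.1.card ≠ (u 1).1.1.card := (key 0).2.2
      rw [p] at a2
      omega
  have := LkA_sum (fun i => (key i).1) (by positivity) hk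
  push_cast at this
  linarith

/-- vertices above a fixed vertex are determined by the type -/
theorem LkA_inj {v x y : Vx M} (hx : v ≤ x) (hy : v ≤ y) (e : x.1.1 = y.1.1) : x = y := by
  obtain ⟨g, hg⟩ := exists_vt v
  rw [hg] at hx hy
  have m : ∀ T : Finset S, g⁻¹ * g ∈ Pb M T := fun T => by
    rw [inv_mul_cancel]
    exact one_mem _
  exact (vt_of_le hx).trans ((le_antisymm ((vt_le _ _ _ _).2 ⟨e.subset, m _⟩)
    ((vt_le _ _ _ _).2 ⟨e.superset, m _⟩)).trans (vt_of_le hy).symm)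

theorem LkA_lt {v : Vx M} {k : ℕ} {u : ℕ → Vx M} (h : Cyc v k u) (e : v.1.1.card = 0) (i : ℕ) :
    v < u i :=
  (h.cmp i).2.1.resolve_left fun c => by
    have := card_lt c
    omega

theorem LkA_alt {v : Vx M} {k : ℕ} {u : ℕ → Vx M} (h : Cyc v k u) (e : v.1.1.card = 0) (i : ℕ) :
    (u i < u (i + 1) ∧ (u i).1.1.card = 1 ∧ (u (i + 1)).1.1.card = 2) ∨
      (u (i + 1) < u i ∧ (u i).1.1.card = 2 ∧ (u (i + 1)).1.1.card = 1) := by
  have l1 := LkA_le_two (u i)
  have l2 := LkA_le_two (u (i + 1))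
  have l3 := card_lt (LkA_lt h e i)
  have l4 := card_lt (LkA_lt h e (i + 1))
  refine (h.cmp i).1.imp (fun a => ⟨a, ?_⟩) fun a => ⟨a, ?_⟩ <;> have := card_lt a <;> omega

theorem LkA_quarter {w : Vx M} (e : w.1.1.card = 2) : π / 4 ≤ π / 2 - π / mT M w.1.1 := by
  have a : (4 : ℝ) ≤ mT M w.1.1 := by exact_mod_cast mT_ge w.2.1 e
  have b : π / mT M w.1.1 ≤ π / 4 := div_le_div_of_nonneg_left pi_pos.le (by norm_num) a
  linarith

theorem LkA_bot (hd : Dim2 M) {v : Vx M} {k : ℕ} {u : ℕ → Vx M} (h : Cyc v k u)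
    (e : v.1.1.card = 0) (e0 : (u 0).1.1.card = 1) :
    2 * π ≤ ∑ i ∈ Finset.range k, crn M v (u i) (u (i + 1)) := by
  classical
  have lt := LkA_lt h e
  have alt := LkA_alt h e
  by_cases h8 : 8 ≤ k
  · have q : ∀ i, π / 4 ≤ crn M v (u i) (u (i + 1)) := fun i => by
      rcases alt i with ⟨a, -, b⟩ | ⟨a, b, -⟩
      · rw [crn_bot (lt i) a]
        exact LkA_quarter b
      · rw [crn_symm, crn_bot (lt (i + 1)) a]
        exact LkA_quarter b
    have := LkA_sum q (by positivity) h8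
    push_cast at this
    linarith
  have c1 : ∀ j, (u (2 * j)).1.1.card = 1 := by
    intro j
    induction j with
    | zero => exact e0
    | succ j ih =>
      have a := alt (2 * j)
      have b := alt (2 * j + 1)
      rw [Nat.mul_succ]
      change (u (2 * j + 1 + 1)).1.1.card = 1
      omega
  have up : ∀ j, u (2 * j) < u (2 * j + 1) ∧ (u (2 * j + 1)).1.1.card = 2 := fun j => by
    have := c1 j
    rcases alt (2 * j) with ⟨a, -, b⟩ | ⟨-, b, -⟩
    · exact ⟨a, b⟩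
    · omega
  have dn : ∀ j, u (2 * (j + 1)) < u (2 * j + 1) := fun j => by
    have := (up j).2
    rcases alt (2 * j + 1) with ⟨-, b, -⟩ | ⟨a, -⟩
    · omega
    · exact a
  choose a ha using fun j => Finset.card_eq_one.1 (c1 j)
  have ne : ∀ j, a j ≠ a (j + 1) := fun j c =>
    h.red (2 * j) (LkA_inj (lt _).le (lt _).le ((ha j).trans (c ▸ (ha (j + 1)).symm)))
  have m1 : ∀ j, a j ∈ (u (2 * j + 1)).1.1 := fun j =>
    ty_mono (up j).1.le (ha j ▸ Finset.mem_singleton_self _)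
  have m2 : ∀ j, a (j + 1) ∈ (u (2 * j + 1)).1.1 := fun j =>
    ty_mono (dn j).le (ha (j + 1) ▸ Finset.mem_singleton_self _)
  have ty : ∀ j, (u (2 * j + 1)).1.1 = {a j, a (j + 1)} := fun j =>
    (Finset.eq_of_subset_of_card_le
      (Finset.insert_subset (m1 j) (Finset.singleton_subset_iff.2 (m2 j)))
      ((up j).2.trans (Finset.card_pair (ne j)).symm).le).symm
  have p := h.per 0
  have k0 := h.pos
  rw [zero_add] at p
  have pa : ∀ j, k = 2 * j → a j = a 0 := fun j c =>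
    Finset.singleton_injective (by rw [← ha j, ← c, p]; exact ha 0)
  rcases Nat.even_or_odd' k with ⟨j, hj | hj⟩
  swap
  · have := (up j).2
    rw [← hj, p] at this
    omega
  have pj := pa j hj
  obtain rfl | rfl | rfl : j = 1 ∨ j = 2 ∨ j = 3 := by omega
  · exact absurd pj.symm (ne 0)
  · refine absurd (LkA_inj (lt _).le (lt _).le ?_) (h.red 1)
    refine (ty 0).trans (Eq.trans ?_ (ty 1).symm)
    change {a 0, a 1} = ({a 1, a 2} : Finset S)
    rw [pj, Finset.pair_comm]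
  have nz : ∀ j, M (a j) (a (j + 1)) ≠ 0 := fun j => (u (2 * j + 1)).2.1.2 _ (m1 j) _ (m2 j)
  have mt : ∀ j, π / (mT M (u (2 * j + 1)).1.1 : ℝ) = π / 2 * (1 / M (a j) (a (j + 1))) :=
    fun j => by
      rw [mT_pair (LkA_le_two _) (m1 j) (m2 j) (ne j)]
      push_cast
      rw [div_mul_div_comm, mul_one]
  have s1 : ∀ j, crn M v (u (2 * j)) (u (2 * j + 1)) =
      π / 2 - π / 2 * (1 / M (a j) (a (j + 1))) := fun j => by rw [crn_bot (lt _) (up j).1, mt]
  have s2 : ∀ j, crn M v (u (2 * j + 1)) (u (2 * (j + 1))) =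
      π / 2 - π / 2 * (1 / M (a j) (a (j + 1))) := fun j => by
    rw [crn_symm, crn_bot (lt _) (dn j), mt]
  have d := hd (a 0) (a 1) (a 2) (ne 0) (ne 1) (pj ▸ ne 2) (nz 0) (nz 1) (pj ▸ nz 2)
  have d' : (1 / M (a 0) (a 1) + 1 / M (a 1) (a 2) + 1 / M (a 2) (a 3) : ℝ) ≤ 1 := by
    have := (Rat.cast_le (K := ℝ)).2 d
    push_cast at this
    rwa [pj]
  have t0 : crn M v (u 0) (u 1) = π / 2 - π / 2 * (1 / M (a 0) (a 1)) := s1 0
  have t1 : crn M v (u 1) (u 2) = π / 2 - π / 2 * (1 / M (a 0) (a 1)) := s2 0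
  have t2 : crn M v (u 2) (u 3) = π / 2 - π / 2 * (1 / M (a 1) (a 2)) := s1 1
  have t3 : crn M v (u 3) (u 4) = π / 2 - π / 2 * (1 / M (a 1) (a 2)) := s2 1
  have t4 : crn M v (u 4) (u 5) = π / 2 - π / 2 * (1 / M (a 2) (a 3)) := s1 2
  have t5 : crn M v (u 5) (u 6) = π / 2 - π / 2 * (1 / M (a 2) (a 3)) := s2 2
  have z := mul_le_mul_of_nonneg_left d' pi_pos.le
  subst hj
  simp only [Finset.sum_range_succ, Finset.sum_range_zero, Nat.reduceAdd, Nat.reduceMul, zero_add]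
  rw [t0, t1, t2, t3, t4, t5]
  linarith

theorem cyc_bot (hd : Dim2 M) {v : Vx M} {k : ℕ} {u : ℕ → Vx M} (h : Cyc v k u)
    (e : v.1.1.card = 0) : 2 * π ≤ ∑ i ∈ Finset.range k, crn M v (u i) (u (i + 1)) := by
  rcases LkA_alt h e 0 with ⟨-, a, -⟩ | ⟨-, -, a⟩
  · exact LkA_bot hd h e a
  · exact (LkA_bot hd h.shift e a).trans_eq h.sum_shift

end Pool.Agent.Work.MP_9d1ffa_al.Ar
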