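import Pool.Agent.Work.MP_9d1ffa_al.Ar.LkA
import Pool.Agent.Work.MP_9d1ffa_al.Ar.AlD

/-! The links of the vertices of rank two. -/

namespace Pool.Agent.Work.MP_9d1ffa_al.Ar

open Set Real

variable {S : Type} {M : CoxeterMatrix S}

theorem LkB_lt {v : Vx M} {k : ℕ} {u : ℕ → Vx M} (h : Cyc v k u) (e : v.1.1.card = 2) (i : ℕ) :
    u i < v := by
  refine (h.cmp i).2.1.resolve_right fun a => ?_
  have b := card_lt a
  have c := (u i).2.1.1
  omega

theorem LkB_step {v : Vx M} {k : ℕ} {u : ℕ → Vx M} (h : Cyc v k u) (e : v.1.1.card = 2) (i : ℕ) :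
    ((u i).1.1.card = 0 ∧ (u (i + 1)).1.1.card = 1 ∧ u i < u (i + 1)) ∨
      ((u i).1.1.card = 1 ∧ (u (i + 1)).1.1.card = 0 ∧ u (i + 1) < u i) := by
  have a := card_lt (LkB_lt h e i)
  have b := card_lt (LkB_lt h e (i + 1))
  refine (h.cmp i).1.imp (fun c => ?_) fun c => ?_
  · have d := card_lt c
    exact ⟨by omega, by omega, c⟩
  · have d := card_lt c
    exact ⟨by omega, by omega, c⟩

theorem LkB_par {v : Vx M} {k : ℕ} {u : ℕ → Vx M} (h : Cyc v k u) (e : v.1.1.card = 2)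
    (z : (u 0).1.1.card = 0) (i : ℕ) : (u (2 * i)).1.1.card = 0 := by
  induction i with
  | zero => exact z
  | succ i ih =>
    have a := LkB_step h e (2 * i)
    have b := LkB_step h e (2 * i + 1)
    rw [show 2 * (i + 1) = 2 * i + 1 + 1 by ring]
    omega

theorem LkB_vt {T T' : Finset S} (hT : Sph M T) {hT' : Sph M T'} {g : Art M} {w : Vx M}
    (e : w.1.1 = T) (h : vt hT' g ≤ w) : w = vt hT g := by
  subst e
  exact vt_of_le h

theorem LkB_key (ha : Alg M) {v : Vx M} {k : ℕ} {u : ℕ → Vx M} (h : Cyc v k u) {s t : S}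
    (st : s ≠ t) (e : v.1.1.card = 2) (hx : ∀ x ∈ v.1.1, x = s ∨ x = t)
    (z : (u 0).1.1.card = 0) : 4 * M s t ≤ k := by
  classical
  have p0 := LkB_par h e z
  have p1 : ∀ i, (u (2 * i + 1)).1.1.card = 1 ∧ u (2 * i) < u (2 * i + 1) ∧
      u (2 * (i + 1)) < u (2 * i + 1) := fun i => by
    have a := p0 i
    obtain ⟨-, b, c⟩ := (LkB_step h e (2 * i)).resolve_right fun d => by omega
    obtain ⟨-, -, d⟩ := (LkB_step h e (2 * i + 1)).resolve_left fun d => by omega
    exact ⟨b, c, d⟩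
  obtain ⟨j, rfl⟩ : ∃ j, k = 2 * j := by
    obtain ⟨j, hj | hj⟩ := Nat.even_or_odd' k
    · exact ⟨j, hj⟩
    · have a := h.per 0
      have b := (p1 j).1
      rw [zero_add, hj] at a
      rw [a] at b
      omega
  have q0 : ∀ i, ∃ g, u (2 * i) = vt (sph_empty M) g := fun i => by
    obtain ⟨g, hg⟩ := exists_vt (u (2 * i))
    exact ⟨g, LkB_vt _ (Finset.card_eq_zero.1 (p0 i)) hg.ge⟩
  choose g hg using q0
  have q1 : ∀ i, ∃ x, (u (2 * i + 1)).1.1 = {x} := fun i => Finset.card_eq_one.1 (p1 i).1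
  choose x hx1 using q1
  have r0 : ∀ i, u (2 * i + 1) = vt (sph_one M (x i)) (g i) := fun i =>
    LkB_vt _ (hx1 i) ((hg i).ge.trans (p1 i).2.1.le)
  have r1 : ∀ i, u (2 * i + 1) = vt (sph_one M (x i)) (g (i + 1)) := fun i =>
    LkB_vt _ (hx1 i) ((hg (i + 1)).ge.trans (p1 i).2.2.le)
  have q2 : ∀ i, ∃ a : ℤ, gn M (x i) ^ a = (g i)⁻¹ * g (i + 1) := fun i => by
    have a := (vt_eq _ _ _).1 ((r1 i).symm.trans (r0 i))
    rw [Pb_one] at a
    exact a
  choose a hq using q2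
  have a0 : ∀ i, a i ≠ 0 := fun i c => by
    have d := hq i
    rw [c, zpow_zero, eq_inv_mul_iff_mul_eq, mul_one] at d
    refine h.red (2 * i) ?_
    rw [show 2 * i + 2 = 2 * (i + 1) by ring, hg, hg, d]
  have x0 : ∀ i, x i ≠ x (i + 1) := fun i c => by
    refine h.red (2 * i + 1) ?_
    rw [show 2 * i + 1 + 2 = 2 * (i + 1) + 1 by ring]
    exact (r1 i).trans (LkB_vt _ ((hx1 (i + 1)).trans (by rw [c])) (r0 (i + 1)).ge).symm
  have x1 : ∀ i, x i = s ∨ x i = t := fun i =>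
    hx _ (ty_mono (LkB_lt h e (2 * i + 1)).le (by rw [hx1]; exact Finset.mem_singleton_self _))
  have b0 : ∀ i, two (gn M) s t (decide (x i = s)) = gn M (x i) := fun i => by
    obtain c | c := x1 i
    · simp [two, c]
    · simp [two, c, st.symm]
  have b1 : ∀ i, decide (x (i + 1) = s) = !decide (x i = s) := fun i => by
    have c := x0 i
    obtain d | d := x1 i <;> obtain f | f := x1 (i + 1)
    · exact absurd (d.trans f.symm) c
    · simp [d, f, st.symm]
    · simp [d, f, st.symm]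
    · exact absurd (d.trans f.symm) c
  have w : ∀ n i, syl (two (gn M) s t) (decide (x i = s)) ((List.range' i n).map a) =
      (g i)⁻¹ * g (i + n) := fun n => by
    induction n with
    | zero => intro i; simp [syl]
    | succ n ih =>
      intro i
      rw [List.range'_succ, List.map_cons, syl, ← b1, ih, b0, hq, add_assoc, add_comm 1 n]
      group
  have j0 : 0 < j := by have := h.pos; omega
  have g0 : (g 0)⁻¹ * g (0 + j) = 1 := by
    have c := h.per (2 * 0)
    rw [show 2 * 0 + 2 * j = 2 * (0 + j) by ring, hg, hg, vt_eq, Pb_empty] at c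
    exact c
  by_contra c
  refine ha.girth s t st (decide (x 0 = s)) ((List.range' 0 j).map a) ?_ ?_ ?_ ((w j 0).trans g0)
  · simpa using j0.ne'
  · rw [List.length_map, List.length_range']
    omega
  · intro y hy
    obtain ⟨i, -, rfl⟩ := List.mem_map.1 hy
    exact a0 i

theorem cyc_top (ha : Alg M) {v : Vx M} {k : ℕ} {u : ℕ → Vx M} (h : Cyc v k u)
    (e : v.1.1.card = 2) : 2 * π ≤ ∑ i ∈ Finset.range k, crn M v (u i) (u (i + 1)) := by
  classical
  obtain ⟨s, t, st, hT⟩ := Finset.card_eq_two.1 e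
  have hs : s ∈ v.1.1 := by simp [hT]
  have ht : t ∈ v.1.1 := by simp [hT]
  have hx : ∀ x ∈ v.1.1, x = s ∨ x = t := fun x c => by simpa [hT] using c
  have k4 : 4 * M s t ≤ k := by
    obtain ⟨a, -⟩ | ⟨-, a, -⟩ := LkB_step h e 0
    exacts [LkB_key ha h st e hx a, LkB_key ha h.shift st e hx a]
  have c : ∀ i, crn M v (u i) (u (i + 1)) = π / mT M v.1.1 := fun i => by
    obtain ⟨-, -, a⟩ | ⟨-, -, a⟩ := LkB_step h e i
    · exact crn_top a (LkB_lt h e _)
    · rw [crn_symm]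
      exact crn_top a (LkB_lt h e _)
  have m0 : (0 : ℝ) < M s t := Nat.cast_pos.2 (Nat.pos_of_ne_zero (v.2.1.2 s hs t ht))
  have k5 : (4 : ℝ) * M s t ≤ k := by exact_mod_cast k4
  rw [Finset.sum_congr rfl fun i _ => c i, Finset.sum_const, Finset.card_range, nsmul_eq_mul,
    mT_pair e.le hs ht st, ← mul_div_assoc, le_div_iff₀ (by push_cast; positivity)]
  push_cast
  nlinarith [pi_pos]

theorem cyc_all (ha : Alg M) (hd : Dim2 M) {v : Vx M} {k : ℕ} {u : ℕ → Vx M} (h : Cyc v k u) :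
    2 * π ≤ ∑ i ∈ Finset.range k, crn M v (u i) (u (i + 1)) := by
  have := v.2.1.1
  obtain e | e | e : v.1.1.card = 0 ∨ v.1.1.card = 1 ∨ v.1.1.card = 2 := by omega
  exacts [cyc_bot hd h e, cyc_mid h e, cyc_top ha h e]

end Pool.Agent.Work.MP_9d1ffa_al.Ar
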